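import Pool.Agent.H809_TA.Plane

/-!
Orderings of the plane from a starter-like map `θ` and a function `E`.
-/

set_option autoImplicit false

namespace Pool.Agent.H809_TA

open Function

theorem pl_of_theta {K : Type} [Field K] [Finite K] (h2 : (2 : K) ≠ 0) (θ E : K → K)
    (t0 : θ 0 = 0) (t1 : Injective θ) (t2 : Injective fun x => θ x - x)
    (e1 : ∀ x y, x ≠ 0 → y ≠ 0 → E x = E y → x = y)
    (e2 : ∀ x, x ≠ 0 → E (θ x) + (θ x) ^ 2 = E x + x ^ 2) : Pl K := by
  refine pl_of_frame (fun a p => p + θ (a - p)) (fun p a => (E (a - p) + (a - p) ^ 2 - p ^ 2) / 2)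
    ?_ ?_ ?_ ?_ ?_
  · intro a p p' h
    have h' : θ (a - p) - (a - p) = θ (a - p') - (a - p') := by
      have h : p + θ (a - p) = p' + θ (a - p') := h
      linear_combination h
    have := t2 h'
    linear_combination -this
  · intro p a a' h
    have h : p + θ (a - p) = p + θ (a' - p) := h
    have := t1 (add_left_cancel h)
    linear_combination this
  · intro a
    simp [t0]
  · intro p a hap
    have h1 : p + θ (a - p) - p = θ (a - p) := by ring
    show (E (p + θ (a - p) - p) + (p + θ (a - p) - p) ^ 2 - p ^ 2) / 2 = _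
    rw [h1, e2 (a - p) (sub_ne_zero.2 hap)]
  · intro a p p' hp hp' h
    have h3 : E (a - p) = E (a - p') := by
      have h : p * a + (E (a - p) + (a - p) ^ 2 - p ^ 2) / 2
        = p' * a + (E (a - p') + (a - p') ^ 2 - p' ^ 2) / 2 := h
      field_simp at h
      linear_combination h
    have := e1 _ _ (sub_ne_zero.2 (Ne.symm hp)) (sub_ne_zero.2 (Ne.symm hp')) h3
    linear_combination -this

/-- A half system invariant under an element of odd order. -/
theorem exists_half {K : Type} [Field K] [Finite K] (h2 : (2 : K) ≠ 0) (δ : Kˣ)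
    (hδ : Odd (orderOf δ)) :
    ∃ H : K → Prop, (∀ x, x ≠ 0 → (H (-x) ↔ ¬ H x)) ∧ ∀ x, H ((δ : K) * x) ↔ H x := by
  classical
  have hfin : Finite (Kˣ ⧸ Subgroup.zpowers δ) := inferInstance
  obtain ⟨n, ⟨e⟩⟩ := Finite.exists_equiv_fin (Kˣ ⧸ Subgroup.zpowers δ)
  let m : Kˣ → Fin n := fun x => e (QuotientGroup.mk x)
  have m1 : ∀ x, m (δ * x) = m x := by
    intro x
    show e _ = e _
    congr 1
    rw [QuotientGroup.eq]
    rw [mul_inv_rev, mul_assoc, mul_comm, mul_assoc, mul_inv_cancel, mul_one]
    exact Subgroup.inv_mem _ (Subgroup.mem_zpowers δ)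
  have m2 : ∀ x, m (-x) ≠ m x := by
    intro x h
    have h' := e.injective h
    rw [QuotientGroup.eq] at h'
    have h3 : (-x)⁻¹ * x = (-1 : Kˣ) := by
      rw [inv_neg, neg_mul, inv_mul_cancel]
    rw [h3] at h'
    have h4 : orderOf (-1 : Kˣ) ∣ orderOf δ := by
      have := Subgroup.orderOf_dvd_natCard (Subgroup.zpowers δ) h'
      rwa [Nat.card_zpowers] at this
    have h5 : orderOf (-1 : Kˣ) = 2 := by
      rw [orderOf_eq_prime_iff]
      constructor
      · rw [neg_one_sq]
      · intro h
        have := congrArg (fun u : Kˣ => (u : K)) h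
        simp only [Units.val_neg, Units.val_one] at this
        apply h2
        linear_combination -this
    rw [h5] at h4
    rcases hδ with ⟨k, hk⟩
    omega
  refine ⟨fun x => ∃ h : x ≠ 0, m (Units.mk0 x h) < m (-Units.mk0 x h), ?_, ?_⟩
  · intro x hx
    have hx' : -x ≠ 0 := neg_ne_zero.2 hx
    have h1 : Units.mk0 (-x) hx' = - Units.mk0 x hx := by
      ext
      simp
    constructor
    · rintro ⟨h, h'⟩ ⟨g, g'⟩
      rw [h1, neg_neg] at h'
      exact lt_asymm h' g'
    · intro h
      refine ⟨hx', ?_⟩
      rw [h1, neg_neg]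
      rcases lt_trichotomy (m (Units.mk0 x hx)) (m (-Units.mk0 x hx)) with h3 | h3 | h3
      · exact absurd ⟨hx, h3⟩ h
      · exact absurd h3.symm (m2 _)
      · exact h3
  · intro x
    constructor
    · rintro ⟨h, h'⟩
      have hx : x ≠ 0 := right_ne_zero_of_mul h
      refine ⟨hx, ?_⟩
      have h1 : Units.mk0 ((δ : K) * x) h = δ * Units.mk0 x hx := by
        ext
        simp
      rw [h1, ← mul_neg, m1, m1] at h'
      exact h'
    · rintro ⟨hx, h'⟩
      refine ⟨mul_ne_zero δ.ne_zero hx, ?_⟩
      have h1 : Units.mk0 ((δ : K) * x) (mul_ne_zero δ.ne_zero hx) = δ * Units.mk0 x hx := by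
        ext
        simp
      rw [h1, ← mul_neg, m1, m1]
      exact h'

/-- Odd order with an element of odd order at least three. -/
theorem pl_of_odd_order {K : Type} [Field K] [Finite K] (h2 : (2 : K) ≠ 0) (δ : Kˣ)
    (hδ : Odd (orderOf δ)) (hδ1 : δ ≠ 1) : Pl K := by
  classical
  obtain ⟨H, H1, H2⟩ := exists_half h2 δ hδ
  have d0 : (δ : K) ≠ 0 := δ.ne_zero
  have d1 : (δ : K) ≠ 1 := fun h => hδ1 (Units.ext h)
  have dm : (δ : K) ≠ -1 := by
    intro h
    have h3 : δ ^ 2 = 1 := by
      ext
      push_cast
      rw [h]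
      ring
    have h4 := orderOf_dvd_of_pow_eq_one h3
    rcases hδ with ⟨k, hk⟩
    have h5 : orderOf δ ≤ 2 := Nat.le_of_dvd (by norm_num) h4
    have h6 : orderOf δ = 1 := by omega
    exact hδ1 (orderOf_eq_one_iff.1 h6)
  have dd : (δ : K) + 1 ≠ 0 := fun h => dm (by linear_combination h)
  have dsq : (δ : K) ^ 2 ≠ 1 := by
    intro h
    have : ((δ : K) - 1) * ((δ : K) + 1) = 0 := by linear_combination h
    rcases mul_eq_zero.1 this with h | h
    · exact d1 (by linear_combination h)
    · exact dd h
  obtain ⟨ν, hν⟩ : ∃ ν : K, ¬ IsSquare ν := by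
    apply FiniteField.exists_nonsquare
    intro h
    apply h2
    have := ringChar.Nat.cast_ringChar (R := K)
    rw [h] at this
    exact_mod_cast this
  have hν1 : ν - 1 ≠ 0 := by
    intro h
    apply hν
    have : ν = 1 := by linear_combination h
    rw [this]
    exact IsSquare.one
  have Hi : ∀ x, H ((δ : K)⁻¹ * x) ↔ H x := by
    intro x
    rw [← H2 ((δ : K)⁻¹ * x), mul_inv_cancel_left₀ d0]
  -- nonzero elements split
  let l : K := 1 + (1 - (δ : K) ^ 2) / (ν - 1)
  have hl : (l - 1) * (ν - 1) = 1 - (δ : K) ^ 2 := by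
    simp only [l]
    field_simp
    ring
  have hl1 : l - 1 ≠ 0 := by
    intro h
    rw [h, zero_mul] at hl
    exact dsq (by linear_combination hl)
  have hl2 : (l - (δ : K) ^ 2) * (ν - 1) = (1 - (δ : K) ^ 2) * ν := by
    linear_combination hl
  let θ : K → K := fun x => if x = 0 then 0 else if H x then -((δ : K) * x)
    else -((δ : K)⁻¹ * x)
  let E : K → K := fun x => if H x then (l - 1) * x ^ 2
    else (l - (δ : K) ^ 2) * ((δ : K)⁻¹ * x) ^ 2
  have th0 : θ 0 = 0 := by simp [θ]
  have th1 : ∀ x, x ≠ 0 → H x → θ x = -((δ : K) * x) := by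
    intro x hx h
    simp only [θ]
    rw [if_neg hx, if_pos h]
  have th2 : ∀ x, x ≠ 0 → ¬ H x → θ x = -((δ : K)⁻¹ * x) := by
    intro x hx h
    simp only [θ]
    rw [if_neg hx, if_neg h]
  have E1 : ∀ x, H x → E x = (l - 1) * x ^ 2 := by
    intro x h
    simp only [E]
    rw [if_pos h]
  have E2 : ∀ x, ¬ H x → E x = (l - (δ : K) ^ 2) * ((δ : K)⁻¹ * x) ^ 2 := by
    intro x h
    simp only [E]
    rw [if_neg h]
  have th1' : ∀ x, x ≠ 0 → H x → ¬ H (θ x) := by
    intro x hx h
    rw [th1 x hx h]
    have := H1 ((δ : K) * x) (mul_ne_zero d0 hx)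
    rw [this, H2, not_not]
    exact h
  have th2' : ∀ x, x ≠ 0 → ¬ H x → H (θ x) := by
    intro x hx h
    rw [th2 x hx h]
    have := H1 ((δ : K)⁻¹ * x) (mul_ne_zero (inv_ne_zero d0) hx)
    rw [this, Hi]
    exact h
  have thn : ∀ x, x ≠ 0 → θ x ≠ 0 := by
    intro x hx
    by_cases h : H x
    · rw [th1 x hx h]
      exact neg_ne_zero.2 (mul_ne_zero d0 hx)
    · rw [th2 x hx h]
      exact neg_ne_zero.2 (mul_ne_zero (inv_ne_zero d0) hx)
  -- the difference map
  have df0 : θ 0 - 0 = 0 := by rw [th0]; ring
  have df1 : ∀ x, x ≠ 0 → H x → θ x - x = -(((δ : K) + 1) * x) := by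
    intro x hx h
    rw [th1 x hx h]
    ring
  have df2 : ∀ x, x ≠ 0 → ¬ H x → θ x - x = -(((δ : K) + 1) * ((δ : K)⁻¹ * x)) := by
    intro x hx h
    rw [th2 x hx h]
    field_simp
    ring
  refine pl_of_theta h2 θ E th0 ?_ ?_ ?_ ?_
  · intro x y h
    by_cases hx : x = 0
    · by_cases hy : y = 0
      · rw [hx, hy]
      · exfalso
        rw [hx, th0] at h
        exact thn y hy h.symm
    · by_cases hy : y = 0
      · exfalso
        rw [hy, th0] at h
        exact thn x hx h
      · by_cases hHx : H x <;> by_cases hHy : H y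
        · rw [th1 x hx hHx, th1 y hy hHy] at h
          exact mul_left_cancel₀ d0 (neg_injective h)
        · exfalso
          apply th1' x hx hHx
          rw [h]
          exact th2' y hy hHy
        · exfalso
          apply th1' y hy hHy
          rw [← h]
          exact th2' x hx hHx
        · rw [th2 x hx hHx, th2 y hy hHy] at h
          exact mul_left_cancel₀ (inv_ne_zero d0) (neg_injective h)
  · intro x y h
    have h : θ x - x = θ y - y := h
    by_cases hx : x = 0
    · by_cases hy : y = 0
      · rw [hx, hy]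
      · exfalso
        rw [hx, df0] at h
        by_cases hHy : H y
        · rw [df1 y hy hHy] at h
          exact neg_ne_zero.2 (mul_ne_zero dd hy) h.symm
        · rw [df2 y hy hHy] at h
          exact neg_ne_zero.2 (mul_ne_zero dd (mul_ne_zero (inv_ne_zero d0) hy)) h.symm
    · by_cases hy : y = 0
      · exfalso
        rw [hy, df0] at h
        by_cases hHx : H x
        · rw [df1 x hx hHx] at h
          exact neg_ne_zero.2 (mul_ne_zero dd hx) h
        · rw [df2 x hx hHx] at h
          exact neg_ne_zero.2 (mul_ne_zero dd (mul_ne_zero (inv_ne_zero d0) hx)) h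
      · by_cases hHx : H x <;> by_cases hHy : H y
        · rw [df1 x hx hHx, df1 y hy hHy] at h
          exact mul_left_cancel₀ dd (neg_injective h)
        · exfalso
          rw [df1 x hx hHx, df2 y hy hHy] at h
          have h3 := mul_left_cancel₀ dd (neg_injective h)
          apply hHy
          rw [← Hi y, ← h3]
          exact hHx
        · exfalso
          rw [df2 x hx hHx, df1 y hy hHy] at h
          have h3 := mul_left_cancel₀ dd (neg_injective h)
          apply hHx
          rw [← Hi x, h3]
          exact hHy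
        · rw [df2 x hx hHx, df2 y hy hHy] at h
          exact mul_left_cancel₀ (inv_ne_zero d0) (mul_left_cancel₀ dd (neg_injective h))
  · -- squares
    have sq : ∀ x y : K, x ≠ 0 → x ^ 2 = y ^ 2 → (H x ↔ H y) → x = y := by
      intro x y hx h hH
      rcases sq_eq_sq_iff_eq_or_eq_neg.1 h with h | h
      · exact h
      · exfalso
        have hy : y ≠ 0 := by
          rintro rfl
          apply hx
          rw [h]
          ring
        rw [h] at hH
        have := H1 y hy
        tauto
    have hl3 : l - (δ : K) ^ 2 ≠ 0 := by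
      intro h
      rw [h, zero_mul] at hl2
      rcases mul_eq_zero.1 hl2.symm with h | h
      · exact dsq (by linear_combination -h)
      · apply hν
        rw [h]
        exact IsSquare.zero
    have cross : ∀ x y : K, x ≠ 0 → y ≠ 0 →
        (l - 1) * x ^ 2 = (l - (δ : K) ^ 2) * ((δ : K)⁻¹ * y) ^ 2 → False := by
      intro x y hx hy h
      apply hν
      have hz : (δ : K)⁻¹ * y ≠ 0 := mul_ne_zero (inv_ne_zero d0) hy
      refine ⟨x / ((δ : K)⁻¹ * y), ?_⟩
      have h1 : (1 - (δ : K) ^ 2) ≠ 0 := fun h => dsq (by linear_combination -h)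
      have h3 : (1 - (δ : K) ^ 2) * x ^ 2 = (1 - (δ : K) ^ 2) * (ν * ((δ : K)⁻¹ * y) ^ 2) := by
        linear_combination (ν - 1) * h - x ^ 2 * hl + ((δ : K)⁻¹ * y) ^ 2 * hl2
      have h4 := mul_left_cancel₀ h1 h3
      have h5 : x / ((δ : K)⁻¹ * y) * (x / ((δ : K)⁻¹ * y))
          = x ^ 2 / ((δ : K)⁻¹ * y) ^ 2 := by
        rw [div_mul_div_comm, pow_two, pow_two]
      rw [h5, h4, mul_div_assoc, div_self (pow_ne_zero 2 hz), mul_one]
    intro x y hx hy h
    by_cases hHx : H x <;> by_cases hHy : H y
    · rw [E1 x hHx, E1 y hHy] at h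
      exact sq x y hx (mul_left_cancel₀ hl1 h) (by tauto)
    · exfalso
      rw [E1 x hHx, E2 y hHy] at h
      exact cross x y hx hy h
    · exfalso
      rw [E2 x hHx, E1 y hHy] at h
      exact cross y x hy hx h.symm
    · rw [E2 x hHx, E2 y hHy] at h
      have h3 := mul_left_cancel₀ hl3 h
      have h4 := sq _ _ (mul_ne_zero (inv_ne_zero d0) hx) h3 (by rw [Hi, Hi]; tauto)
      exact mul_left_cancel₀ (inv_ne_zero d0) h4
  · intro x hx
    by_cases h : H x
    · rw [E1 x h, E2 _ (th1' x hx h), th1 x hx h]
      have : (δ : K)⁻¹ * -((δ : K) * x) = -x := by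
        field_simp
      rw [this]
      ring
    · rw [E2 x h, E1 _ (th2' x hx h), th2 x hx h]
      have : (δ : K) * ((δ : K)⁻¹ * x) = x := mul_inv_cancel_left₀ d0 x
      linear_combination (x + (δ : K) * ((δ : K)⁻¹ * x)) * this

/-- Characteristic two. -/
theorem pl_of_char_two {K : Type} [Field K] [Finite K] (h2 : (2 : K) = 0) (d : Kˣ)
    (hd : Nat.Coprime 3 (orderOf d)) (hd1 : d ≠ 1) : Pl K := by
  classical
  have hinj : ∀ x y : K, x ^ 2 = y ^ 2 → x = y := by
    intro x y h
    have h3 : (x - y) ^ 2 = 0 := by linear_combination h + (y ^ 2 - x * y) * h2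
    exact sub_eq_zero.1 (pow_eq_zero_iff (two_ne_zero) |>.1 h3)
  have d0 : (d : K) ≠ 0 := d.ne_zero
  have d1 : (d : K) ≠ 1 := fun h => hd1 (Units.ext h)
  let M : K → Prop := fun w => w ≠ 1 ∧ ∃ u ∈ Subgroup.zpowers d, (u : K) = w
  have Minv : ∀ w, M w → M w⁻¹ := by
    rintro w ⟨h1, u, hu, hw⟩
    refine ⟨?_, u⁻¹, Subgroup.inv_mem _ hu, ?_⟩
    · intro h
      apply h1
      rw [← inv_inv w, h, inv_one]
    · rw [Units.val_inv_eq_inv_val, hw]
  have Minv' : ∀ w, M w⁻¹ ↔ M w := by
    intro w
    constructor
    · intro h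
      have := Minv _ h
      rwa [inv_inv] at this
    · exact Minv w
  have Md : M d := ⟨d1, d, Subgroup.mem_zpowers d, rfl⟩
  have M0 : ∀ w, M w → w ≠ 0 := by
    rintro w ⟨h1, u, hu, hw⟩
    rw [← hw]
    exact u.ne_zero
  let k : K → K := fun w => if M w then w + w⁻¹ else 0
  have kinv : ∀ w, k w⁻¹ = k w := by
    intro w
    simp only [k]
    by_cases h : M w
    · rw [if_pos h, if_pos (Minv w h), inv_inv, add_comm]
    · rw [if_neg h, if_neg (by rwa [Minv'])]
  let κ1 : K → K := fun r => if r = 0 then k d else k r
  let L : K → K → K := fun a p => if p = 0 then (d : K) ^ 2 * a else if a = 0 then d * p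
    else if d * a = p then 0 else p ^ 2 / a
  let κ : K → K → K := fun p a => p ^ 2 * κ1 (a / p)
  have L_p0 : ∀ a : K, L a 0 = (d : K) ^ 2 * a := by
    intro a
    exact if_pos rfl
  have L_a0 : ∀ p : K, L 0 p = (d : K) * p := by
    intro p
    by_cases h : p = 0
    · rw [h, L_p0]; ring
    · exact (if_neg h).trans (if_pos rfl)
  have L_d : ∀ a p : K, p ≠ 0 → (d : K) * a = p → L a p = 0 := by
    intro a p h h'
    have ha : a ≠ 0 := by
      rintro rfl
      apply h
      rw [← h', mul_zero]
    simp only [L]
    rw [if_neg h, if_neg ha, if_pos h']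
  have L_g : ∀ a p : K, p ≠ 0 → a ≠ 0 → (d : K) * a ≠ p → L a p = p ^ 2 / a := by
    intro a p h h' h''
    simp only [L]
    rw [if_neg h, if_neg h', if_neg h'']
  have κ_p0 : ∀ a, κ 0 a = 0 := by
    intro a
    simp [κ]
  have κ10 : κ1 0 = k d := if_pos rfl
  have κ1n : ∀ r, r ≠ 0 → κ1 r = k r := fun r h => if_neg h
  refine pl_of_frame L κ ?_ ?_ ?_ ?_ ?_
  · intro a p p' h
    by_cases ha : a = 0
    · subst ha
      rw [L_a0, L_a0] at h
      exact mul_left_cancel₀ d0 h
    · have hd2 : (d : K) ^ 2 * a ≠ 0 := mul_ne_zero (pow_ne_zero 2 d0) ha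
      by_cases hp : p = 0
      · subst hp
        rw [L_p0] at h
        by_cases hp' : p' = 0
        · exact hp'.symm
        · exfalso
          by_cases hq : d * a = p'
          · rw [L_d a p' hp' hq] at h
            exact hd2 h
          · rw [L_g a p' hp' ha hq, eq_div_iff ha] at h
            apply hq
            apply hinj
            rw [← h]
            ring
      · by_cases hp' : p' = 0
        · subst hp'
          rw [L_p0] at h
          exfalso
          by_cases hq : d * a = p
          · rw [L_d a p hp hq] at h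
            exact hd2 h.symm
          · rw [L_g a p hp ha hq, div_eq_iff ha] at h
            apply hq
            apply hinj
            rw [h]
            ring
        · by_cases hq : d * a = p <;> by_cases hq' : d * a = p'
          · rw [← hq, ← hq']
          · exfalso
            rw [L_d a p hp hq, L_g a p' hp' ha hq'] at h
            exact div_ne_zero (pow_ne_zero 2 hp') ha h.symm
          · exfalso
            rw [L_d a p' hp' hq', L_g a p hp ha hq] at h
            exact div_ne_zero (pow_ne_zero 2 hp) ha h
          · rw [L_g a p' hp' ha hq', L_g a p hp ha hq] at h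
            rw [div_left_inj' ha] at h
            exact hinj _ _ h
  · intro p a a' h
    have h : L a p = L a' p := h
    by_cases hp : p = 0
    · subst hp
      rw [L_p0, L_p0] at h
      exact mul_left_cancel₀ (pow_ne_zero 2 d0) h
    · have hdp : (d : K) * p ≠ 0 := mul_ne_zero d0 hp
      by_cases ha : a = 0
      · subst ha
        by_cases ha' : a' = 0
        · exact ha'.symm
        · exfalso
          rw [L_a0] at h
          by_cases hq : d * a' = p
          · rw [L_d a' p hp hq] at h
            exact hdp h
          · rw [L_g a' p hp ha' hq, eq_div_iff ha'] at h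
            apply hq
            apply mul_left_cancel₀ hp
            rw [← sq, ← h]
            ring
      · by_cases ha' : a' = 0
        · subst ha'
          exfalso
          rw [L_a0] at h
          by_cases hq : d * a = p
          · rw [L_d a p hp hq] at h
            exact hdp h.symm
          · rw [L_g a p hp ha hq, div_eq_iff ha] at h
            apply hq
            apply mul_left_cancel₀ hp
            rw [← sq, h]
            ring
        · by_cases hq : d * a = p <;> by_cases hq' : d * a' = p
          · rw [← hq'] at hq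
            exact mul_left_cancel₀ d0 hq
          · exfalso
            rw [L_d a p hp hq, L_g a' p hp ha' hq'] at h
            exact div_ne_zero (pow_ne_zero 2 hp) ha' h.symm
          · exfalso
            rw [L_d a' p hp hq', L_g a p hp ha hq] at h
            exact div_ne_zero (pow_ne_zero 2 hp) ha h
          · rw [L_g a' p hp ha' hq', L_g a p hp ha hq] at h
            rw [div_eq_div_iff ha ha'] at h
            exact (mul_left_cancel₀ (pow_ne_zero 2 hp) h).symm
  · intro a
    by_cases ha : a = 0
    · subst ha
      rw [L_a0, mul_zero]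
    · have : (d : K) * a ≠ a := by
        intro h
        apply d1
        apply mul_right_cancel₀ ha
        rw [h, one_mul]
      rw [L_g a a ha ha this, sq, mul_div_assoc, div_self ha, mul_one]
  · intro p a hap
    by_cases hp : p = 0
    · subst hp
      rw [κ_p0, κ_p0]
    · simp only [κ]
      congr 1
      by_cases ha : a = 0
      · subst ha
        rw [L_a0, mul_div_assoc, div_self hp, mul_one, zero_div, κ10, κ1n _ d0]
      · have hap' : a / p ≠ 0 := div_ne_zero ha hp
        by_cases hq : d * a = p
        · rw [L_d a p hp hq, zero_div, κ10, κ1n _ hap', ← kinv (a / p)]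
          congr 1
          rw [inv_div, ← hq, mul_div_assoc, div_self ha, mul_one]
        · rw [L_g a p hp ha hq]
          have h1 : p ^ 2 / a / p = (a / p)⁻¹ := by
            field_simp
          rw [h1, κ1n _ hap', κ1n _ (inv_ne_zero hap'), kinv]
  · intro a p p' hp hp' h
    by_cases ha : a = 0
    · subst ha
      have hkd : k d ≠ 0 := by
        simp only [k]
        rw [if_pos Md]
        intro h
        apply d1
        apply hinj
        field_simp at h
        linear_combination h - h2
      simp only [κ, κ1, zero_div, mul_zero, zero_add, if_true] at h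
      exact hinj _ _ (mul_right_cancel₀ hkd h)
    · let F : K → K := fun w => if M w then w ^ 3 else w
      have hF : ∀ p, p * a + κ p a = a ^ 2 * F (p / a) := by
        intro p
        by_cases hp : p = 0
        · subst hp
          rw [κ_p0, zero_div]
          have : ¬ M 0 := fun h => M0 0 h rfl
          simp only [F]
          rw [if_neg this]
          ring
        · have hap' : a / p ≠ 0 := div_ne_zero ha hp
          simp only [κ, κ1, F]
          rw [if_neg hap', ← kinv, inv_div]
          simp only [k]
          by_cases hM : M (p / a)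
          · rw [if_pos hM, if_pos hM]
            field_simp
            linear_combination (a ^ 2) * h2
          · rw [if_neg hM, if_neg hM]
            field_simp
            ring
      rw [hF, hF] at h
      have h4 : F (p / a) = F (p' / a) := mul_left_cancel₀ (pow_ne_zero 2 ha) h
      have hF1 : ∀ w, M w → M (w ^ 3) := by
        rintro w ⟨h1, u, hu, hw⟩
        refine ⟨?_, u ^ 3, Subgroup.pow_mem _ hu 3, ?_⟩
        · intro h3
          apply h1
          have h5 : u ^ 3 = 1 := by
            ext
            push_cast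
            rw [hw, h3]
          have h6 : orderOf u ∣ 3 := orderOf_dvd_of_pow_eq_one h5
          have h7 : orderOf u ∣ orderOf d := by
            have := Subgroup.orderOf_dvd_natCard (Subgroup.zpowers d) hu
            rwa [Nat.card_zpowers] at this
          have h8 : orderOf u ∣ 1 := by
            rw [← hd]
            exact Nat.dvd_gcd h6 h7
          have h9 := orderOf_eq_one_iff.1 (Nat.dvd_one.1 h8)
          rw [← hw, h9, Units.val_one]
        · push_cast
          rw [hw]
      have hFinj : ∀ w w', w ≠ 1 → w' ≠ 1 → F w = F w' → w = w' := by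
        intro w w' hw hw' h
        simp only [F] at h
        by_cases h1 : M w <;> by_cases h1' : M w'
        · rw [if_pos h1, if_pos h1'] at h
          obtain ⟨h3, u, hu, huw⟩ := h1
          obtain ⟨h3', u', hu', huw'⟩ := h1'
          have h5 : (u * u'⁻¹) ^ 3 = 1 := by
            rw [mul_pow, inv_pow, mul_inv_eq_one]
            ext
            push_cast
            rw [huw, huw', h]
          have h6 : orderOf (u * u'⁻¹) ∣ 3 := orderOf_dvd_of_pow_eq_one h5
          have h7 : orderOf (u * u'⁻¹) ∣ orderOf d := by
            have := Subgroup.orderOf_dvd_natCard (Subgroup.zpowers d)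
              (Subgroup.mul_mem _ hu (Subgroup.inv_mem _ hu'))
            rwa [Nat.card_zpowers] at this
          have h8 : orderOf (u * u'⁻¹) ∣ 1 := by
            rw [← hd]
            exact Nat.dvd_gcd h6 h7
          have h9 := orderOf_eq_one_iff.1 (Nat.dvd_one.1 h8)
          rw [mul_inv_eq_one] at h9
          rw [← huw, ← huw', h9]
        · exfalso
          rw [if_pos h1, if_neg h1'] at h
          apply h1'
          rw [← h]
          exact hF1 w h1
        · exfalso
          rw [if_neg h1, if_pos h1'] at h
          apply h1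
          rw [h]
          exact hF1 w' h1'
        · rw [if_neg h1, if_neg h1'] at h
          exact h
      have hw : ∀ p, p ≠ a → p / a ≠ 1 := by
        intro p hp h
        exact hp ((div_eq_one_iff_eq ha).1 h)
      have h5 := hFinj _ _ (hw p hp) (hw p' hp') h4
      exact (div_left_inj' ha).1 h5

end Pool.Agent.H809_TA
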