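import Mathlib

/-!
Symmetric designs of affine type (the designs of Wallis and of Spence).
-/

set_option autoImplicit false

namespace Pool.Agent.H809_TA

/-- The elements `x` are divided into groups by `grp`, and every `x` has levels `lev x h`. On the
group `g` the factors `h` form an orthogonal array of strength two and index `μ`: two different
factors take every pair of levels exactly `μ` times. All factors `h` are used if `s` holds, and
only the factors `h ≠ g` otherwise. -/
def Balanced {X ι C : Type} (s : Prop) (grp : X → ι) (lev : X → ι → C) (μ : ℕ) : Prop :=
  ∀ g h h' : ι, h ≠ h' → (s ∨ (h ≠ g ∧ h' ≠ g)) → ∀ c c' : C,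
    Nat.card {x // grp x = g ∧ lev x h = c ∧ lev x h' = c'} = μ

/-- The design with points `P`, blocks `Q` and incidence relation `mem` is of affine type. Its
points and its blocks are divided into at least four groups, with the same index set `ι`. A point
`p` and a block `b` of different groups are incident when the level of `p` for the group of `b`
equals the level of `b` for the group of `p`. A point and a block of the same group are either
never incident (`s` false, the designs of Wallis), or incident when these levels differ (`s` true,
the designs of Spence). -/
def IsAffineType {P Q : Type} (mem : P → Q → Prop) : Prop :=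
  ∃ (s : Prop) (ι C : Type) (_ : Fintype ι) (_ : Fintype C) (gP : P → ι) (gQ : Q → ι)
    (lP : P → ι → C) (lQ : Q → ι → C) (μ : ℕ),
    4 ≤ Fintype.card ι ∧ Balanced s gP lP μ ∧ Balanced s gQ lQ μ ∧
    ∀ p b, mem p b ↔ (gP p ≠ gQ b ∧ lP p (gQ b) = lQ b (gP p)) ∨
      (s ∧ gP p = gQ b ∧ lP p (gQ b) ≠ lQ b (gP p))

end Pool.Agent.H809_TA
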