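import Mathlib

/-!
Loops in which every element is its own inverse, on every set with at least four elements.
-/

set_option autoImplicit false

namespace Pool.Agent.H809_TA

open Function

/-- an idempotent quasigroup -/
structure IsIdem {X : Type} (Q : X → X → X) : Prop where
  row : ∀ x, Injective (Q x)
  col : ∀ y, Injective (fun x => Q x y)
  idem : ∀ x, Q x x = x

/-- a loop with identity `e` in which every element is its own inverse -/
structure IsLoop {X : Type} (e : X) (G : X → X → X) : Prop where
  row : ∀ x, Injective (G x)
  col : ∀ y, Injective (fun x => G x y)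
  left : ∀ y, G e y = y
  right : ∀ x, G x e = x
  diag : ∀ x, G x x = e

theorem exists_idem_odd (n : ℕ) (hn : Odd n) :
    ∃ Q : ZMod n → ZMod n → ZMod n, IsIdem Q ∧ ∀ x y, 2 * Q x y = x + y := by
  have h2 : IsUnit (2 : ZMod n) := by
    have h := (ZMod.unitOfCoprime 2 ((Nat.coprime_two_left).2 hn)).isUnit
    rw [ZMod.coe_unitOfCoprime] at h
    exact_mod_cast h
  obtain ⟨u, hu⟩ := h2
  have hu' : (2 : ZMod n) * ((u⁻¹ : (ZMod n)ˣ) : ZMod n) = 1 := by
    rw [← hu]
    exact u.mul_inv
  have huu : ∀ x y : ZMod n, ((u⁻¹ : (ZMod n)ˣ) : ZMod n) * x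
      = ((u⁻¹ : (ZMod n)ˣ) : ZMod n) * y → x = y := by
    intro x y h
    have h3 := congrArg (fun z => (2 : ZMod n) * z) h
    simp only [← mul_assoc, hu', one_mul] at h3
    exact h3
  refine ⟨fun x y => ((u⁻¹ : (ZMod n)ˣ) : ZMod n) * (x + y), ⟨?_, ?_, ?_⟩, ?_⟩
  · intro x y y' h
    exact add_left_cancel (huu _ _ h)
  · intro y x x' h
    exact add_right_cancel (huu _ _ h)
  · intro x
    show ((u⁻¹ : (ZMod n)ˣ) : ZMod n) * (x + x) = x
    linear_combination x * hu'
  · intro x y
    show 2 * (((u⁻¹ : (ZMod n)ˣ) : ZMod n) * (x + y)) = x + y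
    linear_combination (x + y) * hu'

theorem exists_idem_even (n : ℕ) (hn : Odd n) (h3 : 3 ≤ n) :
    ∃ Q : Option (ZMod n) → Option (ZMod n) → Option (ZMod n), IsIdem Q := by
  classical
  obtain ⟨q, hq, hq2⟩ := exists_idem_odd n hn
  have hne : NeZero n := ⟨by omega⟩
  have hu : IsUnit (2 : ZMod n) := by
    have h := (ZMod.unitOfCoprime 2 ((Nat.coprime_two_left).2 hn)).isUnit
    rw [ZMod.coe_unitOfCoprime] at h
    exact_mod_cast h
  have h1 : (1 : ZMod n) ≠ 0 := by
    have : Fact (1 < n) := ⟨by omega⟩
    exact one_ne_zero
  let Q : Option (ZMod n) → Option (ZMod n) → Option (ZMod n) := fun x y =>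
    match x, y with
    | some x, some y => if y = x + 1 then none else some (q x y)
    | some x, none => some (q x (x + 1))
    | none, some y => some (q (y - 1) y)
    | none, none => none
  have Q1 : ∀ x y, y = x + 1 → Q (some x) (some y) = none := fun x y h => if_pos h
  have Q2 : ∀ x y, y ≠ x + 1 → Q (some x) (some y) = some (q x y) := fun x y h => if_neg h
  have Q3 : ∀ x, Q (some x) none = some (q x (x + 1)) := fun _ => rfl
  have Q4 : ∀ y, Q none (some y) = some (q (y - 1) y) := fun _ => rfl
  have Q5 : Q none none = none := rfl
  refine ⟨Q, ?_, ?_, ?_⟩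
  · rintro (_ | x) (_ | y) (_ | y') h
    · rfl
    · rw [Q5, Q4] at h
      exact absurd h (by simp)
    · rw [Q5, Q4] at h
      exact absurd h (by simp)
    · rw [Q4, Q4] at h
      have h := Option.some_injective _ h
      have e1 := hq2 (y - 1) y
      have e2 := hq2 (y' - 1) y'
      rw [h, e2] at e1
      rw [hu.mul_left_cancel (by linear_combination -e1 : (2 : ZMod n) * y = 2 * y')]
    · rfl
    · by_cases h' : y' = x + 1
      · rw [Q3, Q1 _ _ h'] at h
        exact absurd h (by simp)
      · rw [Q3, Q2 _ _ h'] at h
        exact absurd (hq.row x (Option.some_injective _ h)).symm h'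
    · by_cases h' : y = x + 1
      · rw [Q3, Q1 _ _ h'] at h
        exact absurd h (by simp)
      · rw [Q3, Q2 _ _ h'] at h
        exact absurd (hq.row x (Option.some_injective _ h)) h'
    · by_cases h' : y = x + 1 <;> by_cases h'' : y' = x + 1
      · rw [h', h'']
      · rw [Q1 _ _ h', Q2 _ _ h''] at h
        exact absurd h (by simp)
      · rw [Q2 _ _ h', Q1 _ _ h''] at h
        exact absurd h (by simp)
      · rw [Q2 _ _ h', Q2 _ _ h''] at h
        rw [hq.row x (Option.some_injective _ h)]
  · rintro (_ | y) (_ | x) (_ | x') h
    · rfl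
    · have h : Q none none = Q (some x') none := h
      rw [Q5, Q3] at h
      exact absurd h (by simp)
    · have h : Q (some x) none = Q none none := h
      rw [Q5, Q3] at h
      exact absurd h (by simp)
    · have h : Q (some x) none = Q (some x') none := h
      rw [Q3, Q3] at h
      have h := Option.some_injective _ h
      have e1 := hq2 x (x + 1)
      have e2 := hq2 x' (x' + 1)
      rw [h, e2] at e1
      have e3 : x + x = x' + x' := by linear_combination -e1
      rw [hu.mul_left_cancel (by linear_combination e3 : (2 : ZMod n) * x = 2 * x')]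
    · rfl
    · have h : Q none (some y) = Q (some x') (some y) := h
      by_cases h' : y = x' + 1
      · rw [Q4, Q1 _ _ h'] at h
        exact absurd h (by simp)
      · rw [Q4, Q2 _ _ h'] at h
        have h1 := hq.col y (Option.some_injective _ h)
        exact absurd (by rw [← h1]; ring) h'
    · have h : Q (some x) (some y) = Q none (some y) := h
      by_cases h' : y = x + 1
      · rw [Q4, Q1 _ _ h'] at h
        exact absurd h (by simp)
      · rw [Q4, Q2 _ _ h'] at h
        have h1 := hq.col y (Option.some_injective _ h)
        exact absurd (by rw [h1]; ring) h'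
    · have h : Q (some x) (some y) = Q (some x') (some y) := h
      by_cases h' : y = x + 1 <;> by_cases h'' : y = x' + 1
      · rw [add_right_cancel (h'.symm.trans h'')]
      · rw [Q1 _ _ h', Q2 _ _ h''] at h
        exact absurd h (by simp)
      · rw [Q2 _ _ h', Q1 _ _ h''] at h
        exact absurd h (by simp)
      · rw [Q2 _ _ h', Q2 _ _ h''] at h
        rw [hq.col y (Option.some_injective _ h)]
  · rintro (_ | x)
    · exact Q5
    · rw [Q2 x x (fun h => h1 (by linear_combination -h)), hq.idem]

theorem exists_loop_of_idem {X : Type} {Q : X → X → X} (hQ : IsIdem Q) :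
    ∃ G : Option X → Option X → Option X, IsLoop none G := by
  classical
  let G : Option X → Option X → Option X := fun x y =>
    match x, y with
    | some x, some y => if x = y then none else some (Q x y)
    | some x, none => some x
    | none, y => y
  have G1 : ∀ x y, x = y → G (some x) (some y) = none := fun x y h => if_pos h
  have G2 : ∀ x y, x ≠ y → G (some x) (some y) = some (Q x y) := fun x y h => if_neg h
  have G3 : ∀ x, G (some x) none = some x := fun _ => rfl
  have G4 : ∀ y, G none y = y := fun _ => rfl
  have hne : ∀ x y, x ≠ y → Q x y ≠ x := fun x y h h' =>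
    h (hQ.row x (by rw [hQ.idem, h']))
  have hne' : ∀ x y, x ≠ y → Q x y ≠ y := fun x y h h' =>
    h (hQ.col y (by
      show Q x y = Q y y
      rw [hQ.idem, h']))
  refine ⟨G, ?_, ?_, ?_, ?_, ?_⟩
  · rintro (_ | x) y y' h
    · rwa [G4, G4] at h
    · rcases y with _ | y <;> rcases y' with _ | y'
      · rfl
      · by_cases h' : x = y'
        · rw [G3, G1 _ _ h'] at h
          exact absurd h (by simp)
        · rw [G3, G2 _ _ h'] at h
          exact absurd (Option.some_injective _ h).symm (hne _ _ h')
      · by_cases h' : x = y
        · rw [G3, G1 _ _ h'] at h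
          exact absurd h (by simp)
        · rw [G3, G2 _ _ h'] at h
          exact absurd (Option.some_injective _ h) (hne _ _ h')
      · by_cases h' : x = y <;> by_cases h'' : x = y'
        · rw [← h', ← h'']
        · rw [G1 _ _ h', G2 _ _ h''] at h
          exact absurd h (by simp)
        · rw [G2 _ _ h', G1 _ _ h''] at h
          exact absurd h (by simp)
        · rw [G2 _ _ h', G2 _ _ h''] at h
          rw [hQ.row x (Option.some_injective _ h)]
  · rintro (_ | y) x x' h
    · rcases x with _ | x <;> rcases x' with _ | x'
      · rfl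
      · have h : G none none = G (some x') none := h
        rw [G4, G3] at h
        exact h
      · have h : G (some x) none = G none none := h
        rw [G3, G4] at h
        exact h
      · have h : G (some x) none = G (some x') none := h
        rw [G3, G3] at h
        exact h
    · rcases x with _ | x <;> rcases x' with _ | x'
      · rfl
      · have h : G none (some y) = G (some x') (some y) := h
        by_cases h' : x' = y
        · rw [G4, G1 _ _ h'] at h
          exact absurd h (by simp)
        · rw [G4, G2 _ _ h'] at h
          exact absurd (Option.some_injective _ h).symm (hne' _ _ h')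
      · have h : G (some x) (some y) = G none (some y) := h
        by_cases h' : x = y
        · rw [G1 _ _ h', G4] at h
          exact absurd h (by simp)
        · rw [G2 _ _ h', G4] at h
          exact absurd (Option.some_injective _ h) (hne' _ _ h')
      · have h : G (some x) (some y) = G (some x') (some y) := h
        by_cases h' : x = y <;> by_cases h'' : x' = y
        · rw [h', h'']
        · rw [G1 _ _ h', G2 _ _ h''] at h
          exact absurd h (by simp)
        · rw [G2 _ _ h', G1 _ _ h''] at h
          exact absurd h (by simp)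
        · rw [G2 _ _ h', G2 _ _ h''] at h
          rw [hQ.col y (Option.some_injective _ h)]
  · exact G4
  · rintro (_ | x)
    · rfl
    · rfl
  · rintro (_ | x)
    · rfl
    · exact G1 x x rfl

theorem IsLoop.transport {X Y : Type} (f : X ≃ Y) {e : X} {G : X → X → X} (hG : IsLoop e G) :
    IsLoop (f e) (fun x y => f (G (f.symm x) (f.symm y))) := by
  refine ⟨?_, ?_, ?_, ?_, ?_⟩
  · intro x y y' h
    exact f.symm.injective (hG.row _ (f.injective h))
  · intro y x x' h
    exact f.symm.injective (hG.col _ (f.injective h))
  · intro y
    show f (G (f.symm (f e)) (f.symm y)) = y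
    rw [Equiv.symm_apply_apply, hG.left, Equiv.apply_symm_apply]
  · intro x
    show f (G (f.symm x) (f.symm (f e))) = x
    rw [Equiv.symm_apply_apply, hG.right, Equiv.apply_symm_apply]
  · intro x
    show f (G (f.symm x) (f.symm x)) = f e
    rw [hG.diag]

theorem exists_loop {X : Type} [Fintype X] (hX : 4 ≤ Fintype.card X) (e : X) :
    ∃ G : X → X → X, IsLoop e G := by
  classical
  obtain ⟨Y, hY, e0, G, hG⟩ : ∃ (Y : Type) (_ : Fintype.card X = Nat.card Y) (e0 : Y)
      (G : Y → Y → Y), IsLoop e0 G := by
    rcases Nat.even_or_odd (Fintype.card X) with h | h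
    · obtain ⟨n, hn⟩ : ∃ n, Fintype.card X = n + 1 := ⟨Fintype.card X - 1, by omega⟩
      have hodd : Odd n := by
        rcases h with ⟨k, hk⟩
        exact ⟨k - 1, by omega⟩
      have : NeZero n := ⟨by omega⟩
      obtain ⟨q, hq, _⟩ := exists_idem_odd n hodd
      obtain ⟨G, hG⟩ := exists_loop_of_idem hq
      exact ⟨Option (ZMod n), by
        rw [Nat.card_eq_fintype_card, Fintype.card_option, ZMod.card, hn], none, G, hG⟩
    · obtain ⟨n, hn⟩ : ∃ n, Fintype.card X = n + 2 := ⟨Fintype.card X - 2, by omega⟩
      have hodd : Odd n := by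
        rcases h with ⟨k, hk⟩
        exact ⟨k - 1, by omega⟩
      have h3 : 3 ≤ n := by
        rcases hodd with ⟨k, hk⟩
        omega
      have : NeZero n := ⟨by omega⟩
      obtain ⟨q, hq⟩ := exists_idem_even n hodd h3
      obtain ⟨G, hG⟩ := exists_loop_of_idem hq
      exact ⟨Option (Option (ZMod n)), by
        rw [Nat.card_eq_fintype_card, Fintype.card_option, Fintype.card_option, ZMod.card, hn],
        none, G, hG⟩
  have hfin : Finite Y := Nat.finite_of_card_ne_zero (by omega)
  have hft : Fintype Y := Fintype.ofFinite Y
  rw [Nat.card_eq_fintype_card] at hY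
  have f := (Fintype.equivOfCardEq hY).symm
  have h := hG.transport (f.trans (Equiv.swap (f e0) e))
  have h1 : (f.trans (Equiv.swap (f e0) e)) e0 = e := by
    simp
  rw [h1] at h
  exact ⟨_, h⟩

end Pool.Agent.H809_TA
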