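import Pool.Agent.H809_TA.Koenig
import Pool.Agent.H809_TA.Loop
import Pool.Agent.H809_TA.AffineDefs

/-!
Orderings of the symmetric designs of affine type.
-/

set_option autoImplicit false

namespace Pool.Agent.H809_TA

open Function Finset

theorem card_iff {X : Type} {p q : X → Prop} (h : ∀ x, p x ↔ q x) :
    Nat.card {x // p x} = Nat.card {x // q x} :=
  Nat.card_congr (Equiv.subtypeEquivRight h)

theorem card_mono {X : Type} [Finite X] {p q : X → Prop} (h : ∀ x, p x → q x) :
    Nat.card {x // p x} ≤ Nat.card {x // q x} :=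
  Nat.card_le_card_of_injective (fun x : {x // p x} => (⟨x.1, h x.1 x.2⟩ : {x // q x}))
    (fun _ _ hxy => Subtype.ext (congrArg (fun z : {x // q x} => z.1) hxy))

theorem card_split {X : Type} [Finite X] (p q : X → Prop) :
    Nat.card {x // p x ∧ q x} + Nat.card {x // p x ∧ ¬ q x} = Nat.card {x // p x} := by
  classical
  have hft : Fintype X := Fintype.ofFinite X
  rw [Nat.card_eq_fintype_card, Nat.card_eq_fintype_card, Nat.card_eq_fintype_card,
    Fintype.card_subtype, Fintype.card_subtype, Fintype.card_subtype,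
    ← Finset.card_filter_add_card_filter_not (s := univ.filter p) q, Finset.filter_filter,
    Finset.filter_filter]

theorem card_fiber {X C : Type} [Finite X] [Fintype C] (p : X → Prop) (f : X → C) (μ : ℕ)
    (h : ∀ c, Nat.card {x // p x ∧ f x = c} = μ) : Nat.card {x // p x} = Fintype.card C * μ := by
  classical
  have hft : Fintype X := Fintype.ofFinite X
  rw [Nat.card_eq_fintype_card, Fintype.card_subtype,
    Finset.card_eq_sum_card_fiberwise (f := f) (t := univ) (fun _ _ => by simp)]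
  rw [sum_congr rfl (g := fun _ => μ)]
  · rw [sum_const, card_univ, smul_eq_mul]
  · intro c _
    rw [← h c, Nat.card_eq_fintype_card, Fintype.card_subtype, Finset.filter_filter]

section

variable {X ι C : Type} [Finite X] [Fintype ι] [Fintype C] {s : Prop} {grp : X → ι}
  {lev : X → ι → C} {μ : ℕ}

theorem Balanced.card1 (hB : Balanced s grp lev μ) (hι : 4 ≤ Fintype.card ι) (g h : ι)
    (hs : s ∨ h ≠ g) (c : C) :
    Nat.card {x // grp x = g ∧ lev x h = c} = Fintype.card C * μ := by
  classical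
  obtain ⟨h', h1⟩ : ∃ h', h' ∉ ({g, h} : Finset ι) := by
    by_contra hcon
    push Not at hcon
    have h2 : Fintype.card ι ≤ ({g, h} : Finset ι).card := by
      rw [← card_univ]
      exact card_le_card fun x _ => hcon x
    have h3 := Finset.card_le_two (a := g) (b := h)
    omega
  have h2 : h' ≠ g ∧ h' ≠ h := by simpa using h1
  apply card_fiber _ (fun x => lev x h')
  intro c'
  rw [← hB g h h' h2.2.symm (hs.elim Or.inl fun h => Or.inr ⟨h, h2.1⟩) c c']
  exact card_iff fun x => by rw [and_assoc]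

theorem Balanced.card_ne (hB : Balanced s grp lev μ) (hι : 4 ≤ Fintype.card ι) (g h h' : ι)
    (hh : h ≠ h') (hs : s ∨ (h ≠ g ∧ h' ≠ g)) (c c' : C) :
    Nat.card {x // grp x = g ∧ lev x h = c ∧ lev x h' ≠ c'} = Fintype.card C * μ - μ := by
  have h1 := card_split (fun x => grp x = g ∧ lev x h = c) (fun x => lev x h' = c')
  rw [hB.card1 hι g h (hs.elim Or.inl fun h => Or.inr h.1)] at h1
  have h2 : Nat.card {x // (grp x = g ∧ lev x h = c) ∧ lev x h' = c'} = μ := by
    rw [← hB g h h' hh hs c c']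
    exact card_iff fun x => by rw [and_assoc]
  have h3 : Nat.card {x // (grp x = g ∧ lev x h = c) ∧ ¬ lev x h' = c'}
      = Nat.card {x // grp x = g ∧ lev x h = c ∧ lev x h' ≠ c'} :=
    card_iff fun x => by rw [and_assoc]
  omega

end

/-- The designs of Wallis. -/
theorem desArr_wallis {P Q ι C : Type} [Fintype P] [Fintype Q] [Fintype ι] [Fintype C]
    {mem : P → Q → Prop} {gP : P → ι} {gQ : Q → ι} {lP : P → ι → C} {lQ : Q → ι → C} {μ : ℕ}
    (hι : 4 ≤ Fintype.card ι) (hP : Balanced False gP lP μ) (hQ : Balanced False gQ lQ μ)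
    (hm : ∀ p b, mem p b ↔ gP p ≠ gQ b ∧ lP p (gQ b) = lQ b (gP p)) (b0 : Q) :
    DesArr mem b0 := by
  classical
  obtain ⟨G, hG⟩ := exists_loop hι (gQ b0)
  have hGne : ∀ h h', h ≠ gQ b0 → G h h' ≠ h' := by
    intro h h' hh h1
    exact hh (hG.col h' (h1.trans (hG.left h').symm))
  have hGne' : ∀ h h', h' ≠ gQ b0 → G h h' ≠ h := by
    intro h h' hh h1
    exact hh (hG.row h (h1.trans (hG.right h).symm))
  have hGe : ∀ h h', h ≠ h' → G h h' ≠ gQ b0 := by
    intro h h' hh h1
    exact hh (hG.row h ((hG.diag h).trans h1.symm))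
  refine glue mem b0 (fun p q => ((gP p, gP q), lP q (G (gP p) (gP q))))
    (fun x p => gP p = x.1.1 ∧ mem p b0)
    (fun x q => gP q = x.1.2 ∧ ¬ mem q b0 ∧ lP q (G x.1.1 x.1.2) = x.2)
    (fun x b => gQ b = G x.1.1 x.1.2 ∧ lQ b x.1.2 = x.2) ?_ ?_ ?_ ?_ ?_ ?_
  · intro p q hp _
    exact ⟨rfl, hp⟩
  · intro p q _ hq
    exact ⟨rfl, hq, rfl⟩
  · intro p q hp hq
    have hp1 := (hm p b0).1 hp
    simp only
    -- the three kinds of rectangles
    by_cases h1 : gP q = gQ b0
    · refine ⟨Fintype.card C * μ, ?_, ?_, ?_⟩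
      · rintro i ⟨hi, _⟩
        rw [← hQ.card1 hι (gP p) (gQ b0) (Or.inr hp1.1.symm) (lP q (G (gP p) (gP q)))]
        apply card_iff
        intro b
        rw [h1, hG.right]
        constructor
        · exact fun h => h.1
        · intro h
          refine ⟨h, fun h' => ?_⟩
          exact ((hm i b).1 h').1 (hi.trans h.1.symm)
      · rintro b ⟨hb, hb'⟩
        rw [h1, hG.right] at hb
        rw [← hP.card1 hι (gP p) (gQ b0) (Or.inr hp1.1.symm) (lQ b0 (gP p))]
        apply card_iff
        intro i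
        constructor
        · rintro ⟨⟨hi, hi'⟩, _⟩
          exact ⟨hi, hi ▸ ((hm i b0).1 hi').2⟩
        · rintro ⟨hi, hi'⟩
          refine ⟨⟨hi, (hm i b0).2 ⟨hi ▸ hp1.1, hi ▸ hi'⟩⟩, fun h' => ?_⟩
          exact ((hm i b).1 h').1 (hi.trans hb.symm)
      · rw [← hP.card1 hι (gQ b0) (gP p) (Or.inr hp1.1) (lP q (G (gP p) (gP q)))]
        apply card_mono
        rintro j ⟨hj, _, hj'⟩
        rw [h1, hG.right] at hj'
        rw [h1] at hj
        rw [h1, hG.right]
        exact ⟨hj, hj'⟩
    · have hq' : lP q (gQ b0) ≠ lQ b0 (gP q) := fun h => hq ((hm q b0).2 ⟨h1, h⟩)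
      by_cases h2 : gP p = gP q
      · refine ⟨Fintype.card C * μ, ?_, ?_, ?_⟩
        · rintro i ⟨hi, hi'⟩
          rw [← hQ.card1 hι (gQ b0) (gP q) (Or.inr h1) (lP q (G (gP p) (gP q)))]
          apply card_iff
          intro b
          rw [h2, hG.diag]
          constructor
          · exact fun h => h.1
          · intro h
            refine ⟨h, fun h' => hq' ?_⟩
            have h3 := ((hm i b).1 h').2
            have h4 := ((hm i b0).1 hi').2
            rw [hi, h2] at h3 h4
            rw [h.1, h.2] at h3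
            rw [← h3, h4]
        · rintro b ⟨hb, hb'⟩
          rw [h2, hG.diag] at hb hb'
          rw [← hP.card1 hι (gP p) (gQ b0) (Or.inr hp1.1.symm) (lQ b0 (gP p))]
          apply card_iff
          intro i
          constructor
          · rintro ⟨⟨hi, hi'⟩, _⟩
            exact ⟨hi, hi ▸ ((hm i b0).1 hi').2⟩
          · rintro ⟨hi, hi'⟩
            refine ⟨⟨hi, (hm i b0).2 ⟨hi ▸ hp1.1, hi ▸ hi'⟩⟩, fun h' => hq' ?_⟩
            have h3 := ((hm i b).1 h').2
            rw [hi, h2, hb, hb'] at h3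
            rw [← h3, hi', h2]
        · rw [← hP.card1 hι (gP q) (gQ b0) (Or.inr (Ne.symm h1)) (lP q (G (gP p) (gP q)))]
          apply card_mono
          rintro j ⟨hj, _, hj'⟩
          rw [h2, hG.diag] at hj'
          rw [h2, hG.diag]
          exact ⟨hj, hj'⟩
      · have h3 := hGne (gP p) (gP q) hp1.1
        have h4 := hGne' (gP p) (gP q) h1
        have h5 := hGe (gP p) (gP q) h2
        refine ⟨Fintype.card C * μ - μ, ?_, ?_, ?_⟩
        · rintro i ⟨hi, hi'⟩
          rw [← hQ.card_ne hι (G (gP p) (gP q)) (gP q) (gP p) (Ne.symm h2)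
            (Or.inr ⟨h3.symm, h4.symm⟩) (lP q (G (gP p) (gP q))) (lP i (G (gP p) (gP q)))]
          apply card_iff
          intro b
          beta_reduce
          rw [hm, hi]
          constructor
          · rintro ⟨⟨hb, hb'⟩, hb''⟩
            refine ⟨hb, hb', fun h => hb'' ⟨?_, ?_⟩⟩
            · rw [hb]
              exact h4.symm
            · rw [hb]
              exact h.symm
          · rintro ⟨hb, hb', hb''⟩
            refine ⟨⟨hb, hb'⟩, fun h => hb'' ?_⟩
            rw [← h.2, hb]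
        · rintro b ⟨hb, hb'⟩
          rw [← hP.card_ne hι (gP p) (gQ b0) (G (gP p) (gP q)) (Ne.symm h5)
            (Or.inr ⟨hp1.1.symm, h4⟩) (lQ b0 (gP p)) (lQ b (gP p))]
          apply card_iff
          intro i
          constructor
          · rintro ⟨⟨hi, hi'⟩, h⟩
            refine ⟨hi, hi ▸ ((hm i b0).1 hi').2, fun h' => h ((hm i b).2 ⟨?_, ?_⟩)⟩
            · rw [hi, hb]
              exact h4.symm
            · rw [hi, hb, h']
          · rintro ⟨hi, hi', h⟩
            refine ⟨⟨hi, (hm i b0).2 ⟨hi ▸ hp1.1, hi ▸ hi'⟩⟩, fun h' => h ?_⟩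
            have h6 := ((hm i b).1 h').2
            rw [hb, hi] at h6
            exact h6
        · rw [← hP.card_ne hι (gP q) (G (gP p) (gP q)) (gQ b0) h5
            (Or.inr ⟨h3, Ne.symm h1⟩) (lP q (G (gP p) (gP q))) (lQ b0 (gP q))]
          apply card_mono
          rintro j ⟨hj, hj', hj''⟩
          refine ⟨hj, hj'', fun h => hj' ((hm j b0).2 ⟨?_, ?_⟩)⟩
          · rw [hj]
            exact h1
          · rw [h, hj]
  · rintro p q b hp hq ⟨hb, hb'⟩
    have hp1 := (hm p b0).1 hp
    simp only at hb hb'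
    rw [hm, hb]
    exact ⟨(hGne _ _ hp1.1).symm, hb'.symm⟩
  · rintro p q q' b hp hq hq' ⟨hb, hb'⟩ ⟨hc, hc'⟩
    simp only at hb hb' hc hc'
    have h1 := hG.row _ (hb.symm.trans hc)
    rw [← h1] at hc'
    simp only [Prod.mk.injEq]
    refine ⟨⟨trivial, h1⟩, ?_⟩
    rw [← h1]
    exact hb'.symm.trans hc'
  · rintro p p' q b hp hp' hq ⟨hb, _⟩ ⟨hc, _⟩
    simp only at hb hc
    have h1 : gP p = gP p' := hG.col _ (hb.symm.trans hc)
    simp only [Prod.mk.injEq]
    rw [h1]
    exact ⟨⟨rfl, trivial⟩, rfl⟩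

end Pool.Agent.H809_TA
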