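import Mathlib

/-!
The symmetric design of an extremal unordered triple array, and the classical case.
-/

set_option autoImplicit false

namespace Pool.Agent.H809_TA

open scoped LinearAlgebra.Projectivization

/-- Incidence in the symmetric design of an extremal unordered triple array. Its points are the
rows and the columns. Its blocks are the block `none` of all rows, and for every symbol `s` the
block of the rows whose row-set misses `s` and the columns whose column-set contains `s`. -/
def DesignMem {I J V : Type} (R : I → Finset V) (C : J → Finset V) : I ⊕ J → Option V → Prop
  | Sum.inl _, none => True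
  | Sum.inr _, none => False
  | Sum.inl i, some s => s ∉ R i
  | Sum.inr j, some s => s ∈ C j

/-- The points of the projective space `PG(n, K)`: vectors with `n + 1` homogeneous coordinates.
A point `y` also stands for the hyperplane with these coordinates. -/
abbrev PG (n : ℕ) (K : Type) [Field K] : Type := ℙ K (Fin (n + 1) → K)

/-- The point `x` lies on the hyperplane with homogeneous coordinates `y`. -/
def OnHyp {n : ℕ} {K : Type} [Field K] (x y : PG n K) : Prop := ∑ i, x.rep i * y.rep i = 0

/-- The symmetric design of `(R, C)` is isomorphic to the design of points and hyperplanes of the
projective space `PG(n, K)`. -/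
def IsPG {I J V : Type} (R : I → Finset V) (C : J → Finset V) (n : ℕ) (K : Type) [Field K] :
    Prop :=
  ∃ (φ : I ⊕ J ≃ PG n K) (ψ : Option V ≃ PG n K),
    ∀ (x : I ⊕ J) (B : Option V), DesignMem R C x B ↔ OnHyp (φ x) (ψ B)

/-- The symmetric design of `(R, C)` is isomorphic to the design of points and hyperplanes of
some projective space `PG(n, K)` over a finite field `K`. -/
def IsClassical {I J V : Type} (R : I → Finset V) (C : J → Finset V) : Prop :=
  ∃ (n : ℕ) (K : Type) (_ : Field K) (_ : Finite K), IsPG R C n K

end Pool.Agent.H809_TA
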