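import Pool.Agent.H809_TA.Defs

/-!
Basic lemmas on triple arrays.
-/

set_option autoImplicit false

namespace Pool.Agent.H809_TA

open Finset

/-- An array with entries in the intersections and without repetitions in rows and columns is an
ordering. -/
theorem order_of_array {I J V : Type} [Fintype I] [Fintype J] [DecidableEq V]
    {R : I → Finset V} {C : J → Finset V} {e : ℕ} (hU : IsUTA R C e) (T : I → J → V)
    (hR : ∀ i j, T i j ∈ R i) (hC : ∀ i j, T i j ∈ C j) (hr : ∀ i, Function.Injective (T i))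
    (hc : ∀ j, Function.Injective (fun i => T i j)) :
    IsTripleArray T ∧ (∀ i, rowSet T i = R i) ∧ ∀ j, colSet T j = C j := by
  classical
  have h1 : ∀ i, rowSet T i = R i := by
    intro i
    apply Finset.eq_of_subset_of_card_le
    · intro s hs
      rw [rowSet, mem_image] at hs
      obtain ⟨j, _, rfl⟩ := hs
      exact hR i j
    · rw [hU.cardR, rowSet, card_image_of_injective _ (hr i), card_univ]
  have h2 : ∀ j, colSet T j = C j := by
    intro j
    apply Finset.eq_of_subset_of_card_le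
    · intro s hs
      rw [colSet, mem_image] at hs
      obtain ⟨i, _, rfl⟩ := hs
      exact hC i j
    · rw [hU.cardC, colSet, card_image_of_injective _ (hc j), card_univ]
  refine ⟨⟨hr, hc, ⟨e, ?_⟩, ?_, ?_, ?_⟩, h1, h2⟩
  · intro s
    rw [← hU.repR s]
    apply card_bij (fun x _ => x.1)
    · intro x hx
      rw [mem_filter] at hx ⊢
      refine ⟨mem_univ _, ?_⟩
      rw [← hx.2]
      exact hR _ _
    · rintro ⟨i, j⟩ hx ⟨i', j'⟩ hx' h
      rw [mem_filter] at hx hx'
      simp only at h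
      subst h
      exact congrArg (Prod.mk i) (hr i (hx.2.trans hx'.2.symm))
    · intro i hi
      rw [mem_filter, ← h1 i, rowSet, mem_image] at hi
      obtain ⟨_, j, _, hj⟩ := hi
      exact ⟨(i, j), by rw [mem_filter]; exact ⟨mem_univ _, hj⟩, rfl⟩
  · obtain ⟨l, hl⟩ := hU.rc
    exact ⟨l, fun i j => by rw [h1, h2]; exact hl i j⟩
  · obtain ⟨l, hl⟩ := hU.rr
    exact ⟨l, fun i i' h => by rw [h1, h1]; exact hl i i' h⟩
  · obtain ⟨l, hl⟩ := hU.cc
    exact ⟨l, fun j j' h => by rw [h2, h2]; exact hl j j' h⟩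

theorem IsTripleArray.transport {I J V I' J' V' : Type} [Fintype I] [Fintype J] [DecidableEq V]
    [Fintype I'] [Fintype J'] [DecidableEq V'] {T : I → J → V} (hT : IsTripleArray T)
    (eI : I' ≃ I) (eJ : J' ≃ J) (eV : V ≃ V') :
    IsTripleArray (fun i j => eV (T (eI i) (eJ j))) := by
  classical
  have h1 : ∀ i, rowSet (fun i j => eV (T (eI i) (eJ j))) i
      = (rowSet T (eI i)).map eV.toEmbedding := by
    intro i
    ext s
    simp only [rowSet, mem_image, mem_univ, true_and, mem_map, Equiv.coe_toEmbedding]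
    constructor
    · rintro ⟨j, rfl⟩
      exact ⟨_, ⟨eJ j, rfl⟩, rfl⟩
    · rintro ⟨_, ⟨j, rfl⟩, rfl⟩
      exact ⟨eJ.symm j, by rw [Equiv.apply_symm_apply]⟩
  have h2 : ∀ j, colSet (fun i j => eV (T (eI i) (eJ j))) j
      = (colSet T (eJ j)).map eV.toEmbedding := by
    intro i
    ext s
    simp only [colSet, mem_image, mem_univ, true_and, mem_map, Equiv.coe_toEmbedding]
    constructor
    · rintro ⟨j, rfl⟩
      exact ⟨_, ⟨eI j, rfl⟩, rfl⟩
    · rintro ⟨_, ⟨j, rfl⟩, rfl⟩
      exact ⟨eI.symm j, by rw [Equiv.apply_symm_apply]⟩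
  refine ⟨?_, ?_, ?_, ?_, ?_, ?_⟩
  · intro i j j' h
    exact eJ.injective (hT.row _ (eV.injective h))
  · intro j i i' h
    exact eI.injective (hT.col _ (eV.injective h))
  · obtain ⟨e, he⟩ := hT.rep
    refine ⟨e, fun s => ?_⟩
    rw [← he (eV.symm s)]
    apply card_bij (fun x _ => (eI x.1, eJ x.2))
    · intro x hx
      rw [mem_filter] at hx ⊢
      exact ⟨mem_univ _, by rw [← hx.2, Equiv.symm_apply_apply]⟩
    · rintro x _ y _ h
      rw [Prod.mk.injEq] at h
      exact Prod.ext (eI.injective h.1) (eJ.injective h.2)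
    · intro x hx
      rw [mem_filter] at hx
      refine ⟨(eI.symm x.1, eJ.symm x.2), ?_, by simp⟩
      rw [mem_filter]
      refine ⟨mem_univ _, ?_⟩
      simp only [Equiv.apply_symm_apply]
      rw [hx.2, Equiv.apply_symm_apply]
  · obtain ⟨l, hl⟩ := hT.rc
    refine ⟨l, fun i j => ?_⟩
    rw [h1, h2, ← map_inter, card_map]
    exact hl _ _
  · obtain ⟨l, hl⟩ := hT.rr
    refine ⟨l, fun i i' h => ?_⟩
    rw [h1, h1, ← map_inter, card_map]
    exact hl _ _ (fun h' => h (eI.injective h'))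
  · obtain ⟨l, hl⟩ := hT.cc
    refine ⟨l, fun i i' h => ?_⟩
    rw [h2, h2, ← map_inter, card_map]
    exact hl _ _ (fun h' => h (eJ.injective h'))

end Pool.Agent.H809_TA
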