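import Pool.Agent.H809_TA.SolAll
import Pool.Agent.H809_TA.Order
import Pool.Agent.H809_TA.ClassicalDefs

/-!
Ordering the unordered triple arrays of the classical symmetric designs.
-/

set_option autoImplicit false

namespace Pool.Agent.H809_TA

open Function Module
open scoped LinearAlgebra.Projectivization

/-- there is an array with entries in the intersections without repetitions -/
def HasArr {I J V : Type} (R : I → Finset V) (C : J → Finset V) : Prop :=
  ∃ T : I → J → V, (∀ i j, T i j ∈ R i) ∧ (∀ i j, T i j ∈ C j) ∧ (∀ i, Injective (T i)) ∧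
    ∀ j, Injective (fun i => T i j)

theorem HasArr.symm {I J V : Type} {R : I → Finset V} {C : J → Finset V} (h : HasArr R C) :
    HasArr C R := by
  obtain ⟨T, h1, h2, h3, h4⟩ := h
  exact ⟨fun j i => T i j, fun j i => h2 i j, fun j i => h1 i j, h4, h3⟩

theorem sol_zero (K : Type) [Field K] : Sol K (Fin 0 → K) := by
  refine sol_of_index (X := Empty) Empty.elim ?_ Empty.elim (fun x => x.elim)
    (fun x => x.elim) (fun x => x.elim)
  intro v hv
  exact absurd (Subsingleton.elim v 0) hv

theorem sol_one (K : Type) [Field K] : Sol K (Fin 1 → K) := by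
  refine sol_of_index (X := Unit) (fun _ _ => 1) ?_ (fun _ _ => LinearMap.proj 0) ?_ ?_ ?_
  · intro v _
    refine ⟨v 0, (), ?_⟩
    funext i
    rw [Subsingleton.elim i 0]
    simp
  · intro _ _
    exact one_ne_zero
  · intro x x' _ _ _
    rfl
  · intro x y y' k _ h
    funext i
    rw [Subsingleton.elim i 0]
    exact sub_eq_zero.1 h

theorem sol_gen (K : Type) [Field K] [Finite K] (d : ℕ) (h : ¬ (Nat.card K = 2 ∧ d = 2)) :
    Sol K (Fin d → K) := by
  rcases d with _ | _ | _ | d
  · exact sol_zero K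
  · exact sol_one K
  · apply sol_all
    left
    have h1 : 1 < Nat.card K := Finite.one_lt_card
    by_contra h3
    exact h ⟨by omega, rfl⟩
  · exact sol_all K _ (Or.inr (by omega))

theorem hasArr_of_sol {I J V K : Type} [Field K] [Finite K] {n : ℕ}
    {R : I → Finset V} {C : J → Finset V}
    (φ : I ⊕ J ≃ ℙ K (Fin (n + 1) → K)) (ψ : Option V ≃ ℙ K (Dual K (Fin (n + 1) → K)))
    (hinc : ∀ x B, DesignMem R C x B ↔ (ψ B).rep (φ x).rep = 0)
    (hS : Sol K (Fin n → K)) : HasArr R C := by
  classical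
  let g0 : Dual K (Fin (n + 1) → K) := (ψ none).rep
  have g0n : g0 ≠ 0 := (ψ none).rep_nonzero
  obtain ⟨v0, hv0⟩ := LinearMap.surjective g0n 1
  have hfr : finrank K (LinearMap.ker g0) = n := by
    have := Module.Dual.finrank_ker_add_one_of_ne_zero g0n
    simpa using this
  obtain ⟨A, hA⟩ : Sol K (LinearMap.ker g0) :=
    hS.congr (LinearEquiv.ofFinrankEq _ _ (by rw [hfr]; simp))
  -- projection to the hyperplane along `v0`
  let p : (Fin (n + 1) → K) →ₗ[K] LinearMap.ker g0 :=
    LinearMap.codRestrict (LinearMap.ker g0) (LinearMap.id - g0.smulRight v0) (by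
      intro w
      rw [LinearMap.mem_ker, LinearMap.sub_apply, LinearMap.smulRight_apply, map_sub, map_smul,
        hv0, smul_eq_mul, mul_one]
      exact sub_self _)
  have hp : ∀ w, ((p w : LinearMap.ker g0) : Fin (n + 1) → K) = w - g0 w • v0 := fun w => rfl
  have pker : ∀ w : LinearMap.ker g0, p (w : Fin (n + 1) → K) = w := by
    intro w
    apply Subtype.ext
    rw [hp, LinearMap.mem_ker.1 w.2, zero_smul, sub_zero]
  have pv0 : p v0 = 0 := by
    apply Subtype.ext
    rw [hp, hv0, one_smul, sub_self]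
    rfl
  -- the rows
  have hrow : ∀ i, (φ (Sum.inl i)).rep ∈ LinearMap.ker g0 := by
    intro i
    rw [LinearMap.mem_ker]
    exact (hinc (Sum.inl i) none).1 trivial
  let ρ : I → LinearMap.ker g0 := fun i => ⟨(φ (Sum.inl i)).rep, hrow i⟩
  have ρn : ∀ i, ρ i ≠ 0 := by
    intro i h
    exact (φ (Sum.inl i)).rep_nonzero (congrArg Subtype.val h)
  let xI : I → ℙ K (LinearMap.ker g0) := fun i => Projectivization.mk K (ρ i) (ρn i)
  have xIinj : Injective xI := by
    intro i i' h
    have h : Projectivization.mk K (ρ i) (ρn i) = Projectivization.mk K (ρ i') (ρn i') := h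
    rw [Projectivization.mk_eq_mk_iff'] at h
    obtain ⟨a, ha⟩ := h
    have h2 : φ (Sum.inl i) = φ (Sum.inl i') := by
      rw [← (φ (Sum.inl i)).mk_rep, ← (φ (Sum.inl i')).mk_rep, Projectivization.mk_eq_mk_iff']
      exact ⟨a, congrArg Subtype.val ha⟩
    exact Sum.inl_injective (φ.injective h2)
  -- the columns
  have hcol : ∀ j, g0 (φ (Sum.inr j)).rep ≠ 0 := by
    intro j h
    exact (hinc (Sum.inr j) none).2 h
  let yJ : J → LinearMap.ker g0 := fun j => (g0 (φ (Sum.inr j)).rep)⁻¹ • p (φ (Sum.inr j)).rep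
  have hy : ∀ j, p (φ (Sum.inr j)).rep = g0 (φ (Sum.inr j)).rep • yJ j := by
    intro j
    simp only [yJ]
    rw [smul_smul, mul_inv_cancel₀ (hcol j), one_smul]
  have yJinj : Injective yJ := by
    intro j j' h
    have hd : ∀ j, (g0 (φ (Sum.inr j)).rep)⁻¹ • (φ (Sum.inr j)).rep
        = ((yJ j : LinearMap.ker g0) : Fin (n + 1) → K) + v0 := by
      intro j
      simp only [yJ]
      rw [Submodule.coe_smul, hp, smul_sub, smul_smul, inv_mul_cancel₀ (hcol j), one_smul,
        sub_add_cancel]
    have h1 := hd j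
    rw [h, ← hd j'] at h1
    have h2 : φ (Sum.inr j) = φ (Sum.inr j') := by
      rw [← (φ (Sum.inr j)).mk_rep, ← (φ (Sum.inr j')).mk_rep, Projectivization.mk_eq_mk_iff']
      refine ⟨g0 (φ (Sum.inr j)).rep * (g0 (φ (Sum.inr j')).rep)⁻¹, ?_⟩
      rw [mul_smul, ← h1, smul_smul, mul_inv_cancel₀ (hcol j), one_smul]
    exact Sum.inr_injective (φ.injective h2)
  -- the functionals
  let a : I → J → Dual K (LinearMap.ker g0) := fun i j => A (xI i) (yJ j)
  let G : I → J → Dual K (Fin (n + 1) → K) := fun i j =>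
    (a i j).comp p - (a i j (yJ j)) • g0
  have hG : ∀ i j w, G i j w = a i j (p w) - a i j (yJ j) * g0 w := fun i j w => rfl
  have Gker : ∀ i j (w : LinearMap.ker g0), G i j (w : Fin (n + 1) → K) = a i j w := by
    intro i j w
    rw [hG, pker, LinearMap.mem_ker.1 w.2, mul_zero, sub_zero]
  have Gv0 : ∀ i j, G i j v0 = - a i j (yJ j) := by
    intro i j
    rw [hG, pv0, map_zero, hv0, mul_one, zero_sub]
  have aρ : ∀ i j, a i j (ρ i) ≠ 0 := by
    intro i j h
    obtain ⟨κ, hκ⟩ := Projectivization.exists_smul_eq_mk_rep K (ρ i) (ρn i)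
    apply hA.N (xI i) (yJ j)
    show a i j (Projectivization.mk K (ρ i) (ρn i)).rep = 0
    rw [← hκ, Units.smul_def, map_smul, h, smul_zero]
  have Gρ : ∀ i j, G i j (φ (Sum.inl i)).rep ≠ 0 := by
    intro i j h
    exact aρ i j ((Gker i j (ρ i)).symm.trans h)
  have Gn : ∀ i j, G i j ≠ 0 := by
    intro i j h
    apply Gρ i j
    rw [h]
    rfl
  have Gσ : ∀ i j, G i j (φ (Sum.inr j)).rep = 0 := by
    intro i j
    rw [hG, hy, map_smul, smul_eq_mul]
    ring
  have hex : ∀ i j, ∃ s, ψ (some s) = Projectivization.mk K (G i j) (Gn i j) := by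
    intro i j
    rcases hs : ψ.symm (Projectivization.mk K (G i j) (Gn i j)) with _ | s
    · exfalso
      have h1 : Projectivization.mk K (G i j) (Gn i j) = ψ none := by
        rw [← hs, Equiv.apply_symm_apply]
      rw [← (ψ none).mk_rep, Projectivization.mk_eq_mk_iff'] at h1
      obtain ⟨κ, hκ⟩ := h1
      apply Gρ i j
      rw [← hκ, LinearMap.smul_apply, LinearMap.mem_ker.1 (hrow i), smul_zero]
    · exact ⟨s, by rw [← hs, Equiv.apply_symm_apply]⟩
  choose T hT using hex
  have hrep : ∀ i j, ∃ κ : K, κ ≠ 0 ∧ (ψ (some (T i j))).rep = κ • G i j := by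
    intro i j
    rw [hT i j]
    obtain ⟨κ, hκ⟩ := Projectivization.exists_smul_eq_mk_rep K (G i j) (Gn i j)
    exact ⟨κ, κ.ne_zero, hκ.symm⟩
  have heq : ∀ i j i' j', T i j = T i' j' → ∃ κ : K, G i j = κ • G i' j' := by
    intro i j i' j' h
    have h1 := hT i j
    rw [h, hT i' j'] at h1
    rw [Projectivization.mk_eq_mk_iff'] at h1
    obtain ⟨κ, hκ⟩ := h1
    have hκ0 : κ ≠ 0 := by
      rintro rfl
      rw [zero_smul] at hκ
      exact Gn i' j' hκ.symm
    exact ⟨κ⁻¹, by rw [← hκ, smul_smul, inv_mul_cancel₀ hκ0, one_smul]⟩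
  have heq' : ∀ i j i' j' (κ : K), G i j = κ • G i' j' →
      a i j = κ • a i' j' ∧ a i j (yJ j) = κ * a i' j' (yJ j') := by
    intro i j i' j' κ h
    constructor
    · apply LinearMap.ext
      intro w
      rw [← Gker, h]
      show κ • G i' j' w = κ • a i' j' w
      rw [Gker]
    · have h1 := Gv0 i j
      rw [h] at h1
      have h2 : κ * G i' j' v0 = - a i j (yJ j) := h1
      rw [Gv0] at h2
      linear_combination h2
  refine ⟨T, ?_, ?_, ?_, ?_⟩
  · intro i j
    by_contra h
    have h1 : (ψ (some (T i j))).rep (φ (Sum.inl i)).rep = 0 :=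
      (hinc (Sum.inl i) (some (T i j))).1 h
    obtain ⟨κ, hκ, hκ'⟩ := hrep i j
    rw [hκ', LinearMap.smul_apply, smul_eq_mul] at h1
    exact (mul_ne_zero hκ (Gρ i j)) h1
  · intro i j
    obtain ⟨κ, hκ, hκ'⟩ := hrep i j
    apply (hinc (Sum.inr j) (some (T i j))).2
    rw [hκ', LinearMap.smul_apply, Gσ, smul_zero]
  · intro i j j' h
    obtain ⟨κ, hκ⟩ := heq _ _ _ _ h
    obtain ⟨h1, h2⟩ := heq' _ _ _ _ _ hκ
    apply yJinj
    apply hA.R (xI i) (yJ j) (yJ j') κ h1
    show a i j (yJ j - yJ j') = 0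
    rw [map_sub, h2]
    have h3 : a i j (yJ j') = κ * a i j' (yJ j') := by
      rw [h1]
      rfl
    rw [h3, sub_self]
  · intro j i i' h
    obtain ⟨κ, hκ⟩ := heq _ _ _ _ h
    obtain ⟨h1, h2⟩ := heq' _ _ _ _ _ hκ
    exact xIinj (hA.C _ _ _ _ h1)

/-- hyperplanes by coordinates and by functionals -/
theorem exists_dual_equiv (K : Type) [Field K] (n : ℕ) :
    ∃ D : PG n K ≃ ℙ K (Dual K (Fin (n + 1) → K)),
      ∀ x y : PG n K, OnHyp x y ↔ (D y).rep x.rep = 0 := by
  classical
  let L := dotProductEquiv K (Fin (n + 1))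
  let f : PG n K → ℙ K (Dual K (Fin (n + 1) → K)) :=
    Projectivization.map (L : (Fin (n + 1) → K) →ₗ[K] Dual K (Fin (n + 1) → K)) L.injective
  let g : ℙ K (Dual K (Fin (n + 1) → K)) → PG n K :=
    Projectivization.map (L.symm : Dual K (Fin (n + 1) → K) →ₗ[K] (Fin (n + 1) → K))
      L.symm.injective
  have hf : ∀ v hv, f (Projectivization.mk K v hv)
      = Projectivization.mk K (L v) (map_zero L ▸ L.injective.ne hv) := fun v hv => rfl
  have hg : ∀ v hv, g (Projectivization.mk K v hv)
      = Projectivization.mk K (L.symm v) (map_zero L.symm ▸ L.symm.injective.ne hv) :=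
    fun v hv => rfl
  refine ⟨⟨f, g, ?_, ?_⟩, ?_⟩
  · intro y
    induction y using Projectivization.ind with
    | h v hv =>
      rw [hf, hg, Projectivization.mk_eq_mk_iff']
      exact ⟨1, by rw [one_smul, LinearEquiv.symm_apply_apply]⟩
  · intro y
    induction y using Projectivization.ind with
    | h v hv =>
      rw [hg, hf, Projectivization.mk_eq_mk_iff']
      exact ⟨1, by rw [one_smul, LinearEquiv.apply_symm_apply]⟩
  · intro x y
    show OnHyp x y ↔ (f y).rep x.rep = 0
    have h1 : f y = Projectivization.mk K (L y.rep)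
        (map_zero L ▸ L.injective.ne y.rep_nonzero) := by
      rw [← hf y.rep y.rep_nonzero, y.mk_rep]
    obtain ⟨κ, hκ⟩ := Projectivization.exists_smul_eq_mk_rep K (L y.rep)
        (map_zero L ▸ L.injective.ne y.rep_nonzero)
    rw [h1, ← hκ]
    have h2 : L y.rep x.rep = ∑ i, x.rep i * y.rep i := by
      show dotProductEquiv K (Fin (n + 1)) y.rep x.rep = _
      rw [dotProductEquiv_apply_apply, dotProduct]
      exact Finset.sum_congr rfl fun i _ => mul_comm _ _
    rw [Units.smul_def, LinearMap.smul_apply, h2, smul_eq_mul, OnHyp]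
    constructor
    · intro h
      rw [h, mul_zero]
    · intro h
      exact (mul_eq_zero.1 h).resolve_left κ.ne_zero

theorem hasArr_of_classical {I J V : Type} [Fintype I] [Fintype J] [Fintype V] [DecidableEq V]
    {R : I → Finset V} {C : J → Finset V} {e : ℕ} (hU : IsUTA R C e) (he : 2 < e)
    (hcl : IsClassical R C) : HasArr R C := by
  classical
  obtain ⟨n, K, hF, hfin, φ, ψ0, hinc0⟩ := hcl
  obtain ⟨D, hD⟩ := exists_dual_equiv K n
  obtain ⟨ψ, hinc⟩ : ∃ ψ : Option V ≃ ℙ K (Dual K (Fin (n + 1) → K)),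
      ∀ x B, DesignMem R C x B ↔ (ψ B).rep (φ x).rep = 0 :=
    ⟨ψ0.trans D, fun x B => (hinc0 x B).trans (hD _ _)⟩
  apply hasArr_of_sol φ ψ hinc
  apply sol_gen
  rintro ⟨hK, rfl⟩
  -- seven points
  have hfK : Finite K := hfin
  have hft : Fintype K := Fintype.ofFinite K
  have c1 : Nat.card (ℙ K (Fin (2 + 1) → K)) = 7 := by
    have := Projectivization.card' K (Fin 3 → K)
    rw [Nat.card_fun, hK] at this
    simp at this
    omega
  have c2 : Nat.card (ℙ K (Dual K (Fin (2 + 1) → K))) = 7 := by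
    have hfd : Finite (Dual K (Fin (2 + 1) → K)) := Module.finite_of_finite K
    have h1 := Projectivization.card' K (Dual K (Fin (2 + 1) → K))
    have h2 : Nat.card (Dual K (Fin (2 + 1) → K)) = 8 := by
      rw [Module.natCard_eq_pow_finrank (K := K), Subspace.dual_finrank_eq, hK]
      simp
    rw [h2, hK] at h1
    omega
  have d1 : Fintype.card I + Fintype.card J = 7 := by
    rw [← Fintype.card_sum, ← Nat.card_eq_fintype_card, Nat.card_congr φ, c1]
  have d2 : Fintype.card V + 1 = 7 := by
    rw [← Fintype.card_option, ← Nat.card_eq_fintype_card, Nat.card_congr ψ, c2]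
  -- double counting
  have d3 : Fintype.card I * Fintype.card J = Fintype.card V * e := by
    have h1 : ∑ i : I, (R i).card = Fintype.card I * Fintype.card J := by
      rw [Finset.sum_congr rfl (fun i _ => hU.cardR i), Finset.sum_const, Finset.card_univ,
        smul_eq_mul]
    have h2 : ∑ s : V, (Finset.univ.filter (fun i => s ∈ R i)).card = Fintype.card V * e := by
      rw [Finset.sum_congr rfl (fun s _ => hU.repR s), Finset.sum_const, Finset.card_univ,
        smul_eq_mul]
    rw [← h1, ← h2]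
    simp only [Finset.card_filter]
    rw [Finset.sum_comm]
    refine Finset.sum_congr rfl fun i _ => ?_
    rw [← Finset.card_filter]
    congr 1
    ext s
    simp
  have d4 : Fintype.card V = 6 := by omega
  have d5 : Fintype.card J = 7 - Fintype.card I := by omega
  have d6 : Fintype.card I ≤ 7 := by omega
  rw [d4, d5] at d3
  generalize Fintype.card I = x at *
  interval_cases x <;> omega

end Pool.Agent.H809_TA
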