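import Pool.Agent.H809_TA.Centre
import Pool.Agent.H809_TA.Loop

/-!
Idempotent quasigroups with a central element, adapted to a given permutation.
-/

set_option autoImplicit false

namespace Pool.Agent.H809_TA

open Function Finset

/-- the number of permutations with a prescribed relation between two values -/
theorem card_rel {Y : Type} [Fintype Y] [DecidableEq Y] (a : Equiv.Perm Y) (ha : ∀ y, a y ≠ y)
    {u w : Y} (huw : w ≠ u) :
    (Fintype.card Y - 1) * (univ.filter fun ν : Equiv.Perm Y => a (ν w) = ν u).card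
      = Fintype.card (Equiv.Perm Y) := by
  -- independence of `w`
  have h1 : ∀ w', w' ≠ u → (univ.filter fun ν : Equiv.Perm Y => a (ν w') = ν u).card
      = (univ.filter fun ν : Equiv.Perm Y => a (ν w) = ν u).card := by
    intro w' hw'
    apply card_bij' (fun ν _ => Equiv.swap w w' |>.trans ν) (fun ν _ => Equiv.swap w w' |>.trans ν)
    · intro ν hν
      rw [mem_filter] at hν ⊢
      refine ⟨mem_univ _, ?_⟩
      rw [Equiv.trans_apply, Equiv.trans_apply, Equiv.swap_apply_left,
        Equiv.swap_apply_of_ne_of_ne huw.symm hw'.symm]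
      exact hν.2
    · intro ν hν
      rw [mem_filter] at hν ⊢
      refine ⟨mem_univ _, ?_⟩
      rw [Equiv.trans_apply, Equiv.trans_apply, Equiv.swap_apply_right,
        Equiv.swap_apply_of_ne_of_ne huw.symm hw'.symm]
      exact hν.2
    · intro ν _
      ext x
      simp
    · intro ν _
      ext x
      simp
  have h2 : ∑ w' ∈ univ.erase u, (univ.filter fun ν : Equiv.Perm Y => a (ν w') = ν u).card
      = Fintype.card (Equiv.Perm Y) := by
    rw [← card_biUnion]
    · rw [← card_univ]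
      congr 1
      ext ν
      simp only [mem_biUnion, mem_erase, mem_univ, and_true, mem_filter, true_and, iff_true]
      refine ⟨ν.symm (a.symm (ν u)), ?_, by simp⟩
      intro h
      rw [Equiv.symm_apply_eq, Equiv.symm_apply_eq] at h
      exact ha _ h.symm
    · intro w1 _ w2 _ h12
      rw [Function.onFun, disjoint_left]
      intro ν h3 h4
      rw [mem_filter] at h3 h4
      exact h12 (ν.injective (a.injective (h3.2.trans h4.2.symm)))
  rw [← h2, sum_congr rfl (fun w' hw' => h1 w' (mem_erase.1 hw').1), sum_const,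
    card_erase_of_mem (mem_univ _), card_univ, smul_eq_mul]

theorem exists_conj {Y : Type} [Fintype Y] [DecidableEq Y] (hY : 5 ≤ Fintype.card Y)
    (a δ : Equiv.Perm Y) (ha : ∀ y, a y ≠ y) (p : Y) (hδ : ∀ x, x ≠ p → δ x ≠ x) :
    ∃ ν : Equiv.Perm Y, ∀ x, x ≠ p → a (ν (δ x)) ≠ ν x := by
  by_contra hcon
  push Not at hcon
  let N : Equiv.Perm Y → ℕ := fun ν => ((univ.erase p).filter fun x => a (ν (δ x)) = ν x).card
  have hN : ∀ ν, 1 ≤ N ν := by
    intro ν
    obtain ⟨x, hx, hx'⟩ := hcon ν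
    exact card_pos.2 ⟨x, mem_filter.2 ⟨mem_erase.2 ⟨hx, mem_univ _⟩, hx'⟩⟩
  have hsum : ∑ ν, N ν = Fintype.card (Equiv.Perm Y) := by
    have h1 : ∑ ν, N ν = ∑ x ∈ univ.erase p,
        (univ.filter fun ν : Equiv.Perm Y => a (ν (δ x)) = ν x).card := by
      simp only [N, card_filter]
      rw [sum_comm]
    have h2 : (Fintype.card Y - 1) * ∑ ν, N ν
        = (Fintype.card Y - 1) * Fintype.card (Equiv.Perm Y) := by
      rw [h1, mul_sum, sum_congr rfl (fun x hx => card_rel a ha (hδ x (mem_erase.1 hx).1)),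
        sum_const, card_erase_of_mem (mem_univ _), card_univ, smul_eq_mul]
    exact Nat.eq_of_mul_eq_mul_left (by omega) h2
  -- a permutation with two relations
  obtain ⟨x1, hx1⟩ : ∃ x1, x1 ≠ p := by
    have : Nontrivial Y := Fintype.one_lt_card_iff_nontrivial.1 (by omega)
    exact exists_ne p
  obtain ⟨x2, hx2⟩ : ∃ x2, x2 ∉ ({p, x1, δ x1, δ.symm x1} : Finset Y) := by
    by_contra h
    push Not at h
    have h1 : (univ : Finset Y) ⊆ {p, x1, δ x1, δ.symm x1} := fun x _ => h x
    have h2 := card_le_card h1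
    have h3 := card_le_four (a := p) (b := x1) (c := δ x1) (d := δ.symm x1)
    rw [card_univ] at h2
    omega
  obtain ⟨y1⟩ : Nonempty Y := ⟨p⟩
  obtain ⟨y2, hy2⟩ : ∃ y2, y2 ∉ ({y1, a y1, a.symm y1} : Finset Y) := by
    by_contra h
    push Not at h
    have h1 : (univ : Finset Y) ⊆ {y1, a y1, a.symm y1} := fun x _ => h x
    have h2 := card_le_card h1
    have h3 := card_le_three (a := y1) (b := a y1) (c := a.symm y1)
    rw [card_univ] at h2
    omega
  simp only [mem_insert, mem_singleton, not_or] at hx2 hy2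
  obtain ⟨b1, b2, b3, b4⟩ := hx2
  obtain ⟨c1, c2, c3⟩ := hy2
  let f : Y → Y := fun x => if x = δ x1 then y1 else if x = x1 then a y1 else if x = δ x2 then y2
    else a y2
  have d1 : x1 ≠ δ x1 := (hδ x1 hx1).symm
  have d2 : x2 ≠ δ x2 := (hδ x2 b1).symm
  have d3 : δ x2 ≠ δ x1 := fun h => b2 (δ.injective h)
  have d4 : δ x2 ≠ x1 := fun h => b4 (by rw [← h, Equiv.symm_apply_apply])
  have f1 : f (δ x1) = y1 := if_pos rfl
  have f2 : f x1 = a y1 := by
    simp only [f]
    rw [if_neg d1, if_true]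
  have f3 : f (δ x2) = y2 := by
    simp only [f]
    rw [if_neg d3, if_neg d4, if_true]
  have f4 : f x2 = a y2 := by
    simp only [f]
    rw [if_neg b3, if_neg b2, if_neg d2]
  have hay1 := ha y1
  have hay2 := ha y2
  have e1 : a y2 ≠ y1 := fun h => c3 (by rw [← h, Equiv.symm_apply_apply])
  have e2 : a y2 ≠ a y1 := fun h => c1 (a.injective h)
  obtain ⟨ν, hν⟩ := Finset.exists_equiv_extend_of_card_eq (α := Y) (β := Y) (t := univ) rfl
    (s := {δ x1, x1, δ x2, x2}) (f := f) (subset_univ _) (by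
      intro x hx y hy hxy
      simp only [coe_insert, coe_singleton, Set.mem_insert_iff, Set.mem_singleton_iff] at hx hy
      rcases hx with rfl | rfl | rfl | rfl <;> rcases hy with rfl | rfl | rfl | rfl <;>
        simp only [f1, f2, f3, f4] at hxy <;> first | rfl | exact absurd hxy (by tauto))
  let ν' : Equiv.Perm Y := ν.trans (Equiv.subtypeUnivEquiv fun x => mem_univ x)
  have hν' : ∀ x ∈ ({δ x1, x1, δ x2, x2} : Finset Y), ν' x = f x := hν
  have h2 : 2 ≤ N ν' := by
    have h3 : ({x1, x2} : Finset Y) ⊆ (univ.erase p).filter fun x => a (ν' (δ x)) = ν' x := by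
      intro x hx
      simp only [mem_insert, mem_singleton] at hx
      rcases hx with rfl | rfl
      · refine mem_filter.2 ⟨mem_erase.2 ⟨hx1, mem_univ _⟩, ?_⟩
        rw [hν' _ (by simp), hν' _ (by simp), f1, f2]
      · refine mem_filter.2 ⟨mem_erase.2 ⟨b1, mem_univ _⟩, ?_⟩
        rw [hν' _ (by simp), hν' _ (by simp), f3, f4]
    have h4 := card_le_card h3
    rwa [card_pair (Ne.symm b2)] at h4
  have h3 : ∑ _ν : Equiv.Perm Y, 1 < ∑ ν, N ν :=
    sum_lt_sum (fun ν _ => hN ν) ⟨ν', mem_univ _, h2⟩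
  rw [hsum, sum_const, card_univ, smul_eq_mul, mul_one] at h3
  exact lt_irrefl _ h3


theorem isCen_of_idem {X : Type} [Finite X] {Q : X → X → X} (hQ : IsIdem Q) {z : X}
    (hz : ∀ x, Q z x = Q x z) : ∃ L, IsCen z Q L := by
  have hb : ∀ x, Bijective (Q x) := fun x => Finite.injective_iff_bijective.1 (hQ.row x)
  refine ⟨fun x => (Equiv.ofBijective (Q x) (hb x)).symm, ?_, ?_, hQ.col, hQ.idem, hz⟩
  · intro x k
    exact (Equiv.ofBijective (Q x) (hb x)).apply_symm_apply k
  · intro x y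
    exact (Equiv.ofBijective (Q x) (hb x)).symm_apply_apply y

theorem two_cancel {n : ℕ} (hn : Odd n) {x y : ZMod n} (h : 2 * x = 2 * y) : x = y := by
  have h2 : IsUnit (2 : ZMod n) := by
    have h := (ZMod.unitOfCoprime 2 ((Nat.coprime_two_left).2 hn)).isUnit
    rw [ZMod.coe_unitOfCoprime] at h
    exact_mod_cast h
  exact h2.mul_left_cancel h

theorem exists_cen_odd (n : ℕ) (hn : Odd n) :
    ∃ Q L : ZMod n → ZMod n → ZMod n, IsCen 0 Q L ∧ ∀ x, 2 * Q 0 x = x := by
  have : NeZero n := ⟨by rintro rfl; exact absurd hn (by decide)⟩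
  obtain ⟨Q, hQ, h2⟩ := exists_idem_odd n hn
  obtain ⟨L, hL⟩ := isCen_of_idem hQ (z := 0) (fun x => by
    apply two_cancel hn
    rw [h2, h2, add_comm])
  exact ⟨Q, L, hL, fun x => by rw [h2, zero_add]⟩

theorem exists_cen_even (m : ℕ) (hm : Odd m) (h5 : 5 ≤ m) :
    ∃ Q L : ZMod m ⊕ ZMod 3 → ZMod m ⊕ ZMod 3 → ZMod m ⊕ ZMod 3, IsCen (Sum.inr 0) Q L := by
  classical
  have : NeZero m := ⟨by omega⟩
  have hval : ∀ a : ℕ, a < m → (a : ZMod m) = 0 → a = 0 := by
    intro a ha h
    rw [ZMod.natCast_eq_zero_iff] at h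
    exact Nat.eq_zero_of_dvd_of_lt h ha
  have n1 : (1 : ZMod m) ≠ 0 := fun h => absurd (hval 1 (by omega) (by simpa using h)) (by omega)
  have n2 : (2 : ZMod m) ≠ 0 := fun h => absurd (hval 2 (by omega) (by exact_mod_cast h)) (by omega)
  have n3 : (3 : ZMod m) ≠ 0 := fun h => absurd (hval 3 (by omega) (by exact_mod_cast h)) (by omega)
  obtain ⟨d, hd0, hd1, hd2⟩ : ∃ d : ZMod 3 → ZMod m, d 0 = 1 ∧ d 1 = 2 ∧ d 2 = 3 :=
    ⟨fun b => if b = 0 then 1 else if b = 1 then 2 else 3, rfl, rfl, rfl⟩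
  have h23 : ∀ b : ZMod 3, b = 0 ∨ b = 1 ∨ b = 2 := by decide
  have dinj : Injective d := by
    intro b b' h
    rcases h23 b with rfl | rfl | rfl <;> rcases h23 b' with rfl | rfl | rfl <;>
      simp only [hd0, hd1, hd2] at h
    · rfl
    · exact absurd (by linear_combination -h) n1
    · exact absurd (by linear_combination -h) n2
    · exact absurd (by linear_combination h) n1
    · rfl
    · exact absurd (by linear_combination -h) n1
    · exact absurd (by linear_combination h) n2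
    · exact absurd (by linear_combination h) n1
    · rfl
  have dne : ∀ b, d b ≠ 0 := by
    intro b
    rcases h23 b with rfl | rfl | rfl
    · rw [hd0]; exact n1
    · rw [hd1]; exact n2
    · rw [hd2]; exact n3
  let τ : Equiv.Perm (ZMod 3) := Equiv.swap 0 1
  let Q : ZMod m ⊕ ZMod 3 → ZMod m ⊕ ZMod 3 → ZMod m ⊕ ZMod 3 := fun s t =>
    match s, t with
    | Sum.inl x, Sum.inl y => if h : ∃ b, y = x + d b then Sum.inr h.choose
        else Sum.inl (2 * y - x)
    | Sum.inl x, Sum.inr b => Sum.inl (x + 2 * d b)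
    | Sum.inr b, Sum.inl y => Sum.inl (y + d (τ b))
    | Sum.inr b, Sum.inr c => Sum.inr (- (b + c))
  have Q1 : ∀ x y b, y = x + d b → Q (Sum.inl x) (Sum.inl y) = Sum.inr b := by
    intro x y b h
    have h' : ∃ b, y = x + d b := ⟨b, h⟩
    simp only [Q]
    rw [dif_pos h']
    congr 1
    apply dinj
    have h2 := h'.choose_spec
    exact add_left_cancel (h2.symm.trans h)
  have Q2 : ∀ x y, (∀ b, y ≠ x + d b) → Q (Sum.inl x) (Sum.inl y) = Sum.inl (2 * y - x) := by
    intro x y h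
    simp only [Q]
    rw [dif_neg fun h' => h _ h'.choose_spec]
  have Q3 : ∀ x b, Q (Sum.inl x) (Sum.inr b) = Sum.inl (x + 2 * d b) := fun _ _ => rfl
  have Q4 : ∀ b y, Q (Sum.inr b) (Sum.inl y) = Sum.inl (y + d (τ b)) := fun _ _ => rfl
  have Q5 : ∀ b c, Q (Sum.inr b) (Sum.inr c) = Sum.inr (- (b + c)) := fun _ _ => rfl
  have inl' : ∀ {a b : ZMod m}, (Sum.inl a : ZMod m ⊕ ZMod 3) = Sum.inl b → a = b :=
    fun h => Sum.inl_injective h
  have inr' : ∀ {a b : ZMod 3}, (Sum.inr a : ZMod m ⊕ ZMod 3) = Sum.inr b → a = b :=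
    fun h => Sum.inr_injective h
  have hcase : ∀ x y : ZMod m, (∃ b, y = x + d b) ∨ ∀ b, y ≠ x + d b := by
    intro x y
    by_cases h : ∃ b, y = x + d b
    · exact Or.inl h
    · right
      intro b hb
      exact h ⟨b, hb⟩
  have hQ : IsIdem Q := by
    refine ⟨?_, ?_, ?_⟩
    · rintro (x | c) (y | b) (y' | b') h
      · rcases hcase x y with ⟨b, hb⟩ | hb <;> rcases hcase x y' with ⟨b', hb'⟩ | hb'
        · rw [Q1 _ _ b hb, Q1 _ _ b' hb'] at h
          rw [hb, hb', inr' h]
        · rw [Q1 _ _ b hb, Q2 _ _ hb'] at h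
          exact absurd h (by simp)
        · rw [Q1 _ _ b' hb', Q2 _ _ hb] at h
          exact absurd h (by simp)
        · rw [Q2 _ _ hb, Q2 _ _ hb'] at h
          rw [two_cancel hm (by linear_combination inl' h : (2 : ZMod m) * y = 2 * y')]
      · exfalso
        rcases hcase x y with ⟨b, hb⟩ | hb
        · rw [Q1 _ _ b hb, Q3] at h
          exact absurd h (by simp)
        · rw [Q2 _ _ hb, Q3] at h
          exact hb b' (two_cancel hm (by linear_combination inl' h))
      · exfalso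
        rcases hcase x y' with ⟨b', hb'⟩ | hb'
        · rw [Q1 _ _ b' hb', Q3] at h
          exact absurd h (by simp)
        · rw [Q2 _ _ hb', Q3] at h
          exact hb' b (two_cancel hm (by linear_combination -(inl' h)))
      · rw [Q3, Q3] at h
        rw [dinj (two_cancel hm (add_left_cancel (inl' h)))]
      · rw [Q4, Q4] at h
        rw [add_right_cancel (inl' h)]
      · rw [Q4, Q5] at h
        exact absurd h (by simp)
      · rw [Q4, Q5] at h
        exact absurd h (by simp)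
      · rw [Q5, Q5] at h
        rw [add_left_cancel (neg_injective (inr' h))]
    · rintro (y | c) (x | b) (x' | b') h
      · have h : Q (Sum.inl x) (Sum.inl y) = Q (Sum.inl x') (Sum.inl y) := h
        rcases hcase x y with ⟨b, hb⟩ | hb <;> rcases hcase x' y with ⟨b', hb'⟩ | hb'
        · rw [Q1 _ _ b hb, Q1 _ _ b' hb'] at h
          rw [inr' h] at hb
          rw [add_right_cancel (hb.symm.trans hb')]
        · rw [Q1 _ _ b hb, Q2 _ _ hb'] at h
          exact absurd h (by simp)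
        · rw [Q1 _ _ b' hb', Q2 _ _ hb] at h
          exact absurd h (by simp)
        · rw [Q2 _ _ hb, Q2 _ _ hb'] at h
          rw [(by linear_combination -(inl' h) : x = x')]
      · exfalso
        have h : Q (Sum.inl x) (Sum.inl y) = Q (Sum.inr b') (Sum.inl y) := h
        rcases hcase x y with ⟨b, hb⟩ | hb
        · rw [Q1 _ _ b hb, Q4] at h
          exact absurd h (by simp)
        · rw [Q2 _ _ hb, Q4] at h
          exact hb (τ b') (by linear_combination inl' h)
      · exfalso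
        have h : Q (Sum.inr b) (Sum.inl y) = Q (Sum.inl x') (Sum.inl y) := h
        rcases hcase x' y with ⟨b', hb'⟩ | hb'
        · rw [Q1 _ _ b' hb', Q4] at h
          exact absurd h (by simp)
        · rw [Q2 _ _ hb', Q4] at h
          exact hb' (τ b) (by linear_combination -(inl' h))
      · have h : Q (Sum.inr b) (Sum.inl y) = Q (Sum.inr b') (Sum.inl y) := h
        rw [Q4, Q4] at h
        rw [τ.injective (dinj (add_left_cancel (inl' h)))]
      · have h : Q (Sum.inl x) (Sum.inr c) = Q (Sum.inl x') (Sum.inr c) := h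
        rw [Q3, Q3] at h
        rw [add_right_cancel (inl' h)]
      · have h : Q (Sum.inl x) (Sum.inr c) = Q (Sum.inr b') (Sum.inr c) := h
        rw [Q3, Q5] at h
        exact absurd h (by simp)
      · have h : Q (Sum.inr b) (Sum.inr c) = Q (Sum.inl x') (Sum.inr c) := h
        rw [Q3, Q5] at h
        exact absurd h (by simp)
      · have h : Q (Sum.inr b) (Sum.inr c) = Q (Sum.inr b') (Sum.inr c) := h
        rw [Q5, Q5] at h
        rw [add_right_cancel (neg_injective (inr' h))]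
    · rintro (x | b)
      · rw [Q2 x x fun b h => dne b (by linear_combination -h)]
        congr 1
        ring
      · rw [Q5]
        congr 1
        revert b
        decide
  obtain ⟨L, hL⟩ := isCen_of_idem hQ (z := Sum.inr 0) (by
    rintro (x | b)
    · rw [Q4, Q3, Equiv.swap_apply_left, hd0, hd1]
      congr 1
      ring
    · rw [Q5, Q5, add_comm])
  exact ⟨Q, L, hL⟩

theorem IsCen.transport {X Y : Type} (e : Y ≃ X) {z : X} {Q L : X → X → X} (h : IsCen z Q L) :
    IsCen (e.symm z) (fun x y => e.symm (Q (e x) (e y))) (fun x y => e.symm (L (e x) (e y))) := by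
  refine ⟨?_, ?_, ?_, ?_, ?_⟩
  · intro x k
    simp only [Equiv.apply_symm_apply, h.QL, Equiv.symm_apply_apply]
  · intro x k
    simp only [Equiv.apply_symm_apply, h.LQ, Equiv.symm_apply_apply]
  · intro y x x' hx
    exact e.injective (h.col (e y) (e.symm.injective hx))
  · intro x
    simp only [h.idem, Equiv.symm_apply_apply]
  · intro x
    simp only [Equiv.apply_symm_apply, h.cen]

theorem IsCen.ne {X : Type} {z : X} {Q L : X → X → X} (h : IsCen z Q L) {y : X} (hy : y ≠ z) :
    Q z y ≠ y := fun h' => hy (h.col y (h'.trans (h.idem y).symm)).symm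

theorem conj4 : ∀ a : Equiv.Perm (Fin 4), (∀ y : Fin 4, a y ≠ y ∧ a (a y) ≠ y) →
    ∀ δ : Equiv.Perm (Fin 4), (∀ x : Fin 4, x ≠ 0 → δ x ≠ x) →
      ∃ ν : Equiv.Perm (Fin 4), ∀ x : Fin 4, x ≠ 0 → a (ν (δ x)) ≠ ν x := by
  decide +kernel

theorem exists_conj4 {Y : Type} [Fintype Y] [DecidableEq Y] (hY : Fintype.card Y = 4)
    (a δ : Equiv.Perm Y) (ha : ∀ y, a y ≠ y ∧ a (a y) ≠ y) (p : Y)
    (hδ : ∀ x, x ≠ p → δ x ≠ x) :
    ∃ ν : Equiv.Perm Y, ∀ x, x ≠ p → a (ν (δ x)) ≠ ν x := by
  obtain ⟨e0⟩ : Nonempty (Y ≃ Fin 4) := ⟨Fintype.equivOfCardEq (by rw [hY, Fintype.card_fin])⟩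
  let e : Y ≃ Fin 4 := e0.trans (Equiv.swap (e0 p) 0)
  have ep : e p = 0 := by simp [e]
  obtain ⟨ν, hν⟩ := conj4 ((e.symm.trans a).trans e) (fun y => ⟨fun h => (ha (e.symm y)).1 (by
    exact (Equiv.eq_symm_apply e).2 h), fun h => (ha (e.symm y)).2 (by
    have h : e (a (e.symm (e (a (e.symm y))))) = y := h
    rw [Equiv.symm_apply_apply] at h
    exact (Equiv.eq_symm_apply e).2 h)⟩) ((e.symm.trans δ).trans e) (by
      intro x hx h
      refine hδ (e.symm x) ?_ ((Equiv.eq_symm_apply e).2 h)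
      intro h'
      rw [Equiv.symm_apply_eq, ep] at h'
      exact hx h')
  refine ⟨(e.trans ν).trans e.symm, ?_⟩
  intro x hx h
  have h : a (e.symm (ν (e (δ x)))) = e.symm (ν (e x)) := h
  apply hν (e x) (fun h' => hx (e.injective (h'.trans ep.symm)))
  show e (a (e.symm (ν (e (δ (e.symm (e x))))))) = ν (e x)
  rw [Equiv.symm_apply_apply, h, Equiv.apply_symm_apply]

/-- an adapted central quasigroup from a given one -/
theorem adapt {X X0 : Type} [Fintype X] [Fintype X0] {z0 : X0} {Q0 L0 : X0 → X0 → X0}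
    (h0 : IsCen z0 Q0 L0) (hc : Fintype.card X = Fintype.card X0)
    (h6 : 6 ≤ Fintype.card X ∨
      (Fintype.card X = 5 ∧ ∀ y, y ≠ z0 → Q0 z0 (Q0 z0 y) ≠ y))
    (z p : X) (hp : p ≠ z) (δ : X → X) (d1 : ∀ x y, x ≠ z → y ≠ z → δ x = δ y → x = y)
    (d2 : ∀ x, x ≠ z → δ x ≠ z) (d3 : ∀ x, x ≠ z → x ≠ p → δ x ≠ x) :
    ∃ Q L : X → X → X, IsCen z Q L ∧ ∀ x, x ≠ z → x ≠ p → Q z (δ x) ≠ x := by
  classical
  obtain ⟨e0⟩ : Nonempty (X ≃ X0) := ⟨Fintype.equivOfCardEq hc⟩
  let e : X ≃ X0 := e0.trans (Equiv.swap (e0 z) z0)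
  have ez : e z = z0 := by simp [e]
  have ez' : e.symm z0 = z := by rw [← ez, Equiv.symm_apply_apply]
  have h1 := h0.transport e
  rw [ez'] at h1
  set Q1 : X → X → X := fun x y => e.symm (Q0 (e x) (e y)) with hQ1
  set L1 : X → X → X := fun x y => e.symm (L0 (e x) (e y)) with hL1
  have hzz : ∀ y, y ≠ z → Q1 z y ≠ z := by
    intro y hy h
    have := h1.LQ z y
    rw [h, h1.Lidem] at this
    exact hy this.symm
  let Y := {x : X // x ≠ z}
  let a : Equiv.Perm Y := Equiv.ofBijective (fun y : Y => (⟨Q1 z y.1, hzz y.1 y.2⟩ : Y))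
    (Finite.injective_iff_bijective.1 (by
      intro y y' h
      have h2 : Q1 z y.1 = Q1 z y'.1 := congrArg Subtype.val h
      apply Subtype.ext
      rw [← h1.LQ z y.1, h2, h1.LQ]))
  let D : Equiv.Perm Y := Equiv.ofBijective (fun y : Y => (⟨δ y.1, d2 y.1 y.2⟩ : Y))
    (Finite.injective_iff_bijective.1 (by
      intro y y' h
      exact Subtype.ext (d1 _ _ y.2 y'.2 (congrArg Subtype.val h))))
  have hcard : Fintype.card Y = Fintype.card X - 1 := by
    rw [Fintype.card_subtype_compl, Fintype.card_subtype_eq]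
  have ha : ∀ y, a y ≠ y := fun y h => h1.ne y.2 (congrArg Subtype.val h)
  have hD : ∀ y, y ≠ (⟨p, hp⟩ : Y) → D y ≠ y := by
    intro y hy h
    exact d3 y.1 y.2 (fun h' => hy (Subtype.ext h')) (congrArg Subtype.val h)
  obtain ⟨ν, hν⟩ : ∃ ν : Equiv.Perm Y, ∀ x, x ≠ (⟨p, hp⟩ : Y) → a (ν (D x)) ≠ ν x := by
    rcases h6 with h6 | ⟨h5, h6⟩
    · exact exists_conj (Y := Y) (by omega) a D ha ⟨p, hp⟩ hD
    · refine exists_conj4 (Y := Y) (by omega) a D (fun y => ⟨ha y, ?_⟩) ⟨p, hp⟩ hD
      intro h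
      have h7 : e.symm (Q0 (e z) (e (e.symm (Q0 (e z) (e y.1))))) = y.1 :=
        congrArg Subtype.val h
      rw [Equiv.apply_symm_apply, ez, Equiv.symm_apply_eq] at h7
      exact h6 (e y.1) (fun h' => y.2 (e.injective (h'.trans ez.symm))) h7
  let f : X ≃ X := Equiv.Perm.ofSubtype ν
  have fz : f z = z := Equiv.Perm.ofSubtype_apply_of_not_mem ν (by simp)
  have fz' : f.symm z = z := by rw [Equiv.symm_apply_eq, fz]
  have fy : ∀ y : Y, f y.1 = (ν y).1 := fun y => Equiv.Perm.ofSubtype_apply_coe ν y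
  have h2 := h1.transport f
  rw [fz'] at h2
  refine ⟨_, _, h2, ?_⟩
  intro x hx hxp h
  apply hν ⟨x, hx⟩ (fun h' => hxp (congrArg Subtype.val h'))
  apply Subtype.ext
  have h3 : Q1 z (f (δ x)) = f x := by
    have h4 : f.symm (Q1 (f z) (f (δ x))) = x := h
    rw [fz, Equiv.symm_apply_eq] at h4
    exact h4
  have h5 : f (δ x) = (ν (D ⟨x, hx⟩)).1 := fy (D ⟨x, hx⟩)
  have h6 : f x = (ν ⟨x, hx⟩).1 := fy ⟨x, hx⟩
  rw [h5, h6] at h3
  exact h3

/-- adapted central quasigroups exist for all orders except 1, 2, 3, 4 and 6 -/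
theorem exists_adapted {X : Type} [Fintype X] (h5 : 5 ≤ Fintype.card X)
    (h6 : Fintype.card X ≠ 6)
    (z p : X) (hp : p ≠ z) (δ : X → X) (d1 : ∀ x y, x ≠ z → y ≠ z → δ x = δ y → x = y)
    (d2 : ∀ x, x ≠ z → δ x ≠ z) (d3 : ∀ x, x ≠ z → x ≠ p → δ x ≠ x) :
    ∃ Q L : X → X → X, IsCen z Q L ∧ ∀ x, x ≠ z → x ≠ p → Q z (δ x) ≠ x := by
  have hne : NeZero (Fintype.card X) := ⟨by omega⟩
  rcases Nat.even_or_odd (Fintype.card X) with he | ho
  · have hm : Odd (Fintype.card X - 3) := by
      rw [Nat.odd_sub' (by omega)]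
      exact ⟨fun _ => he, fun _ => by decide⟩
    have h8 : 5 ≤ Fintype.card X - 3 := by
      obtain ⟨k, hk⟩ := he
      omega
    have : NeZero (Fintype.card X - 3) := ⟨by omega⟩
    obtain ⟨Q, L, h⟩ := exists_cen_even _ hm h8
    exact adapt h (by
      rw [Fintype.card_sum, ZMod.card, ZMod.card]
      omega) (Or.inl (by omega)) z p hp δ d1 d2 d3
  · obtain ⟨Q, L, h, h2⟩ := exists_cen_odd _ ho
    refine adapt h (by rw [ZMod.card]) ?_ z p hp δ d1 d2 d3
    by_cases h5' : Fintype.card X = 5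
    · right
      refine ⟨h5', fun y hy h' => hy ?_⟩
      have e1 := h2 (Q 0 y)
      have e2 := h2 y
      rw [h'] at e1
      have e3 : (3 : ZMod (Fintype.card X)) * y = 0 := by linear_combination 2 * e1 + e2
      have e4 : (5 : ZMod (Fintype.card X)) = 0 := by
        have := ZMod.natCast_self (Fintype.card X)
        have e5 : ((Fintype.card X : ℕ) : ZMod (Fintype.card X)) = ((5 : ℕ) : ZMod _) := by
          rw [h5']
        rw [this] at e5
        exact_mod_cast e5.symm
      linear_combination 2 * e3 - y * e4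
    · left
      omega

end Pool.Agent.H809_TA
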