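import Mathlib

/-!
A colouring of the flags of an arbitrary affine plane from two centres, a line and an idempotent
quasigroup with a central element.
-/

set_option autoImplicit false

namespace Pool.Agent.H809_TA

open Function

/-- `cl i j` is the line of the parallel class `i` through the point `j` of an affine plane -/
structure IsPl {I J V : Type} (cl : I → J → V) : Prop where
  inj : ∀ i i' j j', i ≠ i' → cl i j = cl i j' → cl i' j = cl i' j' → j = j'
  meet : ∀ i i' a b, i ≠ i' → ∃ j, cl i j = cl i a ∧ cl i' j = cl i' b
  join : ∀ j j', ∃ i, cl i j = cl i j'

/-- the colour of the flag in the class `c` at a point with vertical label `x` whose join with the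
centre has the label `κ` -/
noncomputable def baseCol {X : Type} (L : X → X → X) (x κ : X) (c : Option X) : Option X := by
  classical
  exact match c with
  | none => some (L x κ)
  | some k => if k = x then none else if k = κ then some x else some (L x k)

section

variable {X : Type} {L : X → X → X} {x κ k : X}

theorem baseCol_none : baseCol L x κ none = some (L x κ) := rfl

theorem baseCol_self : baseCol L x κ (some x) = none := by
  simp [baseCol]

theorem baseCol_cen (h : κ ≠ x) : baseCol L x κ (some κ) = some x := by
  simp [baseCol, h]

theorem baseCol_some (h : k ≠ x) (h' : k ≠ κ) : baseCol L x κ (some k) = some (L x k) := by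
  simp [baseCol, h, h']

theorem baseCol_inj (h1 : ∀ x, Injective (L x)) (h2 : ∀ x, L x x = x) :
    Injective (baseCol L x κ) := by
  have hx : ∀ k, k ≠ x → L x k ≠ x := fun k h h' => h (h1 x (h'.trans (h2 x).symm))
  intro c c' h
  rcases c with _ | k <;> rcases c' with _ | k'
  · rfl
  · exfalso
    by_cases e1 : k' = x
    · subst e1
      rw [baseCol_none, baseCol_self] at h
      exact absurd h (by simp)
    · by_cases e2 : k' = κ
      · subst e2
        rw [baseCol_none, baseCol_cen e1] at h
        exact hx k' e1 (Option.some_injective _ h)
      · rw [baseCol_none, baseCol_some e1 e2] at h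
        exact e2 (h1 x (Option.some_injective _ h)).symm
  · exfalso
    by_cases e1 : k = x
    · subst e1
      rw [baseCol_none, baseCol_self] at h
      exact absurd h (by simp)
    · by_cases e2 : k = κ
      · subst e2
        rw [baseCol_none, baseCol_cen e1] at h
        exact hx k e1 (Option.some_injective _ h).symm
      · rw [baseCol_none, baseCol_some e1 e2] at h
        exact e2 (h1 x (Option.some_injective _ h))
  · by_cases e1 : k = x <;> by_cases e1' : k' = x
    · rw [e1, e1']
    · exfalso
      subst e1
      by_cases e2 : k' = κ
      · subst e2
        rw [baseCol_self, baseCol_cen e1'] at h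
        exact absurd h (by simp)
      · rw [baseCol_self, baseCol_some e1' e2] at h
        exact absurd h (by simp)
    · exfalso
      subst e1'
      by_cases e2 : k = κ
      · subst e2
        rw [baseCol_self, baseCol_cen e1] at h
        exact absurd h (by simp)
      · rw [baseCol_self, baseCol_some e1 e2] at h
        exact absurd h (by simp)
    · by_cases e2 : k = κ <;> by_cases e2' : k' = κ
      · rw [e2, e2']
      · exfalso
        subst e2
        rw [baseCol_cen e1, baseCol_some e1' e2'] at h
        exact hx k' e1' (Option.some_injective _ h).symm
      · exfalso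
        subst e2'
        rw [baseCol_cen e1', baseCol_some e1 e2] at h
        exact hx k e1 (Option.some_injective _ h)
      · rw [baseCol_some e1 e2, baseCol_some e1' e2'] at h
        rw [h1 x (Option.some_injective _ h)]

end


/-- the data of a central idempotent quasigroup: product `Q`, left division `L`, central
element `z` -/
structure IsCen {X : Type} (z : X) (Q L : X → X → X) : Prop where
  QL : ∀ x k, Q x (L x k) = k
  LQ : ∀ x y, L x (Q x y) = y
  col : ∀ y, Injective (fun x => Q x y)
  idem : ∀ x, Q x x = x
  cen : ∀ x, Q z x = Q x z

theorem IsCen.Linj {X : Type} {z : X} {Q L : X → X → X} (h : IsCen z Q L) (x : X) :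
    Injective (L x) := by
  intro k k' hk
  rw [← h.QL x k, hk, h.QL]

theorem IsCen.Lidem {X : Type} {z : X} {Q L : X → X → X} (h : IsCen z Q L) (x : X) :
    L x x = x := by
  have := h.LQ x x
  rwa [h.idem] at this

theorem IsCen.Lcol {X : Type} {z : X} {Q L : X → X → X} (h : IsCen z Q L) {x x' k : X}
    (he : L x k = L x' k) : x = x' := by
  apply h.col (L x k)
  show Q x (L x k) = Q x' (L x k)
  rw [h.QL, he, h.QL]

theorem pl_color {I J V X : Type} {cl : I → J → V} (h : IsPl cl) {inf d : I} (hd : d ≠ inf)
    {O E D0 : J} (h1 : cl inf D0 = cl inf O) (h2 : D0 ≠ O) (h3 : cl d E = cl d O) (h4 : E ≠ O)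
    {v : J → X} (hv : ∀ j j', v j = v j' ↔ cl inf j = cl inf j') {lab : I → X}
    (hlab : ∀ i i', i ≠ inf → i' ≠ inf → lab i = lab i' → i = i') {Q L : X → X → X}
    (hQ : IsCen (v O) Q L) (hd0 : lab d = v O)
    (hE : ∀ i P, i ≠ inf → cl d P = cl d D0 → cl i P = cl i E → v P ≠ v O →
      lab i = Q (v O) (v P))
    (hs : ∀ i P, i ≠ inf → cl d P = cl d D0 → cl i P = cl i O → v P ≠ v E → v P ≠ v O →
      lab i ≠ v P) :
    ∃ g : J → I → Option X, (∀ j, Injective (g j)) ∧ (∀ j, g j inf ≠ none) ∧
      (∀ j i, i ≠ inf → g j i ≠ some (lab i)) ∧
      ∀ i j j', cl i j = cl i j' → g j i = g j' i → j = j' := by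
  classical
  obtain ⟨inj, meet, join⟩ := h
  have hm : ∀ i a, ∃ p, i ≠ d → cl d p = cl d D0 ∧ cl i p = cl i a := by
    intro i a
    by_cases hi : i = d
    · exact ⟨a, fun h => absurd hi h⟩
    · obtain ⟨p, h1, h2⟩ := meet d i D0 a (Ne.symm hi)
      exact ⟨p, fun _ => ⟨h1, h2⟩⟩
  choose m hm using hm
  choose κ hκ using fun j => join j O
  choose ε hε using fun j => join j E
  have κu : ∀ j i, j ≠ O → cl i j = cl i O → i = κ j := by
    intro j i hj hi
    by_contra hc
    exact hj (inj i (κ j) j O hc hi (hκ j))
  have εu : ∀ j i, j ≠ E → cl i j = cl i E → i = ε j := by
    intro j i hj hi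
    by_contra hc
    exact hj (inj i (ε j) j E hc hi (hε j))
  have hdD : cl d O ≠ cl d D0 := fun h => h2 (inj inf d D0 O (Ne.symm hd) h1 h.symm)
  have DO : ∀ p, cl d p = cl d D0 → p ≠ O := fun p hp h => hdD (h ▸ hp)
  have DE : ∀ p, cl d p = cl d D0 → p ≠ E := by
    intro p hp h
    rw [h, h3] at hp
    exact hdD hp
  have Dv : ∀ p p', cl d p = cl d D0 → cl d p' = cl d D0 → v p = v p' → p = p' :=
    fun p p' hp hp' hpp => inj d inf p p' hd (hp.trans hp'.symm) ((hv p p').1 hpp)
  have vD0 : v D0 = v O := (hv D0 O).2 h1
  have vE : v E ≠ v O := fun h => h4 (inj d inf E O hd h3 ((hv E O).1 h))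
  have κD : ∀ p, cl d p = cl d D0 → κ p ≠ d := by
    intro p hp h
    have := hκ p
    rw [h, hp] at this
    exact hdD this.symm
  have κinf : ∀ j, v j ≠ v O → κ j ≠ inf := by
    intro j hj h
    have := hκ j
    rw [h] at this
    exact hj ((hv j O).2 this)
  have εinf : ∀ j, v j ≠ v E → ε j ≠ inf := by
    intro j hj h
    have := hε j
    rw [h] at this
    exact hj ((hv j E).2 this)
  -- `O`, `E` and a point of `D` are not collinear
  have ncol : ∀ i p, cl d p = cl d D0 → cl i p = cl i O → cl i p = cl i E → False := by
    intro i p hp ha hb
    by_cases hi : i = d
    · subst hi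
      exact hdD (ha.symm.trans hp)
    · exact h4 (inj d i E O (Ne.symm hi) h3 (hb.symm.trans ha))
  -- the line of the class `i` through `E` meets `D` off the vertical line of `E`
  have mE : ∀ i, i ≠ inf → i ≠ d → v (m i E) ≠ v E := by
    intro i hi hid h
    obtain ⟨a, b⟩ := hm i E hid
    exact DE _ a (inj i inf _ _ hi b ((hv _ _).1 h))
  have mO : ∀ i, i ≠ inf → i ≠ d → v (m i O) ≠ v O := by
    intro i hi hid h
    obtain ⟨a, b⟩ := hm i O hid
    exact DO _ a (inj i inf _ _ hi b ((hv _ _).1 h))
  let κX : J → X := fun j => if cl inf j = cl inf O then v O else lab (κ j)
  have κX0 : ∀ j, v j = v O → κX j = v O := fun j hj => if_pos ((hv j O).1 hj)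
  have κX1 : ∀ j, v j ≠ v O → κX j = lab (κ j) := fun j hj => if_neg fun h => hj ((hv j O).2 h)
  let t : J → X := fun j => if cl d j = cl d D0 then (if v j = v E then v O else v j)
    else if cl inf j = cl inf O then v (m (ε j) E) else v O
  have tE : ∀ j, cl d j = cl d D0 → v j = v E → t j = v O := by
    intro j a b
    simp only [t]
    rw [if_pos a, if_pos b]
  have tD : ∀ j, cl d j = cl d D0 → v j ≠ v E → t j = v j := by
    intro j a b
    simp only [t]
    rw [if_pos a, if_neg b]
  have tV : ∀ j, cl d j ≠ cl d D0 → v j = v O → t j = v (m (ε j) E) := by
    intro j a b
    simp only [t]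
    rw [if_neg a, if_pos ((hv j O).1 b)]
  have t0 : ∀ j, cl d j ≠ cl d D0 → v j ≠ v O → t j = v O := by
    intro j a b
    simp only [t]
    rw [if_neg a, if_neg fun h => b ((hv j O).2 h)]
  let sw : X → Option X → Option X := fun a => Equiv.swap (some (v O)) (some a)
  have sw0 : ∀ c, sw (v O) c = c := by
    intro c
    simp only [sw]
    rw [Equiv.swap_self]
    rfl
  have swl : ∀ a, sw a (some (v O)) = some a := fun a => Equiv.swap_apply_left _ _
  have swr : ∀ a, sw a (some a) = some (v O) := fun a => Equiv.swap_apply_right _ _
  have swn : ∀ a, sw a none = none := fun a =>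
    Equiv.swap_apply_of_ne_of_ne (by simp) (by simp)
  have swo : ∀ a b, b ≠ v O → b ≠ a → sw a (some b) = some b := fun a b h h' =>
    Equiv.swap_apply_of_ne_of_ne (fun e => h (Option.some_injective _ e))
      (fun e => h' (Option.some_injective _ e))
  have swi : ∀ a, Injective (sw a) := fun a => (Equiv.swap (some (v O)) (some a)).injective
  let oL : I → Option X := fun i => if i = inf then none else some (lab i)
  have oLinf : oL inf = none := if_pos rfl
  have oLs : ∀ i, i ≠ inf → oL i = some (lab i) := fun i hi => if_neg hi
  have oLi : Injective oL := by
    intro i i' h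
    by_cases hi : i = inf <;> by_cases hi' : i' = inf
    · rw [hi, hi']
    · rw [hi, oLinf, oLs i' hi'] at h
      exact absurd h (by simp)
    · rw [hi', oLinf, oLs i hi] at h
      exact absurd h (by simp)
    · rw [oLs i hi, oLs i' hi'] at h
      exact hlab i i' hi hi' (Option.some_injective _ h)
  let g : J → I → Option X := fun j i =>
    if j = O then (if i = inf then some (v E) else if i = d then none else sw (v E) (some (v (m i O))))
    else sw (t j) (baseCol L (v j) (κX j) (oL i))
  have gO1 : g O inf = some (v E) := by
    simp only [g, if_true]
  have gO2 : g O d = none := by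
    simp only [g, if_true]
    rw [if_neg hd]
  have gO3 : ∀ i, i ≠ inf → i ≠ d → g O i = sw (v E) (some (v (m i O))) := by
    intro i a b
    simp only [g, if_true]
    rw [if_neg a, if_neg b]
  have gj : ∀ j i, j ≠ O → g j i = sw (t j) (baseCol L (v j) (κX j) (oL i)) := by
    intro j i hj
    simp only [g]
    rw [if_neg hj]
  have sws : ∀ a b, sw a (some b) ≠ none := fun a b h =>
    absurd (swi a (h.trans (swn a).symm)) (by simp)
  have Linj := hQ.Linj
  have Lidem := hQ.Lidem
  -- the point of `D` on the join of `E` and a point of the vertical line of `O` off `D`
  have εd : ∀ j, j ≠ O → v j = v O → ε j ≠ d := by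
    intro j hj hvj h
    have := hε j
    rw [h, h3] at this
    exact hj (inj d inf j O hd this ((hv j O).1 hvj))
  have xε : ∀ j, j ≠ O → v j = v O → cl d j ≠ cl d D0 → v (m (ε j) E) ≠ v O ∧
      lab (ε j) = Q (v O) (v (m (ε j) E)) := by
    intro j hj hvj hjD
    have e1 : ε j ≠ inf := εinf j (hvj ▸ vE.symm)
    obtain ⟨a, b⟩ := hm (ε j) E (εd j hj hvj)
    have e2 : v (m (ε j) E) ≠ v O := by
      intro h
      have e3 : m (ε j) E = D0 := Dv _ _ a rfl (h.trans vD0.symm)
      rw [e3] at b
      apply hjD
      rw [inj (ε j) inf j D0 e1 ((hε j).trans b.symm) ((hv _ _).1 (hvj.trans vD0.symm))]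
    exact ⟨e2, hE (ε j) _ e1 a b e2⟩
  refine ⟨g, ?_, ?_, ?_, ?_⟩
  · -- injectivity at the points
    intro j
    by_cases hj : j = O
    · subst hj
      intro i i' hii
      have key : ∀ i, i ≠ inf → i ≠ d → g j i ≠ some (v E) := by
        intro i hi hi' h
        rw [gO3 i hi hi', ← swl (v E)] at h
        exact mO i hi hi' (Option.some_injective _ (swi _ h))
      by_cases a : i = inf <;> by_cases a' : i' = inf
      · rw [a, a']
      · exfalso
        by_cases b' : i' = d
        · rw [a, b', gO1, gO2] at hii
          exact absurd hii (by simp)
        · rw [a, gO1] at hii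
          exact key i' a' b' hii.symm
      · exfalso
        by_cases b : i = d
        · rw [a', b, gO1, gO2] at hii
          exact absurd hii (by simp)
        · rw [a', gO1] at hii
          exact key i a b hii
      · by_cases b : i = d <;> by_cases b' : i' = d
        · rw [b, b']
        · rw [b, gO2, gO3 i' a' b'] at hii
          exact absurd hii.symm (sws _ _)
        · rw [b', gO2, gO3 i a b] at hii
          exact absurd hii (sws _ _)
        · rw [gO3 i a b, gO3 i' a' b'] at hii
          obtain ⟨c1, c2⟩ := hm i j b
          obtain ⟨c3, c4⟩ := hm i' j b'
          have e1 : m i j = m i' j := Dv _ _ c1 c3 (Option.some_injective _ (swi _ hii))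
          have e2 := κu (m i j) i (DO _ c1) c2
          rw [← e1] at c4
          have e3 := κu (m i j) i' (DO _ c1) c4
          rw [e2, e3]
    · intro i i' hii
      rw [gj j i hj, gj j i' hj] at hii
      exact oLi (baseCol_inj Linj Lidem (swi _ hii))
  · intro j
    by_cases hj : j = O
    · subst hj
      rw [gO1]
      simp
    · rw [gj j inf hj, oLinf, baseCol_none]
      exact sws _ _
  · intro j i hi h
    by_cases hj : j = O
    · subst hj
      by_cases hid : i = d
      · rw [hid, gO2] at h
        exact absurd h (by simp)
      · rw [gO3 i hi hid] at h
        obtain ⟨c1, c2⟩ := hm i j hid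
        by_cases e : v (m i j) = v E
        · rw [e, swr] at h
          exact hid (hlab i d hi hd ((Option.some_injective _ h).symm.trans hd0.symm))
        · rw [swo _ _ (mO i hi hid) e] at h
          exact hs i _ hi c1 c2 e (mO i hi hid) (Option.some_injective _ h).symm
    · rw [gj j i hj, oLs i hi] at h
      by_cases e1 : lab i = v j
      · rw [e1, baseCol_self, swn] at h
        exact absurd h (by simp)
      · by_cases e2 : lab i = κX j
        · rw [e2] at h e1
          rw [baseCol_cen e1] at h
          have e3 : v j ≠ v O := by
            intro e3
            rw [κX0 j e3, e3] at e1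
            exact e1 rfl
          by_cases e4 : t j = v j
          · rw [e4, swr] at h
            have hjD : cl d j = cl d D0 := by
              by_contra hc
              rw [t0 j hc e3] at e4
              exact e3 e4.symm
            apply κD j hjD
            apply hlab _ _ (κinf j e3) hd
            rw [← κX1 j e3, hd0]
            exact (Option.some_injective _ h).symm
          · rw [swo _ _ e3 (Ne.symm e4)] at h
            exact e1 (Option.some_injective _ h).symm
        · rw [baseCol_some e1 e2] at h
          have e3 : L (v j) (lab i) ≠ lab i := by
            intro e3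
            exact e1 (hQ.Lcol (e3.trans (Lidem _).symm)).symm
          have e4 : L (v j) (lab i) ≠ v j := by
            intro e4
            exact e1 (Linj _ (e4.trans (Lidem _).symm))
          by_cases e5 : L (v j) (lab i) = v O
          · rw [e5, swl] at h
            have h := Option.some_injective _ h
            by_cases hjD : cl d j = cl d D0
            · by_cases e6 : v j = v E
              · rw [tE j hjD e6] at h
                exact e3 (e5.trans h)
              · rw [tD j hjD e6] at h
                exact e1 h.symm
            · by_cases e6 : v j = v O
              · exact e4 (e5.trans e6.symm)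
              · rw [t0 j hjD e6] at h
                exact e3 (e5.trans h)
          · by_cases e6 : L (v j) (lab i) = t j
            · rw [e6, swr] at h
              have h := Option.some_injective _ h
              by_cases hjD : cl d j = cl d D0
              · by_cases e7 : v j = v E
                · rw [tE j hjD e7] at e6
                  exact e5 e6
                · rw [tD j hjD e7] at e6
                  exact e4 e6
              · by_cases e7 : v j = v O
                · exact e1 (h.symm.trans e7.symm)
                · rw [t0 j hjD e7] at e6
                  exact e5 e6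
            · rw [swo _ _ e5 e6] at h
              exact e3 (Option.some_injective _ h)
  · intro i j j' hl hg
    by_cases hi : i = inf
    · subst hi
      have hvv : v j = v j' := (hv j j').2 hl
      by_cases hz : v j = v O
      · -- the vertical line of `O`
        have f1 : ∀ j, j ≠ O → v j = v O → g j i = some (t j) := by
          intro j hj hjz
          rw [gj j i hj, oLinf, baseCol_none, κX0 j hjz, hjz, Lidem, swl]
        have f2 : ∀ j, cl d j = cl d D0 → v j = v O → t j = v O := by
          intro j a b
          rw [tD j a (by rw [b]; exact vE.symm), b]
        have f3 : ∀ j, j ≠ O → v j = v O → t j ≠ v E := by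
          intro j a b h
          by_cases c : cl d j = cl d D0
          · rw [f2 j c b] at h
            exact vE h.symm
          · rw [tV j c b] at h
            exact mE (ε j) (εinf j (b ▸ vE.symm)) (εd j a b) h
        by_cases a : j = O <;> by_cases a' : j' = O
        · rw [a, a']
        · exfalso
          rw [a, gO1, f1 j' a' (hvv ▸ hz)] at hg
          exact f3 j' a' (hvv ▸ hz) (Option.some_injective _ hg).symm
        · exfalso
          rw [a', gO1, f1 j a hz] at hg
          exact f3 j a hz (Option.some_injective _ hg)
        · have hz' : v j' = v O := hvv ▸ hz
          rw [f1 j a hz, f1 j' a' hz'] at hg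
          have hg := Option.some_injective _ hg
          by_cases b : cl d j = cl d D0 <;> by_cases b' : cl d j' = cl d D0
          · exact Dv _ _ b b' hvv
          · exfalso
            rw [f2 j b hz, tV j' b' hz'] at hg
            exact (xε j' a' hz' b').1 hg.symm
          · exfalso
            rw [f2 j' b' hz', tV j b hz] at hg
            exact (xε j a hz b).1 hg
          · rw [tV j b hz, tV j' b' hz'] at hg
            obtain ⟨c1, c2⟩ := hm (ε j) E (εd j a hz)
            obtain ⟨c3, c4⟩ := hm (ε j') E (εd j' a' hz')
            have c5 := Dv _ _ c1 c3 hg
            have c6 := εu _ _ (DE _ c1) c2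
            rw [← c5] at c4
            have c7 := εu _ _ (DE _ c1) c4
            have c8 : ε j = ε j' := c6.trans c7.symm
            refine inj (ε j) i j j' (εinf j (hz ▸ vE.symm)) ?_ hl
            rw [hε j, c8, hε j']
      · -- the other vertical lines
        have f1 : ∀ j, v j ≠ v O → g j i = some (L (v j) (κX j)) := by
          intro j hjz
          have hj : j ≠ O := fun h => hjz (by rw [h])
          rw [gj j i hj, oLinf, baseCol_none]
          by_cases hjD : cl d j = cl d D0
          · by_cases e1 : v j = v E
            · rw [tE j hjD e1, sw0]
            · rw [tD j hjD e1]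
              apply swo
              · intro e2
                have e3 : κX j = Q (v O) (v j) := by
                  rw [hQ.cen, ← e2, hQ.QL]
                have e4 := hE (ε j) j (εinf j e1) hjD (hε j) hjz
                rw [κX1 j hjz, ← e4] at e3
                have e5 := hlab _ _ (κinf j hjz) (εinf j e1) e3
                refine ncol (κ j) j hjD (hκ j) ?_
                rw [e5]
                exact hε j
              · intro e2
                have e3 := Linj _ (e2.trans (Lidem _).symm)
                rw [κX1 j hjz] at e3
                exact hs (κ j) j (κinf j hjz) hjD (hκ j) e1 hjz e3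
          · rw [t0 j hjD hjz, sw0]
        rw [f1 j hz, f1 j' (hvv ▸ hz), ← hvv] at hg
        have e1 := Linj _ (Option.some_injective _ hg)
        rw [κX1 j hz, κX1 j' (hvv ▸ hz)] at e1
        have e2 := hlab _ _ (κinf j hz) (κinf j' (hvv ▸ hz)) e1
        refine inj (κ j) i j j' (κinf j hz) ?_ hl
        rw [hκ j, e2, hκ j']
    · -- the other classes
      suffices hvv : v j = v j' from inj i inf j j' hi hl ((hv j j').1 hvv)
      by_cases hO : cl i j = cl i O
      · have hO' : cl i j' = cl i O := hl ▸ hO
        by_cases hid : i = d
        · subst hid
          have f1 : ∀ j, j ≠ O → cl i j = cl i O → g j i = some (v j) := by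
            intro j hj hjO
            have e1 : cl i j ≠ cl i D0 := fun h => hdD (hjO.symm.trans h)
            have e2 : v j ≠ v O := fun h => hj (inj i inf j O hi hjO ((hv j O).1 h))
            have e3 : κX j = v O := by
              rw [κX1 j e2, ← κu j i hj hjO, hd0]
            rw [gj j i hj, oLs i hi, hd0, e3, baseCol_cen (Ne.symm e2), t0 j e1 e2, sw0]
          by_cases a : j = O <;> by_cases a' : j' = O
          · rw [a, a']
          · rw [a, gO2, f1 j' a' hO'] at hg
            exact absurd hg (by simp)
          · rw [a', gO2, f1 j a hO] at hg
            exact absurd hg (by simp)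
          · rw [f1 j a hO, f1 j' a' hO'] at hg
            exact Option.some_injective _ hg
        · obtain ⟨c1, c2⟩ := hm i O hid
          have c3 := mO i hi hid
          have c4 : lab i ≠ v O := fun h => hid (hlab i d hi hd (h.trans hd0.symm))
          obtain ⟨τ, hτ⟩ : ∃ τ, τ = if v (m i O) = v E then v O else v (m i O) := ⟨_, rfl⟩
          have f1 : ∀ j, cl i j = cl i O →
              g j i = if lab i = v j then none else sw τ (some (v j)) := by
            intro j hjO
            by_cases hj : j = O
            · subst hj
              rw [gO3 i hi hid, if_neg c4]
              by_cases e1 : v (m i j) = v E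
              · rw [hτ, if_pos e1, sw0, e1, swr]
              · rw [hτ, if_neg e1, swl, swo _ _ c3 e1]
            · have e2 : v j ≠ v O := fun h => hj (inj i inf j O hi hjO ((hv j O).1 h))
              have e3 : κX j = lab i := by rw [κX1 j e2, ← κu j i hj hjO]
              rw [gj j i hj, oLs i hi, e3]
              by_cases e4 : lab i = v j
              · rw [if_pos e4, e4, baseCol_self, swn]
              · rw [if_neg e4, baseCol_cen e4]
                by_cases e5 : v j = v (m i O)
                · have e6 : j = m i O := inj i inf j _ hi (hjO.trans c2.symm) ((hv _ _).1 e5)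
                  have e7 : t j = τ := by
                    rw [hτ, ← e5]
                    by_cases e8 : v j = v E
                    · rw [if_pos e8, tE j (e6 ▸ c1) e8]
                    · rw [if_neg e8, tD j (e6 ▸ c1) e8]
                  rw [e7]
                · have e6 : cl d j ≠ cl d D0 := by
                    intro e6
                    exact e5 (congrArg v (inj i d j _ hid (hjO.trans c2.symm) (e6.trans c1.symm)))
                  rw [t0 j e6 e2, sw0, swo τ _ e2]
                  rw [hτ]
                  split_ifs
                  · exact e2
                  · exact e5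
          rw [f1 j hO, f1 j' hO'] at hg
          by_cases a : lab i = v j <;> by_cases a' : lab i = v j'
          · rw [← a, ← a']
          · rw [if_pos a, if_neg a'] at hg
            exact absurd hg.symm (sws _ _)
          · rw [if_neg a, if_pos a'] at hg
            exact absurd hg (sws _ _)
          · rw [if_neg a, if_neg a'] at hg
            exact Option.some_injective _ (swi _ hg)
      · obtain ⟨τ, hτ⟩ : ∃ τ, τ = if cl i j = cl i E then v (m i E) else v O := ⟨_, rfl⟩
        have f1 : ∀ y, cl i y = cl i j →
            g y i = if lab i = v y then none else sw τ (some (L (v y) (lab i))) := by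
          intro y hy
          have hyO : cl i y ≠ cl i O := fun h => hO (hy.symm.trans h)
          have hy0 : y ≠ O := fun h => hyO (by rw [h])
          rw [gj y i hy0, oLs i hi]
          by_cases e1 : lab i = v y
          · rw [if_pos e1, e1, baseCol_self, swn]
          · have e2 : lab i ≠ κX y := by
              intro e2
              by_cases e3 : v y = v O
              · rw [κX0 y e3] at e2
                exact e1 (e2.trans e3.symm)
              · rw [κX1 y e3] at e2
                apply hyO
                rw [hlab i _ hi (κinf y e3) e2]
                exact hκ y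
            have e4 : L (v y) (lab i) ≠ v y := by
              intro e4
              exact e1 (Linj _ (e4.trans (Lidem _).symm))
            rw [if_neg e1, baseCol_some e1 e2]
            by_cases hyE : cl i j = cl i E
            · have hid : i ≠ d := by
                intro hid
                rw [hid, h3] at hyE
                rw [hid] at hO
                exact hO hyE
              rw [hτ, if_pos hyE]
              obtain ⟨c1, c2⟩ := hm i E hid
              have c3 := mE i hi hid
              have hyE' : cl i y = cl i E := hy.trans hyE
              by_cases e5 : v y = v (m i E)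
              · have e6 : y = m i E := inj i inf y _ hi (hyE'.trans c2.symm) ((hv _ _).1 e5)
                rw [tD y (e6 ▸ c1) (e5 ▸ c3), e5]
              · have e6 : cl d y ≠ cl d D0 := by
                  intro e6
                  exact e5 (congrArg v (inj i d y _ hid (hyE'.trans c2.symm) (e6.trans c1.symm)))
                by_cases e7 : v y = v O
                · have e8 : y ≠ E := fun h => vE (by rw [← h]; exact e7)
                  rw [tV y e6 e7, ← εu y i e8 hyE']
                · rw [t0 y e6 e7, sw0]
                  by_cases e8 : v (m i E) = v O
                  · rw [e8, sw0]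
                  · have e9 := hE i _ hi c1 c2 e8
                    symm
                    apply swo
                    · intro e10
                      apply e5
                      apply hQ.col (v O)
                      have a1 : Q (v y) (v O) = lab i := by
                        rw [← e10, hQ.QL]
                      exact a1.trans (e9.trans (hQ.cen _))
                    · intro e10
                      apply e7
                      apply hQ.col (v (m i E))
                      show Q (v y) (v (m i E)) = Q (v O) (v (m i E))
                      rw [← e9, ← e10, hQ.QL]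
            · rw [hτ, if_neg hyE, sw0]
              have hyE' : cl i y ≠ cl i E := fun h => hyE (hy.symm.trans h)
              by_cases hyD : cl d y = cl d D0
              · by_cases e5 : v y = v E
                · rw [tE y hyD e5, sw0]
                · rw [tD y hyD e5]
                  by_cases e6 : v y = v O
                  · rw [e6, sw0]
                  · apply swo _ _ _ e4
                    intro e7
                    have e8 := hE (ε y) y (εinf y e5) hyD (hε y) e6
                    apply hyE'
                    have e9 : lab i = lab (ε y) := by
                      rw [e8, hQ.cen, ← e7, hQ.QL]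
                    rw [hlab i _ hi (εinf y e5) e9]
                    exact hε y
              · by_cases e5 : v y = v O
                · obtain ⟨c1, c2⟩ := xε y hy0 e5 hyD
                  rw [tV y hyD e5]
                  apply swo
                  · rw [e5] at e4
                    rw [e5]
                    exact e4
                  · intro e7
                    apply hyE'
                    have e9 : lab i = lab (ε y) := by
                      rw [c2, ← e7, e5, hQ.QL]
                    rw [hlab i _ hi (εinf y (e5 ▸ vE.symm)) e9]
                    exact hε y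
                · rw [t0 y hyD e5, sw0]
        rw [f1 j rfl, f1 j' hl.symm] at hg
        by_cases a : lab i = v j <;> by_cases a' : lab i = v j'
        · rw [← a, ← a']
        · rw [if_pos a, if_neg a'] at hg
          exact absurd hg.symm (sws _ _)
        · rw [if_neg a, if_pos a'] at hg
          exact absurd hg (sws _ _)
        · rw [if_neg a, if_neg a'] at hg
          exact hQ.Lcol (Option.some_injective _ (swi _ hg))

end Pool.Agent.H809_TA
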