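import Mathlib

/-!
Triple arrays and unordered triple arrays.
-/

set_option autoImplicit false

namespace Pool.Agent.H809_TA

open Finset

/-- the set of symbols in row `i` of the array `T` -/
def rowSet {I J V : Type} [Fintype J] [DecidableEq V] (T : I → J → V) (i : I) : Finset V :=
  univ.image (T i)

/-- the set of symbols in column `j` of the array `T` -/
def colSet {I J V : Type} [Fintype I] [DecidableEq V] (T : I → J → V) (j : J) : Finset V :=
  univ.image (fun i => T i j)

/-- `T` is a triple array: rows indexed by `I`, columns by `J`, symbols from `V`. -/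
structure IsTripleArray {I J V : Type} [Fintype I] [Fintype J] [DecidableEq V]
    (T : I → J → V) : Prop where
  /-- no symbol is repeated within a row -/
  row : ∀ i, Function.Injective (T i)
  /-- no symbol is repeated within a column -/
  col : ∀ j, Function.Injective (fun i => T i j)
  /-- every symbol occurs the same number of times -/
  rep : ∃ e : ℕ, ∀ s : V, (univ.filter (fun x : I × J => T x.1 x.2 = s)).card = e
  /-- any row and any column have the same number of symbols in common -/
  rc : ∃ l : ℕ, ∀ i j, (rowSet T i ∩ colSet T j).card = l
  /-- any two distinct rows have the same number of symbols in common -/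
  rr : ∃ l : ℕ, ∀ i i', i ≠ i' → (rowSet T i ∩ rowSet T i').card = l
  /-- any two distinct columns have the same number of symbols in common -/
  cc : ∃ l : ℕ, ∀ j j', j ≠ j' → (colSet T j ∩ colSet T j').card = l

/-- `R`, `C` are the row-sets and column-sets of an unordered triple array with replication
number `e`. -/
structure IsUTA {I J V : Type} [Fintype I] [Fintype J] [DecidableEq V]
    (R : I → Finset V) (C : J → Finset V) (e : ℕ) : Prop where
  cardR : ∀ i, (R i).card = Fintype.card J
  cardC : ∀ j, (C j).card = Fintype.card I
  repR : ∀ s : V, (univ.filter (fun i => s ∈ R i)).card = e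
  repC : ∀ s : V, (univ.filter (fun j => s ∈ C j)).card = e
  rc : ∃ l : ℕ, ∀ i j, (R i ∩ C j).card = l
  rr : ∃ l : ℕ, ∀ i i', i ≠ i' → (R i ∩ R i').card = l
  cc : ∃ l : ℕ, ∀ j j', j ≠ j' → (C j ∩ C j').card = l

end Pool.Agent.H809_TA
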