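import Mathlib

/-!
Symmetric designs as families of blocks.
-/

set_option autoImplicit false

namespace Pool.Agent.H809_TA

open Finset

/-- `Blk` is the block set of a symmetric design with block size `k`: as many blocks as points, all
blocks of size `k`, every two points in exactly `lam` blocks. -/
structure IsSymDesign {P : Type} [Fintype P] [DecidableEq P] (Blk : Finset (Finset P))
    (k lam : ℕ) : Prop where
  card : Blk.card = Fintype.card P
  size : ∀ B ∈ Blk, B.card = k
  pair : ∀ x y : P, x ≠ y → (Blk.filter (fun B => x ∈ B ∧ y ∈ B)).card = lam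

/-- The blocks other than `B0` can be arranged: column `j ∉ B0` holds exactly the blocks through
`j`, and row `i ∈ B0` exactly the blocks missing `i`. -/
def HasArrangement {P : Type} [Fintype P] [DecidableEq P] (Blk : Finset (Finset P))
    (B0 : Finset P) : Prop :=
  ∃ f : P → P → Finset P,
    (∀ j : P, j ∉ B0 → B0.image (fun i => f i j) = Blk.filter (fun B => j ∈ B)) ∧
    (∀ i ∈ B0, (univ.filter (fun j => j ∉ B0)).image (fun j => f i j)
      = Blk.filter (fun B => B ≠ B0 ∧ i ∉ B))

/-- incidence between points and blocks -/
def BlkMem {P : Type} (Blk : Finset (Finset P)) (p : P) (B : {B // B ∈ Blk}) : Prop := p ∈ B.1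

/-- incidence of the complementary design -/
def BlkMiss {P : Type} (Blk : Finset (Finset P)) (p : P) (B : {B // B ∈ Blk}) : Prop := p ∉ B.1

end Pool.Agent.H809_TA
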