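import Pool.Agent.H809_TA.Koenig
import Pool.Agent.H809_TA.AffineType
import Pool.Agent.H809_TA.DesignDefs

/-!
Arrangements of symmetric designs given as families of blocks.
-/

set_option autoImplicit false

namespace Pool.Agent.H809_TA

open Function Finset

variable {P : Type} [Fintype P] [DecidableEq P] {Blk : Finset (Finset P)} {k lam : ℕ}

theorem IsSymDesign.rep (h : IsSymDesign Blk k lam) (hk : 1 < k) (x : P) :
    (Blk.filter (fun B => x ∈ B)).card = k := by
  have h1 : ∀ x : P, (Blk.filter (fun B => x ∈ B)).card * (k - 1)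
      = (Fintype.card P - 1) * lam := by
    intro x
    have e1 : ∑ B ∈ Blk.filter (fun B => x ∈ B), (B.erase x).card
        = ∑ y ∈ univ.erase x, (Blk.filter (fun B => x ∈ B ∧ y ∈ B)).card := by
      calc ∑ B ∈ Blk.filter (fun B => x ∈ B), (B.erase x).card
          = ∑ B ∈ Blk.filter (fun B => x ∈ B), ∑ y ∈ univ.erase x, if y ∈ B then 1 else 0 := by
            refine sum_congr rfl fun B _ => ?_
            rw [← card_filter]
            congr 1
            ext y
            simp only [mem_erase, mem_filter, mem_univ, and_true]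
        _ = ∑ y ∈ univ.erase x, ∑ B ∈ Blk.filter (fun B => x ∈ B), if y ∈ B then 1 else 0 :=
            sum_comm
        _ = _ := by
            refine sum_congr rfl fun y _ => ?_
            rw [← card_filter, filter_filter]
    rw [sum_congr rfl (g := fun _ => k - 1), sum_const, smul_eq_mul] at e1
    · rw [e1, sum_congr rfl (g := fun _ => lam), sum_const, card_erase_of_mem (mem_univ x),
        card_univ, smul_eq_mul]
      intro y hy
      exact h.pair x y (ne_of_mem_erase hy).symm
    · intro B hB
      rw [mem_filter] at hB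
      rw [card_erase_of_mem hB.2, h.size B hB.1]
  have h2 : ∀ y, (Blk.filter (fun B => y ∈ B)).card = (Blk.filter (fun B => x ∈ B)).card := by
    intro y
    exact Nat.eq_of_mul_eq_mul_right (by omega : 0 < k - 1) ((h1 y).trans (h1 x).symm)
  have h3 : ∑ y : P, (Blk.filter (fun B => y ∈ B)).card = ∑ B ∈ Blk, B.card := by
    simp only [card_filter]
    rw [sum_comm]
    refine sum_congr rfl fun B _ => ?_
    rw [← card_filter]
    congr 1
    ext y
    simp
  rw [sum_congr rfl fun y _ => h2 y, sum_congr rfl h.size, sum_const, sum_const, card_univ,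
    smul_eq_mul, smul_eq_mul, h.card] at h3
  exact Nat.eq_of_mul_eq_mul_left (Fintype.card_pos_iff.2 ⟨x⟩) h3

theorem hasArrangement_of_desArr (h : IsSymDesign Blk k lam) (hk : 1 < k) (B0 : Finset P)
    (hB0 : B0 ∈ Blk) (hA : DesArr (BlkMem Blk) ⟨B0, hB0⟩) : HasArrangement Blk B0 := by
  obtain ⟨T, h1, h2, h3⟩ := hA
  have h1' : ∀ p q, p ∈ B0 → q ∉ B0 → p ∉ (T p q).1 ∧ q ∈ (T p q).1 := h1
  refine ⟨fun i j => (T i j).1, ?_, ?_⟩
  · intro j hj
    apply eq_of_subset_of_card_le
    · intro B hB
      rw [mem_image] at hB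
      obtain ⟨i, hi, rfl⟩ := hB
      rw [mem_filter]
      exact ⟨(T i j).2, (h1' i j hi hj).2⟩
    · rw [h.rep hk, card_image_of_injOn, h.size B0 hB0]
      intro i hi i' hi' h'
      exact h3 i i' j hi hi' hj (Subtype.ext h')
  · intro i hi
    apply eq_of_subset_of_card_le
    · intro B hB
      rw [mem_image] at hB
      obtain ⟨j, hj, rfl⟩ := hB
      rw [mem_filter] at hj
      have h4 := (h1' i j hi hj.2).1
      rw [mem_filter]
      refine ⟨(T i j).2, ?_, h4⟩
      intro h5
      have h5 : (T i j).1 = B0 := h5
      rw [h5] at h4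
      exact h4 hi
    · have e1 : (Blk.filter (fun B => B ≠ B0 ∧ i ∉ B)).card = Fintype.card P - k := by
        have h5 := card_filter_add_card_filter_not (s := Blk) (fun B => i ∈ B)
        rw [h.rep hk, h.card] at h5
        have h6 : Blk.filter (fun B => B ≠ B0 ∧ i ∉ B) = Blk.filter (fun B => ¬ i ∈ B) := by
          ext B
          simp only [mem_filter]
          constructor
          · exact fun h => ⟨h.1, h.2.2⟩
          · rintro ⟨h7, h8⟩
            exact ⟨h7, fun h9 => h8 (h9 ▸ hi), h8⟩
        rw [h6]
        omega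
      have e2 : (univ.filter (fun j => j ∉ B0)).card = Fintype.card P - k := by
        have h5 := card_filter_add_card_filter_not (s := (univ : Finset P)) (fun j => j ∈ B0)
        rw [card_univ] at h5
        have h6 : (univ.filter (fun j => j ∈ B0)).card = k := by
          rw [← h.size B0 hB0]
          congr 1
          ext j
          simp
        omega
      rw [e1, card_image_of_injOn, e2]
      intro j hj j' hj' h'
      rw [mem_coe, mem_filter] at hj hj'
      exact h2 i j j' hi hj.2 hj'.2 (Subtype.ext h')

theorem desArr_of_compl {P Q : Type} {mem : P → Q → Prop} {b0 : Q}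
    (h : DesArr (fun p b => ¬ mem p b) b0) : DesArr mem b0 := by
  obtain ⟨T, h1, h2, h3⟩ := h
  refine ⟨fun p q => T q p, ?_, ?_, ?_⟩
  · intro p q hp hq
    have := h1 q p hq (not_not.2 hp)
    exact ⟨this.2, not_not.1 this.1⟩
  · intro p q q' hp hq hq' h
    exact h3 q q' p hq hq' (not_not.2 hp) h
  · intro p p' q hp hp' hq h
    exact h2 q p p' hq (not_not.2 hp) (not_not.2 hp') h

end Pool.Agent.H809_TA
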