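import Pool.Agent.H809_TA.Defs

/-!
Parameters of an extremal unordered triple array, and the intersection numbers of the blocks of
its symmetric design.
-/

set_option autoImplicit false

namespace Pool.Agent.H809_TA

open Finset

set_option linter.unusedSectionVars false

/-- the dual of a symmetric design -/
theorem dual_design {X : Type} [Fintype X] [DecidableEq X] (A J : Matrix X X ℚ) (e l r : ℚ)
    (hJ : J = Matrix.of fun _ _ => 1) (he : e ≠ 0) (hr : r ≠ 0)
    (hr2 : r ^ 2 = e + l * Fintype.card X)
    (h1 : A * A.transpose = e • (1 : Matrix X X ℚ) + l • J) (h2 : J * A = r • J) :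
    A.transpose * A = e • (1 : Matrix X X ℚ) + l • J := by
  have hJJ : J * J = (Fintype.card X : ℚ) • J := by
    subst hJ
    ext i j
    simp [Matrix.mul_apply]
  have hJt : J.transpose = J := by
    subst hJ
    rfl
  have h3 : A.transpose * J = r • J := by
    have := congrArg Matrix.transpose h2
    rw [Matrix.transpose_mul, hJt, Matrix.transpose_smul, hJt] at this
    exact this
  have key : A * (e⁻¹ • (A.transpose * (1 - (l / r ^ 2) • J))) = 1 := by
    rw [Matrix.mul_smul, ← Matrix.mul_assoc, h1, mul_sub, mul_one, Matrix.mul_smul, add_mul,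
      Matrix.smul_mul, Matrix.smul_mul, one_mul, hJJ]
    have : e • (1 : Matrix X X ℚ) + l • J - (l / r ^ 2) • (e • J + l • (Fintype.card X : ℚ) • J)
        = e • (1 : Matrix X X ℚ) := by
      rw [smul_smul l, ← add_smul, ← hr2, smul_smul, div_mul_cancel₀ _ (pow_ne_zero 2 hr)]
      abel
    rw [this, smul_smul, inv_mul_cancel₀ he, one_smul]
  have key2 := mul_eq_one_comm.1 key
  rw [Matrix.smul_mul, mul_sub, mul_one, Matrix.mul_smul, h3, sub_mul, Matrix.smul_mul,
    Matrix.smul_mul, h2] at key2
  have h4 : A.transpose * A - (l / r ^ 2) • r • r • J = e • (1 : Matrix X X ℚ) := by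
    rw [← key2, smul_smul e, mul_inv_cancel₀ he, one_smul]
  rw [smul_smul, smul_smul] at h4
  have h5 : l / r ^ 2 * r * r = l := by
    field_simp
  rw [h5] at h4
  rw [← h4]
  abel

section

variable {I J V : Type} [Fintype I] [Fintype J] [Fintype V] [DecidableEq V]

/-- indicator of a set of symbols -/
def ind (S : Finset V) (s : V) : ℚ := if s ∈ S then 1 else 0

theorem sum_ind (S : Finset V) : ∑ s, ind S s = S.card := by
  simp [ind]

theorem sum_ind_mul (S T : Finset V) : ∑ s, ind S s * ind T s = (S ∩ T).card := by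
  rw [← sum_ind]
  refine Finset.sum_congr rfl fun s _ => ?_
  by_cases h1 : s ∈ S <;> by_cases h2 : s ∈ T <;> simp [ind, h1, h2]

theorem ind_mul_self (S : Finset V) (s : V) : ind S s * ind S s = ind S s := by
  simp only [ind]
  split_ifs <;> simp

variable {R : I → Finset V} {C : J → Finset V} {e : ℕ}

theorem sum_row (hU : IsUTA R C e) (s : V) : ∑ i, ind (R i) s = e := by
  simp only [ind]
  rw [Finset.sum_boole, hU.repR s]

theorem sum_col (hU : IsUTA R C e) (s : V) : ∑ j, ind (C j) s = e := by
  simp only [ind]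
  rw [Finset.sum_boole, hU.repC s]

/-- `r c = v e` -/
theorem uta_P1 (hU : IsUTA R C e) :
    (Fintype.card I : ℚ) * Fintype.card J = Fintype.card V * e := by
  have h1 : ∑ i : I, ∑ s : V, ind (R i) s = (Fintype.card I : ℚ) * Fintype.card J := by
    have : ∀ i : I, ∑ s : V, ind (R i) s = (Fintype.card J : ℚ) := by
      intro i
      rw [sum_ind, hU.cardR]
    rw [Finset.sum_congr rfl fun i _ => this i, Finset.sum_const, Finset.card_univ, nsmul_eq_mul]
  rw [← h1, Finset.sum_comm, Finset.sum_congr rfl fun s _ => sum_row hU s, Finset.sum_const,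
    Finset.card_univ, nsmul_eq_mul]

/-- row-column intersections have size `e` -/
theorem uta_rc (hU : IsUTA R C e) (i : I) (j : J) : (R i ∩ C j).card = e := by
  obtain ⟨l, hl⟩ := hU.rc
  have h1 : ∑ j : J, ∑ s : V, ind (R i) s * ind (C j) s = (Fintype.card J : ℚ) * l := by
    have : ∀ j : J, ∑ s : V, ind (R i) s * ind (C j) s = (l : ℚ) := by
      intro j
      rw [sum_ind_mul, hl]
    rw [Finset.sum_congr rfl fun i _ => this i, Finset.sum_const, Finset.card_univ, nsmul_eq_mul]
  rw [Finset.sum_comm] at h1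
  have h2 : ∀ s : V, ∑ j : J, ind (R i) s * ind (C j) s = ind (R i) s * e := by
    intro s
    rw [← Finset.mul_sum, sum_col hU]
  rw [Finset.sum_congr rfl fun s _ => h2 s, ← Finset.sum_mul, sum_ind, hU.cardR] at h1
  have hc : (Fintype.card J : ℚ) ≠ 0 := by
    have : 0 < Fintype.card J := Fintype.card_pos_iff.2 ⟨j⟩
    positivity
  have h3 := mul_left_cancel₀ hc h1
  rw [hl]
  exact_mod_cast h3.symm

/-- row-row intersections have size `c - e` -/
theorem uta_rr (hU : IsUTA R C e) (hext : Fintype.card V + 1 = Fintype.card I + Fintype.card J)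
    (i i' : I) (hi : i ≠ i') : ((R i ∩ R i').card : ℚ) = Fintype.card J - e := by
  classical
  obtain ⟨l, hl⟩ := hU.rr
  have h1 : ∑ k : I, ∑ s : V, ind (R i) s * ind (R k) s
      = Fintype.card J + ((Fintype.card I : ℚ) - 1) * l := by
    rw [← Finset.add_sum_erase _ _ (Finset.mem_univ i)]
    congr 1
    · rw [Finset.sum_congr rfl fun s _ => ind_mul_self _ s, sum_ind, hU.cardR]
    · have : ∀ k ∈ Finset.univ.erase i, ∑ s : V, ind (R i) s * ind (R k) s = (l : ℚ) := by
        intro k hk
        rw [sum_ind_mul, hl i k (Finset.ne_of_mem_erase hk).symm]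
      rw [Finset.sum_congr rfl this, Finset.sum_const, Finset.card_erase_of_mem (Finset.mem_univ _),
        Finset.card_univ, nsmul_eq_mul, Nat.cast_sub (Fintype.card_pos_iff.2 ⟨i⟩), Nat.cast_one]
  rw [Finset.sum_comm] at h1
  have h2 : ∀ s : V, ∑ k : I, ind (R i) s * ind (R k) s = ind (R i) s * e := by
    intro s
    rw [← Finset.mul_sum, sum_row hU]
  rw [Finset.sum_congr rfl fun s _ => h2 s, ← Finset.sum_mul, sum_ind, hU.cardR] at h1
  have h3 := uta_P1 hU
  have h4 : (Fintype.card V : ℚ) + 1 = Fintype.card I + Fintype.card J := by exact_mod_cast hext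
  have h5 : 1 < Fintype.card I := Fintype.one_lt_card_iff.2 ⟨i, i', hi⟩
  have h6 : ((Fintype.card I : ℚ) - 1) ≠ 0 := by
    have : (1 : ℚ) < Fintype.card I := by exact_mod_cast h5
    linarith
  rw [hl i i' hi]
  apply mul_left_cancel₀ h6
  linear_combination -h1 - h3 - (e : ℚ) * h4

/-- the transposed array -/
theorem IsUTA.symm' (hU : IsUTA R C e) : IsUTA C R e := by
  obtain ⟨h1, h2, h3, h4, ⟨l, hl⟩, h6, h7⟩ := hU
  exact ⟨h2, h1, h4, h3, ⟨l, fun j i => by rw [Finset.inter_comm]; exact hl i j⟩, h7, h6⟩

theorem uta_cc (hU : IsUTA R C e) (hext : Fintype.card V + 1 = Fintype.card I + Fintype.card J)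
    (j j' : J) (hj : j ≠ j') : ((C j ∩ C j').card : ℚ) = Fintype.card I - e :=
  uta_rr hU.symm' (by rw [hext, add_comm]) j j' hj

/-- the incidence function of the symmetric design -/
def incF (R : I → Finset V) (C : J → Finset V) : I ⊕ J → Option V → ℚ
  | Sum.inl _, none => 1
  | Sum.inr _, none => 0
  | Sum.inl i, some s => 1 - ind (R i) s
  | Sum.inr j, some s => ind (C j) s

theorem block_inter (hU : IsUTA R C e)
    (hext : Fintype.card V + 1 = Fintype.card I + Fintype.card J) (he : 0 < e)
    (s s' : V) (hs : s ≠ s') :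
    ∑ i, (1 - ind (R i) s) * (1 - ind (R i) s') + ∑ j, ind (C j) s * ind (C j) s'
      = (Fintype.card I : ℚ) - e := by
  classical
  have hIne : 0 < Fintype.card I := by
    rw [Fintype.card_pos_iff]
    have := hU.repR s
    by_contra h
    rw [not_nonempty_iff] at h
    rw [Finset.univ_eq_empty, Finset.filter_empty, Finset.card_empty] at this
    omega
  let v : ℚ := Fintype.card V
  let r : ℚ := Fintype.card I
  let c : ℚ := Fintype.card J
  have hv1 : v + 1 = r + c := by
    show (Fintype.card V : ℚ) + 1 = Fintype.card I + Fintype.card J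
    exact_mod_cast hext
  have hP1 : r * c = v * e := uta_P1 hU
  have hr0 : r ≠ 0 := by
    show (Fintype.card I : ℚ) ≠ 0
    positivity
  have he0 : (e : ℚ) ≠ 0 := by positivity
  have σ : I ⊕ J ≃ Option V := Fintype.equivOfCardEq (by
    rw [Fintype.card_sum, Fintype.card_option, hext])
  let A : Matrix (I ⊕ J) (I ⊕ J) ℚ := Matrix.of fun x y => incF R C x (σ y)
  let Jm : Matrix (I ⊕ J) (I ⊕ J) ℚ := Matrix.of fun _ _ => 1
  have hsum : ∀ F : Option V → ℚ, ∑ y : I ⊕ J, F (σ y) = F none + ∑ s, F (some s) := by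
    intro F
    rw [Equiv.sum_comp σ F, Fintype.sum_option]
  have h1 : A * A.transpose = (e : ℚ) • (1 : Matrix (I ⊕ J) (I ⊕ J) ℚ) + (r - e) • Jm := by
    ext x x'
    have e1 : (A * A.transpose) x x' = ∑ y : I ⊕ J, incF R C x (σ y) * incF R C x' (σ y) := rfl
    rw [e1, hsum (fun B => incF R C x B * incF R C x' B)]
    have e2 : ((e : ℚ) • (1 : Matrix (I ⊕ J) (I ⊕ J) ℚ) + (r - e) • Jm) x x'
        = e * (if x = x' then 1 else 0) + (r - e) := by
      simp [Jm, Matrix.one_apply]
    rw [e2]
    rcases x with i | j <;> rcases x' with i' | j'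
    · show (1 : ℚ) * 1 + ∑ s, (1 - ind (R i) s) * (1 - ind (R i') s) = _
      have e3 : ∑ s, (1 - ind (R i) s) * (1 - ind (R i') s)
          = v - c - c + ∑ s, ind (R i) s * ind (R i') s := by
        have : ∀ s, (1 - ind (R i) s) * (1 - ind (R i') s)
            = 1 - ind (R i) s - ind (R i') s + ind (R i) s * ind (R i') s := by
          intro s; ring
        rw [Finset.sum_congr rfl fun s _ => this s, Finset.sum_add_distrib, Finset.sum_sub_distrib,
          Finset.sum_sub_distrib, sum_ind, sum_ind, hU.cardR, hU.cardR, Finset.sum_const,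
          Finset.card_univ, nsmul_eq_mul, mul_one]
      rw [e3]
      by_cases hii : i = i'
      · subst hii
        rw [Finset.sum_congr rfl fun s _ => ind_mul_self _ s, sum_ind, hU.cardR, if_pos rfl]
        show 1 * 1 + (v - c - c + c) = _
        linear_combination hv1
      · rw [sum_ind_mul, uta_rr hU hext i i' hii, if_neg (fun h => hii (Sum.inl_injective h))]
        show 1 * 1 + (v - c - c + (c - e)) = _
        linear_combination hv1
    · show (1 : ℚ) * 0 + ∑ s, (1 - ind (R i) s) * ind (C j') s = _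
      have : ∀ s, (1 - ind (R i) s) * ind (C j') s
          = ind (C j') s - ind (R i) s * ind (C j') s := by
        intro s; ring
      rw [Finset.sum_congr rfl fun s _ => this s, Finset.sum_sub_distrib, sum_ind, sum_ind_mul,
        uta_rc hU, hU.cardC, if_neg (by simp)]
      show 1 * 0 + (r - e) = _
      ring
    · show (0 : ℚ) * 1 + ∑ s, ind (C j) s * (1 - ind (R i') s) = _
      have : ∀ s, ind (C j) s * (1 - ind (R i') s)
          = ind (C j) s - ind (R i') s * ind (C j) s := by
        intro s; ring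
      rw [Finset.sum_congr rfl fun s _ => this s, Finset.sum_sub_distrib, sum_ind, sum_ind_mul,
        uta_rc hU, hU.cardC, if_neg (by simp)]
      show 0 * 1 + (r - e) = _
      ring
    · show (0 : ℚ) * 0 + ∑ s, ind (C j) s * ind (C j') s = _
      by_cases hjj : j = j'
      · subst hjj
        rw [Finset.sum_congr rfl fun s _ => ind_mul_self _ s, sum_ind, hU.cardC, if_pos rfl]
        show 0 * 0 + r = _
        ring
      · rw [sum_ind_mul, uta_cc hU hext j j' hjj, if_neg (fun h => hjj (Sum.inr_injective h))]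
        show 0 * 0 + (r - e) = _
        ring
  have h2 : Jm * A = r • Jm := by
    ext x y
    have e1 : (Jm * A) x y = ∑ z : I ⊕ J, (1 : ℚ) * incF R C z (σ y) := rfl
    have e2 : (r • Jm) x y = r := by simp [Jm]
    rw [e1, e2]
    simp only [one_mul]
    rw [Fintype.sum_sum_type]
    rcases σ y with _ | s
    · show ∑ i : I, (1 : ℚ) + ∑ j : J, (0 : ℚ) = r
      rw [Finset.sum_const, Finset.card_univ, nsmul_eq_mul, mul_one, Finset.sum_const_zero,
        add_zero]
    · show ∑ i : I, (1 - ind (R i) s) + ∑ j : J, ind (C j) s = r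
      rw [Finset.sum_sub_distrib, sum_row hU, sum_col hU, Finset.sum_const, Finset.card_univ,
        nsmul_eq_mul, mul_one, sub_add_cancel]
  have hr2 : r ^ 2 = e + (r - e) * Fintype.card (I ⊕ J) := by
    rw [Fintype.card_sum]
    push_cast
    show r ^ 2 = e + (r - e) * (r + c)
    linear_combination -hP1 - (e : ℚ) * hv1
  have h3 := dual_design A Jm e (r - e) r rfl he0 hr0 hr2 h1 h2
  have h4 := congrFun (congrFun h3 (σ.symm (some s))) (σ.symm (some s'))
  have e1 : (A.transpose * A) (σ.symm (some s)) (σ.symm (some s'))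
      = ∑ z : I ⊕ J, incF R C z (σ (σ.symm (some s))) * incF R C z (σ (σ.symm (some s'))) := rfl
  have e2 : ((e : ℚ) • (1 : Matrix (I ⊕ J) (I ⊕ J) ℚ) + (r - e) • Jm) (σ.symm (some s))
      (σ.symm (some s')) = r - e := by
    have : σ.symm (some s) ≠ σ.symm (some s') := by
      intro h
      exact hs (Option.some_injective _ (σ.symm.injective h))
    simp [Jm, Matrix.one_apply, this]
  rw [e1, e2, Equiv.apply_symm_apply, Equiv.apply_symm_apply, Fintype.sum_sum_type] at h4
  exact h4

end

end Pool.Agent.H809_TA
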