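import Pool.Agent.H809_TA.Additive
import Pool.Agent.H324R3.St17
import Pool.Agent.H162R2.LEC.Starter

/-!
Orderings of the plane over prime fields, from strong starters.
-/

set_option autoImplicit false

namespace Pool.Agent.H809_TA

open Equiv Equiv.Perm Pool.Agent.H162R2.LEC Pool.Agent.H162R2.LEC.Starter Pool.Agent.H324R3

section det

variable {p : ℕ} [Fact p.Prime]

/-- the map with prescribed differences `c` and parameters `b` -/
def Wb (c : ZMod p → ZMod p) (b : HH p → ZMod p) (x : ZMod p) : ZMod p :=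
  if h : x ∈ HH p then b ⟨x, h⟩ + c x else if h : -x ∈ HH p then b ⟨-x, h⟩ else 0

theorem Wb_mem (c : ZMod p → ZMod p) (b : HH p → ZMod p) (d : HH p) : Wb c b d = b d + c d := by
  unfold Wb; simp [d.2]

theorem Wb_neg (c : ZMod p → ZMod p) (b : HH p → ZMod p) (d : HH p) : Wb c b (-d) = b d := by
  unfold Wb
  rw [dif_neg (neg_not_mem d.2)]
  simp [d.2]

theorem Wb_zero (c : ZMod p → ZMod p) (b : HH p → ZMod p) : Wb c b 0 = 0 := by
  unfold Wb
  rw [dif_neg zero_not_mem, dif_neg]
  rw [neg_zero]; exact zero_not_mem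

theorem Wb_expand (hp : p ≠ 2) (c : ZMod p → ZMod p) (b : HH p → ZMod p) :
    (PM (Wb c b)).det = ∑ π : Perm (ZMod p), ((sign π : ℤˣ) : ℤ) *
      ((0 : ZMod p) ^ (π 0).val * ∏ d : HH p,
        ((b d) ^ (π (-d)).val * ((b d + c d) ^ (π d).val - (b d) ^ (π d).val))) := by
  classical
  rw [← det_RM (Wb c b) (HH p) (Finset.Subset.refl _), ← Matrix.det_transpose, Matrix.det_apply']
  refine Finset.sum_congr rfl fun π _ => ?_
  congr 1
  rw [prod_split hp]
  congr 1
  · simp [RM, Wb_zero, zero_not_mem]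
  · rw [← Finset.prod_coe_sort (HH p)]
    refine Finset.prod_congr rfl fun d _ => ?_
    have h1 := Wb_mem c b d
    have h2 := Wb_neg c b d
    have h3 := neg_not_mem d.2
    simp only [Matrix.transpose_apply, RM, Matrix.of_apply, h1, h2, neg_neg, d.2, h3, if_true,
      if_false, sub_zero]
    ring

theorem Wb_sum (hp : p ≠ 2) (c : ZMod p → ZMod p) :
    ∑ b : HH p → ZMod p, (PM (Wb c b)).det = ∑ π : Perm (ZMod p), ((sign π : ℤˣ) : ℤ) *
      ((0 : ZMod p) ^ (π 0).val * ∏ d : HH p, gg (c d) (π (-d)) (π d)) := by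
  classical
  have h1 : ∀ b : HH p → ZMod p, (PM (Wb c b)).det = _ := fun b => Wb_expand hp c b
  rw [Finset.sum_congr rfl fun a _ => h1 a, Finset.sum_comm]
  refine Finset.sum_congr rfl fun π _ => ?_
  rw [← Finset.mul_sum, ← Finset.mul_sum]
  congr 2
  unfold gg
  rw [Finset.prod_univ_sum, Fintype.piFinset_univ]

theorem termc_zero (hp : p ≠ 2) (c : ZMod p → ZMod p) (π : Perm (ZMod p)) (h : ¬ Odd' π) :
    (0 : ZMod p) ^ (π 0).val * ∏ d : HH p, gg (c d) (π (-d)) (π d) = 0 := by
  classical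
  by_cases h0 : π 0 = 0
  · rw [Finset.prod_coe_sort (HH p) (fun d => gg (c d) (π (-d)) (π d))]
    by_contra hne
    have hne' := (mul_ne_zero_iff.1 hne).2
    rw [Finset.prod_ne_zero_iff] at hne'
    have h1 : ∀ d ∈ HH p, p ≤ (π (-d)).val + (π d).val := by
      intro d hd
      by_contra hlt
      exact hne' d hd (gg_zero _ _ _ (by omega))
    have h2 := (Finset.sum_eq_sum_iff_of_le h1).1 (total hp π h0).symm
    apply h
    have h3 : ∀ d ∈ HH p, π (-d) = -π d := by
      intro d hd
      have h4 := h2 d hd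
      have h5 : π d ≠ 0 := by
        intro h6
        rw [← h0] at h6
        exact ne_zero_of_mem hd (π.injective h6)
      have h6 := neg_val_add h5
      apply ZMod.val_injective p
      omega
    intro x
    by_cases hx : x = 0
    · subst hx; rw [neg_zero, h0, neg_zero]
    · rcases mem_or hp hx with hx' | hx'
      · exact h3 x hx'
      · have := h3 _ hx'
        rw [neg_neg] at this
        rw [this, neg_neg]
  · rw [zero_pow, zero_mul]
    intro h1
    exact h0 ((ZMod.val_eq_zero _).1 h1)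

theorem termc_odd (hp : p ≠ 2) (c : ZMod p → ZMod p) (π : Perm (ZMod p)) (h : Odd' π) :
    (0 : ZMod p) ^ (π 0).val * ∏ d : HH p, gg (c d) (π (-d)) (π d) =
      (-1) ^ (HH p).card * (∏ d ∈ HH p, c d) * ∏ d ∈ HH p, π d := by
  classical
  rw [odd_zero hp h, ZMod.val_zero, pow_zero, one_mul,
    Finset.prod_coe_sort (HH p) (fun d => gg (c d) (π (-d)) (π d))]
  have h1 : ∀ d ∈ HH p, gg (c d) (π (-d)) (π d) = (-1) * (c d * π d) := by
    intro d hd
    have h5 : π d ≠ 0 := by
      intro h6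
      rw [← odd_zero hp h] at h6
      exact ne_zero_of_mem hd (π.injective h6)
    rw [gg_top _ _ _ h5]
    · ring
    · rw [h d, add_comm]; exact neg_val_add h5
  rw [Finset.prod_congr rfl h1, Finset.prod_mul_distrib, Finset.prod_const,
    Finset.prod_mul_distrib, mul_assoc]

/-- prescribed nonzero differences -/
theorem exists_W (hp : p ≠ 2) (c : ZMod p → ZMod p) (hc : ∀ d ∈ HH p, c d ≠ 0) :
    ∃ W : ZMod p → ZMod p, Function.Injective W ∧ W 0 = 0 ∧
      ∀ d ∈ HH p, W d - W (-d) = c d := by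
  classical
  obtain ⟨b, hb⟩ : ∃ b : HH p → ZMod p, (PM (Wb c b)).det ≠ 0 := by
    by_contra hcon
    push Not at hcon
    have h1 := Wb_sum hp c
    rw [Finset.sum_congr rfl fun a _ => hcon a, Finset.sum_const_zero] at h1
    have h2 : ∀ π : Perm (ZMod p), (((sign π : ℤˣ) : ℤ) : ZMod p) *
        ((0 : ZMod p) ^ (π 0).val * ∏ d : HH p, gg (c d) (π (-d)) (π d)) =
        if Odd' π then (-1) ^ (HH p).card * (∏ d ∈ HH p, c d) * ∏ d ∈ HH p, d else 0 := by
      intro π
      split_ifs with hπ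
      · rw [termc_odd hp c π hπ]
        have := CC_all hp _ π rfl hπ
        unfold CC at this
        rw [← this]
        ring
      · rw [termc_zero hp c π hπ, mul_zero]
    rw [Finset.sum_congr rfl fun π _ => h2 π, ← Finset.sum_filter, Finset.sum_const,
      nsmul_eq_mul] at h1
    have h3 := card_odd (p := p) hp
    have h4 := P0_ne (p := p)
    have h5 : ((-1 : ZMod p)) ^ (HH p).card ≠ 0 := pow_ne_zero _ (by simp)
    have h6 : ∏ d ∈ HH p, c d ≠ 0 := Finset.prod_ne_zero_iff.2 hc
    exact (mul_ne_zero h3 (mul_ne_zero (mul_ne_zero h5 h6) h4)) h1.symm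
  refine ⟨Wb c b, ?_, Wb_zero c b, ?_⟩
  · by_contra h
    exact hb (det_PM_not_inj _ h)
  · intro d hd
    have h1 := Wb_mem c b ⟨d, hd⟩
    have h2 := Wb_neg c b ⟨d, hd⟩
    simp only at h1 h2
    rw [h1, h2]
    ring

end det

theorem starter_theta {n : ℕ} [NeZero n] (T : Finset (ZMod n × ZMod n)) (hT : StrongStarter n T) :
    ∃ θ : ZMod n → ZMod n, θ 0 = 0 ∧ (∀ x, θ (θ x) = x) ∧
      (Function.Injective fun x => θ x - x) ∧
      ∀ x, x ≠ 0 → θ x - x ≠ 0 ∧ θ x + x ≠ 0 := by
  classical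
  have cover : ∀ x : ZMod n, x ≠ 0 → (∃ q ∈ T, q.1 = x) ∨ (∃ q ∈ T, q.2 = x) := by
    have h1 : (T.image Prod.fst ∪ T.image Prod.snd) = Finset.univ.erase (0 : ZMod n) := by
      apply Finset.eq_of_subset_of_card_le
      · intro x hx
        rw [Finset.mem_union, Finset.mem_image, Finset.mem_image] at hx
        rw [Finset.mem_erase]
        refine ⟨?_, Finset.mem_univ _⟩
        rcases hx with ⟨q, hq, rfl⟩ | ⟨q, hq, rfl⟩
        · exact hT.x0 q hq
        · exact hT.y0 q hq
      · rw [Finset.card_erase_of_mem (Finset.mem_univ _), Finset.card_univ, ZMod.card,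
          Finset.card_union_of_disjoint, Finset.card_image_of_injOn, Finset.card_image_of_injOn]
        · have := hT.card
          omega
        · intro p hp q hq h
          exact hT.y_inj p hp q hq h
        · intro p hp q hq h
          exact hT.x_inj p hp q hq h
        · rw [Finset.disjoint_left]
          intro x hx hx'
          rw [Finset.mem_image] at hx hx'
          obtain ⟨q, hq, rfl⟩ := hx
          obtain ⟨q', hq', h⟩ := hx'
          exact hT.xy q hq q' hq' h.symm
    intro x hx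
    have : x ∈ T.image Prod.fst ∪ T.image Prod.snd := by
      rw [h1]
      exact Finset.mem_erase.2 ⟨hx, Finset.mem_univ _⟩
    rw [Finset.mem_union, Finset.mem_image, Finset.mem_image] at this
    exact this
  let θ : ZMod n → ZMod n := fun x => if h1 : ∃ q ∈ T, q.1 = x then h1.choose.2
    else if h2 : ∃ q ∈ T, q.2 = x then h2.choose.1 else 0
  have th1 : ∀ q ∈ T, θ q.1 = q.2 := by
    intro q hq
    have h1 : ∃ q' ∈ T, q'.1 = q.1 := ⟨q, hq, rfl⟩
    have h2 := hT.x_inj _ h1.choose_spec.1 q hq h1.choose_spec.2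
    show (if h1 : ∃ q' ∈ T, q'.1 = q.1 then h1.choose.2
      else if h2 : ∃ q' ∈ T, q'.2 = q.1 then h2.choose.1 else 0) = q.2
    rw [dif_pos h1, h2]
  have th2 : ∀ q ∈ T, θ q.2 = q.1 := by
    intro q hq
    have h1 : ¬ ∃ q' ∈ T, q'.1 = q.2 := by
      rintro ⟨q', hq', h⟩
      exact hT.xy q' hq' q hq h
    have h3 : ∃ q' ∈ T, q'.2 = q.2 := ⟨q, hq, rfl⟩
    have h2 := hT.y_inj _ h3.choose_spec.1 q hq h3.choose_spec.2
    show (if h1 : ∃ q' ∈ T, q'.1 = q.2 then h1.choose.2
      else if h2 : ∃ q' ∈ T, q'.2 = q.2 then h2.choose.1 else 0) = q.1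
    rw [dif_neg h1, dif_pos h3, h2]
  have th0 : θ 0 = 0 := by
    have h1 : ¬ ∃ q' ∈ T, q'.1 = 0 := by
      rintro ⟨q', hq', h⟩
      exact hT.x0 q' hq' h
    have h2 : ¬ ∃ q' ∈ T, q'.2 = 0 := by
      rintro ⟨q', hq', h⟩
      exact hT.y0 q' hq' h
    show (if h1 : ∃ q' ∈ T, q'.1 = 0 then h1.choose.2
      else if h2 : ∃ q' ∈ T, q'.2 = 0 then h2.choose.1 else 0) = 0
    rw [dif_neg h1, dif_neg h2]
  have d0 : ∀ q ∈ T, q.1 - q.2 ≠ 0 := by
    intro q hq h
    exact hT.xy q hq q hq (sub_eq_zero.1 h)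
  have d0' : ∀ q ∈ T, q.2 - q.1 ≠ 0 := by
    intro q hq h
    exact hT.xy q hq q hq (sub_eq_zero.1 h).symm
  have hnz : ∀ x, x ≠ 0 → θ x - x ≠ 0 ∧ θ x + x ≠ 0 := by
    intro x hx
    rcases cover x hx with ⟨q, hq, rfl⟩ | ⟨q, hq, rfl⟩
    · rw [th1 q hq]
      refine ⟨d0' q hq, ?_⟩
      rw [add_comm]
      exact hT.s0 q hq
    · rw [th2 q hq]
      exact ⟨d0 q hq, hT.s0 q hq⟩
  refine ⟨θ, th0, ?_, ?_, hnz⟩
  · intro x
    by_cases hx : x = 0
    · rw [hx, th0, th0]
    · rcases cover x hx with ⟨q, hq, rfl⟩ | ⟨q, hq, rfl⟩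
      · rw [th1 q hq, th2 q hq]
      · rw [th2 q hq, th1 q hq]
  · intro x y h
    have h : θ x - x = θ y - y := h
    by_cases hx : x = 0
    · by_cases hy : y = 0
      · rw [hx, hy]
      · exfalso
        rw [hx, th0, sub_zero] at h
        exact (hnz y hy).1 h.symm
    · by_cases hy : y = 0
      · exfalso
        rw [hy, th0, sub_zero] at h
        exact (hnz x hx).1 h
      · rcases cover x hx with ⟨q, hq, rfl⟩ | ⟨q, hq, rfl⟩ <;>
          rcases cover y hy with ⟨q', hq', rfl⟩ | ⟨q', hq', rfl⟩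
        · rw [th1 q hq, th1 q' hq'] at h
          have h' : q.1 - q.2 = q'.1 - q'.2 := by linear_combination -h
          rw [hT.d_inj q hq q' hq' h']
        · exfalso
          rw [th1 q hq, th2 q' hq'] at h
          exact hT.dd q' hq' q hq h.symm
        · exfalso
          rw [th2 q hq, th1 q' hq'] at h
          exact hT.dd q hq q' hq' h
        · rw [th2 q hq, th2 q' hq'] at h
          rw [hT.d_inj q hq q' hq' h]

theorem pl_of_starter {p : ℕ} [Fact p.Prime] (hp : p ≠ 2) (T : Finset (ZMod p × ZMod p))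
    (hT : StrongStarter p T) : Pl (ZMod p) := by
  classical
  obtain ⟨θ, t0, tt, ti, tn⟩ := starter_theta T hT
  have tinj : Function.Injective θ := by
    intro x y h
    rw [← tt x, h, tt y]
  -- inverse of the difference map
  have hsurj : Function.Surjective (fun x => θ x - x) := Finite.injective_iff_surjective.1 ti
  choose g hg using hsurj
  have hg' : ∀ d, θ (g d) - g d = d := hg
  -- `c (x - θ x) = θ x ^ 2 - x ^ 2`; here `x = g (-d)`
  let c : ZMod p → ZMod p := fun d => (θ (g (-d))) ^ 2 - (g (-d)) ^ 2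
  have hc : ∀ d ∈ HH p, c d ≠ 0 := by
    intro d hd h
    have hd0 : d ≠ 0 := ne_zero_of_mem hd
    have hx : g (-d) ≠ 0 := by
      intro h0
      have := hg' (-d)
      rw [h0, t0, sub_zero] at this
      exact hd0 (neg_eq_zero.1 this.symm)
    have h2 : (θ (g (-d)) - g (-d)) * (θ (g (-d)) + g (-d)) = 0 := by
      have h : (θ (g (-d))) ^ 2 - (g (-d)) ^ 2 = 0 := h
      linear_combination h
    rcases mul_eq_zero.1 h2 with h3 | h3
    · exact (tn _ hx).1 h3
    · exact (tn _ hx).2 h3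
  obtain ⟨W, W1, W0, W2⟩ := exists_W hp c hc
  have key : ∀ x : ZMod p, x - θ x ∈ HH p → W (x - θ x) - W (-(x - θ x)) = θ x ^ 2 - x ^ 2 := by
    intro x hx
    rw [W2 _ hx]
    show (θ (g (-(x - θ x)))) ^ 2 - (g (-(x - θ x))) ^ 2 = _
    have h1 : g (-(x - θ x)) = x := by
      apply ti
      show θ (g (-(x - θ x))) - g (-(x - θ x)) = θ x - x
      rw [hg']
      ring
    rw [h1]
  refine pl_of_theta (two_ne hp) θ (fun x => W (x - θ x)) t0 tinj ti ?_ ?_
  · intro x y _ _ h
    apply ti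
    have := W1 h
    show θ x - x = θ y - y
    linear_combination -this
  · intro x hx
    show W (θ x - θ (θ x)) + θ x ^ 2 = W (x - θ x) + x ^ 2
    rw [tt]
    have hne : x - θ x ≠ 0 := by
      intro h
      apply (tn x hx).1
      linear_combination -h
    rcases mem_or hp hne with h | h
    · have h1 := key x h
      rw [neg_sub] at h1
      linear_combination -h1
    · rw [neg_sub] at h
      have h1 := key (θ x) (by rw [tt]; exact h)
      rw [neg_sub, tt] at h1
      linear_combination h1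

/-- a strong starter of order 17 -/
theorem starter17 : StrongStarter 17
    {(1, 2), (3, 9), (4, 6), (5, 13), (7, 14), (8, 11), (10, 15), (12, 16)} := by
  constructor <;> decide +kernel

theorem pl_17 [Fact (Nat.Prime 17)] : Pl (ZMod 17) :=
  pl_of_starter (by norm_num) _ starter17

/-- primes that are `17` modulo `24` -/
theorem pl_prime_17 {p : ℕ} [Fact p.Prime] (h : p % 24 = 17) (h' : p = 17 ∨ 185 ≤ p) :
    Pl (ZMod p) := by
  have hp : p ≠ 2 := by
    rintro rfl
    norm_num at h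
  rcases h' with h' | h'
  · subst h'
    exact pl_17
  · have hk : (7 : ℤ) ≤ ((p / 24 : ℕ) : ℤ) := by omega
    obtain ⟨T, hT⟩ := starter_of_check st17_ok _ hk p (by omega) (by omega)
    exact pl_of_starter hp T hT

end Pool.Agent.H809_TA
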