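import Pool.Agent.H809_TA.Small
import Pool.Agent.H809_TA.Fermat

/-!
Orderings of the Desarguesian affine planes of all orders at least three.
-/

set_option autoImplicit false

namespace Pool.Agent.H809_TA

open Function

theorem Pl.transport {K K' : Type} [Field K] [Field K'] (e : K ≃+* K') (h : Pl K) : Pl K' := by
  obtain ⟨f, hf⟩ := h
  let em : Option K ≃ Option K' := e.toEquiv.optionCongr
  have em0 : em.symm none = none := rfl
  have em1 : ∀ b : K', em.symm (some b) = some (e.symm b) := fun b => rfl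
  refine ⟨fun p y => em (f (em.symm p) (e.symm y.1, e.symm y.2)), ?_, ?_, ?_, ?_, ?_⟩
  · intro y p p' h
    exact em.symm.injective (hf.inj _ (em.injective h))
  · intro p y h
    apply hf.ne (em.symm p) (e.symm y.1, e.symm y.2)
    have h' := congrArg em.symm h
    rwa [Equiv.symm_apply_apply] at h'
  · intro b y y' hl h
    have h1 := em.injective h
    rw [em1] at h1
    have h2 := hf.fin (e.symm b) _ _ ?_ h1
    · rw [Prod.mk.injEq] at h2
      exact Prod.ext (e.symm.injective h2.1) (e.symm.injective h2.2)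
    · show e.symm y.2 - e.symm b * e.symm y.1 = e.symm y'.2 - e.symm b * e.symm y'.1
      rw [← map_mul, ← map_mul, ← map_sub, ← map_sub, hl]
  · intro y y' hl h
    have h1 := em.injective h
    rw [em0] at h1
    have h2 := hf.inf _ _ ?_ h1
    · rw [Prod.mk.injEq] at h2
      exact Prod.ext (e.symm.injective h2.1) (e.symm.injective h2.2)
    · show e.symm y.1 = e.symm y'.1
      rw [hl]
  · intro a t
    show em (f (em.symm (some a)) (e.symm a, e.symm t)) = none
    rw [em1, hf.spec]
    rfl

theorem exists_prime_ne_three (n : ℕ) (hn : 3 ≤ n) : ∃ r : ℕ, r.Prime ∧ r ∣ 2 ^ n - 1 ∧ r ≠ 3 := by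
  by_contra hcon
  push Not at hcon
  have h8 : 8 ∣ 2 ^ n := by
    have : (2 : ℕ) ^ 3 ∣ 2 ^ n := pow_dvd_pow 2 hn
    simpa using this
  have hpos : 0 < 2 ^ n := by positivity
  have hne : 2 ^ n - 1 ≠ 0 := by
    have := Nat.le_of_dvd hpos h8
    omega
  have h1 := Nat.eq_prime_pow_of_unique_prime_dvd (p := 3) hne (fun {d} hd hd' => hcon d hd hd')
  have h3 : ∀ k : ℕ, 3 ^ k % 8 = 1 ∨ 3 ^ k % 8 = 3 := by
    intro k
    induction k with
    | zero => left; norm_num
    | succ k ih => rw [pow_succ]; omega
  have h4 := h3 (2 ^ n - 1).primeFactorsList.length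
  rw [← h1] at h4
  omega

theorem two_pow_of_no_odd {m : ℕ} (hm : m ≠ 0) (h : ∀ r : ℕ, r.Prime → r ∣ m → r = 2) :
    ∃ v, m = 2 ^ v := ⟨_, Nat.eq_prime_pow_of_unique_prime_dvd hm (fun {d} hd hd' => h d hd hd')⟩

/-- prime powers one more than a power of two -/
theorem pow_sub_one_two_pow {p n v : ℕ} (hp : p.Prime) (hp2 : p ≠ 2) (hn : 2 ≤ n)
    (h : p ^ n = 2 ^ v + 1) : p ^ n = 9 := by
  have hp3 : 3 ≤ p := by
    have := hp.two_le
    omega
  have hpodd : Odd p := hp.odd_of_ne_two hp2
  rcases Nat.even_or_odd n with he | ho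
  · obtain ⟨m, rfl⟩ := he
    have hm : 1 ≤ m := by omega
    have hpm : 3 ≤ p ^ m := le_trans hp3 (Nat.le_self_pow (by omega) p)
    obtain ⟨x, hx⟩ : ∃ x, p ^ m = x + 1 := ⟨p ^ m - 1, by omega⟩
    have h1 : x * (x + 2) = 2 ^ v := by
      rw [pow_add, hx] at h
      nlinarith
    obtain ⟨a, ha, ha'⟩ := (Nat.dvd_prime_pow Nat.prime_two).1 ⟨x + 2, h1.symm⟩
    obtain ⟨b, hb, hb'⟩ := (Nat.dvd_prime_pow Nat.prime_two).1 (Dvd.intro_left x h1)
    have h2 : 2 ^ b = 2 ^ a + 2 := by omega
    have h3 : a = 1 := by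
      rcases a with _ | _ | a
      · omega
      · rfl
      · exfalso
        have h4 : 4 ∣ 2 ^ (a + 2) := ⟨2 ^ a, by rw [pow_add]; ring⟩
        have h5 : ∃ b', b = b' + 2 := by
          refine ⟨b - 2, ?_⟩
          by_contra hb2
          have : b ≤ 1 := by omega
          have : 2 ^ b ≤ 2 ^ 1 := Nat.pow_le_pow_right (by norm_num) this
          have : 0 < 2 ^ (a + 1 + 1) := by positivity
          omega
        obtain ⟨b', rfl⟩ := h5
        have h6 : 4 ∣ 2 ^ (b' + 2) := ⟨2 ^ b', by rw [pow_add]; ring⟩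
        omega
    rw [h3] at ha'
    rw [pow_add, hx, ha']
    norm_num
  · exfalso
    have h1 : (p - 1) * ∑ i ∈ Finset.range n, p ^ i = 2 ^ v := by
      have := Nat.geomSum_eq (by omega : 2 ≤ p) n
      have h2 : (p - 1) ∣ p ^ n - 1 := Nat.sub_one_dvd_pow_sub_one p n
      rw [this, Nat.mul_div_cancel' h2, h, Nat.add_sub_cancel]
    have h2 : Odd (∑ i ∈ Finset.range n, p ^ i) := by
      rw [Finset.odd_sum_iff_odd_card_odd]
      have : (Finset.range n).filter (fun i => Odd (p ^ i)) = Finset.range n := by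
        apply Finset.filter_true_of_mem
        intro i _
        exact hpodd.pow
      rw [this, Finset.card_range]
      exact ho
    have h3 : Nat.Coprime (∑ i ∈ Finset.range n, p ^ i) (2 ^ v) :=
      Nat.Coprime.pow_right _ (Nat.coprime_two_right.2 h2)
    have h4 := Nat.Coprime.eq_one_of_dvd h3 (Dvd.intro_left _ h1)
    have h5 : p ^ 1 ≤ ∑ i ∈ Finset.range n, p ^ i :=
      Finset.single_le_sum (f := fun i => p ^ i) (fun _ _ => Nat.zero_le _)
        (Finset.mem_range.2 (by omega))
    rw [h4, pow_one] at h5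
    omega

theorem pl_all (K : Type) [Field K] [Finite K] (hK : 3 ≤ Nat.card K) : Pl K := by
  classical
  have hft : Fintype K := Fintype.ofFinite K
  obtain ⟨p, hchar⟩ := CharP.exists K
  obtain ⟨n, hp, hn⟩ := FiniteField.card K p
  have hpf : Fact p.Prime := ⟨hp⟩
  have hcard : Nat.card K = p ^ (n : ℕ) := by rw [Nat.card_eq_fintype_card, hn]
  have hn1 : 1 ≤ (n : ℕ) := n.2
  have hu : Nat.card Kˣ = p ^ (n : ℕ) - 1 := by rw [Nat.card_units, hcard]
  by_cases hp2 : p = 2
  · subst hp2
    have h20 : (2 : K) = 0 := by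
      have := CharP.cast_eq_zero K 2
      exact_mod_cast this
    by_cases h3 : 3 ≤ (n : ℕ)
    · obtain ⟨r, hr, hr', hr3⟩ := exists_prime_ne_three n h3
      have : Fact r.Prime := ⟨hr⟩
      obtain ⟨d, hd⟩ := exists_prime_orderOf_dvd_card' (G := Kˣ) r (by rw [hu]; exact hr')
      refine pl_of_char_two h20 d ?_ ?_
      · rw [hd, Nat.coprime_primes Nat.prime_three hr]
        exact fun h => hr3 h.symm
      · rintro rfl
        rw [orderOf_one] at hd
        exact hr.one_lt.ne hd
    · have h4 : (n : ℕ) = 1 ∨ (n : ℕ) = 2 := by omega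
      rcases h4 with h4 | h4
      · rw [h4] at hcard
        omega
      · rw [h4] at hcard
        exact pl_four (by rw [hcard]; norm_num)
  · have h2 : (2 : K) ≠ 0 := by
      intro h
      have h' : ((2 : ℕ) : K) = 0 := by exact_mod_cast h
      rw [CharP.cast_eq_zero_iff K p] at h'
      exact hp2 ((Nat.prime_dvd_prime_iff_eq hp Nat.prime_two).1 h')
    by_cases hodd : ∃ r : ℕ, r.Prime ∧ r ∣ p ^ (n : ℕ) - 1 ∧ r ≠ 2
    · obtain ⟨r, hr, hr', hr2⟩ := hodd
      have : Fact r.Prime := ⟨hr⟩
      obtain ⟨d, hd⟩ := exists_prime_orderOf_dvd_card' (G := Kˣ) r (by rw [hu]; exact hr')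
      refine pl_of_odd_order h2 d ?_ ?_
      · rw [hd]
        exact hr.odd_of_ne_two hr2
      · rintro rfl
        rw [orderOf_one] at hd
        exact hr.one_lt.ne hd
    · push Not at hodd
      obtain ⟨v, hv⟩ := two_pow_of_no_odd (by omega) hodd
      have hv' : p ^ (n : ℕ) = 2 ^ v + 1 := by omega
      by_cases hn2 : 2 ≤ (n : ℕ)
      · have h9 := pow_sub_one_two_pow hp hp2 hn2 hv'
        exact pl_nine (by rw [hcard, h9])
      · have hn1 : (n : ℕ) = 1 := by omega
        rw [hn1, pow_one] at hcard hv'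
        rcases v with _ | _ | _ | v
        · exfalso
          rw [hv'] at hp2
          exact hp2 rfl
        · exact pl_three (by rw [hcard, hv']; norm_num)
        · exact pl_five (by rw [hcard, hv']; norm_num)
        · have h17 : p % 24 = 17 := by
            have h8 : 8 ∣ 2 ^ (v + 1 + 1 + 1) := ⟨2 ^ v, by ring⟩
            have h3 : p % 3 ≠ 0 := by
              intro h
              have h' : 3 ∣ p := Nat.dvd_of_mod_eq_zero h
              have := (Nat.prime_dvd_prime_iff_eq Nat.prime_three hp).1 h'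
              have h9 : 0 < 2 ^ (v + 1 + 1 + 1) := by positivity
              have := Nat.le_of_dvd h9 h8
              omega
            have h4 : 2 ^ (v + 1 + 1 + 1) % 3 ≠ 0 := by
              intro h
              have h' : 3 ∣ 2 ^ (v + 1 + 1 + 1) := Nat.dvd_of_mod_eq_zero h
              have := Nat.Prime.dvd_of_dvd_pow Nat.prime_three h'
              omega
            generalize 2 ^ (v + 1 + 1 + 1) = X at *
            obtain ⟨y, hy⟩ := h8
            have hy3 : y % 3 = 0 ∨ y % 3 = 1 ∨ y % 3 = 2 := by omega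
            rcases hy3 with hy3 | hy3 | hy3 <;> omega
          have h185 : p = 17 ∨ 185 ≤ p := by
            rcases v with _ | _ | _ | _ | _ | v
            · norm_num at hv'
              omega
            · norm_num at hv'
              omega
            · norm_num at hv'
              omega
            · norm_num at hv'
              rw [hv'] at hp
              norm_num at hp
            · norm_num at hv'
              omega
            · right
              have h9 : 0 < 2 ^ v := by positivity
              have h10 : 2 ^ (v + 1 + 1 + 1 + 1 + 1 + 1 + 1 + 1) = 256 * 2 ^ v := by ring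
              omega
          have h := pl_prime_17 h17 h185
          exact h.transport (ZMod.ringEquivOfPrime K hp (by rw [← Nat.card_eq_fintype_card, hcard]))

end Pool.Agent.H809_TA
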