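import Pool.Agent.H809_TA.Step
import Pool.Agent.H809_TA.PlaneAll

/-!
Families of forms in all dimensions, and orderings in all dimensions over fields with at least
three elements.
-/

set_option autoImplicit false

namespace Pool.Agent.H809_TA

open Function Module

section

variable {K H N : Type} [Field K] [AddCommGroup H] [Module K H] [AddCommGroup N] [Module K N]

/-- block sum of two bilinear forms -/
def blk (α : H →ₗ[K] Dual K H) (β : N →ₗ[K] Dual K N) : H × N →ₗ[K] Dual K (H × N) :=
  (LinearMap.fst K H N).dualMap ∘ₗ α ∘ₗ (LinearMap.fst K H N) +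
    (LinearMap.snd K H N).dualMap ∘ₗ β ∘ₗ (LinearMap.snd K H N)

theorem blk_apply (α : H →ₗ[K] Dual K H) (β : N →ₗ[K] Dual K N) (y z : H × N) :
    blk α β y z = α y.1 z.1 + β y.2 z.2 := rfl

theorem blk_fst {α α' : H →ₗ[K] Dual K H} {β β' : N →ₗ[K] Dual K N} {y y' : H × N}
    (h : blk α β y = blk α' β' y') : α y.1 = α' y'.1 := by
  ext z
  have h1 := congrArg (fun f : Dual K (H × N) => f (z, 0)) h
  simpa [blk_apply] using h1

theorem blk_snd {α α' : H →ₗ[K] Dual K H} {β β' : N →ₗ[K] Dual K N} {y y' : H × N}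
    (h : blk α β y = blk α' β' y') : β y.2 = β' y'.2 := by
  ext z
  have h1 := congrArg (fun f : Dual K (H × N) => f (0, z)) h
  simpa [blk_apply] using h1

theorem blk_inj {α : H →ₗ[K] Dual K H} {β : N →ₗ[K] Dual K N} (hα : Injective α)
    (hβ : Injective β) : Injective (blk α β) := by
  intro y y' h
  exact Prod.ext (hα (blk_fst h)) (hβ (blk_snd h))

theorem aniso_inj {B : N →ₗ[K] Dual K N} (hB : ∀ n, n ≠ 0 → B n n ≠ 0) : Injective B := by
  rw [injective_iff_map_eq_zero]
  intro n hn
  by_contra h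
  apply hB n h
  rw [hn]
  rfl

theorem fam_step (hH : Fam K H) (S : H →ₗ[K] Dual K H) (hS : ∀ h, S h h = 0) (hSi : Injective S)
    (B : N →ₗ[K] Dual K N) (hB : ∀ n, n ≠ 0 → B n n ≠ 0) : Fam K (H × N) := by
  classical
  obtain ⟨M, hM⟩ := hH
  have hBi := aniso_inj hB
  refine ⟨fun v => if v.2 = 0 then blk (M v.1) B else blk S B, ?_, ?_, ?_, ?_⟩
  · intro k v hk
    by_cases h : v.2 = 0
    · have h' : (k • v).2 = 0 := by rw [Prod.smul_snd, h, smul_zero]
      rw [if_pos h, if_pos h', Prod.smul_fst, hM.smul _ _ hk]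
    · have h' : (k • v).2 ≠ 0 := by rw [Prod.smul_snd]; exact smul_ne_zero hk h
      rw [if_neg h, if_neg h']
  · intro v hv
    by_cases h : v.2 = 0
    · rw [if_pos h, blk_apply, h, map_zero, add_zero]
      apply hM.diag
      intro h'
      exact hv (Prod.ext h' h)
    · rw [if_neg h, blk_apply, hS, zero_add]
      exact hB _ h
  · intro v hv
    by_cases h : v.2 = 0
    · rw [if_pos h]
      refine blk_inj (hM.inj _ ?_) hBi
      intro h'
      exact hv (Prod.ext h' h)
    · rw [if_neg h]
      exact blk_inj hSi hBi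
  · intro c v v' hv hv' h
    by_cases h1 : v.2 = 0 <;> by_cases h1' : v'.2 = 0
    · rw [if_pos h1, if_pos h1'] at h
      have h2 := hM.sep c.1 v.1 v'.1 (fun e => hv (Prod.ext e h1)) (fun e => hv' (Prod.ext e h1'))
        (blk_fst h)
      exact Prod.ext h2 (h1.trans h1'.symm)
    · exfalso
      rw [if_pos h1, if_neg h1'] at h
      have h2 := hBi (blk_snd h)
      simp only [Prod.snd_add, h1, add_zero, left_eq_add] at h2
      exact h1' h2
    · exfalso
      rw [if_neg h1, if_pos h1'] at h
      have h2 := hBi (blk_snd h)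
      simp only [Prod.snd_add, h1', add_zero, add_eq_left] at h2
      exact h1 h2
    · rw [if_neg h1, if_neg h1'] at h
      have h2 := hSi (blk_fst h)
      have h3 := hBi (blk_snd h)
      exact Prod.ext (add_left_cancel h2) (add_left_cancel h3)

end

/-- a family together with a symplectic form -/
def EF (K W : Type) [Field K] [AddCommGroup W] [Module K W] : Prop :=
  Fam K W ∧ ∃ S : W →ₗ[K] Dual K W, (∀ w, S w w = 0) ∧ Injective S

theorem EF.congr {K V V' : Type} [Field K] [AddCommGroup V] [Module K V] [AddCommGroup V']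
    [Module K V'] (e : V ≃ₗ[K] V') (h : EF K V) : EF K V' := by
  obtain ⟨⟨M, hM⟩, S, hS, hSi⟩ := h
  let g : (V →ₗ[K] Dual K V) → (V' →ₗ[K] Dual K V') := fun α =>
    (e.symm : V' →ₗ[K] V).dualMap ∘ₗ α ∘ₗ (e.symm : V' →ₗ[K] V)
  have hg : ∀ α y z, g α y z = α (e.symm y) (e.symm z) := fun α y z => rfl
  have hd : ∀ α α' y y', g α y = g α' y' → α (e.symm y) = α' (e.symm y') := by
    intro α α' y y' h
    ext z
    have := congrArg (fun f : Dual K V' => f (e z)) h
    simpa [hg] using this
  have hn : ∀ v : V', v ≠ 0 → e.symm v ≠ 0 := by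
    intro v hv h
    apply hv
    rw [← e.apply_symm_apply v, h, map_zero]
  refine ⟨⟨fun v => g (M (e.symm v)), ?_, ?_, ?_, ?_⟩, g S, ?_, ?_⟩
  · intro k v hk
    rw [map_smul, hM.smul _ _ hk]
  · intro v hv
    rw [hg]
    exact hM.diag _ (hn v hv)
  · intro v hv y y' h
    exact e.symm.injective (hM.inj _ (hn v hv) (hd _ _ _ _ h))
  · intro c v v' hv hv' h
    apply e.symm.injective
    apply hM.sep (e.symm c) _ _ (hn v hv) (hn v' hv')
    have := hd _ _ _ _ h
    rw [map_add e.symm, map_add e.symm] at this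
    exact this
  · intro w
    rw [hg]
    exact hS _
  · intro y y' h
    exact e.symm.injective (hSi (hd _ _ _ _ h))

section

variable (K : Type) [Field K]

/-- the hyperbolic alternating form on the plane -/
def S2 : K × K →ₗ[K] Dual K (K × K) :=
  LinearMap.mk₂ K (fun y z => y.1 * z.2 - y.2 * z.1)
    (by intro a b c; simp only [Prod.fst_add, Prod.snd_add]; ring)
    (by intro a b c; simp only [Prod.smul_fst, Prod.smul_snd, smul_eq_mul]; ring)
    (by intro a b c; simp only [Prod.fst_add, Prod.snd_add]; ring)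
    (by intro a b c; simp only [Prod.smul_fst, Prod.smul_snd, smul_eq_mul]; ring)

/-- an anisotropic form on the plane -/
def B2 (c : K) : K × K →ₗ[K] Dual K (K × K) :=
  LinearMap.mk₂ K (fun y z => y.1 * z.1 + y.1 * z.2 - c * (y.2 * z.2))
    (by intro a b c; simp only [Prod.fst_add, Prod.snd_add]; ring)
    (by intro a b c; simp only [Prod.smul_fst, Prod.smul_snd, smul_eq_mul]; ring)
    (by intro a b c; simp only [Prod.fst_add, Prod.snd_add]; ring)
    (by intro a b c; simp only [Prod.smul_fst, Prod.smul_snd, smul_eq_mul]; ring)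

variable {K}

theorem S2_apply (y z : K × K) : S2 K y z = y.1 * z.2 - y.2 * z.1 := rfl
theorem B2_apply (c : K) (y z : K × K) :
    B2 K c y z = y.1 * z.1 + y.1 * z.2 - c * (y.2 * z.2) := rfl

theorem S2_alt (y : K × K) : S2 K y y = 0 := by
  rw [S2_apply]; ring

theorem S2_inj : Injective (S2 K) := by
  rw [injective_iff_map_eq_zero]
  intro y hy
  have h1 := congrArg (fun f : Dual K (K × K) => f (0, 1)) hy
  have h2 := congrArg (fun f : Dual K (K × K) => f (1, 0)) hy
  simp [S2_apply] at h1 h2
  exact Prod.ext h1 h2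

theorem exists_c [Finite K] : ∃ c : K, ∀ z : K, c ≠ z ^ 2 + z := by
  by_contra hcon
  push Not at hcon
  have hs : Surjective (fun z : K => z ^ 2 + z) := by
    intro c
    obtain ⟨z, hz⟩ := hcon c
    exact ⟨z, hz.symm⟩
  have hi := Finite.injective_iff_surjective.2 hs
  have h1 : (fun z : K => z ^ 2 + z) 0 = (fun z : K => z ^ 2 + z) (-1) := by
    show (0 : K) ^ 2 + 0 = (-1) ^ 2 + -1
    ring
  have := hi h1
  exact one_ne_zero (neg_eq_zero.1 this.symm)

theorem B2_aniso {c : K} (hc : ∀ z : K, c ≠ z ^ 2 + z) (y : K × K) (hy : y ≠ 0) :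
    B2 K c y y ≠ 0 := by
  intro h
  rw [B2_apply] at h
  by_cases h2 : y.2 = 0
  · rw [h2] at h
    have h1 : y.1 = 0 := by
      have : y.1 * y.1 = 0 := by linear_combination h
      exact mul_self_eq_zero.1 this
    exact hy (Prod.ext h1 h2)
  · apply hc (y.1 / y.2)
    field_simp
    linear_combination -h

end

theorem sol_all_ge_three (K : Type) [Field K] [Finite K] (hK : 3 ≤ Nat.card K) (n : ℕ) :
    Sol K (Fin n → K) := by
  classical
  have hP := pl_all K hK
  obtain ⟨c, hc⟩ := exists_c (K := K)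
  have hmul : ∀ n : K, n ≠ 0 → LinearMap.mul K K n n ≠ 0 := by
    intro n hn
    rw [LinearMap.mul_apply']
    exact mul_ne_zero hn hn
  have key : ∀ m : ℕ, Sol K (Fin (2 * m) → K) ∧ EF K (Fin (2 * m) → K) ∧
      Sol K (Fin (2 * m + 1) → K) := by
    have odd : ∀ m : ℕ, Sol K (Fin (2 * m) → K) → EF K (Fin (2 * m) → K) →
        Sol K (Fin (2 * m + 1) → K) := by
      intro m h1 h2
      have h3 := sol_step hP h1 h2.1
      exact h3.congr (LinearEquiv.ofFinrankEq _ _ (by simp))
    intro m
    induction m with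
    | zero =>
      have hsub : Subsingleton (Fin (2 * 0) → K) := ⟨fun a b => by
        funext i
        exact (Nat.not_lt_zero _ i.2).elim⟩
      have h1 : Sol K (Fin (2 * 0) → K) := by
        refine sol_of_index (X := Empty) Empty.elim ?_ Empty.elim (fun x => x.elim)
          (fun x => x.elim) (fun x => x.elim)
        intro v hv
        exact absurd (Subsingleton.elim v 0) hv
      have h2 : EF K (Fin (2 * 0) → K) := by
        refine ⟨⟨0, ?_, ?_, ?_, ?_⟩, 0, ?_, ?_⟩
        · intro k v _; rfl
        · intro v hv; exact absurd (Subsingleton.elim v 0) hv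
        · intro v hv; exact absurd (Subsingleton.elim v 0) hv
        · intro c v v' _ _ _; exact Subsingleton.elim _ _
        · intro w; rfl
        · intro x y _; exact Subsingleton.elim _ _
      exact ⟨h1, h2, odd 0 h1 h2⟩
    | succ m ih =>
      obtain ⟨h1, h2, h3⟩ := ih
      obtain ⟨hF, S, hS, hSi⟩ := h2
      have f1 : Fam K ((Fin (2 * m) → K) × K) := fam_step hF S hS hSi (LinearMap.mul K K) hmul
      have f2 : Fam K ((Fin (2 * m) → K) × (K × K)) :=
        fam_step hF S hS hSi (B2 K c) (B2_aniso hc)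
      have s1 : Sol K ((Fin (2 * m) → K) × K) := sol_step hP h1 hF
      have s2 : Sol K (((Fin (2 * m) → K) × K) × K) := sol_step hP s1 f1
      have e1 : Sol K (Fin (2 * (m + 1)) → K) :=
        s2.congr (LinearEquiv.ofFinrankEq _ _ (by simp; ring))
      have e2 : EF K (Fin (2 * (m + 1)) → K) := by
        have : EF K ((Fin (2 * m) → K) × (K × K)) :=
          ⟨f2, blk S (S2 K), by
            intro w
            rw [blk_apply, hS, S2_alt, add_zero], blk_inj hSi S2_inj⟩
        exact this.congr (LinearEquiv.ofFinrankEq _ _ (by simp; ring))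
      exact ⟨e1, e2, odd (m + 1) e1 e2⟩
  rcases Nat.even_or_odd' n with ⟨m, rfl | rfl⟩
  · exact (key m).1
  · exact (key m).2.2

end Pool.Agent.H809_TA
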