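import Pool.Agent.H809_TA.PlaneUTA

/-!
The affine plane of order four: tables.
-/

set_option autoImplicit false

namespace Pool.Agent.H809_TA

open Function Finset

/-- code of a permutation of four symbols -/
def pcode (p : Equiv.Perm (Fin 4)) : ℕ := 16 * (p 0).val + 4 * (p 1).val + (p 2).val

/-- the table of the colours at the points off the first vertical line -/
def tabP (n : ℕ) : ℕ :=
  match n with
  | 6 => 31402
  | 11 => 1423
  | 13 => 2134
  | 19 => 21034
  | 24 => 10432
  | 30 => 12043
  | 33 => 34021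
  | 39 => 30124
  | 44 => 14023
  | 50 => 20341
  | 52 => 20143
  | 57 => 1342
  | _ => 0

/-- the table of the colours at the points of the first vertical line -/
def tabK (k : Fin 4) : ℕ :=
  match k with
  | 0 => 24301
  | 1 => 2431
  | 2 => 34102
  | 3 => 12304

/-- a digit as an element of `Fin 5` -/
def dig5 (n : ℕ) (c : Fin 5) : Fin 5 := Fin.ofNat 5 (n / 10 ^ c.val % 10)

/-- the permutation occurs in the table -/
def okP (p : Equiv.Perm (Fin 4)) : Bool := tabP (pcode p) != 0

theorem four1 : ∀ p : Equiv.Perm (Fin 4), okP p = true → ∀ c : Fin 5,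
    dig5 (tabP (pcode p)) c ≠ c := by
  decide +kernel

theorem four2 : ∀ p : Equiv.Perm (Fin 4), okP p = true → ∀ c c' : Fin 5,
    dig5 (tabP (pcode p)) c = dig5 (tabP (pcode p)) c' → c = c' := by
  decide +kernel

theorem four3 : ∀ k : Fin 4, ∀ c : Fin 5, dig5 (tabK k) c ≠ c := by
  decide +kernel

theorem four4 : ∀ k : Fin 4, ∀ c c' : Fin 5, dig5 (tabK k) c = dig5 (tabK k) c' → c = c' := by
  decide +kernel

theorem four5 : ∀ p : Equiv.Perm (Fin 4), okP p = true → ∀ q : Equiv.Perm (Fin 4),
    okP q = true → p ≠ q → ∀ i : Fin 4, p i = q i →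
      dig5 (tabP (pcode p)) i.castSucc ≠ dig5 (tabP (pcode q)) i.castSucc := by
  decide +kernel

theorem four6 : ∀ p : Equiv.Perm (Fin 4), okP p = true → ∀ q : Equiv.Perm (Fin 4),
    okP q = true → (∀ i : Fin 4, p i ≠ q i) →
      dig5 (tabP (pcode p)) 4 ≠ dig5 (tabP (pcode q)) 4 := by
  decide +kernel

theorem four7 : ∀ p : Equiv.Perm (Fin 4), okP p = true → ∀ i : Fin 4,
    dig5 (tabP (pcode p)) i.castSucc ≠ dig5 (tabK (p i)) i.castSucc := by
  decide +kernel

theorem four8 : ∀ k k' : Fin 4, k ≠ k' → dig5 (tabK k) 4 ≠ dig5 (tabK k') 4 := by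
  decide +kernel

theorem four9 : ∀ p : Equiv.Perm (Fin 4), (univ.filter fun i : Fin 4 => p i = i).card = 1 →
    okP p = true := by
  decide +kernel

theorem four10 : ∀ q : Equiv.Perm (Fin 4), okP q = true → ∀ p : Equiv.Perm (Fin 4),
    (univ.filter fun i : Fin 4 => p i = q i).card = 1 → okP p = true := by
  decide +kernel

theorem four11 : okP 1 = true := by
  decide +kernel

end Pool.Agent.H809_TA
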