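import Mathlib

/-!
Symmetric designs of resolvable partial geometries.
-/

set_option autoImplicit false

namespace Pool.Agent.H809_TA

/-- Two different points are collinear when they lie on a common line. The lines are given in
parallel classes: `u x a` is the line of the class `a` through the point `x`. -/
def Coll {X A L : Type} (u : X → A → L) (x y : X) : Prop := x ≠ y ∧ ∃ a, u x a = u y a

/-- A resolvable partial geometry with points `X`, parallel classes `A` and lines in each class
labelled by `L`: two points lie on at most one common line, all lines have `k` points, and every
point off a line is collinear with exactly `α` points of this line. Nets are the case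
`α + 1 = |A|`. -/
structure IsGeometry {X A L : Type} (u : X → A → L) (k α : ℕ) : Prop where
  one : ∀ x y a b, x ≠ y → u x a = u y a → u x b = u y b → a = b
  card : ∀ a l, Nat.card {x // u x a = l} = k
  coll : ∀ a l x, u x a ≠ l → Nat.card {y // u y a = l ∧ Coll u x y} = α

/-- The design with incidence relation `mem` is the design of a resolvable partial geometry: blocks
correspond to the points of the geometry, and the block of `x` consists of the points collinear
with `x`, together with `x` itself if `s` holds and without `x` otherwise. -/
def IsGeometric {P Q : Type} (mem : P → Q → Prop) : Prop :=
  ∃ (A L : Type) (_ : Fintype L) (u : P → A → L) (θ : Q → P) (k α : ℕ) (s : Prop),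
    Function.Bijective θ ∧ IsGeometry u k α ∧
    ∀ p b, mem p b ↔ Coll u p (θ b) ∨ (s ∧ p = θ b)

end Pool.Agent.H809_TA
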