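import Pool.Agent.H809_TA.AffineType
import Pool.Agent.H809_TA.GeomDefs

/-!
Orderings of the symmetric designs of resolvable partial geometries.
-/

set_option autoImplicit false

namespace Pool.Agent.H809_TA

open Function Finset

/-- A decomposition into matchings with a prescribed row. -/
theorem exists_array_row {I J S : Type} [Fintype I] [Fintype S] (rel : I → S → Prop)
    (d : ℕ) (h1 : ∀ i, Nat.card {s // rel i s} = d) (h2 : ∀ s, Nat.card {i // rel i s} = d)
    (i0 : I) (f : J → S) (hf : Injective f) (hf' : ∀ j, rel i0 (f j)) :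
    ∃ t : I → J → S, (∀ i j, rel i (t i j)) ∧ (∀ i, Injective (t i)) ∧
      (∀ j, Injective (fun i => t i j)) ∧ ∀ j, t i0 j = f j := by
  classical
  obtain ⟨t, t1, t2, t3⟩ := exists_array d rel h1 h2
  have hsurj : ∀ s, rel i0 s → ∃ k, t i0 k = s := by
    have hb : Bijective (fun k : Fin d => (⟨t i0 k, t1 i0 k⟩ : {s // rel i0 s})) := by
      rw [Fintype.bijective_iff_injective_and_card]
      constructor
      · intro k k' h
        exact t2 i0 (congrArg Subtype.val h)
      · rw [Fintype.card_fin, ← h1 i0, Nat.card_eq_fintype_card]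
    intro s hs
    obtain ⟨k, hk⟩ := hb.2 ⟨s, hs⟩
    exact ⟨k, congrArg Subtype.val hk⟩
  choose k hk using fun j => hsurj (f j) (hf' j)
  refine ⟨fun i j => t i (k j), fun i j => t1 i (k j), ?_, fun j => t3 (k j), hk⟩
  intro i j j' h
  have h4 := t2 i h
  apply hf
  rw [← hk j, ← hk j', h4]

theorem rect_row {I J S : Type} [Fintype I] [Fintype S]
    {pI : I → Prop} {pJ : J → Prop} {pS : S → Prop} {rel : I → S → Prop} (d : ℕ)
    (h1 : ∀ i, pI i → Nat.card {s // pS s ∧ rel i s} = d)
    (h2 : ∀ s, pS s → Nat.card {i // pI i ∧ rel i s} = d)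
    (i0 : I) (hi0 : pI i0) (f : J → S) (hf : Injective f) (hf' : ∀ j, pJ j → pS (f j))
    (hf'' : ∀ j, pJ j → rel i0 (f j)) :
    ∃ t : I → J → S, (∀ i j, pI i → pJ j → pS (t i j) ∧ rel i (t i j)) ∧
      (∀ i j j', pI i → pJ j → pJ j' → t i j = t i j' → j = j') ∧
      (∀ i i' j, pI i → pI i' → pJ j → t i j = t i' j → i = i') ∧
      ∀ j, t i0 j = f j := by
  classical
  obtain ⟨t, t1, t2, t3, t4⟩ := exists_array_row (I := {i // pI i}) (J := {j // pJ j})
    (S := {s // pS s}) (fun i s => rel i.1 s.1) d (by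
      intro i
      rw [← h1 i.1 i.2]
      exact Nat.card_congr (Equiv.subtypeSubtypeEquivSubtypeInter pS (rel i.1))) (by
      intro s
      rw [← h2 s.1 s.2]
      exact Nat.card_congr (Equiv.subtypeSubtypeEquivSubtypeInter pI (fun i => rel i s.1)))
    ⟨i0, hi0⟩ (fun j => ⟨f j.1, hf' j.1 j.2⟩)
    (fun j j' h => Subtype.ext (hf (congrArg Subtype.val h))) (fun j => hf'' j.1 j.2)
  refine ⟨fun i j => if hi : pI i then (if hj : pJ j then (t ⟨i, hi⟩ ⟨j, hj⟩).1
    else f j) else f j, ?_, ?_, ?_, ?_⟩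
  · intro i j hi hj
    simp only [dif_pos hi, dif_pos hj]
    exact ⟨(t _ _).2, t1 ⟨i, hi⟩ _⟩
  · intro i j j' hi hj hj' h
    simp only [dif_pos hi, dif_pos hj, dif_pos hj'] at h
    exact congrArg Subtype.val (t2 _ (Subtype.ext h))
  · intro i i' j hi hi' hj h
    simp only [dif_pos hi, dif_pos hi', dif_pos hj] at h
    exact congrArg Subtype.val (t3 _ (Subtype.ext h))
  · intro j
    simp only [dif_pos hi0]
    by_cases hj : pJ j
    · simp only [dif_pos hj]
      rw [t4]
    · simp only [dif_neg hj]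

theorem Coll.symm {X A L : Type} {u : X → A → L} {x y : X} (h : Coll u x y) : Coll u y x :=
  ⟨h.1.symm, h.2.imp fun _ h' => h'.symm⟩

theorem desArr_geometric {P Q : Type} [Fintype P] [Fintype Q] {mem : P → Q → Prop}
    (h : IsGeometric mem) (b0 : Q) : DesArr mem b0 := by
  classical
  obtain ⟨A, L, hL, u, θ, k, α, s, hθ, hg, hm⟩ := h
  obtain ⟨ψ, hψ1, hψ2⟩ := Function.bijective_iff_has_inverse.1 hθ
  have hψ2 : ∀ p, θ (ψ p) = p := hψ2
  have hψinj : Injective ψ := fun p q h => by rw [← hψ2 p, h, hψ2]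
  obtain ⟨o, ho⟩ : ∃ o, θ b0 = o := ⟨_, rfl⟩
  have hm0 : ∀ p, mem p b0 ↔ Coll u p o ∨ (s ∧ p = o) := by
    intro p
    rw [hm, ho]
  -- the class of a point collinear with `o`
  have hcls : ∀ p, ∃ a : Option A, Coll u p o → ∃ a', a = some a' ∧ u p a' = u o a' := by
    intro p
    by_cases hp : Coll u p o
    · obtain ⟨a, ha⟩ := hp.2
      exact ⟨some a, fun _ => ⟨a, rfl, ha⟩⟩
    · exact ⟨none, fun h => absurd h hp⟩
  choose cls hcls using hcls
  -- the local arrays
  have hloc : ∀ (a : A) (l : L), ∃ t : P → P → Q, u o a ≠ l →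
      (∀ i j, u i a = u o a → (u j a = l ∧ ¬ Coll u o j) →
        u (θ (t i j)) a = l ∧ ¬ Coll u i (θ (t i j))) ∧
      (∀ i j j', u i a = u o a → (u j a = l ∧ ¬ Coll u o j) → (u j' a = l ∧ ¬ Coll u o j') →
        t i j = t i j' → j = j') ∧
      (∀ i i' j, u i a = u o a → u i' a = u o a → (u j a = l ∧ ¬ Coll u o j) →
        t i j = t i' j → i = i') ∧ ∀ j, t o j = ψ j := by
    intro a l
    by_cases hl : u o a = l
    · exact ⟨fun _ j => ψ j, fun h => absurd hl h⟩
    · have e1 : ∀ i, u i a = u o a →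
          Nat.card {b // u (θ b) a = l ∧ ¬ Coll u i (θ b)} = k - α := by
        intro i hi
        have h1 := card_split (X := P) (fun y => u y a = l) (fun y => Coll u i y)
        rw [hg.card, hg.coll a l i (by rw [hi]; exact hl)] at h1
        have h2 : Nat.card {b // u (θ b) a = l ∧ ¬ Coll u i (θ b)}
            = Nat.card {y // u y a = l ∧ ¬ Coll u i y} :=
          Nat.card_congr ((Equiv.ofBijective θ hθ).subtypeEquiv fun b => Iff.rfl)
        omega
      have e2 : ∀ b, u (θ b) a = l →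
          Nat.card {i // u i a = u o a ∧ ¬ Coll u i (θ b)} = k - α := by
        intro b hb
        have h1 := card_split (X := P) (fun y => u y a = u o a) (fun y => Coll u (θ b) y)
        rw [hg.card, hg.coll a (u o a) (θ b) (by rw [hb]; exact Ne.symm hl)] at h1
        have h2 : Nat.card {i // u i a = u o a ∧ ¬ Coll u i (θ b)}
            = Nat.card {y // u y a = u o a ∧ ¬ Coll u (θ b) y} :=
          card_iff fun y => by
            constructor
            · exact fun h => ⟨h.1, fun h' => h.2 h'.symm⟩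
            · exact fun h => ⟨h.1, fun h' => h.2 h'.symm⟩
        omega
      obtain ⟨t, ht⟩ := rect_row (I := P) (J := P) (S := Q) (pI := fun i => u i a = u o a)
        (pJ := fun j => u j a = l ∧ ¬ Coll u o j) (pS := fun b => u (θ b) a = l)
        (rel := fun i b => ¬ Coll u i (θ b)) (k - α) e1 e2 o rfl ψ hψinj
        (fun j hj => by rw [hψ2]; exact hj.1) (fun j hj => by rw [hψ2]; exact hj.2)
      exact ⟨t, fun _ => ht⟩
  choose t ht using hloc
  -- the array
  let T : P → P → Q := fun p q => if p = o then ψ q else if q = o then ψ p else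
    match cls p with
    | none => b0
    | some a => t a (u q a) p q
  have T0 : ∀ q, T o q = ψ q := fun q => if_pos rfl
  have T1 : ∀ p, p ≠ o → T p o = ψ p := by
    intro p hp
    simp only [T]
    rw [if_neg hp]
    exact if_pos trivial
  have T2 : ∀ p q, p ≠ o → q ≠ o → Coll u p o → ∃ a, u p a = u o a ∧
      T p q = t a (u q a) p q := by
    intro p q hp hq h
    obtain ⟨a, ha, ha'⟩ := hcls p h
    refine ⟨a, ha', ?_⟩
    simp only [T]
    rw [if_neg hp, if_neg hq, ha]
  -- columns different from `o`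
  have hcol : ∀ q, ¬ mem q b0 → q ≠ o → ¬ Coll u o q ∧ ∀ a, u o a ≠ u q a := by
    intro q hq hqo
    rw [hm0] at hq
    push Not at hq
    refine ⟨fun h => hq.1 h.symm, fun a h => hq.1 ⟨hqo, a, h.symm⟩⟩
  have hrow : ∀ p, mem p b0 → p ≠ o → Coll u p o := by
    intro p hp hpo
    rcases (hm0 p).1 hp with h | h
    · exact h
    · exact absurd h.2 hpo
  -- values at ordinary cells
  have key : ∀ p q a, p ≠ o → u p a = u o a → ¬ Coll u o q → (∀ a, u o a ≠ u q a) →
      u (θ (t a (u q a) p q)) a = u q a ∧ ¬ Coll u p (θ (t a (u q a) p q)) ∧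
      θ (t a (u q a) p q) ≠ q := by
    intro p q a hp ha hq hq'
    obtain ⟨h1, h2, h3, h4⟩ := ht a (u q a) (hq' a)
    obtain ⟨h5, h6⟩ := h1 p q ha ⟨rfl, hq⟩
    refine ⟨h5, h6, fun h => hp ?_⟩
    apply h3 p o q ha rfl ⟨rfl, hq⟩
    rw [h4]
    apply hθ.1
    rw [h, hψ2]
  refine ⟨T, ?_, ?_, ?_⟩
  · intro p q hp hq
    by_cases hpo : p = o
    · subst hpo
      rw [T0, hm, hm, hψ2]
      rw [hm0] at hp hq
      push Not at hq
      have hs : s := by
        rcases hp with h | h
        · exact absurd rfl h.1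
        · exact h.1
      refine ⟨?_, Or.inr ⟨hs, rfl⟩⟩
      rintro (h | h)
      · exact hq.1 h.symm
      · exact hq.2 hs h.2.symm
    · have hc := hrow p hp hpo
      by_cases hqo : q = o
      · subst hqo
        rw [T1 p hpo, hm, hm, hψ2]
        rw [hm0] at hq
        push Not at hq
        refine ⟨?_, Or.inl hc.symm⟩
        rintro (h | h)
        · exact h.1 rfl
        · exact hq.2 h.1 rfl
      · obtain ⟨a, ha, hT⟩ := T2 p q hpo hqo hc
        obtain ⟨h1, h2⟩ := hcol q hq hqo
        obtain ⟨h3, h4, h5⟩ := key p q a hpo ha h1 h2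
        rw [hT, hm, hm]
        refine ⟨?_, Or.inl ⟨h5.symm, a, h3.symm⟩⟩
        rintro (h | h)
        · exact h4 h
        · apply h2 a
          rw [← h3, ← h.2, ha]
  · intro p q q' hp hq hq' h
    by_cases hpo : p = o
    · subst hpo
      rw [T0, T0] at h
      exact hψinj h
    · have hc := hrow p hp hpo
      obtain ⟨a0, ha0, ha0'⟩ := hcls p hc
      have T2' : ∀ q, q ≠ o → T p q = t a0 (u q a0) p q := by
        intro q hq
        simp only [T]
        rw [if_neg hpo, if_neg hq, ha0]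
      have aux : ∀ q, ¬ mem q b0 → q ≠ o → T p q ≠ ψ p := by
        intro q hq hqo h'
        obtain ⟨h1, h2⟩ := hcol q hq hqo
        obtain ⟨h3, _, _⟩ := key p q a0 hpo ha0' h1 h2
        rw [← T2' q hqo, h', hψ2] at h3
        exact h2 a0 (ha0'.symm.trans h3)
      by_cases hqo : q = o <;> by_cases hqo' : q' = o
      · rw [hqo, hqo']
      · subst hqo
        rw [T1 p hpo] at h
        exact absurd h.symm (aux q' hq' hqo')
      · subst hqo'
        rw [T1 p hpo] at h
        exact absurd h (aux q hq hqo)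
      · obtain ⟨h1, h2⟩ := hcol q hq hqo
        obtain ⟨h1', h2'⟩ := hcol q' hq' hqo'
        obtain ⟨h3, _, _⟩ := key p q a0 hpo ha0' h1 h2
        obtain ⟨h3', _, _⟩ := key p q' a0 hpo ha0' h1' h2'
        rw [T2' q hqo, T2' q' hqo'] at h
        rw [← h, h3] at h3'
        rw [← h3'] at h
        obtain ⟨_, h6, _, _⟩ := ht a0 (u q a0) (h2 a0)
        exact h6 p q q' ha0' ⟨rfl, h1⟩ ⟨h3'.symm, h1'⟩ h
  · intro p p' q hp hp' hq h
    by_cases hqo : q = o
    · subst hqo
      have hne : ∀ p, mem p b0 → p ≠ q := by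
        rintro p hp rfl
        exact hq hp
      rw [T1 p (hne p hp), T1 p' (hne p' hp')] at h
      exact hψinj h
    · obtain ⟨h1, h2⟩ := hcol q hq hqo
      have aux : ∀ p, mem p b0 → p ≠ o → T p q ≠ ψ q := by
        intro p hp hpo h'
        obtain ⟨a, ha, hT⟩ := T2 p q hpo hqo (hrow p hp hpo)
        obtain ⟨_, _, h5⟩ := key p q a hpo ha h1 h2
        rw [← hT, h', hψ2] at h5
        exact h5 rfl
      by_cases hpo : p = o <;> by_cases hpo' : p' = o
      · rw [hpo, hpo']
      · subst hpo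
        rw [T0] at h
        exact absurd h.symm (aux p' hp' hpo')
      · subst hpo'
        rw [T0] at h
        exact absurd h (aux p hp hpo)
      · obtain ⟨a, ha, hT⟩ := T2 p q hpo hqo (hrow p hp hpo)
        obtain ⟨a', ha', hT'⟩ := T2 p' q hpo' hqo (hrow p' hp' hpo')
        obtain ⟨h3, _, h5⟩ := key p q a hpo ha h1 h2
        obtain ⟨h3', _, _⟩ := key p' q a' hpo' ha' h1 h2
        rw [hT, hT'] at h
        rw [← h] at h3'
        have haa := hg.one _ _ a a' h5 h3 h3'
        subst haa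
        obtain ⟨_, _, h6, _⟩ := ht a (u q a) (h2 a)
        exact h6 p p' q ha ha' ⟨rfl, h1⟩ h

end Pool.Agent.H809_TA
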