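import Pool.Agent.H809_TA.Dual

/-!
Integral orderings of extremal unordered triple arrays.
-/

set_option autoImplicit false

namespace Pool.Agent.H809_TA

open Finset

section

variable {I J V : Type} [Fintype I] [Fintype J] [Fintype V] [DecidableEq V]
  {R : I → Finset V} {C : J → Finset V} {e : ℕ}

/-- the columns containing `s` -/
def Pc (C : J → Finset V) (s : V) : Finset J := univ.filter fun j => s ∈ C j

/-- the rows missing `s` -/
def Zr (R : I → Finset V) (s : V) : Finset I := univ.filter fun i => s ∉ R i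

omit [Fintype V] in
theorem card_Pc (hU : IsUTA R C e) (s : V) : (Pc C s).card = e := hU.repC s

omit [Fintype V] in
theorem card_Zr (hU : IsUTA R C e) (s : V) : (Zr R s).card + e = Fintype.card I := by
  have h1 := Finset.card_filter_add_card_filter_not (s := (univ : Finset I)) (fun i => s ∈ R i)
  rw [hU.repR s, card_univ] at h1
  rw [← h1, add_comm]
  rfl

theorem inter_ZP [DecidableEq I] [DecidableEq J] (hU : IsUTA R C e)
    (hext : Fintype.card V + 1 = Fintype.card I + Fintype.card J) (he : 0 < e) (s s' : V)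
    (hs : s ≠ s') :
    (Zr R s ∩ Zr R s').card + (Pc C s ∩ Pc C s').card + e = Fintype.card I := by
  have h := block_inter hU hext he s s' hs
  have h1 : ∑ i, (1 - ind (R i) s) * (1 - ind (R i) s') = ((Zr R s ∩ Zr R s').card : ℚ) := by
    rw [Zr, Zr, ← filter_and, ← sum_boole]
    refine sum_congr rfl fun i _ => ?_
    by_cases h1 : s ∈ R i <;> by_cases h2 : s' ∈ R i <;> simp [ind, h1, h2]
  have h2 : ∑ j, ind (C j) s * ind (C j) s' = ((Pc C s ∩ Pc C s').card : ℚ) := by
    rw [Pc, Pc, ← filter_and, ← sum_boole]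
    refine sum_congr rfl fun i _ => ?_
    by_cases h1 : s ∈ C i <;> by_cases h2 : s' ∈ C i <;> simp [ind, h1, h2]
  rw [h1, h2] at h
  have h3 : (((Zr R s ∩ Zr R s').card + (Pc C s ∩ Pc C s').card + e : ℕ) : ℚ)
      = (Fintype.card I : ℕ) := by
    push_cast
    linear_combination h
  exact_mod_cast h3

/-- basic parameter relation `(r - e) c = (r - 1) e` -/
theorem param (hU : IsUTA R C e)
    (hext : Fintype.card V + 1 = Fintype.card I + Fintype.card J) :
    Fintype.card I * Fintype.card J + e = (Fintype.card I + Fintype.card J) * e := by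
  have h1 := uta_P1 hU
  have h2 : Fintype.card I * Fintype.card J = Fintype.card V * e := by exact_mod_cast h1
  rw [h2, ← hext]
  ring

theorem lt_two_mul (hU : IsUTA R C e)
    (hext : Fintype.card V + 1 = Fintype.card I + Fintype.card J) (he : 0 < e)
    (hrc : Fintype.card I ≤ Fintype.card J) : Fintype.card I < 2 * e := by
  have h := param hU hext
  by_contra hcon
  push Not at hcon
  obtain ⟨a, ha⟩ := Nat.exists_eq_add_of_le hcon
  obtain ⟨b, hb⟩ := Nat.exists_eq_add_of_le hrc
  rw [hb, ha] at h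
  nlinarith [Nat.zero_le (a * b), Nat.zero_le (a * e), Nat.zero_le (e * b), Nat.zero_le (a * a)]

theorem const_of_cond (hU : IsUTA R C e)
    (hext : Fintype.card V + 1 = Fintype.card I + Fintype.card J) (he : 2 < e)
    (hrc : Fintype.card I ≤ Fintype.card J) {A : Type} (i i' : I) (hi : i ≠ i') (φ : J → A)
    (hφ : ∀ s, s ∈ R i → s ∈ R i' → ∀ j j', s ∈ C j → s ∈ C j' → φ j = φ j') (j1 j2 : J) :
    φ j1 = φ j2 := by
  classical
  by_contra hne
  have he0 : 0 < e := by omega
  have h2e := lt_two_mul hU hext he0 hrc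
  have cover : ∀ j, ∃ s, s ∈ R i ∧ s ∈ R i' ∧ s ∈ C j := by
    intro j
    by_contra hcon
    push Not at hcon
    have hdis : Disjoint (R i ∩ C j) (R i' ∩ C j) := by
      rw [disjoint_left]
      intro s hs hs'
      rw [mem_inter] at hs hs'
      exact hcon s hs.1 hs'.1 hs.2
    have hsub : (R i ∩ C j) ∪ (R i' ∩ C j) ⊆ C j :=
      union_subset inter_subset_right inter_subset_right
    have := card_le_card hsub
    rw [card_union_of_disjoint hdis, uta_rc hU, uta_rc hU, hU.cardC] at this
    omega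
  have mP : ∀ s j, j ∈ Pc C s ↔ s ∈ C j := by
    intro s j
    simp [Pc]
  obtain ⟨s1, a1, b1, c1⟩ := cover j1
  obtain ⟨s2, a2, b2, c2⟩ := cover j2
  -- blocks in different parts are disjoint and miss the same rows
  have key : ∀ s s', s ∈ R i → s ∈ R i' → s' ∈ R i → s' ∈ R i' →
      (∃ j j', s ∈ C j ∧ s' ∈ C j' ∧ φ j ≠ φ j') → Zr R s = Zr R s' := by
    rintro s s' h1 h2 h3 h4 ⟨j, j', h5, h6, h7⟩
    have hss : s ≠ s' := by
      rintro rfl
      exact h7 (hφ s h1 h2 j j' h5 h6)
    have hdis : Pc C s ∩ Pc C s' = ∅ := by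
      rw [← disjoint_iff_inter_eq_empty, disjoint_left]
      intro k hk hk'
      rw [mP] at hk hk'
      exact h7 ((hφ s h1 h2 j k h5 hk).trans (hφ s' h3 h4 k j' hk' h6))
    have h8 := inter_ZP hU hext he0 s s' hss
    rw [hdis, card_empty, add_zero] at h8
    have h9 := card_Zr hU s
    have h10 := card_Zr hU s'
    have e1 : Zr R s ∩ Zr R s' = Zr R s :=
      eq_of_subset_of_card_le inter_subset_left (by omega)
    have e2 : Zr R s ∩ Zr R s' = Zr R s' :=
      eq_of_subset_of_card_le inter_subset_right (by omega)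
    rw [← e1, e2]
  have h12 : Zr R s1 = Zr R s2 := key s1 s2 a1 b1 a2 b2 ⟨j1, j2, c1, c2, hne⟩
  have hall : ∀ s, s ∈ R i → s ∈ R i' → Zr R s = Zr R s1 := by
    intro s h1 h2
    have hP : (Pc C s).Nonempty := by
      rw [← card_pos, card_Pc hU]
      exact he0
    obtain ⟨j, hj⟩ := hP
    rw [mP] at hj
    by_cases h3 : φ j = φ j1
    · rw [h12]
      exact key s s2 h1 h2 a2 b2 ⟨j, j2, hj, c2, by rw [h3]; exact hne⟩
    · exact key s s1 h1 h2 a1 b1 ⟨j, j1, hj, c1, h3⟩
  have hdisj : ∀ s ∈ R i ∩ R i', ∀ s' ∈ R i ∩ R i', s ≠ s' → Disjoint (Pc C s) (Pc C s') := by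
    intro s hs s' hs' hss
    rw [mem_inter] at hs hs'
    have h8 := inter_ZP hU hext he0 s s' hss
    rw [hall s hs.1 hs.2, hall s' hs'.1 hs'.2, inter_self] at h8
    have h9 := card_Zr hU s1
    rw [disjoint_iff_inter_eq_empty, ← card_eq_zero]
    omega
  have hsum : (R i ∩ R i').card * e ≤ Fintype.card J := by
    have h1 : ((R i ∩ R i').biUnion (Pc C)).card = ∑ s ∈ R i ∩ R i', (Pc C s).card :=
      card_biUnion (fun s hs s' hs' hss => hdisj s hs s' hs' hss)
    rw [sum_congr rfl fun s _ => card_Pc hU s, sum_const, smul_eq_mul] at h1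
    rw [← h1]
    exact card_le_univ _
  have hrr := uta_rr hU hext i i' hi
  have hrr' : (R i ∩ R i').card + e = Fintype.card J := by
    have : (((R i ∩ R i').card + e : ℕ) : ℚ) = (Fintype.card J : ℕ) := by
      push_cast
      linear_combination hrr
    exact_mod_cast this
  have hI2 : 1 < Fintype.card I := Fintype.one_lt_card_iff.2 ⟨i, i', hi⟩
  have hpar := param hU hext
  generalize (R i ∩ R i').card = n at *
  generalize Fintype.card I = r at *
  generalize Fintype.card J = c at *
  -- `(c - e) e ≤ c`, `r ≤ c`, `r c + e = (r + c) e`, `e ≥ 3`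
  have hre : e < r := by
    by_contra hcon
    push Not at hcon
    obtain ⟨a, ha⟩ := Nat.exists_eq_add_of_le hcon
    rw [ha] at hpar
    nlinarith [Nat.zero_le (a * r), Nat.zero_le (a * c), Nat.zero_le (a * a)]
  -- hence `c ≥ e + 1` and `n e ≤ n + e`
  have hn : n * e ≤ n + e := by omega
  have hn1 : n ≤ 1 := by
    by_contra hcon
    push Not at hcon
    obtain ⟨a, rfl⟩ := Nat.exists_eq_add_of_le hcon
    obtain ⟨b, rfl⟩ := Nat.exists_eq_add_of_le he
    nlinarith [Nat.zero_le (a * b)]
  have hc : c = e + 1 := by omega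
  have hr : r = e + 1 := by omega
  subst hc
  rw [hr] at hpar
  nlinarith

/-- the total sum vanishes -/
theorem core_le (hU : IsUTA R C e)
    (hext : Fintype.card V + 1 = Fintype.card I + Fintype.card J) (he : 2 < e)
    (hrc : Fintype.card I ≤ Fintype.card J) {A : Type} [AddCommGroup A] (w : I → J → A)
    (u : I → V → A) (z : J → V → A)
    (h : ∀ i j s, s ∈ R i → s ∈ C j → w i j + u i s + z j s = 0) :
    ∑ i, ∑ j, w i j + ∑ i, ∑ s ∈ R i, u i s + ∑ j, ∑ s ∈ C j, z j s = 0 := by
  classical
  have he0 : 0 < e := by omega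
  obtain ⟨f, g, hfg⟩ : ∃ (f : I → A) (g : J → A), ∀ i j, w i j = f i + g j := by
    by_cases hI : Nonempty I
    · obtain ⟨i0⟩ := hI
      by_cases hJ : Nonempty J
      · obtain ⟨j0⟩ := hJ
        refine ⟨fun i => w i j0 - w i0 j0, fun j => w i0 j, ?_⟩
        intro i j
        by_cases hi : i = i0
        · subst hi
          show w i j = w i j0 - w i j0 + w i j
          rw [sub_self, zero_add]
        · have := const_of_cond hU hext he hrc i i0 hi (fun j => w i j - w i0 j) (by
            intro s hs hs' j j' hj hj'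
            have h1 := h i j s hs hj
            have h2 := h i0 j s hs' hj
            have h3 := h i j' s hs hj'
            have h4 := h i0 j' s hs' hj'
            have e1 : w i j = -(u i s + z j s) := eq_neg_of_add_eq_zero_left (by rw [← add_assoc]; exact h1)
            have e2 : w i0 j = -(u i0 s + z j s) := eq_neg_of_add_eq_zero_left (by rw [← add_assoc]; exact h2)
            have e3 : w i j' = -(u i s + z j' s) := eq_neg_of_add_eq_zero_left (by rw [← add_assoc]; exact h3)
            have e4 : w i0 j' = -(u i0 s + z j' s) := eq_neg_of_add_eq_zero_left (by rw [← add_assoc]; exact h4)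
            show w i j - w i0 j = w i j' - w i0 j'
            rw [e1, e2, e3, e4]
            abel) j j0
          have this : w i j - w i0 j = w i j0 - w i0 j0 := this
          show w i j = w i j0 - w i0 j0 + w i0 j
          rw [← this]
          abel
      · exact ⟨fun _ => 0, fun _ => 0, fun i j => (hJ ⟨j⟩).elim⟩
    · exact ⟨fun _ => 0, fun _ => 0, fun i j => (hI ⟨i⟩).elim⟩
  obtain ⟨k, hk1, hk2⟩ : ∃ k : V → A, (∀ i s, s ∈ R i → u i s = k s - f i) ∧
      ∀ j s, s ∈ C j → z j s = - k s - g j := by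
    have hex : ∀ s, ∃ κ : A, (∀ i, s ∈ R i → u i s = κ - f i) ∧
        ∀ j, s ∈ C j → z j s = -κ - g j := by
      intro s
      have hRs : (univ.filter fun i => s ∈ R i).Nonempty := by
        rw [← card_pos, hU.repR s]
        exact he0
      have hCs : (univ.filter fun j => s ∈ C j).Nonempty := by
        rw [← card_pos, hU.repC s]
        exact he0
      obtain ⟨i1, hi1⟩ := hRs
      obtain ⟨j1, hj1⟩ := hCs
      rw [mem_filter] at hi1 hj1
      have hz : ∀ j, s ∈ C j → z j s = -(u i1 s + f i1) - g j := by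
        intro j hj
        have h1 := h i1 j s hi1.2 hj
        rw [hfg] at h1
        have : z j s = -(f i1 + g j + u i1 s) := (neg_eq_of_add_eq_zero_right h1).symm
        rw [this]
        abel
      refine ⟨u i1 s + f i1, ?_, hz⟩
      intro i hi
      have h1 := h i j1 s hi hj1.2
      rw [hfg, hz j1 hj1.2] at h1
      have : u i s = -(f i + g j1 + (-(u i1 s + f i1) - g j1)) := by
        rw [eq_comm, neg_eq_iff_add_eq_zero]
        rw [← h1]
        abel
      rw [this]
      abel
    choose k hk using hex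
    exact ⟨k, fun i s hs => (hk s).1 i hs, fun j s hs => (hk s).2 j hs⟩
  have s1 : ∑ i, ∑ j, w i j = (Fintype.card J) • ∑ i, f i + (Fintype.card I) • ∑ j, g j := by
    simp only [hfg, sum_add_distrib, sum_const, card_univ]
    rw [← smul_sum]
  have s2 : ∑ i, ∑ s ∈ R i, u i s = e • ∑ s, k s - (Fintype.card J) • ∑ i, f i := by
    have h1 : ∀ i, ∑ s ∈ R i, u i s = ∑ s ∈ R i, k s - (Fintype.card J) • f i := by
      intro i
      rw [sum_congr rfl fun s hs => hk1 i s hs, sum_sub_distrib, sum_const, hU.cardR]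
    rw [sum_congr rfl fun i _ => h1 i, sum_sub_distrib, ← smul_sum]
    congr 1
    have h2 : ∑ i, ∑ s ∈ R i, k s = ∑ s, ∑ _i ∈ univ.filter (fun i => s ∈ R i), k s :=
      sum_comm' (by intro i s; simp)
    rw [h2, smul_sum]
    refine sum_congr rfl fun s _ => ?_
    rw [sum_const, hU.repR]
  have s3 : ∑ j, ∑ s ∈ C j, z j s = - (e • ∑ s, k s) - (Fintype.card I) • ∑ j, g j := by
    have h1 : ∀ j, ∑ s ∈ C j, z j s = - ∑ s ∈ C j, k s - (Fintype.card I) • g j := by
      intro j
      rw [sum_congr rfl fun s hs => hk2 j s hs, sum_sub_distrib, sum_const, hU.cardC,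
        sum_neg_distrib]
    rw [sum_congr rfl fun i _ => h1 i, sum_sub_distrib, ← smul_sum, sum_neg_distrib]
    congr 2
    have h2 : ∑ j, ∑ s ∈ C j, k s = ∑ s, ∑ _j ∈ univ.filter (fun j => s ∈ C j), k s :=
      sum_comm' (by intro i s; simp)
    rw [h2, smul_sum]
    refine sum_congr rfl fun s _ => ?_
    rw [sum_const, hU.repC]
  rw [s1, s2, s3]
  abel

theorem core (hU : IsUTA R C e)
    (hext : Fintype.card V + 1 = Fintype.card I + Fintype.card J) (he : 2 < e)
    {A : Type} [AddCommGroup A] (w : I → J → A)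
    (u : I → V → A) (z : J → V → A)
    (h : ∀ i j s, s ∈ R i → s ∈ C j → w i j + u i s + z j s = 0) :
    ∑ i, ∑ j, w i j + ∑ i, ∑ s ∈ R i, u i s + ∑ j, ∑ s ∈ C j, z j s = 0 := by
  rcases le_total (Fintype.card I) (Fintype.card J) with h1 | h1
  · exact core_le hU hext he h1 w u z h
  · have h2 := core_le hU.symm' (by rw [hext, add_comm]) he h1 (fun j i => w i j) z u (by
      intro j i s hs hs'
      rw [← h i j s hs' hs]
      abel)
    rw [sum_comm]
    rw [← h2]
    abel

/-- An integral ordering: integers on the cells and symbols, supported on the intersections, with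
all the sums of an ordering. -/
theorem exists_integral (hU : IsUTA R C e)
    (hext : Fintype.card V + 1 = Fintype.card I + Fintype.card J) (he : 2 < e) :
    ∃ f : I → J → V → ℤ, (∀ i j s, f i j s ≠ 0 → s ∈ R i ∧ s ∈ C j) ∧
      (∀ i j, ∑ s, f i j s = 1) ∧ (∀ i s, s ∈ R i → ∑ j, f i j s = 1) ∧
      ∀ j s, s ∈ C j → ∑ i, f i j s = 1 := by
  classical
  let M : Type := (I × J → ℤ) × (I × V → ℤ) × (J × V → ℤ)
  let E1 : I → J → M := fun i j => (Pi.single (i, j) 1, 0, 0)
  let E2 : I → V → M := fun i s => (0, Pi.single (i, s) 1, 0)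
  let E3 : J → V → M := fun j s => (0, 0, Pi.single (j, s) 1)
  let t : I × J × V → M := fun x => if x.2.2 ∈ R x.1 ∧ x.2.2 ∈ C x.2.1 then
    E1 x.1 x.2.1 + E2 x.1 x.2.2 + E3 x.2.1 x.2.2 else 0
  let N : Submodule ℤ M := Submodule.span ℤ (Set.range t)
  let T : M := ∑ i, ∑ j, E1 i j + ∑ i, ∑ s ∈ R i, E2 i s + ∑ j, ∑ s ∈ C j, E3 j s
  have hT : T ∈ N := by
    rw [← Submodule.Quotient.mk_eq_zero]
    have h1 := core hU hext he (A := M ⧸ N) (fun i j => N.mkQ (E1 i j)) (fun i s => N.mkQ (E2 i s))
      (fun j s => N.mkQ (E3 j s)) (by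
        intro i j s hs hs'
        show N.mkQ (E1 i j) + N.mkQ (E2 i s) + N.mkQ (E3 j s) = 0
        rw [← map_add, ← map_add, Submodule.mkQ_apply, Submodule.Quotient.mk_eq_zero]
        apply Submodule.subset_span
        exact ⟨(i, j, s), if_pos ⟨hs, hs'⟩⟩)
    rw [← h1]
    show N.mkQ T = _
    simp only [T, map_add, map_sum]
  rw [Submodule.mem_span_range_iff_exists_fun] at hT
  obtain ⟨c, hc⟩ := hT
  have ev : ∀ L : M →ₗ[ℤ] ℤ, (∑ a, ∑ b, ∑ s, if s ∈ R a ∧ s ∈ C b then
      c (a, b, s) * (L (E1 a b) + L (E2 a s) + L (E3 b s)) else 0)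
      = ∑ i, ∑ j, L (E1 i j) + ∑ i, ∑ s ∈ R i, L (E2 i s) + ∑ j, ∑ s ∈ C j, L (E3 j s) := by
    intro L
    have h1 := congrArg L hc
    simp only [T, map_add, map_sum, map_smul, smul_eq_mul] at h1
    rw [← h1, Fintype.sum_prod_type]
    refine sum_congr rfl fun a _ => ?_
    rw [Fintype.sum_prod_type]
    refine sum_congr rfl fun b _ => sum_congr rfl fun s _ => ?_
    simp only [t]
    by_cases h : s ∈ R a ∧ s ∈ C b
    · rw [if_pos h, if_pos h, map_add, map_add]
    · rw [if_neg h, if_neg h, map_zero, mul_zero]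
  refine ⟨fun i j s => if s ∈ R i ∧ s ∈ C j then c (i, j, s) else 0, ?_, ?_, ?_, ?_⟩
  · intro i j s h
    by_contra hcon
    exact h (if_neg hcon)
  · intro i j
    let L : M →ₗ[ℤ] ℤ := (LinearMap.proj (i, j)).comp (LinearMap.fst ℤ (I × J → ℤ) _)
    have L1 : ∀ a b, L (E1 a b) = if i = a ∧ j = b then 1 else 0 := by
      intro a b
      show (Pi.single (a, b) (1 : ℤ) : I × J → ℤ) (i, j) = _
      rw [Pi.single_apply]
      simp only [Prod.mk.injEq]
    have L2 : ∀ a b, L (E2 a b) = 0 := fun a b => rfl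
    have L3 : ∀ a b, L (E3 a b) = 0 := fun a b => rfl
    have h1 := ev L
    simp only [L1, L2, L3, add_zero, sum_const_zero] at h1
    have h2 : ∑ a : I, ∑ b : J, (if i = a ∧ j = b then (1 : ℤ) else 0) = 1 := by
      rw [sum_eq_single i, sum_eq_single j]
      · simp
      · intro b _ hb
        rw [if_neg (fun h => hb h.2.symm)]
      · simp
      · intro a _ ha
        exact sum_eq_zero fun b _ => if_neg (fun h => ha h.1.symm)
      · simp
    rw [h2, sum_eq_single i, sum_eq_single j] at h1
    · rw [← h1]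
      refine sum_congr rfl fun s _ => ?_
      simp
    · intro b _ hb
      refine sum_eq_zero fun s _ => ?_
      rw [if_neg (fun h : i = i ∧ j = b => hb h.2.symm), mul_zero, ite_self]
    · simp
    · intro a _ ha
      refine sum_eq_zero fun b _ => sum_eq_zero fun s _ => ?_
      rw [if_neg (fun h : i = a ∧ j = b => ha h.1.symm), mul_zero, ite_self]
    · simp
  · intro i s hs
    let L : M →ₗ[ℤ] ℤ := (LinearMap.proj (i, s)).comp ((LinearMap.fst ℤ (I × V → ℤ) _).comp
      (LinearMap.snd ℤ (I × J → ℤ) _))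
    have L1 : ∀ a b, L (E1 a b) = 0 := fun a b => rfl
    have L2 : ∀ a b, L (E2 a b) = if i = a ∧ s = b then 1 else 0 := by
      intro a b
      show (Pi.single (a, b) (1 : ℤ) : I × V → ℤ) (i, s) = _
      rw [Pi.single_apply]
      simp only [Prod.mk.injEq]
    have L3 : ∀ a b, L (E3 a b) = 0 := fun a b => rfl
    have h1 := ev L
    simp only [L1, L2, L3, add_zero, zero_add, sum_const_zero] at h1
    have h2 : ∑ a : I, ∑ b ∈ R a, (if i = a ∧ s = b then (1 : ℤ) else 0) = 1 := by
      rw [sum_eq_single i, sum_eq_single s]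
      · simp
      · intro b _ hb
        rw [if_neg (fun h => hb h.2.symm)]
      · intro h
        exact absurd hs h
      · intro a _ ha
        exact sum_eq_zero fun b _ => if_neg (fun h => ha h.1.symm)
      · simp
    rw [h2, sum_eq_single i] at h1
    · rw [← h1]
      refine sum_congr rfl fun j _ => ?_
      rw [sum_eq_single s]
      · simp
      · intro b _ hb
        rw [if_neg (fun h : i = i ∧ s = b => hb h.2.symm), mul_zero, ite_self]
      · simp
    · intro a _ ha
      refine sum_eq_zero fun b _ => sum_eq_zero fun s' _ => ?_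
      rw [if_neg (fun h : i = a ∧ s = s' => ha h.1.symm), mul_zero, ite_self]
    · simp
  · intro j s hs
    let L : M →ₗ[ℤ] ℤ := (LinearMap.proj (j, s)).comp ((LinearMap.snd ℤ (I × V → ℤ) _).comp
      (LinearMap.snd ℤ (I × J → ℤ) _))
    have L1 : ∀ a b, L (E1 a b) = 0 := fun a b => rfl
    have L2 : ∀ a b, L (E2 a b) = 0 := fun a b => rfl
    have L3 : ∀ a b, L (E3 a b) = if j = a ∧ s = b then 1 else 0 := by
      intro a b
      show (Pi.single (a, b) (1 : ℤ) : J × V → ℤ) (j, s) = _
      rw [Pi.single_apply]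
      simp only [Prod.mk.injEq]
    have h1 := ev L
    simp only [L1, L2, L3, add_zero, zero_add, sum_const_zero] at h1
    have h2 : ∑ a : J, ∑ b ∈ C a, (if j = a ∧ s = b then (1 : ℤ) else 0) = 1 := by
      rw [sum_eq_single j, sum_eq_single s]
      · simp
      · intro b _ hb
        rw [if_neg (fun h => hb h.2.symm)]
      · intro h
        exact absurd hs h
      · intro a _ ha
        exact sum_eq_zero fun b _ => if_neg (fun h => ha h.1.symm)
      · simp
    rw [h2] at h1
    rw [← h1]
    refine sum_congr rfl fun i _ => ?_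
    rw [sum_eq_single j]
    · rw [sum_eq_single s]
      · simp
      · intro b _ hb
        rw [if_neg (fun h : j = j ∧ s = b => hb h.2.symm), mul_zero, ite_self]
      · simp
    · intro a _ ha
      refine sum_eq_zero fun s' _ => ?_
      rw [if_neg (fun h : j = a ∧ s = s' => ha h.1.symm), mul_zero, ite_self]
    · simp

end

end Pool.Agent.H809_TA
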