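import Mathlib

/-!
Integral orderings of unordered triple arrays.
-/

set_option autoImplicit false

namespace Pool.Agent.H809_TA

/-- `(R, C)` has an integral ordering: integers `f i j s` for the cells `(i, j)` and the symbols
`s`, which vanish unless `s` lies in `R i` and in `C j`, and whose sums are those of an ordering:
one over the symbols of any cell, one over the cells of any row `i` for any symbol `s` in `R i`,
and one over the cells of any column `j` for any symbol `s` in `C j`. (An ordering is the same
with values `0` and `1`.) -/
def HasIntegralOrdering {I J V : Type} [Fintype I] [Fintype J] [Fintype V]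
    (R : I → Finset V) (C : J → Finset V) : Prop :=
  ∃ f : I → J → V → ℤ, (∀ i j s, f i j s ≠ 0 → s ∈ R i ∧ s ∈ C j) ∧
    (∀ i j, ∑ s, f i j s = 1) ∧ (∀ i s, s ∈ R i → ∑ j, f i j s = 1) ∧
    ∀ j s, s ∈ C j → ∑ i, f i j s = 1

end Pool.Agent.H809_TA
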