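import Pool.Agent.H809_TA.Integral
import Pool.Agent.H809_TA.IntegralDefs

/-!
Integral orderings for replication numbers one and two.
-/

set_option autoImplicit false

namespace Pool.Agent.H809_TA

open Finset

section

variable {I J V : Type} [Fintype I] [Fintype J] [Fintype V] [DecidableEq V]
  {R : I → Finset V} {C : J → Finset V} {e : ℕ}

omit [DecidableEq V] in
theorem HasIntegralOrdering.symm (h : HasIntegralOrdering R C) : HasIntegralOrdering C R := by
  obtain ⟨f, h1, h2, h3, h4⟩ := h
  exact ⟨fun j i s => f i j s, fun j i s h => (h1 i j s h).symm, fun j i => h2 i j,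
    fun j s hs => h4 j s hs, fun i s hs => h3 i s hs⟩

theorem integral_one (hU : IsUTA R C 1) : HasIntegralOrdering R C := by
  classical
  refine ⟨fun i j s => if s ∈ R i ∧ s ∈ C j then 1 else 0, ?_, ?_, ?_, ?_⟩
  · intro i j s h
    by_contra hcon
    exact h (if_neg hcon)
  · intro i j
    have h1 := uta_rc hU i j
    rw [sum_boole]
    have : (univ.filter fun s => s ∈ R i ∧ s ∈ C j) = R i ∩ C j := by
      ext s
      simp
    rw [this, h1]
    rfl
  · intro i s hs
    have h1 := hU.repC s
    rw [sum_boole]
    have : (univ.filter fun j => s ∈ R i ∧ s ∈ C j) = univ.filter fun j => s ∈ C j := by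
      ext j
      simp [hs]
    rw [this, h1]
    rfl
  · intro j s hs
    have h1 := hU.repR s
    rw [sum_boole]
    have : (univ.filter fun i => s ∈ R i ∧ s ∈ C j) = univ.filter fun i => s ∈ R i := by
      ext i
      simp [hs]
    rw [this, h1]
    rfl

theorem no_integral_aux (hU : IsUTA R C 2)
    (hext : Fintype.card V + 1 = Fintype.card I + Fintype.card J)
    (hI : Fintype.card I = 3) (hJ : Fintype.card J = 4) (h : HasIntegralOrdering R C) : False := by
  classical
  obtain ⟨f, h1, h2, h3, h4⟩ := h
  have hz : ∀ i j s, ¬ (s ∈ R i ∧ s ∈ C j) → f i j s = 0 := by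
    intro i j s hcon
    by_contra hne
    exact hcon (h1 i j s hne)
  obtain ⟨p, q, t, hpq, hpt, hqt, hall⟩ := card_eq_three.1
    (show (univ : Finset I).card = 3 by rw [card_univ]; exact hI)
  have hsumI : ∀ F : I → ℤ, ∑ i, F i = F p + F q + F t := by
    intro F
    rw [hall, sum_insert, sum_insert, sum_singleton, add_assoc]
    · simpa using hqt
    · simp [hpq, hpt]
  -- each symbol misses exactly one row
  have miss : ∀ s i i', s ∉ R i → s ∉ R i' → i = i' := by
    intro s i i' hi hi'
    have h5 := card_Zr hU s
    rw [hI] at h5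
    have h6 : (Zr R s).card = 1 := by omega
    obtain ⟨k, hk⟩ := card_eq_one.1 h6
    have e1 : i ∈ Zr R s := by simp [Zr, hi]
    have e2 : i' ∈ Zr R s := by simp [Zr, hi']
    rw [hk, mem_singleton] at e1 e2
    rw [e1, e2]
  have missex : ∀ s, s ∉ R p ∨ s ∉ R q ∨ s ∉ R t := by
    intro s
    have h5 := card_Zr hU s
    rw [hI] at h5
    have h6 : (Zr R s).Nonempty := by
      rw [← card_pos]
      omega
    obtain ⟨k, hk⟩ := h6
    have h7 : k ∈ (univ : Finset I) := mem_univ _
    rw [hall] at h7
    simp only [mem_insert, mem_singleton] at h7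
    simp only [Zr, mem_filter, mem_univ, true_and] at hk
    rcases h7 with rfl | rfl | rfl
    · exact Or.inl hk
    · exact Or.inr (Or.inl hk)
    · exact Or.inr (Or.inr hk)
  -- the symbol of column `j` missing row `i`
  have ha : ∀ i j, ∃ a, a ∈ C j ∧ a ∉ R i ∧ ∀ b, b ∈ C j → b ∉ R i → b = a := by
    intro i j
    have h5 : (C j \ R i).card = 1 := by
      have h6 := card_sdiff_add_card_inter (C j) (R i)
      rw [inter_comm, uta_rc hU, hU.cardC, hI] at h6
      omega
    obtain ⟨a, ha⟩ := card_eq_one.1 h5
    have h7 : a ∈ C j \ R i := by rw [ha]; exact mem_singleton_self a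
    rw [mem_sdiff] at h7
    refine ⟨a, h7.1, h7.2, ?_⟩
    intro b hb hb'
    have : b ∈ C j \ R i := mem_sdiff.2 ⟨hb, hb'⟩
    rw [ha, mem_singleton] at this
    exact this
  have hx : ∀ j, ∃ x : ℤ, ∀ s, s ∈ C j → (s ∉ R q → f p j s = x) ∧ (s ∉ R t → f q j s = x) ∧
      (s ∉ R p → f t j s = x) := by
    intro j
    obtain ⟨ap, hap, hap', uap⟩ := ha p j
    obtain ⟨aq, haq, haq', uaq⟩ := ha q j
    obtain ⟨at', hat, hat', uat⟩ := ha t j
    have n1 : ap ≠ aq := by
      rintro rfl
      exact hpq (miss _ _ _ hap' haq')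
    have n2 : ap ≠ at' := by
      rintro rfl
      exact hpt (miss _ _ _ hap' hat')
    have n3 : aq ≠ at' := by
      rintro rfl
      exact hqt (miss _ _ _ haq' hat')
    have hC : C j = {ap, aq, at'} := by
      symm
      apply eq_of_subset_of_card_le
      · intro s hs
        simp only [mem_insert, mem_singleton] at hs
        rcases hs with rfl | rfl | rfl <;> assumption
      · rw [hU.cardC, hI, card_eq_three.2 ⟨ap, aq, at', n1, n2, n3, rfl⟩]
    have hsumV : ∀ i, f i j ap + f i j aq + f i j at' = 1 := by
      intro i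
      rw [← h2 i j, ← sum_subset (subset_univ (C j)), hC, sum_insert, sum_insert, sum_singleton,
        add_assoc]
      · simpa using n3
      · simp [n1, n2]
      · intro s _ hs
        exact hz i j s (fun h => hs h.2)
    have z1 : f p j ap = 0 := hz _ _ _ (fun h => hap' h.1)
    have z2 : f q j aq = 0 := hz _ _ _ (fun h => haq' h.1)
    have z3 : f t j at' = 0 := hz _ _ _ (fun h => hat' h.1)
    have r1 := hsumV p
    have r2 := hsumV q
    have r3 := hsumV t
    have c1 := h4 j ap hap
    have c2 := h4 j aq haq
    have c3 := h4 j at' hat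
    rw [hsumI] at c1 c2 c3
    refine ⟨f p j aq, ?_⟩
    intro s hs
    refine ⟨?_, ?_, ?_⟩
    · intro h
      rw [uaq s hs h]
    · intro h
      rw [uat s hs h]
      omega
    · intro h
      rw [uap s hs h]
      omega
  choose x hx using hx
  have pair : ∀ j j', j ≠ j' → x j + x j' = 1 := by
    intro j j' hj
    have h5 := uta_cc hU hext j j' hj
    rw [hI] at h5
    have h6 : (C j ∩ C j').card = 1 := by
      have : ((C j ∩ C j').card : ℚ) = 1 := by rw [h5]; norm_num
      exact_mod_cast this
    obtain ⟨s, hs⟩ := card_eq_one.1 h6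
    have hs' : s ∈ C j ∩ C j' := by rw [hs]; exact mem_singleton_self s
    rw [mem_inter] at hs'
    obtain ⟨hsj, hsj'⟩ := hs'
    have hP : Pc C s = {j, j'} := by
      symm
      apply eq_of_subset_of_card_le
      · intro k hk
        simp only [mem_insert, mem_singleton] at hk
        rcases hk with rfl | rfl <;> simp [Pc, hsj, hsj']
      · rw [card_Pc hU, card_pair hj]
    have hsum : ∀ i, s ∈ R i → f i j s + f i j' s = 1 := by
      intro i hi
      rw [← h3 i s hi, ← sum_subset (subset_univ (Pc C s)), hP, sum_pair hj]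
      intro k _ hk
      exact hz i k s (fun h => hk (by simp [Pc, h.2]))
    have hin : ∀ i i', s ∉ R i → i ≠ i' → s ∈ R i' := by
      intro i i' hi hne
      by_contra h
      exact hne (miss s _ _ hi h)
    rcases missex s with h | h | h
    · have h7 := hsum t (hin p t h hpt)
      rw [((hx j s hsj).2.2 h), ((hx j' s hsj').2.2 h)] at h7
      exact h7
    · have h7 := hsum p (hin q p h hpq.symm)
      rw [((hx j s hsj).1 h), ((hx j' s hsj').1 h)] at h7
      exact h7
    · have h7 := hsum q (hin t q h hqt.symm)
      rw [((hx j s hsj).2.1 h), ((hx j' s hsj').2.1 h)] at h7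
      exact h7
  obtain ⟨j1, j2, j3, -, -, -, n12, n13, n23⟩ :=
    two_lt_card_iff.1 (show 2 < (univ : Finset J).card by rw [card_univ]; omega)
  have e1 := pair j1 j2 n12
  have e2 := pair j1 j3 n13
  have e3 := pair j2 j3 n23
  omega

theorem no_integral_two (hU : IsUTA R C 2)
    (hext : Fintype.card V + 1 = Fintype.card I + Fintype.card J)
    (hI : 0 < Fintype.card I) (hJ : 0 < Fintype.card J) : ¬ HasIntegralOrdering R C := by
  intro h
  have hp := param hU hext
  have hV : 0 < Fintype.card V := by omega
  obtain ⟨s⟩ := Fintype.card_pos_iff.1 hV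
  have hI2 : 2 ≤ Fintype.card I := by
    have := card_Zr hU s
    omega
  have hJ2 : 2 ≤ Fintype.card J := by
    have := card_Zr hU.symm' s
    omega
  obtain ⟨a, ha⟩ := Nat.exists_eq_add_of_le hI2
  obtain ⟨b, hb⟩ := Nat.exists_eq_add_of_le hJ2
  have hab : a * b = 2 := by
    rw [ha, hb] at hp
    nlinarith
  have ha2 : a ∣ 2 := Dvd.intro b hab
  have ha3 : a ≤ 2 := Nat.le_of_dvd (by norm_num) ha2
  interval_cases a
  · omega
  · exact no_integral_aux hU hext (by omega) (by omega) h
  · exact no_integral_aux hU.symm' (by rw [hext, add_comm]) (by omega) (by omega) h.symm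

theorem integral_iff (hU : IsUTA R C e)
    (hext : Fintype.card V + 1 = Fintype.card I + Fintype.card J)
    (hI : 0 < Fintype.card I) (hJ : 0 < Fintype.card J) : HasIntegralOrdering R C ↔ e ≠ 2 := by
  constructor
  · rintro h rfl
    exact no_integral_two hU hext hI hJ h
  · intro he
    rcases e with _ | _ | _ | e
    · exfalso
      have h1 := param hU hext
      have h2 : 0 < Fintype.card I * Fintype.card J := Nat.mul_pos hI hJ
      omega
    · exact integral_one hU
    · exact absurd rfl he
    · exact exists_integral hU hext (by omega)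

end

end Pool.Agent.H809_TA
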