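import Pool.Agent.H809_TA.Assembly

/-!
Regular bipartite graphs decompose into perfect matchings, and gluing of the resulting rectangles.
-/

set_option autoImplicit false

namespace Pool.Agent.H809_TA

open Function Finset

/-- A regular bipartite relation has a perfect matching. -/
theorem exists_matching {I S : Type} [Fintype I] [Fintype S] (rel : I → S → Prop) (d : ℕ)
    (hd : 0 < d) (h1 : ∀ i, Nat.card {s // rel i s} = d) (h2 : ∀ s, Nat.card {i // rel i s} = d) :
    ∃ f : I → S, Bijective f ∧ ∀ i, rel i (f i) := by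
  classical
  have h1' : ∀ i, (univ.filter fun s => rel i s).card = d := by
    intro i
    rw [← h1 i, Nat.card_eq_fintype_card, Fintype.card_subtype]
  have h2' : ∀ s, (univ.filter fun i => rel i s).card = d := by
    intro s
    rw [← h2 s, Nat.card_eq_fintype_card, Fintype.card_subtype]
  have hcard : Fintype.card I = Fintype.card S := by
    have h3 : ∑ i : I, (univ.filter fun s => rel i s).card
        = ∑ s : S, (univ.filter fun i => rel i s).card := by
      simp only [card_filter]
      rw [sum_comm]
    rw [sum_congr rfl (fun i _ => h1' i), sum_congr rfl (fun s _ => h2' s), sum_const, sum_const,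
      card_univ, card_univ, smul_eq_mul, smul_eq_mul] at h3
    exact Nat.eq_of_mul_eq_mul_right hd h3
  have hall : ∀ s : Finset I, s.card ≤ (s.biUnion fun i => univ.filter fun x => rel i x).card := by
    intro s
    have h4 : ∑ i ∈ s, (univ.filter fun x => rel i x).card
        ≤ ∑ x ∈ (s.biUnion fun i => univ.filter fun x => rel i x),
          (univ.filter fun i => rel i x).card := by
      calc ∑ i ∈ s, (univ.filter fun x => rel i x).card
          = ∑ i ∈ s, ∑ x ∈ (s.biUnion fun i => univ.filter fun x => rel i x),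
              if rel i x then 1 else 0 := by
            refine sum_congr rfl fun i hi => ?_
            rw [← card_filter]
            congr 1
            ext x
            simp only [mem_filter, mem_univ, true_and, mem_biUnion]
            exact ⟨fun h => ⟨⟨i, hi, h⟩, h⟩, fun h => h.2⟩
        _ = ∑ x ∈ (s.biUnion fun i => univ.filter fun x => rel i x), ∑ i ∈ s,
              if rel i x then 1 else 0 := sum_comm
        _ ≤ _ := by
            refine sum_le_sum fun x _ => ?_
            rw [card_filter]
            exact sum_le_sum_of_subset (subset_univ s)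
    rw [sum_congr rfl (fun i _ => h1' i), sum_congr rfl (fun x _ => h2' x), sum_const, sum_const,
      smul_eq_mul, smul_eq_mul] at h4
    exact Nat.le_of_mul_le_mul_right h4 hd
  obtain ⟨f, hf, hf'⟩ := (Finset.all_card_le_biUnion_card_iff_exists_injective _).1 hall
  refine ⟨f, (Fintype.bijective_iff_injective_and_card f).2 ⟨hf, hcard⟩, fun i => ?_⟩
  exact (mem_filter.1 (hf' i)).2

/-- A `d`-regular bipartite relation decomposes into `d` perfect matchings. -/
theorem exists_array {I S : Type} [Fintype I] [Fintype S] (d : ℕ) : ∀ (rel : I → S → Prop),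
    (∀ i, Nat.card {s // rel i s} = d) → (∀ s, Nat.card {i // rel i s} = d) →
    ∃ t : I → Fin d → S, (∀ i k, rel i (t i k)) ∧ (∀ i, Injective (t i)) ∧
      (∀ k, Injective (fun i => t i k)) := by
  classical
  induction d with
  | zero =>
    intro rel _ _
    exact ⟨fun _ k => k.elim0, fun _ k => k.elim0, fun _ k => k.elim0, fun k => k.elim0⟩
  | succ d ih =>
    intro rel h1 h2
    obtain ⟨f, hf, hf'⟩ := exists_matching rel (d + 1) (Nat.succ_pos d) h1 h2
    have h3 : ∀ i, Nat.card {s // rel i s ∧ s ≠ f i} = d := by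
      intro i
      have := h1 i
      rw [Nat.card_eq_fintype_card, Fintype.card_subtype] at this ⊢
      have h4 : (univ.filter fun s => rel i s ∧ s ≠ f i) = (univ.filter fun s => rel i s).erase (f i)
          := by
        ext s
        simp only [mem_filter, mem_univ, true_and, mem_erase]
        exact and_comm
      rw [h4, card_erase_of_mem (by simp [hf' i]), this]
      rfl
    have h5 : ∀ s, Nat.card {i // rel i s ∧ s ≠ f i} = d := by
      intro s
      obtain ⟨i0, hi0⟩ := hf.2 s
      have := h2 s
      rw [Nat.card_eq_fintype_card, Fintype.card_subtype] at this ⊢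
      have h4 : (univ.filter fun i => rel i s ∧ s ≠ f i) = (univ.filter fun i => rel i s).erase i0
          := by
        ext i
        simp only [mem_filter, mem_univ, true_and, mem_erase]
        constructor
        · rintro ⟨h, h'⟩
          refine ⟨?_, h⟩
          rintro rfl
          exact h' hi0.symm
        · rintro ⟨h, h'⟩
          refine ⟨h', fun h6 => h ?_⟩
          apply hf.1
          rw [hi0, ← h6]
      have h6 : rel i0 s := hi0 ▸ hf' i0
      rw [h4, card_erase_of_mem (by simp [h6]), this]
      rfl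
    obtain ⟨t, t1, t2, t3⟩ := ih (fun i s => rel i s ∧ s ≠ f i) h3 h5
    refine ⟨fun i => Fin.cons (f i) (t i), ?_, ?_, ?_⟩
    · intro i k
      refine Fin.cases ?_ (fun k => ?_) k
      · simp only [Fin.cons_zero]
        exact hf' i
      · simp only [Fin.cons_succ]
        exact (t1 i k).1
    · intro i
      rw [Fin.cons_injective_iff]
      refine ⟨?_, t2 i⟩
      rintro ⟨k, hk⟩
      exact (t1 i k).2 hk
    · intro k
      refine Fin.cases ?_ (fun k => ?_) k
      · intro i i' h
        simp only [Fin.cons_zero] at h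
        exact hf.1 h
      · intro i i' h
        simp only [Fin.cons_succ] at h
        exact t3 k h

/-- the data of one rectangle: rows `pI`, columns `pJ`, symbols `pS`; `rel i s` says that the
symbol `s` may be used in row `i` -/
def Rect {I J S : Type} (pI : I → Prop) (pJ : J → Prop) (pS : S → Prop) (rel : I → S → Prop) :
    Prop :=
  ∃ d, (∀ i, pI i → Nat.card {s // pS s ∧ rel i s} = d) ∧
    (∀ s, pS s → Nat.card {i // pI i ∧ rel i s} = d) ∧ Nat.card {j // pJ j} ≤ d

theorem Rect.exists {I J S : Type} [Fintype I] [Fintype J] [Fintype S] [Nonempty S]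
    {pI : I → Prop} {pJ : J → Prop} {pS : S → Prop} {rel : I → S → Prop}
    (h : Rect pI pJ pS rel) :
    ∃ t : I → J → S, (∀ i j, pI i → pJ j → pS (t i j) ∧ rel i (t i j)) ∧
      (∀ i j j', pI i → pJ j → pJ j' → t i j = t i j' → j = j') ∧
      (∀ i i' j, pI i → pI i' → pJ j → t i j = t i' j → i = i') := by
  classical
  obtain ⟨d, h1, h2, h3⟩ := h
  obtain ⟨t, t1, t2, t3⟩ := exists_array (I := {i // pI i}) (S := {s // pS s}) d
    (fun i s => rel i.1 s.1) (by
      intro i
      rw [← h1 i.1 i.2]
      exact Nat.card_congr (Equiv.subtypeSubtypeEquivSubtypeInter pS (rel i.1))) (by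
      intro s
      rw [← h2 s.1 s.2]
      exact Nat.card_congr (Equiv.subtypeSubtypeEquivSubtypeInter pI (fun i => rel i s.1)))
  obtain ⟨e⟩ : Nonempty ({j // pJ j} ↪ Fin d) := by
    rw [Function.Embedding.nonempty_iff_card_le, Fintype.card_fin, ← Nat.card_eq_fintype_card]
    exact h3
  refine ⟨fun i j => if hi : pI i then (if hj : pJ j then (t ⟨i, hi⟩ (e ⟨j, hj⟩)).1
    else Classical.arbitrary S) else Classical.arbitrary S, ?_, ?_, ?_⟩
  · intro i j hi hj
    simp only [dif_pos hi, dif_pos hj]
    exact ⟨(t _ _).2, t1 ⟨i, hi⟩ _⟩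
  · intro i j j' hi hj hj' h
    simp only [dif_pos hi, dif_pos hj, dif_pos hj'] at h
    exact congrArg Subtype.val (e.injective (t2 _ (Subtype.ext h)))
  · intro i i' j hi hi' hj h
    simp only [dif_pos hi, dif_pos hi', dif_pos hj] at h
    exact congrArg Subtype.val (t3 _ (Subtype.ext h))

/-- An ordering of the design with incidence relation `mem` with respect to the block `b0`. -/
def DesArr {P Q : Type} (mem : P → Q → Prop) (b0 : Q) : Prop :=
  ∃ T : P → P → Q, (∀ p q, mem p b0 → ¬ mem q b0 → ¬ mem p (T p q) ∧ mem q (T p q)) ∧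
    (∀ p q q', mem p b0 → ¬ mem q b0 → ¬ mem q' b0 → T p q = T p q' → q = q') ∧
    (∀ p p' q, mem p b0 → mem p' b0 → ¬ mem q b0 → T p q = T p' q → p = p')

theorem hasArr_of_desArr {I J V : Type} {R : I → Finset V} {C : J → Finset V}
    (h : DesArr (DesignMem R C) none) : HasArr R C := by
  classical
  obtain ⟨T, h1, h2, h3⟩ := h
  have hex : ∀ i j, ∃ s, T (Sum.inl i) (Sum.inr j) = some s := by
    intro i j
    have h4 := (h1 (Sum.inl i) (Sum.inr j) trivial id).1
    rcases hT : T (Sum.inl i) (Sum.inr j) with _ | s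
    · rw [hT] at h4
      exact absurd trivial h4
    · exact ⟨s, rfl⟩
  choose t ht using hex
  refine ⟨t, ?_, ?_, ?_, ?_⟩
  · intro i j
    have h4 := (h1 (Sum.inl i) (Sum.inr j) trivial id).1
    rw [ht] at h4
    by_contra h5
    exact h4 h5
  · intro i j
    have h4 := (h1 (Sum.inl i) (Sum.inr j) trivial id).2
    rw [ht] at h4
    exact h4
  · intro i j j' h
    have := h2 (Sum.inl i) (Sum.inr j) (Sum.inr j') trivial id id (by rw [ht, ht, h])
    exact Sum.inr_injective this
  · intro j i i' h
    have h : t i j = t i' j := h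
    have := h3 (Sum.inl i) (Sum.inl i') (Sum.inr j) trivial trivial id (by rw [ht, ht, h])
    exact Sum.inl_injective this

/-- Gluing rectangles. -/
theorem glue {P Q X : Type} [Fintype P] [Fintype Q] (mem : P → Q → Prop) (b0 : Q)
    (κ : P → P → X) (pI pJ : X → P → Prop) (pS : X → Q → Prop)
    (hI : ∀ p q, mem p b0 → ¬ mem q b0 → pI (κ p q) p)
    (hJ : ∀ p q, mem p b0 → ¬ mem q b0 → pJ (κ p q) q)
    (hloc : ∀ p q, mem p b0 → ¬ mem q b0 →
      Rect (pI (κ p q)) (pJ (κ p q)) (pS (κ p q)) (fun x b => ¬ mem x b))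
    (hC : ∀ p q b, mem p b0 → ¬ mem q b0 → pS (κ p q) b → mem q b)
    (hrow : ∀ p q q' b, mem p b0 → ¬ mem q b0 → ¬ mem q' b0 → pS (κ p q) b → pS (κ p q') b →
      κ p q = κ p q')
    (hcol : ∀ p p' q b, mem p b0 → mem p' b0 → ¬ mem q b0 → pS (κ p q) b → pS (κ p' q) b →
      κ p q = κ p' q) : DesArr mem b0 := by
  classical
  have : Nonempty Q := ⟨b0⟩
  have hex : ∀ x : X, ∃ t : P → P → Q, Rect (pI x) (pJ x) (pS x) (fun x b => ¬ mem x b) →
      (∀ i j, pI x i → pJ x j → pS x (t i j) ∧ ¬ mem i (t i j)) ∧
      (∀ i j j', pI x i → pJ x j → pJ x j' → t i j = t i j' → j = j') ∧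
      (∀ i i' j, pI x i → pI x i' → pJ x j → t i j = t i' j → i = i') := by
    intro x
    by_cases h : Rect (pI x) (pJ x) (pS x) (fun x b => ¬ mem x b)
    · obtain ⟨t, ht⟩ := h.exists
      exact ⟨t, fun _ => ht⟩
    · exact ⟨fun _ _ => b0, fun h' => absurd h' h⟩
  choose t ht using hex
  have key : ∀ p q, mem p b0 → ¬ mem q b0 → pS (κ p q) (t (κ p q) p q) ∧
      ¬ mem p (t (κ p q) p q) := fun p q hp hq =>
    (ht (κ p q) (hloc p q hp hq)).1 p q (hI p q hp hq) (hJ p q hp hq)
  refine ⟨fun p q => t (κ p q) p q, ?_, ?_, ?_⟩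
  · intro p q hp hq
    exact ⟨(key p q hp hq).2, hC p q _ hp hq (key p q hp hq).1⟩
  · intro p q q' hp hq hq' h
    have h : t (κ p q) p q = t (κ p q') p q' := h
    have h1 := (key p q hp hq).1
    have h2 := (key p q' hp hq').1
    rw [← h] at h2
    have h3 := hrow p q q' _ hp hq hq' h1 h2
    have h4 := hJ p q' hp hq'
    rw [← h3] at h4 h
    exact (ht (κ p q) (hloc p q hp hq)).2.1 p q q' (hI p q hp hq) (hJ p q hp hq) h4 h
  · intro p p' q hp hp' hq h
    have h : t (κ p q) p q = t (κ p' q) p' q := h
    have h1 := (key p q hp hq).1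
    have h2 := (key p' q hp' hq).1
    rw [← h] at h2
    have h3 := hcol p p' q _ hp hp' hq h1 h2
    have h4 := hI p' q hp' hq
    rw [← h3] at h4 h
    exact (ht (κ p q) (hloc p q hp hq)).2.2 p p' q (hI p q hp hq) h4 (hJ p q hp hq) h

end Pool.Agent.H809_TA
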