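import Pool.Agent.H809_TA.Dual
import Pool.Agent.H809_TA.Assembly

/-!
Affine planes of odd order with an oval tangent to the line at infinity.
-/

set_option autoImplicit false

namespace Pool.Agent.H809_TA

open Function Finset

theorem exists_derangement (K : Type) [Fintype K] (h : 2 ≤ Fintype.card K) :
    ∃ d : K → K, Injective d ∧ ∀ x, d x ≠ x := by
  have : Fact (1 < Fintype.card K) := ⟨h⟩
  have : NeZero (Fintype.card K) := ⟨by omega⟩
  have f : K ≃ ZMod (Fintype.card K) := Fintype.equivOfCardEq (by rw [ZMod.card])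
  refine ⟨fun x => f.symm (f x + 1), ?_, ?_⟩
  · intro x y h
    exact f.injective (add_right_cancel (f.symm.injective h))
  · intro x h
    have h1 : f x + 1 = f x := by
      have h : f.symm (f x + 1) = x := h
      rw [Equiv.symm_apply_eq] at h
      exact h
    have h2 : (1 : ZMod (Fintype.card K)) = 0 := by linear_combination h1
    exact one_ne_zero h2

theorem even_card_of_partner {J : Type} [DecidableEq J] (O : Finset J) (g : J → J)
    (h1 : ∀ a ∈ O, g a ∈ O) (h2 : ∀ a ∈ O, g (g a) = a) (h3 : ∀ a ∈ O, g a ≠ a) :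
    Even O.card := by
  have h : ∑ _a ∈ O, (1 : ZMod 2) = 0 := by
    apply Finset.sum_involution (fun a _ => g a)
    · intro a _
      decide
    · intro a ha _
      exact h3 a ha
    · exact h1
    · exact h2
  rw [sum_const, nsmul_eq_mul, mul_one] at h
  exact (ZMod.natCast_eq_zero_iff_even).1 h

variable {I J V : Type} [Fintype I] [Fintype J] [Fintype V] [DecidableEq V]
  {R : I → Finset V} {C : J → Finset V} {e : ℕ}

theorem hasArr_of_oval (hU : IsUTA R C e)
    (hext : Fintype.card V + 1 = Fintype.card I + Fintype.card J)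
    (hI : Fintype.card I = e + 1) (he : 1 < e) (hodd : Odd e) (i0 : I) (O : Finset J)
    (hO : O.card = e)
    (o1 : ∀ s, s ∉ R i0 → ∀ a ∈ O, ∀ b ∈ O, s ∈ C a → s ∈ C b → a = b)
    (o2 : ∀ s, ∀ a ∈ O, ∀ b ∈ O, ∀ c ∈ O, s ∈ C a → s ∈ C b → s ∈ C c →
      a = b ∨ a = c ∨ b = c) : HasArr R C := by
  classical
  -- directions
  have hdir : ∀ s, ∃ i, s ∉ R i ∧ ∀ i', s ∉ R i' → i' = i := by
    intro s
    have h1 := hU.repR s
    have h2 : (univ.filter fun i => s ∉ R i).card = 1 := by
      have := card_filter_add_card_filter_not (s := (univ : Finset I)) (fun i => s ∈ R i)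
      rw [card_univ] at this
      omega
    obtain ⟨i, hi⟩ := card_eq_one.1 h2
    have h3 : ∀ i', s ∉ R i' ↔ i' = i := by
      intro i'
      have := congrArg (fun S => i' ∈ S) hi
      simpa using this
    exact ⟨i, (h3 i).2 rfl, fun i' h => (h3 i').1 h⟩
  choose dir dir1 dir2 using hdir
  have hline : ∀ i j, ∃ s, s ∈ C j ∧ s ∉ R i ∧ ∀ s', s' ∈ C j → s' ∉ R i → s' = s := by
    intro i j
    have h1 := uta_rc hU i j
    have h2 : (C j \ R i).card = 1 := by
      have := card_sdiff_add_card_inter (C j) (R i)
      rw [inter_comm, hU.cardC j] at this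
      omega
    obtain ⟨s, hs⟩ := card_eq_one.1 h2
    have h3 : ∀ s', (s' ∈ C j ∧ s' ∉ R i) ↔ s' = s := by
      intro s'
      have := congrArg (fun S => s' ∈ S) hs
      simpa using this
    exact ⟨s, ((h3 s).2 rfl).1, ((h3 s).2 rfl).2, fun s' h h' => (h3 s').1 ⟨h, h'⟩⟩
  choose line line1 line2 line3 using hline
  have hjoin : ∀ j j', ∃ s, j ≠ j' → s ∈ C j ∧ s ∈ C j' ∧ ∀ s', s' ∈ C j → s' ∈ C j' → s' = s := by
    intro j j'
    by_cases hj : j = j'
    · exact ⟨line i0 j, fun h => absurd hj h⟩
    · have h1 := uta_cc hU hext j j' hj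
      have h2 : (C j ∩ C j').card = 1 := by
        rw [hI] at h1
        push_cast at h1
        have : ((C j ∩ C j').card : ℚ) = 1 := by rw [h1]; ring
        exact_mod_cast this
      obtain ⟨s, hs⟩ := card_eq_one.1 h2
      have h3 : ∀ s', (s' ∈ C j ∧ s' ∈ C j') ↔ s' = s := by
        intro s'
        have := congrArg (fun S => s' ∈ S) hs
        simpa using this
      exact ⟨s, fun _ => ⟨((h3 s).2 rfl).1, ((h3 s).2 rfl).2, fun s' h h' => (h3 s').1 ⟨h, h'⟩⟩⟩
  choose join hjoin using hjoin
  have par : ∀ s s' j, s ∈ C j → s' ∈ C j → dir s = dir s' → s = s' := by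
    intro s s' j h h' hd
    rw [line3 (dir s) j s h (dir1 s), line3 (dir s) j s' h' (hd ▸ dir1 s')]
  have dline : ∀ i j, dir (line i j) = i := fun i j => (dir2 _ _ (line2 i j)).symm
  have meet : ∀ s s' j j', s ≠ s' → s ∈ C j → s' ∈ C j → s ∈ C j' → s' ∈ C j' → j = j' := by
    intro s s' j j' hs h1 h2 h3 h4
    by_contra hj
    obtain ⟨_, _, h5⟩ := hjoin j j' hj
    exact hs ((h5 s h1 h3).trans (h5 s' h2 h4).symm)
  have dirR : ∀ s i, dir s ≠ i → s ∈ R i := by
    intro s i h
    by_contra h'
    exact h (dir2 s i h').symm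
  -- the feet
  have vinj : ∀ a ∈ O, ∀ b ∈ O, line i0 a = line i0 b → a = b := by
    intro a ha b hb h
    exact o1 (line i0 a) (line2 i0 a) a ha b hb (line1 i0 a) (h ▸ line1 i0 b)
  have hfoot : ∀ j, ∃ a : {a // a ∈ O}, line i0 a.1 = line i0 j := by
    have h1 : (O.image (line i0)) = (R i0)ᶜ := by
      apply eq_of_subset_of_card_le
      · intro s hs
        rw [mem_image] at hs
        obtain ⟨a, _, rfl⟩ := hs
        rw [mem_compl]
        exact line2 i0 a
      · rw [card_image_of_injOn (fun a ha b hb h => vinj a ha b hb h), hO, card_compl, hU.cardR]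
        omega
    intro j
    have h2 : line i0 j ∈ (R i0)ᶜ := by
      rw [mem_compl]
      exact line2 i0 j
    rw [← h1, mem_image] at h2
    obtain ⟨a, ha, h⟩ := h2
    exact ⟨⟨a, ha⟩, h⟩
  choose foot hfoot using hfoot
  obtain ⟨d, dinj, dne⟩ := exists_derangement {a // a ∈ O} (by
    rw [Fintype.card_coe, hO]
    exact he)
  let cen : J → {a // a ∈ O} := fun j => d (foot j)
  have cen1 : ∀ j, line i0 (cen j).1 ≠ line i0 j := by
    intro j h
    rw [← hfoot j] at h
    exact dne (foot j) (Subtype.ext (vinj _ (d (foot j)).2 _ (foot j).2 h))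
  have cen2 : ∀ j j', cen j = cen j' → line i0 j = line i0 j' := by
    intro j j' h
    rw [← hfoot j, ← hfoot j', dinj h]
  have cenne : ∀ j, (cen j).1 ≠ j := by
    intro j h
    exact cen1 j (by rw [h])
  -- chords
  have chord : ∀ a ∈ O, ∀ b ∈ O, a ≠ b → join a b ∈ C a ∧ join a b ∈ C b ∧ dir (join a b) ≠ i0 := by
    intro a ha b hb hab
    obtain ⟨h1, h2, _⟩ := hjoin a b hab
    refine ⟨h1, h2, fun h => hab ?_⟩
    exact o1 (join a b) (h ▸ dir1 (join a b)) a ha b hb h1 h2
  have chinj : ∀ a ∈ O, ∀ b ∈ O, ∀ c ∈ O, a ≠ b → a ≠ c → dir (join a b) = dir (join a c) →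
      b = c := by
    intro a ha b hb c hc hab hac h
    obtain ⟨h1, h2, _⟩ := chord a ha b hb hab
    obtain ⟨h3, h4, _⟩ := chord a ha c hc hac
    have h5 := par _ _ a h1 h3 h
    rw [← h5] at h4
    rcases o2 (join a b) a ha b hb c hc h1 h2 h4 with h6 | h6 | h6
    · exact absurd h6 hab
    · exact absurd h6 hac
    · exact h6
  -- tangent directions
  have htan : ∀ a : {a // a ∈ O}, ∃ i, i ≠ i0 ∧ (∀ b ∈ O, a.1 ≠ b → dir (join a.1 b) ≠ i) ∧
      ∀ i', i' ≠ i0 → (∀ b ∈ O, a.1 ≠ b → dir (join a.1 b) ≠ i') → i' = i := by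
    rintro ⟨a, ha⟩
    let S : Finset I := insert i0 ((O.erase a).image fun b => dir (join a b))
    have h1 : S.card = e := by
      rw [card_insert_of_notMem, card_image_of_injOn, card_erase_of_mem ha, hO]
      · omega
      · intro b hb c hc h
        rw [mem_coe, mem_erase] at hb hc
        exact chinj a ha b hb.2 c hc.2 (Ne.symm hb.1) (Ne.symm hc.1) h
      · intro h
        rw [mem_image] at h
        obtain ⟨b, hb, h⟩ := h
        rw [mem_erase] at hb
        exact (chord a ha b hb.2 (Ne.symm hb.1)).2.2 h
    have h2 : Sᶜ.card = 1 := by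
      rw [card_compl, h1, hI]
      omega
    obtain ⟨i, hi⟩ := card_eq_one.1 h2
    have h3 : ∀ i', i' ∉ S ↔ i' = i := by
      intro i'
      have := congrArg (fun S => i' ∈ S) hi
      simpa using this
    have h4 : ∀ i', i' ∉ S ↔ (i' ≠ i0 ∧ ∀ b ∈ O, a ≠ b → dir (join a b) ≠ i') := by
      intro i'
      simp only [S, mem_insert, mem_image, mem_erase, not_or, not_exists, not_and, and_imp]
      constructor
      · rintro ⟨h, h'⟩
        exact ⟨h, fun b hb hab => h' b (Ne.symm hab) hb⟩
      · rintro ⟨h, h'⟩
        exact ⟨h, fun b hab hb => h' b hb (Ne.symm hab)⟩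
    refine ⟨i, ((h4 i).1 ((h3 i).2 rfl)).1, ((h4 i).1 ((h3 i).2 rfl)).2, fun i' h h' => ?_⟩
    exact (h3 i').1 ((h4 i').2 ⟨h, h'⟩)
  choose τ τ0 τ1 τ2 using htan
  have hsurj : ∀ i, i ≠ i0 → ∃ a, τ a = i := by
    intro i hi
    by_contra hcon
    push Not at hcon
    have hp : ∀ a : J, ∃ b, a ∈ O → b ∈ O ∧ a ≠ b ∧ dir (join a b) = i := by
      intro a
      by_cases ha : a ∈ O
      · by_contra hc
        push Not at hc
        apply hcon ⟨a, ha⟩
        refine (τ2 ⟨a, ha⟩ i hi fun b hb hab h => ?_).symm
        obtain ⟨_, h'⟩ := hc b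
        exact h' hb hab h
      · exact ⟨a, fun h => absurd h ha⟩
    choose g hg using hp
    have h5 : Even O.card := by
      apply even_card_of_partner O g
      · exact fun a ha => (hg a ha).1
      · intro a ha
        obtain ⟨g1, g2, g3⟩ := hg a ha
        obtain ⟨g4, g5, g6⟩ := hg (g a) g1
        obtain ⟨c1, c2, _⟩ := chord a ha (g a) g1 g2
        obtain ⟨c3, c4, _⟩ := chord (g a) g1 (g (g a)) g4 g5
        have h6 := par _ _ (g a) c2 c3 (g3.trans g6.symm)
        rw [← h6] at c4
        rcases o2 _ a ha (g a) g1 (g (g a)) g4 c1 c2 c4 with h7 | h7 | h7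
        · exact absurd h7 g2
        · exact h7.symm
        · exact absurd h7 g5
      · exact fun a ha => (hg a ha).2.1.symm
    rw [hO] at h5
    exact (Nat.not_even_iff_odd.2 hodd) h5
  have τinj : Injective τ := by
    have hb : Bijective (fun a => (⟨τ a, τ0 a⟩ : {i // i ≠ i0})) := by
      rw [Fintype.bijective_iff_surjective_and_card]
      constructor
      · rintro ⟨i, hi⟩
        obtain ⟨a, ha⟩ := hsurj i hi
        exact ⟨a, Subtype.ext ha⟩
      · rw [Fintype.card_coe, hO, Fintype.card_subtype_compl, Fintype.card_subtype_eq, hI]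
        rfl
    intro a b h
    exact hb.1 (Subtype.ext h)
  have hβ : ∀ i, ∃ b : {a // a ∈ O}, i ≠ i0 → τ b = i := by
    intro i
    by_cases h : i = i0
    · obtain ⟨a⟩ : Nonempty {a // a ∈ O} := by
        rw [← Fintype.card_pos_iff, Fintype.card_coe, hO]
        omega
      exact ⟨a, fun h' => absurd h h'⟩
    · obtain ⟨a, ha⟩ := hsurj i h
      exact ⟨a, fun _ => ha⟩
  choose β hβ using hβ
  -- the array
  let T : I → J → V := fun i j =>
    if i = i0 then line (τ (cen j)) j
    else if β i = cen j then (if dir (join (cen j).1 j) = i then line i0 j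
      else join (cen j).1 j)
    else (if join (cen j).1 (β i).1 ∈ C j then line i0 j
      else line (dir (join (cen j).1 (β i).1)) j)
  have T0 : ∀ j, T i0 j = line (τ (cen j)) j := fun j => if_pos rfl
  have T1 : ∀ i j, i ≠ i0 → β i = cen j → dir (join (cen j).1 j) = i → T i j = line i0 j := by
    intro i j h1 h2 h3
    simp only [T]
    rw [if_neg h1, if_pos h2, if_pos h3]
  have T2 : ∀ i j, i ≠ i0 → β i = cen j → dir (join (cen j).1 j) ≠ i →
      T i j = join (cen j).1 j := by
    intro i j h1 h2 h3
    simp only [T]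
    rw [if_neg h1, if_pos h2, if_neg h3]
  have T3 : ∀ i j, i ≠ i0 → β i ≠ cen j → join (cen j).1 (β i).1 ∈ C j → T i j = line i0 j := by
    intro i j h1 h2 h3
    simp only [T]
    rw [if_neg h1, if_neg h2, if_pos h3]
  have T4 : ∀ i j, i ≠ i0 → β i ≠ cen j → join (cen j).1 (β i).1 ∉ C j →
      T i j = line (dir (join (cen j).1 (β i).1)) j := by
    intro i j h1 h2 h3
    simp only [T]
    rw [if_neg h1, if_neg h2, if_neg h3]
  have jc : ∀ j, join (cen j).1 j ∈ C (cen j).1 ∧ join (cen j).1 j ∈ C j ∧
      dir (join (cen j).1 j) ≠ i0 := by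
    intro j
    obtain ⟨h1, h2, _⟩ := hjoin (cen j).1 j (cenne j)
    refine ⟨h1, h2, fun h => cen1 j ?_⟩
    rw [← line3 i0 (cen j).1 _ h1 (h ▸ dir1 _), ← line3 i0 j _ h2 (h ▸ dir1 _)]
  have cb : ∀ i j, β i ≠ cen j → (cen j).1 ≠ (β i).1 := fun i j h h' => h (Subtype.ext h'.symm)
  have cb' : ∀ i j, β i ≠ cen j → join (cen j).1 (β i).1 ∈ C (cen j).1 ∧
      join (cen j).1 (β i).1 ∈ C (β i).1 ∧ dir (join (cen j).1 (β i).1) ≠ i0 := fun i j h =>
    chord _ (cen j).2 _ (β i).2 (cb i j h)
  -- joins are symmetric
  have jsymm : ∀ a b, a ≠ b → join a b = join b a := by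
    intro a b h
    obtain ⟨h1, h2, h3⟩ := hjoin b a h.symm
    obtain ⟨h4, h5, h6⟩ := hjoin a b h
    exact h3 _ h5 h4
  -- the direction of a chord is not tangent at its ends
  have ct : ∀ i j, i ≠ i0 → β i ≠ cen j → dir (join (cen j).1 (β i).1) ≠ i := by
    intro i j hi h h'
    rw [jsymm _ _ (cb i j h)] at h'
    exact τ1 (β i) (cen j).1 (cen j).2 (cb i j h).symm (h'.trans (hβ i hi).symm)
  have ct' : ∀ i j, β i ≠ cen j → dir (join (cen j).1 (β i).1) ≠ τ (cen j) := fun i j h =>
    τ1 (cen j) (β i).1 (β i).2 (cb i j h)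
  -- a chord through `j`
  have cj : ∀ i j, β i ≠ cen j → dir (join (cen j).1 (β i).1) = dir (join (cen j).1 j) →
      join (cen j).1 (β i).1 ∈ C j := by
    intro i j h h'
    rw [par _ _ (cen j).1 (cb' i j h).1 (jc j).1 h']
    exact (jc j).2.1
  have cj' : ∀ i j, β i ≠ cen j → join (cen j).1 (β i).1 ∈ C j →
      join (cen j).1 (β i).1 = join (cen j).1 j := by
    intro i j h h'
    exact (hjoin (cen j).1 j (cenne j)).2.2 _ (cb' i j h).1 h'
  refine ⟨T, ?_, ?_, ?_, ?_⟩
  · intro i j
    by_cases h0 : i = i0
    · subst h0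
      rw [T0]
      apply dirR
      rw [dline]
      exact τ0 _
    · by_cases h1 : β i = cen j
      · by_cases h2 : dir (join (cen j).1 j) = i
        · rw [T1 i j h0 h1 h2]
          apply dirR
          rw [dline]
          exact Ne.symm h0
        · rw [T2 i j h0 h1 h2]
          exact dirR _ _ h2
      · by_cases h2 : join (cen j).1 (β i).1 ∈ C j
        · rw [T3 i j h0 h1 h2]
          apply dirR
          rw [dline]
          exact Ne.symm h0
        · rw [T4 i j h0 h1 h2]
          apply dirR
          rw [dline]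
          exact ct i j h0 h1
  · intro i j
    by_cases h0 : i = i0
    · subst h0
      rw [T0]
      exact line1 _ _
    · by_cases h1 : β i = cen j
      · by_cases h2 : dir (join (cen j).1 j) = i
        · rw [T1 i j h0 h1 h2]
          exact line1 _ _
        · rw [T2 i j h0 h1 h2]
          exact (jc j).2.1
      · by_cases h2 : join (cen j).1 (β i).1 ∈ C j
        · rw [T3 i j h0 h1 h2]
          exact line1 _ _
        · rw [T4 i j h0 h1 h2]
          exact line1 _ _
  · -- rows
    intro i j j' h
    -- two columns on a common vertical and a common other line are equal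
    have fin : ∀ s, dir s ≠ i0 → s ∈ C j → s ∈ C j' → line i0 j = line i0 j' → j = j' := by
      intro s hs h1 h2 h3
      apply meet s (line i0 j) j j' ?_ h1 (line1 i0 j) h2 (h3 ▸ line1 i0 j')
      intro h4
      rw [h4, dline] at hs
      exact hs rfl
    by_cases h0 : i = i0
    · subst h0
      rw [T0, T0] at h
      have h1 : τ (cen j) = τ (cen j') := by rw [← dline (τ (cen j)) j, h, dline]
      refine fin (line (τ (cen j)) j) ?_ (line1 _ _) ?_ (cen2 j j' (τinj h1))
      · rw [dline]
        exact τ0 _
      · rw [h]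
        exact line1 _ _
    · by_cases h1 : β i = cen j <;> by_cases h1' : β i = cen j'
      · have hc : cen j = cen j' := h1.symm.trans h1'
        have hv := cen2 j j' hc
        by_cases h2 : dir (join (cen j).1 j) = i <;> by_cases h2' : dir (join (cen j').1 j') = i
        · have h3 : join (cen j).1 j = join (cen j').1 j' := by
            apply par _ _ (cen j).1 (jc j).1 _ (h2.trans h2'.symm)
            rw [hc]
            exact (jc j').1
          exact fin (join (cen j).1 j) (jc j).2.2 (jc j).2.1 (h3 ▸ (jc j').2.1) hv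
        · exfalso
          rw [T1 i j h0 h1 h2, T2 i j' h0 h1' h2'] at h
          apply (jc j').2.2
          rw [← h, dline]
        · exfalso
          rw [T2 i j h0 h1 h2, T1 i j' h0 h1' h2'] at h
          apply (jc j).2.2
          rw [h, dline]
        · rw [T2 i j h0 h1 h2, T2 i j' h0 h1' h2'] at h
          exact fin (join (cen j).1 j) (jc j).2.2 (jc j).2.1 (h ▸ (jc j').2.1) hv
      · exfalso
        by_cases h2 : dir (join (cen j).1 j) = i <;>
          by_cases h2' : join (cen j').1 (β i).1 ∈ C j'
        · rw [T1 i j h0 h1 h2, T3 i j' h0 h1' h2'] at h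
          -- both vertical: same centre
          have h3 : cen j = cen j' := by
            have h4 := hfoot j
            have h5 := hfoot j'
            rw [h, ← h5] at h4
            have h6 : foot j = foot j' := Subtype.ext (vinj _ (foot j).2 _ (foot j').2 h4)
            show d (foot j) = d (foot j')
            rw [h6]
          exact h1' (h1.trans h3)
        · rw [T1 i j h0 h1 h2, T4 i j' h0 h1' h2'] at h
          apply (cb' i j' h1').2.2
          rw [← dline (dir (join (cen j').1 (β i).1)) j', ← h, dline]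
        · rw [T2 i j h0 h1 h2, T3 i j' h0 h1' h2'] at h
          apply (jc j).2.2
          rw [h, dline]
        · rw [T2 i j h0 h1 h2, T4 i j' h0 h1' h2'] at h
          have h3 : dir (join (cen j).1 j) = dir (join (cen j').1 (β i).1) := by rw [h, dline]
          have h4 : join (cen j).1 j = join (cen j').1 (β i).1 := by
            apply par _ _ (cen j).1 (jc j).1 _ h3
            rw [← h1]
            exact (cb' i j' h1').2.1
          apply h2'
          rw [← h4, h]
          exact line1 _ _
      · exfalso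
        by_cases h2' : dir (join (cen j').1 j') = i <;>
          by_cases h2 : join (cen j).1 (β i).1 ∈ C j
        · rw [T1 i j' h0 h1' h2', T3 i j h0 h1 h2] at h
          have h3 : cen j = cen j' := by
            have h4 := hfoot j
            have h5 := hfoot j'
            rw [h, ← h5] at h4
            have h6 : foot j = foot j' := Subtype.ext (vinj _ (foot j).2 _ (foot j').2 h4)
            show d (foot j) = d (foot j')
            rw [h6]
          exact h1 (h1'.trans h3.symm)
        · rw [T1 i j' h0 h1' h2', T4 i j h0 h1 h2] at h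
          apply (cb' i j h1).2.2
          rw [← dline (dir (join (cen j).1 (β i).1)) j, h, dline]
        · rw [T2 i j' h0 h1' h2', T3 i j h0 h1 h2] at h
          apply (jc j').2.2
          rw [← h, dline]
        · rw [T2 i j' h0 h1' h2', T4 i j h0 h1 h2] at h
          have h3 : dir (join (cen j').1 j') = dir (join (cen j).1 (β i).1) := by
            rw [← h, dline]
          have h4 : join (cen j').1 j' = join (cen j).1 (β i).1 := by
            apply par _ _ (cen j').1 (jc j').1 _ h3
            rw [← h1']
            exact (cb' i j h1).2.1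
          apply h2
          rw [← h4, ← h]
          exact line1 _ _
      · by_cases h2 : join (cen j).1 (β i).1 ∈ C j <;>
          by_cases h2' : join (cen j').1 (β i).1 ∈ C j'
        · rw [T3 i j h0 h1 h2, T3 i j' h0 h1' h2'] at h
          have h3 : cen j = cen j' := by
            have h4 := hfoot j
            have h5 := hfoot j'
            rw [h, ← h5] at h4
            have h6 : foot j = foot j' := Subtype.ext (vinj _ (foot j).2 _ (foot j').2 h4)
            show d (foot j) = d (foot j')
            rw [h6]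
          rw [← h3] at h2'
          exact fin _ (cb' i j h1).2.2 h2 h2' h
        · exfalso
          rw [T3 i j h0 h1 h2, T4 i j' h0 h1' h2'] at h
          apply (cb' i j' h1').2.2
          rw [← dline (dir (join (cen j').1 (β i).1)) j', ← h, dline]
        · exfalso
          rw [T4 i j h0 h1 h2, T3 i j' h0 h1' h2'] at h
          apply (cb' i j h1).2.2
          rw [← dline (dir (join (cen j).1 (β i).1)) j, h, dline]
        · rw [T4 i j h0 h1 h2, T4 i j' h0 h1' h2'] at h
          have h3 : dir (join (cen j).1 (β i).1) = dir (join (cen j').1 (β i).1) := by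
            rw [← dline (dir (join (cen j).1 (β i).1)) j, h, dline]
          rw [jsymm _ _ (cb i j h1), jsymm _ _ (cb i j' h1')] at h3
          have h4 := chinj _ (β i).2 _ (cen j).2 _ (cen j').2 (cb i j h1).symm
            (cb i j' h1').symm h3
          refine fin (line (dir (join (cen j).1 (β i).1)) j) ?_ (line1 _ _) ?_
            (cen2 j j' (Subtype.ext h4))
          · rw [dline]
            exact (cb' i j h1).2.2
          · rw [h]
            exact line1 _ _
  · -- columns
    have key0 : ∀ i j, i ≠ i0 → T i j ≠ T i0 j := by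
      intro i j h0 h
      rw [T0] at h
      by_cases h1 : β i = cen j
      · by_cases h2 : dir (join (cen j).1 j) = i
        · rw [T1 i j h0 h1 h2] at h
          apply τ0 (cen j)
          rw [← dline (τ (cen j)) j, ← h, dline]
        · rw [T2 i j h0 h1 h2] at h
          apply h2
          rw [h, dline, ← h1, hβ i h0]
      · by_cases h2 : join (cen j).1 (β i).1 ∈ C j
        · rw [T3 i j h0 h1 h2] at h
          apply τ0 (cen j)
          rw [← dline (τ (cen j)) j, ← h, dline]
        · rw [T4 i j h0 h1 h2] at h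
          apply ct' i j h1
          rw [← dline (dir (join (cen j).1 (β i).1)) j, h, dline]
    have key1 : ∀ i i' j, i ≠ i0 → i' ≠ i0 → β i = cen j → β i' ≠ cen j → T i j ≠ T i' j := by
      intro i i' j h0 h0' h1 h1' h
      by_cases h2 : dir (join (cen j).1 j) = i <;>
        by_cases h2' : join (cen j).1 (β i').1 ∈ C j
      · have h3 := cj' i' j h1' h2'
        apply ct' i' j h1'
        rw [h3, h2, ← h1, hβ i h0]
      · rw [T1 i j h0 h1 h2, T4 i' j h0' h1' h2'] at h
        apply (cb' i' j h1').2.2
        rw [← dline (dir (join (cen j).1 (β i').1)) j, ← h, dline]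
      · rw [T2 i j h0 h1 h2, T3 i' j h0' h1' h2'] at h
        apply (jc j).2.2
        rw [h, dline]
      · rw [T2 i j h0 h1 h2, T4 i' j h0' h1' h2'] at h
        apply h2'
        apply cj i' j h1'
        rw [h, dline]
    intro j i i' h
    have h : T i j = T i' j := h
    by_cases h0 : i = i0 <;> by_cases h0' : i' = i0
    · rw [h0, h0']
    · subst h0
      exact absurd h.symm (key0 i' j h0')
    · subst h0'
      exact absurd h (key0 i j h0)
    · by_cases h1 : β i = cen j <;> by_cases h1' : β i' = cen j
      · rw [← hβ i h0, ← hβ i' h0', h1, h1']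
      · exact absurd h (key1 i i' j h0 h0' h1 h1')
      · exact absurd h.symm (key1 i' i j h0' h0 h1' h1)
      · have h3 : dir (join (cen j).1 (β i).1) = dir (join (cen j).1 (β i').1) := by
          by_cases h2 : join (cen j).1 (β i).1 ∈ C j <;>
            by_cases h2' : join (cen j).1 (β i').1 ∈ C j
          · rw [cj' i j h1 h2, cj' i' j h1' h2']
          · exfalso
            rw [T3 i j h0 h1 h2, T4 i' j h0' h1' h2'] at h
            apply (cb' i' j h1').2.2
            rw [← dline (dir (join (cen j).1 (β i').1)) j, ← h, dline]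
          · exfalso
            rw [T4 i j h0 h1 h2, T3 i' j h0' h1' h2'] at h
            apply (cb' i j h1).2.2
            rw [← dline (dir (join (cen j).1 (β i).1)) j, h, dline]
          · rw [T4 i j h0 h1 h2, T4 i' j h0' h1' h2'] at h
            rw [← dline (dir (join (cen j).1 (β i).1)) j, h, dline]
        have h4 := chinj _ (cen j).2 _ (β i).2 _ (β i').2 (cb i j h1) (cb i' j h1') h3
        rw [← hβ i h0, ← hβ i' h0', Subtype.ext h4]

end Pool.Agent.H809_TA
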