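import Pool.Agent.H809_TA.ClassicalDefs

/-!
Ovals of projective planes that are tangent to the line at infinity.
-/

set_option autoImplicit false

namespace Pool.Agent.H809_TA

/-- For an unordered triple array `(R, C)` with `q + 1` rows and `q ^ 2` columns the structure
`DesignMem R C` is a projective plane of order `q`: its points are the rows and the columns, and
its lines are `none`, which consists of the rows, and the symbols. The set `O` of points is an oval
of this plane (it has `q + 1` points and at most two on every line), and the line `none` is a
tangent of `O` (it has exactly one point of `O`). -/
def IsTangentOval {I J V : Type} (q : ℕ) (R : I → Finset V) (C : J → Finset V)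
    (O : Finset (I ⊕ J)) : Prop :=
  O.card = q + 1 ∧ (∀ B : Option V, Nat.card {x // x ∈ O ∧ DesignMem R C x B} ≤ 2) ∧
    Nat.card {x // x ∈ O ∧ DesignMem R C x none} = 1

end Pool.Agent.H809_TA
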