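import Pool.Agent.H809_TA.Oval
import Pool.Agent.H809_TA.OvalDefs

/-!
Orderings of planes of odd order with a tangent oval, from the definition.
-/

set_option autoImplicit false

namespace Pool.Agent.H809_TA

open Function Finset

theorem hasArr_of_tangentOval {I J V : Type} [Fintype I] [Fintype J] [Fintype V] [DecidableEq V]
    {R : I → Finset V} {C : J → Finset V} {q : ℕ} (hU : IsUTA R C q)
    (hext : Fintype.card V + 1 = Fintype.card I + Fintype.card J)
    (hI : Fintype.card I = q + 1) (hq : 1 < q) (hodd : Odd q) {O : Finset (I ⊕ J)}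
    (hO : IsTangentOval q R C O) : HasArr R C := by
  classical
  obtain ⟨h1, h2, h3⟩ := hO
  -- no three points on a line
  have h4 : ∀ (B : Option V) (x y z : I ⊕ J), x ∈ O → y ∈ O → z ∈ O → DesignMem R C x B →
      DesignMem R C y B → DesignMem R C z B → x = y ∨ x = z ∨ y = z := by
    intro B x y z hx hy hz hx' hy' hz'
    by_contra hcon
    push Not at hcon
    have h5 := h2 B
    rw [Nat.card_eq_fintype_card, Fintype.card_subtype] at h5
    have h6 : ({x, y, z} : Finset (I ⊕ J)) ⊆ univ.filter fun x => x ∈ O ∧ DesignMem R C x B := by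
      intro w hw
      simp only [mem_insert, mem_singleton] at hw
      rw [mem_filter]
      rcases hw with rfl | rfl | rfl
      · exact ⟨mem_univ _, hx, hx'⟩
      · exact ⟨mem_univ _, hy, hy'⟩
      · exact ⟨mem_univ _, hz, hz'⟩
    have h7 : ({x, y, z} : Finset (I ⊕ J)).card = 3 := by
      rw [card_insert_of_notMem, card_insert_of_notMem, card_singleton]
      · rw [mem_singleton]
        exact hcon.2.2
      · simp only [mem_insert, mem_singleton, not_or]
        exact ⟨hcon.1, hcon.2.1⟩
    have h8 := card_le_card h6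
    omega
  rw [Nat.card_eq_fintype_card, Fintype.card_subtype] at h3
  obtain ⟨x0, hx0⟩ := card_eq_one.1 h3
  have h5 : ∀ x, (x ∈ O ∧ DesignMem R C x none) ↔ x = x0 := by
    intro x
    have := congrArg (fun S => x ∈ S) hx0
    simpa using this
  obtain ⟨i0, rfl⟩ : ∃ i0, x0 = Sum.inl i0 := by
    rcases x0 with i | j
    · exact ⟨i, rfl⟩
    · exact absurd ((h5 (Sum.inr j)).2 rfl).2 id
  have hi0 : Sum.inl i0 ∈ O := ((h5 _).2 rfl).1
  let O' : Finset J := univ.filter fun j => Sum.inr j ∈ O
  have hO' : ∀ j, j ∈ O' ↔ Sum.inr j ∈ O := by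
    intro j
    simp [O']
  have hcard : O'.card = q := by
    have h6 : O = insert (Sum.inl i0) (O'.map ⟨Sum.inr, Sum.inr_injective⟩) := by
      ext x
      rw [mem_insert, mem_map]
      rcases x with i | j
      · constructor
        · intro h
          exact Or.inl ((h5 (Sum.inl i)).1 ⟨h, trivial⟩)
        · rintro (h | ⟨j, _, h⟩)
          · rw [h]
            exact hi0
          · simp at h
      · constructor
        · intro h
          exact Or.inr ⟨j, (hO' j).2 h, rfl⟩
        · rintro (h | ⟨j', h', h⟩)
          · simp at h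
          · rw [← h]
            exact (hO' j').1 h'
    have h7 : Sum.inl i0 ∉ O'.map ⟨Sum.inr, Sum.inr_injective⟩ := by
      rw [mem_map]
      rintro ⟨j, _, h⟩
      simp at h
    rw [h6, card_insert_of_notMem h7, card_map] at h1
    omega
  refine hasArr_of_oval hU hext hI hq hodd i0 O' hcard ?_ ?_
  · intro s hs a ha b hb hsa hsb
    rcases h4 (some s) (Sum.inl i0) (Sum.inr a) (Sum.inr b) hi0 ((hO' a).1 ha) ((hO' b).1 hb)
      hs hsa hsb with h | h | h
    · simp at h
    · simp at h
    · exact Sum.inr_injective h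
  · intro s a ha b hb c hc hsa hsb hsc
    rcases h4 (some s) (Sum.inr a) (Sum.inr b) (Sum.inr c) ((hO' a).1 ha) ((hO' b).1 hb)
      ((hO' c).1 hc) hsa hsb hsc with h | h | h
    · exact Or.inl (Sum.inr_injective h)
    · exact Or.inr (Or.inl (Sum.inr_injective h))
    · exact Or.inr (Or.inr (Sum.inr_injective h))

end Pool.Agent.H809_TA
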