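import Mathlib

/-!
Orderings of the Desarguesian affine plane over a finite field: definitions and the frame lemma.
-/

set_option autoImplicit false

namespace Pool.Agent.H809_TA

open Function

/-- An ordering of the affine plane over `K`. Directions of lines are `none` (vertical lines) and
`some b` (lines of slope `b`). The value `f p y` is the label of the line of direction `p` through
the point `y`. -/
structure PlF (K : Type) [Field K] (f : Option K → K × K → Option K) : Prop where
  inj : ∀ y, Injective fun p => f p y
  ne : ∀ p y, f p y ≠ p
  fin : ∀ (b : K) (y y' : K × K), y.2 - b * y.1 = y'.2 - b * y'.1 →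
    f (some b) y = f (some b) y' → y = y'
  inf : ∀ y y' : K × K, y.1 = y'.1 → f none y = f none y' → y = y'
  spec : ∀ a t : K, f (some a) (a, t) = none

/-- There is an ordering of the affine plane over `K` (with the side condition `spec`). -/
def Pl (K : Type) [Field K] : Prop := ∃ f, PlF K f

/-- The dual description of an ordering of the plane. -/
structure PlP (K : Type) [Field K] (P : Option K → K × K → Option K) : Prop where
  inj : ∀ y, Injective fun x => P x y
  ne : ∀ x y, P x y ≠ x
  fin : ∀ (x : Option K) (b : K) (y y' : K × K), P x y = some b → P x y' = some b →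
    y.2 - b * y.1 = y'.2 - b * y'.1 → y = y'
  inf : ∀ (x : Option K) (y y' : K × K), P x y = none → P x y' = none → y.1 = y'.1 → y = y'
  spec : ∀ a t : K, P none (a, t) = some a

theorem Pl.toP {K : Type} [Field K] [Finite K] (h : Pl K) : ∃ P, PlP K P := by
  classical
  obtain ⟨f, hf⟩ := h
  have hbij : ∀ y, Bijective fun p => f p y := fun y => Finite.injective_iff_bijective.1 (hf.inj y)
  let e : K × K → (Option K ≃ Option K) := fun y => Equiv.ofBijective _ (hbij y)
  have he : ∀ p y, e y p = f p y := fun p y => rfl
  have hs : ∀ x y, f ((e y).symm x) y = x := by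
    intro x y
    rw [← he]
    exact (e y).apply_symm_apply x
  refine ⟨fun x y => (e y).symm x, ?_, ?_, ?_, ?_, ?_⟩
  · intro y
    exact (e y).symm.injective
  · intro x y h
    have := hs x y
    rw [h] at this
    exact hf.ne x y this
  · intro x b y y' h h' hl
    apply hf.fin b y y' hl
    rw [← h, hs x y, h, ← h', hs x y']
  · intro x y y' h h' hl
    apply hf.inf y y' hl
    rw [← h, hs x y, h, ← h', hs x y']
  · intro a t
    rw [Equiv.symm_apply_eq, he]
    exact (hf.spec a t).symm

/-- The frame lemma: an idempotent quasigroup `L` together with suitable constants `κ` gives an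
ordering of the plane. -/
theorem pl_of_frame {K : Type} [Field K] [Finite K] (L κ : K → K → K)
    (L1 : ∀ a, Injective (L a)) (L2 : ∀ p, Injective (fun a => L a p)) (L3 : ∀ a, L a a = a)
    (K1 : ∀ p a, a ≠ p → κ p (L a p) = κ p a)
    (D : ∀ a p p', p ≠ a → p' ≠ a → p * a + κ p a = p' * a + κ p' a → p = p') : Pl K := by
  classical
  let S : K → K → K → Prop := fun a b p => p ≠ a ∧ b = p * a + κ p a
  have hS : ∀ a b p p', S a b p → S a b p' → p = p' := by
    intro a b p p' h h'
    exact D a p p' h.1 h'.1 (by rw [← h.2, ← h'.2])
  let g : K → K → K := fun a b => if h : ∃ p, S a b p then L a h.choose else a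
  have g1 : ∀ a b p, S a b p → g a b = L a p := by
    intro a b p h
    have h' : ∃ p, S a b p := ⟨p, h⟩
    simp only [g]
    rw [dif_pos h', hS a b _ _ h'.choose_spec h]
  have g2 : ∀ a b, (¬ ∃ p, S a b p) → g a b = a := by
    intro a b h
    simp only [g]
    rw [dif_neg h]
  have hLa : ∀ a p, p ≠ a → L a p ≠ a := by
    intro a p hp h
    apply hp
    apply L1 a
    rw [h, L3]
  have hLp : ∀ a p, p ≠ a → L a p ≠ p := by
    intro a p hp h
    apply hp
    have : L a p = L p p := by rw [h, L3]
    exact (L2 p this).symm
  -- `g a` is surjective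
  have gsurj : ∀ a, Surjective (g a) := by
    intro a s
    obtain ⟨p, hp⟩ := (Finite.injective_iff_surjective.1 (L1 a)) s
    by_cases hpa : p = a
    · -- need an unswapped `b`
      have hsa : s = a := by rw [← hp, hpa, L3]
      by_contra hcon
      push Not at hcon
      have hall : ∀ b, ∃ p, S a b p := by
        intro b
        by_contra hb
        apply hcon b
        rw [g2 a b hb, hsa]
      choose φ hφ using hall
      have hφs : Injective φ := by
        intro b b' h
        rw [(hφ b).2, (hφ b').2, h]
      obtain ⟨b, hb⟩ := (Finite.injective_iff_surjective.1 hφs) a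
      exact (hφ b).1 hb
    · exact ⟨p * a + κ p a, by rw [g1 a _ p ⟨hpa, rfl⟩, hp]⟩
  have ginj : ∀ a, Injective (g a) := fun a => Finite.injective_iff_surjective.2 (gsurj a)
  let f : Option K → K × K → Option K := fun p y =>
    match p with
    | none => some (g y.1 y.2)
    | some p => if p = y.1 then none else if y.2 = p * y.1 + κ p y.1 then some y.1
        else some (L y.1 p)
  have f0 : ∀ y, f none y = some (g y.1 y.2) := fun y => rfl
  have f1 : ∀ p (y : K × K), p = y.1 → f (some p) y = none := by
    intro p y h
    simp only [f]
    rw [if_pos h]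
  have f2 : ∀ p (y : K × K), p ≠ y.1 → y.2 = p * y.1 + κ p y.1 → f (some p) y = some y.1 := by
    intro p y h h'
    simp only [f]
    rw [if_neg h, if_pos h']
  have f3 : ∀ p (y : K × K), p ≠ y.1 → y.2 ≠ p * y.1 + κ p y.1 →
      f (some p) y = some (L y.1 p) := by
    intro p y h h'
    simp only [f]
    rw [if_neg h, if_neg h']
  -- the label of the vertical line differs from all others
  have key : ∀ p (y : K × K), f (some p) y ≠ f none y := by
    intro p y h
    rw [f0] at h
    by_cases h1 : p = y.1
    · rw [f1 p y h1] at h
      simp at h
    · by_cases h2 : y.2 = p * y.1 + κ p y.1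
      · rw [f2 p y h1 h2, g1 y.1 y.2 p ⟨h1, h2⟩] at h
        exact hLa y.1 p h1 (Option.some_injective _ h).symm
      · rw [f3 p y h1 h2] at h
        by_cases h3 : ∃ p', S y.1 y.2 p'
        · obtain ⟨p', hp'⟩ := h3
          rw [g1 y.1 y.2 p' hp'] at h
          have := L1 y.1 (Option.some_injective _ h)
          subst this
          exact h2 hp'.2
        · rw [g2 y.1 y.2 h3] at h
          exact hLa y.1 p h1 (Option.some_injective _ h)
  refine ⟨f, ?_, ?_, ?_, ?_, ?_⟩
  · intro y p p' h
    simp only at h
    rcases p with _ | p <;> rcases p' with _ | p'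
    · rfl
    · exact absurd h.symm (key p' y)
    · exact absurd h (key p y)
    · by_cases h1 : p = y.1 <;> by_cases h1' : p' = y.1
      · rw [h1, h1']
      · exfalso
        rw [f1 p y h1] at h
        by_cases h2' : y.2 = p' * y.1 + κ p' y.1
        · rw [f2 p' y h1' h2'] at h
          simp at h
        · rw [f3 p' y h1' h2'] at h
          simp at h
      · exfalso
        rw [f1 p' y h1'] at h
        by_cases h2 : y.2 = p * y.1 + κ p y.1
        · rw [f2 p y h1 h2] at h
          simp at h
        · rw [f3 p y h1 h2] at h
          simp at h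
      · by_cases h2 : y.2 = p * y.1 + κ p y.1 <;> by_cases h2' : y.2 = p' * y.1 + κ p' y.1
        · rw [hS y.1 y.2 p p' ⟨h1, h2⟩ ⟨h1', h2'⟩]
        · exfalso
          rw [f2 p y h1 h2, f3 p' y h1' h2'] at h
          exact hLa y.1 p' h1' (Option.some_injective _ h).symm
        · exfalso
          rw [f3 p y h1 h2, f2 p' y h1' h2'] at h
          exact hLa y.1 p h1 (Option.some_injective _ h)
        · rw [f3 p y h1 h2, f3 p' y h1' h2'] at h
          rw [L1 y.1 (Option.some_injective _ h)]
  · intro p y h
    rcases p with _ | p
    · rw [f0] at h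
      simp at h
    · by_cases h1 : p = y.1
      · rw [f1 p y h1] at h
        simp at h
      · by_cases h2 : y.2 = p * y.1 + κ p y.1
        · rw [f2 p y h1 h2] at h
          exact h1 (Option.some_injective _ h).symm
        · rw [f3 p y h1 h2] at h
          exact hLp y.1 p h1 (Option.some_injective _ h)
  · rintro b ⟨a, t⟩ ⟨a', t'⟩ hl h
    simp only at hl
    have haa : a = a' := by
      by_cases h1 : b = a <;> by_cases h1' : b = a'
      · rw [← h1, ← h1']
      · exfalso
        rw [f1 b (a, t) h1] at h
        by_cases h2' : t' = b * a' + κ b a'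
        · rw [f2 b (a', t') h1' h2'] at h
          simp at h
        · rw [f3 b (a', t') h1' h2'] at h
          simp at h
      · exfalso
        rw [f1 b (a', t') h1'] at h
        by_cases h2 : t = b * a + κ b a
        · rw [f2 b (a, t) h1 h2] at h
          simp at h
        · rw [f3 b (a, t) h1 h2] at h
          simp at h
      · by_cases h2 : t = b * a + κ b a <;> by_cases h2' : t' = b * a' + κ b a'
        · rw [f2 b (a, t) h1 h2, f2 b (a', t') h1' h2'] at h
          exact Option.some_injective _ h
        · exfalso
          rw [f2 b (a, t) h1 h2, f3 b (a', t') h1' h2'] at h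
          have h3 : a = L a' b := Option.some_injective _ h
          have h4 := K1 b a' (Ne.symm h1')
          rw [← h3] at h4
          apply h2'
          rw [h2] at hl
          linear_combination h4 - hl
        · exfalso
          rw [f3 b (a, t) h1 h2, f2 b (a', t') h1' h2'] at h
          have h3 : L a b = a' := Option.some_injective _ h
          have h4 := K1 b a (Ne.symm h1)
          rw [h3] at h4
          apply h2
          rw [h2'] at hl
          linear_combination hl + h4
        · rw [f3 b (a, t) h1 h2, f3 b (a', t') h1' h2'] at h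
          exact L2 b (Option.some_injective _ h)
    subst haa
    rw [Prod.mk.injEq]
    refine ⟨rfl, ?_⟩
    linear_combination hl
  · rintro ⟨a, t⟩ ⟨a', t'⟩ hl h
    simp only at hl
    subst hl
    rw [f0, f0] at h
    exact congrArg (Prod.mk a) (ginj a (Option.some_injective _ h))
  · intro a t
    exact f1 a (a, t) rfl

end Pool.Agent.H809_TA
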