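import Pool.Agent.H809_TA.Central

/-!
An array for every affine plane of order at least five and different from six.
-/

set_option autoImplicit false

namespace Pool.Agent.H809_TA

open Function

theorem pl_array {I J V : Type} [Fintype I] {cl : I → J → V} (h : IsPl cl) (hJ : Nonempty J)
    (hne : ∀ i j, ∃ j', j' ≠ j ∧ cl i j' = cl i j) (h5 : 6 ≤ Fintype.card I)
    (h6 : Fintype.card I ≠ 7) :
    ∃ T : I → J → I, (∀ c j, T c j ≠ c) ∧ (∀ j, Injective (fun c => T c j)) ∧
      ∀ c j j', T c j = T c j' → cl (T c j) j = cl (T c j) j' → j = j' := by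
  classical
  have : Nontrivial I := Fintype.one_lt_card_iff_nontrivial.1 (by omega)
  obtain ⟨d, inf, hd⟩ := exists_pair_ne I
  obtain ⟨O⟩ := hJ
  obtain ⟨D0, h2, h1⟩ := hne inf O
  obtain ⟨E, h4, h3⟩ := hne d O
  have hP := h
  obtain ⟨inj, meet, join⟩ := h
  have hm : ∀ i a, ∃ p, i ≠ d → cl d p = cl d D0 ∧ cl i p = cl i a := by
    intro i a
    by_cases hi : i = d
    · exact ⟨a, fun h => absurd hi h⟩
    · obtain ⟨p, h1, h2⟩ := meet d i D0 a (Ne.symm hi)
      exact ⟨p, fun _ => ⟨h1, h2⟩⟩
  choose m hm using hm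
  choose κ hκ using fun j => join j O
  have κu : ∀ j i, j ≠ O → cl i j = cl i O → i = κ j := by
    intro j i hj hi
    by_contra hc
    exact hj (inj i (κ j) j O hc hi (hκ j))
  have hdD : cl d O ≠ cl d D0 := fun h => h2 (inj inf d D0 O (Ne.symm hd) h1 h.symm)
  have DO : ∀ p, cl d p = cl d D0 → p ≠ O := fun p hp h => hdD (h ▸ hp)
  have κD : ∀ p, cl d p = cl d D0 → κ p ≠ d := by
    intro p hp h
    have := hκ p
    rw [h, hp] at this
    exact hdD this.symm
  let X := {p : J // cl d p = cl d D0}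
  have hb : Bijective (fun p : X => (⟨κ p.1, κD p.1 p.2⟩ : {i : I // i ≠ d})) := by
    constructor
    · intro p p' hpp
      have e : κ p.1 = κ p'.1 := congrArg Subtype.val hpp
      apply Subtype.ext
      refine inj (κ p.1) d _ _ (κD _ p.2) ?_ (p.2.trans p'.2.symm)
      rw [hκ p.1, e, hκ p'.1]
    · rintro ⟨i, hi⟩
      obtain ⟨a, b⟩ := hm i O hi
      exact ⟨⟨m i O, a⟩, Subtype.ext (κu _ _ (DO _ a) b).symm⟩
  let : Fintype X := Fintype.ofBijective _ (Equiv.ofBijective _ hb).symm.bijective
  have hX : Fintype.card X = Fintype.card I - 1 := by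
    rw [Fintype.card_of_bijective hb, Fintype.card_subtype_compl, Fintype.card_subtype_eq]
  let M : J → I → X := fun a i => if hi : i = d then ⟨D0, rfl⟩ else ⟨m i a, (hm i a hi).1⟩
  have hM1 : ∀ a i, i ≠ d → cl i (M a i).1 = cl i a := by
    intro a i hi
    simp only [M]
    rw [dif_neg hi]
    exact (hm i a hi).2
  have hM : ∀ a i, i ≠ d → ∀ p : X, cl i p.1 = cl i a → M a i = p := by
    intro a i hi p hp
    apply Subtype.ext
    exact inj i d _ _ hi ((hM1 a i hi).trans hp.symm) ((M a i).2.trans p.2.symm)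
  let v : J → X := fun j => M j inf
  have hv1 : ∀ j, cl inf (v j).1 = cl inf j := fun j => hM1 j inf (Ne.symm hd)
  have hv : ∀ j j', v j = v j' ↔ cl inf j = cl inf j' := by
    intro j j'
    constructor
    · intro h
      rw [← hv1 j, h, hv1 j']
    · intro h
      exact hM j inf (Ne.symm hd) _ ((hv1 j').trans h.symm)
  have hvX : ∀ p : X, v p.1 = p := fun p => hM p.1 inf (Ne.symm hd) p rfl
  have hz : v O = ⟨D0, rfl⟩ := hM O inf (Ne.symm hd) _ h1
  have hE0 : v E ≠ v O := fun h => h4 (inj d inf E O hd h3 ((hv E O).1 h))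
  let ρ : I → X := fun i => if M E i = v O then v E else M E i
  have hdE : cl d E ≠ cl d D0 := fun h => hdD (h3.symm.trans h)
  have κi : ∀ x : X, x ≠ v O → κ x.1 ≠ inf := by
    intro x hx h
    have h' := hκ x.1
    rw [h] at h'
    apply hx
    rw [← hvX x]
    exact (hv _ _).2 h'
  -- the value `v E` is not taken
  have Mne : ∀ i, i ≠ d → i ≠ inf → M E i ≠ v E := by
    intro i hi hi' h
    have e1 := hM1 E i hi
    have e2 := hv1 E
    rw [← h] at e2
    have e3 := inj i inf _ _ hi' e1 e2
    apply hdE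
    rw [← e3]
    exact (M E i).2
  have Minj : ∀ i i', i ≠ d → i' ≠ d → M E i = M E i' → i = i' := by
    intro i i' hi hi' h
    by_contra hc
    have e1 := hM1 E i hi
    have e2 := hM1 E i' hi'
    rw [← h] at e2
    have e3 := inj i i' _ _ hc e1 e2
    apply hdE
    rw [← e3]
    exact (M E i).2
  have ρinj : ∀ i i', i ≠ d → i' ≠ d → i ≠ inf → i' ≠ inf → ρ i = ρ i' → i = i' := by
    intro i i' a b a' b' h
    simp only [ρ] at h
    split_ifs at h with e1 e2 e2
    · exact Minj i i' a b (e1.trans e2.symm)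
    · exact absurd h.symm (Mne i' b b')
    · exact absurd h (Mne i a a')
    · exact Minj i i' a b h
  have ρz : ∀ i, ρ i ≠ v O := by
    intro i
    simp only [ρ]
    split_ifs with e
    · exact hE0
    · exact e
  let δ : X → X := fun x => ρ (κ x.1)
  obtain ⟨Q, L, hQ, hδ⟩ := exists_adapted (X := X) (by omega) (by omega) (v O) (v E) hE0 δ
    (by
      intro x y hx hy hxy
      have e := ρinj _ _ (κD _ x.2) (κD _ y.2) (κi x hx) (κi y hy) hxy
      exact hb.1 (Subtype.ext e))
    (fun x _ => ρz _)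
    (by
      intro x hx hxE hxx
      have hxx : ρ (κ x.1) = x := hxx
      simp only [ρ] at hxx
      split_ifs at hxx with e
      · exact hxE hxx.symm
      · have e1 := hM1 E (κ x.1) (κD _ x.2)
        rw [hxx] at e1
        exact h4 (inj d (κ x.1) E O (Ne.symm (κD _ x.2)) h3 (e1.symm.trans (hκ x.1))))
  let lab : I → X := fun i => if i = d then v O else Q (v O) (ρ i)
  have labd : lab d = v O := if_pos rfl
  have labs : ∀ i, i ≠ d → lab i = Q (v O) (ρ i) := fun i hi => if_neg hi
  have Qz : ∀ y, y ≠ v O → Q (v O) y ≠ v O := by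
    intro y hy h
    have e := hQ.LQ (v O) y
    rw [h, hQ.Lidem] at e
    exact hy e.symm
  have Qinj : ∀ x y y', Q x y = Q x y' → y = y' := by
    intro x y y' h
    rw [← hQ.LQ x y, h, hQ.LQ]
  have hlab : ∀ i i', i ≠ inf → i' ≠ inf → lab i = lab i' → i = i' := by
    intro i i' a b h
    by_cases c : i = d <;> by_cases c' : i' = d
    · rw [c, c']
    · rw [c, labd, labs i' c'] at h
      exact absurd h.symm (Qz _ (ρz i'))
    · rw [c', labd, labs i c] at h
      exact absurd h (Qz _ (ρz i))
    · rw [labs i c, labs i' c'] at h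
      exact ρinj i i' c c' a b (Qinj _ _ _ h)
  have hs : ∀ i P, i ≠ inf → cl d P = cl d D0 → cl i P = cl i O → v P ≠ v E → v P ≠ v O →
      lab i ≠ v P := by
    intro i P hi hPD hPO hPE hPz
    have e1 : i = κ P := κu P i (DO P hPD) hPO
    have e2 : i ≠ d := e1 ▸ κD P hPD
    have e3 : v P = ⟨P, hPD⟩ := hvX ⟨P, hPD⟩
    have e4 := hδ (v P) hPz hPE
    rw [labs i e2, e1]
    have e5 : δ (v P) = ρ (κ P) := by
      rw [e3]
    rw [← e5]
    exact e4
  obtain ⟨g, g1, g2, g3, g4⟩ := pl_color hP hd h1 h2 h3 h4 hv hlab hQ labd (by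
      intro i P hi hPD hPE hPz
      have e2 : i ≠ d := by
        intro e
        rw [e] at hPE
        exact hdE (hPE.symm.trans hPD)
      have e3 : v P = ⟨P, hPD⟩ := hvX ⟨P, hPD⟩
      have e4 : M E i = v P := by
        rw [e3]
        exact hM E i e2 _ hPE
      rw [labs i e2]
      simp only [ρ]
      rw [e4, if_neg hPz]) hs
  -- labels of all classes
  let oL : I → Option X := fun i => if i = inf then none else some (lab i)
  have oL0 : oL inf = none := if_pos rfl
  have oL1 : ∀ i, i ≠ inf → oL i = some (lab i) := fun i hi => if_neg hi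
  have oLi : Injective oL := by
    intro i i' h
    by_cases hi : i = inf <;> by_cases hi' : i' = inf
    · rw [hi, hi']
    · rw [hi, oL0, oL1 i' hi'] at h
      exact absurd h (by simp)
    · rw [hi', oL0, oL1 i hi] at h
      exact absurd h (by simp)
    · rw [oL1 i hi, oL1 i' hi'] at h
      exact hlab i i' hi hi' (Option.some_injective _ h)
  have hcO : Fintype.card I = Fintype.card (Option X) := by
    rw [Fintype.card_option, hX]
    omega
  have gb : ∀ j, Bijective (g j) := fun j =>
    (Fintype.bijective_iff_injective_and_card _).2 ⟨g1 j, hcO⟩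
  choose T hT using fun (c : I) (j : J) => (gb j).2 (oL c)
  refine ⟨T, ?_, ?_, ?_⟩
  · intro c j h
    have e := hT c j
    rw [h] at e
    by_cases hc : c = inf
    · rw [hc, oL0] at e
      exact g2 j e
    · rw [oL1 c hc] at e
      exact g3 j c hc e
  · intro j c c' h
    have h : T c j = T c' j := h
    apply oLi
    rw [← hT c j, ← hT c' j, h]
  · intro c j j' h h'
    apply g4 (T c j) j j' h'
    rw [hT c j, h, hT c j']

end Pool.Agent.H809_TA
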