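import Pool.Agent.H809_TA.PlaneAll
import Pool.Agent.H809_TA.Order

/-!
The triple array of an ordered affine plane.
-/

set_option autoImplicit false

namespace Pool.Agent.H809_TA

open Finset

/-- the position of the line of direction `p` through `y` in its parallel class -/
def lineVal {K : Type} [Field K] (p : Option K) (y : K × K) : K :=
  match p with
  | none => y.1
  | some b => y.2 - b * y.1

theorem lineVal_unique {K : Type} [Field K] {y y' : K × K} (hy : y ≠ y') :
    ∃! p : Option K, lineVal p y = lineVal p y' := by
  by_cases h : y.1 = y'.1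
  · refine ⟨none, h, ?_⟩
    intro p hp
    rcases p with _ | b
    · rfl
    · exfalso
      apply hy
      have hp : y.2 - b * y.1 = y'.2 - b * y'.1 := hp
      rw [h] at hp
      exact Prod.ext h (sub_left_inj.1 hp)
  · have h' : y.1 - y'.1 ≠ 0 := sub_ne_zero.2 h
    refine ⟨some ((y.2 - y'.2) / (y.1 - y'.1)), ?_, ?_⟩
    · show y.2 - _ * y.1 = y'.2 - _ * y'.1
      field_simp
      ring
    · intro p hp
      rcases p with _ | b
      · exact absurd hp h
      · have hp : y.2 - b * y.1 = y'.2 - b * y'.1 := hp
        congr 1
        rw [eq_div_iff h']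
        linear_combination -hp

theorem plane_array {K : Type} [Field K] [Fintype K] [DecidableEq K] {P : Option K → K × K → Option K}
    (hP : PlP K P) :
    IsTripleArray (fun (x : Option K) (y : K × K) => ((P x y, lineVal (P x y) y) : Option K × K)) := by
  classical
  let R : Option K → Finset (Option K × K) := fun x => (univ.erase x) ×ˢ univ
  let C : K × K → Finset (Option K × K) := fun y => univ.image (fun p => (p, lineVal p y))
  have memR : ∀ x s, s ∈ R x ↔ s.1 ≠ x := by
    intro x s
    simp [R]
  have memC : ∀ y s, s ∈ C y ↔ lineVal s.1 y = s.2 := by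
    intro y s
    simp only [C, mem_image, mem_univ, true_and]
    constructor
    · rintro ⟨p, rfl⟩
      rfl
    · intro h
      exact ⟨s.1, Prod.ext rfl h⟩
  have hinj : ∀ y : K × K, Function.Injective (fun p : Option K => ((p, lineVal p y) : Option K × K)) := by
    intro y p p' h
    exact congrArg Prod.fst h
  have hU : IsUTA R C (Fintype.card K) := by
    refine ⟨?_, ?_, ?_, ?_, ?_, ?_, ?_⟩
    · intro x
      simp only [R]
      rw [card_product, card_erase_of_mem (mem_univ _), card_univ, card_univ, Fintype.card_option,
        Fintype.card_prod, Nat.add_sub_cancel]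
    · intro y
      simp only [C]
      rw [card_image_of_injective _ (hinj y), card_univ]
    · intro s
      have : (univ.filter fun x => s ∈ R x) = univ.erase s.1 := by
        ext x
        rw [mem_filter, memR, mem_erase]
        constructor
        · rintro ⟨h, h'⟩
          exact ⟨fun e => h' e.symm, h⟩
        · rintro ⟨h, h'⟩
          exact ⟨h', fun e => h e.symm⟩
      rw [this, card_erase_of_mem (mem_univ _), card_univ, Fintype.card_option, Nat.add_sub_cancel]
    · rintro ⟨p, k⟩
      rw [← card_univ]
      symm
      rcases p with _ | b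
      · apply card_bij (fun t _ => (k, t))
        · intro t _
          rw [mem_filter, memC]
          exact ⟨mem_univ _, rfl⟩
        · intro t _ t' _ h
          exact congrArg Prod.snd h
        · rintro ⟨a, t⟩ h
          rw [mem_filter, memC] at h
          exact ⟨t, mem_univ _, Prod.ext h.2.symm rfl⟩
      · apply card_bij (fun a _ => (a, k + b * a))
        · intro a _
          rw [mem_filter, memC]
          refine ⟨mem_univ _, ?_⟩
          show k + b * a - b * a = k
          ring
        · intro t _ t' _ h
          exact congrArg Prod.fst h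
        · rintro ⟨a, t⟩ h
          rw [mem_filter, memC] at h
          refine ⟨a, mem_univ _, Prod.ext rfl ?_⟩
          have h2 : t - b * a = k := h.2
          show k + b * a = t
          rw [← h2]
          ring
    · refine ⟨Fintype.card K, fun x y => ?_⟩
      have : R x ∩ C y = (univ.erase x).image (fun p => ((p, lineVal p y) : Option K × K)) := by
        ext s
        rw [mem_inter, memR, memC, mem_image]
        constructor
        · rintro ⟨h, h'⟩
          exact ⟨s.1, by rw [mem_erase]; exact ⟨h, mem_univ _⟩, Prod.ext rfl h'⟩
        · rintro ⟨p, hp, rfl⟩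
          rw [mem_erase] at hp
          exact ⟨hp.1, rfl⟩
      rw [this, card_image_of_injective _ (hinj y), card_erase_of_mem (mem_univ _), card_univ,
        Fintype.card_option, Nat.add_sub_cancel]
    · refine ⟨(Fintype.card K - 1) * Fintype.card K, fun x x' h => ?_⟩
      have : R x ∩ R x' = ((univ.erase x).erase x') ×ˢ univ := by
        ext s
        simp only [mem_inter, memR, mem_product, mem_erase, mem_univ, and_true]
        tauto
      rw [this, card_product, card_erase_of_mem (mem_erase.2 ⟨h.symm, mem_univ _⟩),
        card_erase_of_mem (mem_univ _), card_univ, card_univ, Fintype.card_option,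
        Nat.add_sub_cancel]
    · refine ⟨1, fun y y' h => ?_⟩
      rw [card_eq_one]
      obtain ⟨p, hp, hp'⟩ := lineVal_unique h
      refine ⟨(p, lineVal p y), ?_⟩
      ext s
      rw [mem_inter, memC, memC, mem_singleton]
      constructor
      · rintro ⟨h1, h2⟩
        have := hp' s.1 (h1.trans h2.symm)
        rw [← this, h1]
      · rintro rfl
        exact ⟨rfl, hp.symm⟩
  refine (order_of_array hU _ ?_ ?_ ?_ ?_).1
  · intro x y
    rw [memR]
    exact hP.ne x y
  · intro x y
    rw [memC]
  · intro x y y' h
    rw [Prod.mk.injEq] at h
    obtain ⟨h1, h2⟩ := h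
    rw [← h1] at h2
    rcases hb : P x y with _ | b
    · rw [hb] at h1 h2
      exact hP.inf x y y' hb h1.symm h2
    · rw [hb] at h1 h2
      exact hP.fin x b y y' hb h1.symm h2
  · intro y x x' h
    rw [Prod.mk.injEq] at h
    exact hP.inj y h.1

theorem exists_plane_array (q : ℕ) (hq : IsPrimePow q) (h2 : 2 < q) :
    ∃ T : Fin (q + 1) → Fin (q ^ 2) → Fin (q * (q + 1)), IsTripleArray T := by
  classical
  obtain ⟨p, n, hp, hn, rfl⟩ := hq
  have hp' : p.Prime := hp.nat_prime
  have : Fact p.Prime := ⟨hp'⟩
  have hft : Fintype (GaloisField p n) := Fintype.ofFinite _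
  have hcard : Fintype.card (GaloisField p n) = p ^ n := by
    rw [← Nat.card_eq_fintype_card]
    exact GaloisField.card p n hn.ne'
  obtain ⟨P, hP⟩ := (pl_all (GaloisField p n)
    (by rw [Nat.card_eq_fintype_card, hcard]; exact h2)).toP
  have eI : Fin (p ^ n + 1) ≃ Option (GaloisField p n) := Fintype.equivOfCardEq (by
    rw [Fintype.card_fin, Fintype.card_option, hcard])
  have eJ : Fin ((p ^ n) ^ 2) ≃ GaloisField p n × GaloisField p n := Fintype.equivOfCardEq (by
    rw [Fintype.card_fin, Fintype.card_prod, hcard, sq])
  have eV : Option (GaloisField p n) × GaloisField p n ≃ Fin (p ^ n * (p ^ n + 1)) :=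
    Fintype.equivOfCardEq (by
      rw [Fintype.card_fin, Fintype.card_prod, Fintype.card_option, hcard, mul_comm])
  exact ⟨_, (plane_array hP).transport eI eJ eV⟩

end Pool.Agent.H809_TA
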