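import Pool.Agent.H809_TA.FourTab

/-!
The affine plane of order four.
-/

set_option autoImplicit false

namespace Pool.Agent.H809_TA

open Function Finset

theorem pl_array_four {I J V : Type} [Fintype I] {cl : I → J → V} (h : IsPl cl)
    (hJ : Nonempty J) (hne : ∀ i j k, ∃ j', j' ≠ j ∧ j' ≠ k ∧ cl i j' = cl i j)
    (hI : Fintype.card I = 5) :
    ∃ T : I → J → I, (∀ c j, T c j ≠ c) ∧ (∀ j, Injective (fun c => T c j)) ∧
      ∀ c j j', T c j = T c j' → cl (T c j) j = cl (T c j) j' → j = j' := by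
  classical
  obtain ⟨inj, meet, join⟩ := h
  have : Nontrivial I := Fintype.one_lt_card_iff_nontrivial.1 (by omega)
  obtain ⟨i0, i1, h01⟩ := exists_pair_ne I
  obtain ⟨O⟩ := hJ
  -- a point off the vertical line of `O`
  obtain ⟨Q1, hQ1O, _, hQ1⟩ := hne i1 O O
  have hQ1v : cl i0 Q1 ≠ cl i0 O := fun h => hQ1O (inj i0 i1 Q1 O h01 h hQ1)
  -- projections to the vertical line of `O`
  have hpr : ∀ i j, ∃ p, i ≠ i0 → cl i0 p = cl i0 O ∧ cl i p = cl i j := by
    intro i j
    by_cases hi : i = i0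
    · exact ⟨O, fun h => absurd hi h⟩
    · obtain ⟨p, h1, h2⟩ := meet i0 i O j (Ne.symm hi)
      exact ⟨p, fun _ => ⟨h1, h2⟩⟩
  choose pr hpr using hpr
  have pru : ∀ i j p, i ≠ i0 → cl i0 p = cl i0 O → cl i p = cl i j → pr i j = p := by
    intro i j p hi hp hp'
    obtain ⟨a, b⟩ := hpr i j hi
    exact inj i i0 _ _ hi (b.trans hp'.symm) (a.trans hp.symm)
  -- labels of the classes
  obtain ⟨E0⟩ : Nonempty (I ≃ Fin 5) := ⟨Fintype.equivOfCardEq (by rw [hI, Fintype.card_fin])⟩
  let E : I ≃ Fin 5 := E0.trans (Equiv.swap (E0 i0) 4)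
  have Ei0 : E i0 = 4 := by simp [E]
  have Ene : ∀ i, i ≠ i0 → E i ≠ 4 := fun i hi h => hi (E.injective (h.trans Ei0.symm))
  let e : I → Fin 4 := fun i => if h : i = i0 then 0 else (E i).castPred (fun h' => Ene i h h')
  have he : ∀ i, i ≠ i0 → (e i).castSucc = E i := by
    intro i hi
    simp only [e]
    rw [dif_neg hi, Fin.castSucc_castPred]
  let cf : Fin 4 → I := fun k => E.symm k.castSucc
  have hcf0 : ∀ k, cf k ≠ i0 := by
    intro k h
    have h1 : k.castSucc = E i0 := by rw [← h, Equiv.apply_symm_apply]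
    rw [Ei0] at h1
    exact absurd h1 (Fin.castSucc_lt_last k).ne
  have hcfe : ∀ k, e (cf k) = k := by
    intro k
    apply Fin.castSucc_injective
    rw [he _ (hcf0 k)]
    exact Equiv.apply_symm_apply _ _
  have hecf : ∀ i, i ≠ i0 → cf (e i) = i := by
    intro i hi
    show E.symm (e i).castSucc = i
    rw [he i hi, Equiv.symm_apply_apply]
  -- labels of the points of the vertical line of `O`
  choose jn hjn using fun p => join p Q1
  have jn0 : ∀ p, cl i0 p = cl i0 O → jn p ≠ i0 := by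
    intro p hp h
    have := hjn p
    rw [h, hp] at this
    exact hQ1v this.symm
  have jnu : ∀ p i, cl i0 p = cl i0 O → cl i p = cl i Q1 → i = jn p := by
    intro p i hp hi
    by_contra hc
    have := inj i (jn p) p Q1 hc hi (hjn p)
    rw [this] at hp
    exact hQ1v hp
  let lam : J → Fin 4 := fun p => e (jn p)
  have lami : ∀ p p', cl i0 p = cl i0 O → cl i0 p' = cl i0 O → lam p = lam p' → p = p' := by
    intro p p' hp hp' h
    have h1 : jn p = jn p' := by rw [← hecf _ (jn0 p hp), ← hecf _ (jn0 p' hp')]; exact congrArg cf h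
    refine inj (jn p) i0 p p' (jn0 p hp) ?_ (hp.trans hp'.symm)
    rw [hjn p, h1, hjn p']
  have prV : ∀ i j, i ≠ i0 → cl i0 (pr i j) = cl i0 O := fun i j hi => (hpr i j hi).1
  -- the permutation of a point off the vertical line of `O`
  have hφi : ∀ j, cl i0 j ≠ cl i0 O → Injective fun k => lam (pr (cf k) j) := by
    intro j hj k k' h
    have h1 := lami _ _ (prV _ j (hcf0 k)) (prV _ j (hcf0 k')) h
    obtain ⟨a, b⟩ := hpr (cf k) j (hcf0 k)
    obtain ⟨a', b'⟩ := hpr (cf k') j (hcf0 k')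
    by_contra hc
    have hc' : cf k ≠ cf k' := fun h' => hc (by rw [← hcfe k, h', hcfe])
    rw [← h1] at b'
    have h2 := inj (cf k) (cf k') _ _ hc' b b'
    rw [h2] at a
    exact hj a
  have hφ : ∀ j, ∃ φ : Equiv.Perm (Fin 4), cl i0 j ≠ cl i0 O → ∀ k, φ k = lam (pr (cf k) j) := by
    intro j
    by_cases hj : cl i0 j = cl i0 O
    · exact ⟨1, fun h => absurd hj h⟩
    · exact ⟨Equiv.ofBijective _ (Finite.injective_iff_bijective.1 (hφi j hj)), fun _ k => rfl⟩
  choose φ hφ using hφ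
  have φ1 : ∀ j j' i, cl i0 j ≠ cl i0 O → cl i0 j' ≠ cl i0 O → i ≠ i0 →
      (cl i j = cl i j' ↔ φ j (e i) = φ j' (e i)) := by
    intro j j' i hj hj' hi
    rw [hφ j hj, hφ j' hj', hecf i hi]
    obtain ⟨a, b⟩ := hpr i j hi
    obtain ⟨a', b'⟩ := hpr i j' hi
    constructor
    · intro h
      rw [pru i j (pr i j') hi a' (b'.trans h.symm)]
    · intro h
      have h1 := lami _ _ a a' h
      rw [← b, h1, b']
  have φ2 : ∀ j p i, cl i0 j ≠ cl i0 O → cl i0 p = cl i0 O → i ≠ i0 →
      (cl i j = cl i p ↔ φ j (e i) = lam p) := by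
    intro j p i hj hp hi
    rw [hφ j hj, hecf i hi]
    obtain ⟨a, b⟩ := hpr i j hi
    constructor
    · intro h
      rw [pru i j p hi hp h.symm]
    · intro h
      rw [← b, lami _ _ a hp h]
  have φQ1 : φ Q1 = 1 := by
    ext k
    rw [hφ Q1 hQ1v]
    have h1 : jn (pr (cf k) Q1) = cf k :=
      (jnu _ _ (prV _ _ (hcf0 k)) (hpr (cf k) Q1 (hcf0 k)).2).symm
    simp only [lam, h1, hcfe]
    rfl
  -- points on different vertical lines agree exactly once
  have φ3 : ∀ j j', cl i0 j ≠ cl i0 O → cl i0 j' ≠ cl i0 O → cl i0 j ≠ cl i0 j' →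
      (univ.filter fun k : Fin 4 => φ j k = φ j' k).card = 1 := by
    intro j j' hj hj' hjj
    obtain ⟨i, hi⟩ := join j j'
    have hi0 : i ≠ i0 := fun h => hjj (h ▸ hi)
    rw [card_eq_one]
    refine ⟨e i, ?_⟩
    ext k
    rw [mem_filter, mem_singleton]
    constructor
    · rintro ⟨_, hk⟩
      rw [← hcfe k, ← φ1 j j' (cf k) hj hj' (hcf0 k)] at hk
      by_contra hc
      apply hjj
      rw [inj i (cf k) j j' (fun h' => hc (by rw [h', hcfe])) hi hk]
    · rintro rfl
      exact ⟨mem_univ _, (φ1 j j' i hj hj' hi0).1 hi⟩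
  have ok1 : ∀ j, cl i0 j ≠ cl i0 O → cl i0 j ≠ cl i0 Q1 → okP (φ j) = true := by
    intro j hj hjQ
    apply four9
    have h1 := φ3 j Q1 hj hQ1v hjQ
    rw [φQ1] at h1
    exact h1
  have ok : ∀ j, cl i0 j ≠ cl i0 O → okP (φ j) = true := by
    intro j hj
    by_cases hjQ : cl i0 j = cl i0 Q1
    · obtain ⟨Q', h1, h2, h3⟩ := hne i1 Q1 (pr i1 Q1)
      obtain ⟨a, b⟩ := hpr i1 Q1 (Ne.symm h01)
      have h4 : cl i0 Q' ≠ cl i0 O := fun h =>
        h2 (inj i1 i0 _ _ (Ne.symm h01) (h3.trans b.symm) (h.trans a.symm))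
      have h5 : cl i0 Q' ≠ cl i0 Q1 := fun h => h1 (inj i1 i0 _ _ (Ne.symm h01) h3 h)
      exact four10 (φ Q') (ok1 Q' h4 h5) (φ j) (φ3 j Q' hj h4 fun h => h5 (h.symm.trans hjQ))
    · exact ok1 j hj hjQ
  -- the colours
  let G : J → Fin 5 → Fin 5 := fun j c =>
    if cl i0 j = cl i0 O then dig5 (tabK (lam j)) c else dig5 (tabP (pcode (φ j))) c
  have G1 : ∀ j c, cl i0 j = cl i0 O → G j c = dig5 (tabK (lam j)) c := fun j c h => if_pos h
  have G2 : ∀ j c, cl i0 j ≠ cl i0 O → G j c = dig5 (tabP (pcode (φ j))) c := fun j c h =>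
    if_neg h
  have Gi : ∀ j, Injective (G j) := by
    intro j c c' h
    by_cases hj : cl i0 j = cl i0 O
    · rw [G1 j _ hj, G1 j _ hj] at h
      exact four4 _ _ _ h
    · rw [G2 j _ hj, G2 j _ hj] at h
      exact four2 _ (ok j hj) _ _ h
  have Gn : ∀ j c, G j c ≠ c := by
    intro j c
    by_cases hj : cl i0 j = cl i0 O
    · rw [G1 j _ hj]
      exact four3 _ _
    · rw [G2 j _ hj]
      exact four1 _ (ok j hj) _
  have Gb : ∀ j, Bijective (G j) := fun j => Finite.injective_iff_bijective.1 (Gi j)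
  have Gl : ∀ i j j', j ≠ j' → cl i j = cl i j' → G j (E i) ≠ G j' (E i) := by
    intro i j j' hjj hl
    by_cases hi : i = i0
    · rw [hi, Ei0]
      rw [hi] at hl
      by_cases hj : cl i0 j = cl i0 O
      · have hj' : cl i0 j' = cl i0 O := hl ▸ hj
        rw [G1 j _ hj, G1 j' _ hj']
        exact four8 _ _ fun h => hjj (lami _ _ hj hj' h)
      · have hj' : cl i0 j' ≠ cl i0 O := hl ▸ hj
        rw [G2 j _ hj, G2 j' _ hj']
        apply four6 _ (ok j hj) _ (ok j' hj')
        intro k hk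
        rw [← hcfe k, ← φ1 j j' (cf k) hj hj' (hcf0 k)] at hk
        exact hjj (inj i0 (cf k) j j' (Ne.symm (hcf0 k)) hl hk)
    · rw [← he i hi]
      by_cases hj : cl i0 j = cl i0 O <;> by_cases hj' : cl i0 j' = cl i0 O
      · exact absurd (inj i i0 j j' hi hl (hj.trans hj'.symm)) hjj
      · rw [G1 j _ hj, G2 j' _ hj', ← (φ2 j' j i hj' hj hi).1 hl.symm]
        exact (four7 _ (ok j' hj') _).symm
      · rw [G2 j _ hj, G1 j' _ hj', ← (φ2 j j' i hj hj' hi).1 hl]
        exact four7 _ (ok j hj) _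
      · rw [G2 j _ hj, G2 j' _ hj']
        apply four5 _ (ok j hj) _ (ok j' hj')
        · intro hpp
          have h1 : ∀ i', i' ≠ i0 → cl i' j = cl i' j' := by
            intro i' hi'
            rw [φ1 j j' i' hj hj' hi', hpp]
          obtain ⟨k, hk⟩ : ∃ k, cf k ≠ i := by
            by_cases h0 : cf 0 = i
            · refine ⟨1, fun h1 => ?_⟩
              have h2 : (0 : Fin 4) = 1 := by rw [← hcfe 0, h0, ← h1, hcfe]
              exact absurd h2 (by decide)
            · exact ⟨0, h0⟩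
          exact hjj (inj (cf k) i j j' hk (h1 _ (hcf0 k)) hl)
        · exact (φ1 j j' i hj hj' hi).1 hl
  choose S hS using fun (c : I) (j : J) => (Gb j).2 (E c)
  refine ⟨fun c j => E.symm (S c j), ?_, ?_, ?_⟩
  · intro c j h
    rw [Equiv.symm_apply_eq] at h
    have h1 := hS c j
    rw [h] at h1
    exact Gn j _ h1
  · intro j c c' h
    have h1 : S c j = S c' j := E.symm.injective h
    apply E.injective
    rw [← hS c j, ← hS c' j, h1]
  · intro c j j' h h'
    by_contra hjj
    have h1 : S c j = S c j' := E.symm.injective h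
    apply Gl _ j j' hjj h'
    rw [Equiv.apply_symm_apply, hS c j, h1, hS c j']

theorem hasArr_four {I J V : Type} [Fintype I] [Fintype J] [Fintype V] [DecidableEq V]
    {R : I → Finset V} {C : J → Finset V} (hU : IsUTA R C 4)
    (hext : Fintype.card V + 1 = Fintype.card I + Fintype.card J)
    (hI : Fintype.card I = 5) : HasArr R C := by
  classical
  obtain ⟨line, hl⟩ := exists_isLine hU hext hI
  have hJ : Nonempty J := by
    by_contra hc
    rw [not_nonempty_iff] at hc
    have h1 : Fintype.card J = 0 := Fintype.card_eq_zero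
    have : Nonempty V := by
      rw [← Fintype.card_pos_iff]
      omega
    have h4 := hU.repC (Classical.arbitrary V)
    rw [univ_eq_empty, filter_empty, card_empty] at h4
    omega
  obtain ⟨T, h1, h2, h3⟩ := pl_array_four hl.pl hJ (by
    intro i j k
    have h1 : (univ.filter fun j' => line i j ∈ C j').card = 4 := hU.repC (line i j)
    obtain ⟨j', hj', hne⟩ : ∃ j' ∈ univ.filter fun j' => line i j ∈ C j',
        j' ∉ ({j, k} : Finset J) := by
      by_contra hcon
      push Not at hcon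
      have h2 : (univ.filter fun j' => line i j ∈ C j') ⊆ {j, k} := hcon
      have h3 := card_le_card h2
      have h4 := card_le_two (a := j) (b := k)
      omega
    simp only [mem_insert, mem_singleton, not_or] at hne
    exact ⟨j', hne.1, hne.2, (hl.uniq i j' _ (mem_filter.1 hj').2 (hl.nmem i j)).symm⟩) hI
  exact hasArr_of_assign hl h1 h2 h3

end Pool.Agent.H809_TA
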