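import Pool.Agent.H809_TA.PlaneUTA

/-!
There is no unordered triple array of an affine plane of order six.
-/

set_option autoImplicit false

namespace Pool.Agent.H809_TA

open Function Finset

/-- a square system of affine functions has a point at which every function agrees up to sign
with a coordinate -/
theorem exists_signs : ∀ (n : ℕ) (m : Fin n → Fin n → ℚ) (c : Fin n → ℚ),
    ∃ y : Fin n → ℚ, ∀ i, (c i + ∑ j, m i j * y j) ^ 2 = y i ^ 2 := by
  intro n
  induction n with
  | zero => exact fun m c => ⟨0, fun i => i.elim0⟩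
  | succ n ih =>
    intro m c
    -- the last coordinate as an affine function of the others
    obtain ⟨a, g, ha⟩ : ∃ (a : Fin n → ℚ) (g : ℚ), ∀ y : Fin n → ℚ,
        (c (Fin.last n) + ∑ j, m (Fin.last n) (Fin.castSucc j) * y j
          + m (Fin.last n) (Fin.last n) * (g + ∑ j, a j * y j)) ^ 2
          = (g + ∑ j, a j * y j) ^ 2 := by
      by_cases hb : m (Fin.last n) (Fin.last n) = 1
      · refine ⟨fun j => - m (Fin.last n) (Fin.castSucc j) / 2, - c (Fin.last n) / 2, ?_⟩
        intro y
        have h1 : ∑ j, - m (Fin.last n) (Fin.castSucc j) / 2 * y j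
            = - (∑ j, m (Fin.last n) (Fin.castSucc j) * y j) / 2 := by
          rw [← sum_neg_distrib, sum_div]
          exact sum_congr rfl fun j _ => by ring
        rw [h1, hb]
        ring
      · have hb' : 1 - m (Fin.last n) (Fin.last n) ≠ 0 := fun h => hb (by linarith)
        refine ⟨fun j => m (Fin.last n) (Fin.castSucc j) / (1 - m (Fin.last n) (Fin.last n)),
          c (Fin.last n) / (1 - m (Fin.last n) (Fin.last n)), ?_⟩
        intro y
        have h1 : ∑ j, m (Fin.last n) (Fin.castSucc j) / (1 - m (Fin.last n) (Fin.last n)) * y j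
            = (∑ j, m (Fin.last n) (Fin.castSucc j) * y j)
              / (1 - m (Fin.last n) (Fin.last n)) := by
          rw [sum_div]
          exact sum_congr rfl fun j _ => by ring
        rw [h1]
        congr 1
        field_simp
        ring
    obtain ⟨y, hy⟩ := ih (fun i j => m (Fin.castSucc i) (Fin.castSucc j)
      + m (Fin.castSucc i) (Fin.last n) * a j)
      (fun i => c (Fin.castSucc i) + m (Fin.castSucc i) (Fin.last n) * g)
    refine ⟨Fin.snoc y (g + ∑ j, a j * y j), ?_⟩
    intro i
    rw [Fin.sum_univ_castSucc]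
    simp only [Fin.snoc_castSucc, Fin.snoc_last]
    refine Fin.lastCases ?_ (fun i => ?_) i
    · rw [Fin.snoc_last, ← ha y]
      ring
    · rw [Fin.snoc_castSucc, ← hy i]
      congr 1
      have h1 : ∑ j, (m (Fin.castSucc i) (Fin.castSucc j)
          + m (Fin.castSucc i) (Fin.last n) * a j) * y j
          = ∑ j, m (Fin.castSucc i) (Fin.castSucc j) * y j
            + m (Fin.castSucc i) (Fin.last n) * ∑ j, a j * y j := by
        rw [mul_sum, ← sum_add_distrib]
        exact sum_congr rfl fun j _ => by ring
      rw [h1]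
      ring

theorem exists_signs' {P : Type} [Fintype P] (f : P → ((Option P) → ℚ) →ₗ[ℚ] ℚ) :
    ∃ y : Option P → ℚ, y none = 1 ∧ ∀ b, (f b y) ^ 2 = y (some b) ^ 2 := by
  classical
  let e : P ≃ Fin (Fintype.card P) := Fintype.equivFin P
  obtain ⟨z, hz⟩ := exists_signs (Fintype.card P)
    (fun i j => f (e.symm i) (fun o => if o = some (e.symm j) then 1 else 0))
    (fun i => f (e.symm i) (fun o => if o = none then 1 else 0))
  let y : Option P → ℚ := fun o => match o with
    | none => 1
    | some p => z (e p)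
  refine ⟨y, rfl, ?_⟩
  intro b
  have h1 := hz (e b)
  rw [Equiv.symm_apply_apply] at h1
  have h2 : y (some b) = z (e b) := rfl
  rw [h2, ← h1]
  congr 1
  have h3 : y = (fun o => if o = none then (1 : ℚ) else 0)
      + ∑ j, z j • (fun o => if o = some (e.symm j) then (1 : ℚ) else 0) := by
    funext o
    rw [Pi.add_apply, Finset.sum_apply]
    rcases o with _ | p
    · simp [y]
    · simp only [Pi.smul_apply, smul_eq_mul, reduceCtorEq, if_false, zero_add,
        Option.some.injEq, mul_ite, mul_one, mul_zero]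
      rw [Finset.sum_eq_single (e p)]
      · simp [y]
      · intro j _ hj
        rw [if_neg]
        intro h
        exact hj (by rw [h, Equiv.apply_symm_apply])
      · intro h
        exact absurd (mem_univ _) h
  conv_lhs => rw [h3]
  rw [map_add, map_sum]
  congr 1
  refine sum_congr rfl fun j _ => ?_
  rw [map_smul, smul_eq_mul, mul_comm]

theorem no_six_rat (X W : ℚ) (h : 6 * X ^ 2 = 1 + W ^ 2) : False := by
  -- clear denominators
  have h1 : ∃ a b c : ℤ, c ≠ 0 ∧ 6 * b ^ 2 = c ^ 2 + a ^ 2 := by
    refine ⟨W.num * X.den, X.num * W.den, X.den * W.den, ?_, ?_⟩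
    · have := X.den_nz
      have := W.den_nz
      positivity
    · have e1 : X = X.num / X.den := (Rat.num_div_den X).symm
      have e2 : W = W.num / W.den := (Rat.num_div_den W).symm
      have hx : (X.den : ℚ) ≠ 0 := by exact_mod_cast X.den_nz
      have hw : (W.den : ℚ) ≠ 0 := by exact_mod_cast W.den_nz
      have h2 : (6 * (X.num * W.den) ^ 2 : ℚ) = (X.den * W.den) ^ 2 + (W.num * X.den) ^ 2 := by
        have e3 : (X.num : ℚ) = X * X.den := by
          rw [Rat.mul_den_eq_num]
        have e4 : (W.num : ℚ) = W * W.den := by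
          rw [Rat.mul_den_eq_num]
        rw [e3, e4]
        linear_combination (X.den : ℚ) ^ 2 * (W.den : ℚ) ^ 2 * h
      exact_mod_cast h2
  obtain ⟨a, b, c, hc, h2⟩ := h1
  have h3 : 6 * b.natAbs ^ 2 = c.natAbs ^ 2 + a.natAbs ^ 2 := by
    zify
    rw [sq_abs, sq_abs, sq_abs]
    exact h2
  have hb : b.natAbs ≠ 0 := by
    intro hb
    rw [hb] at h3
    have h4 : c.natAbs ^ 2 = 0 := by
      have : 6 * 0 ^ 2 = 0 := rfl
      omega
    exact hc (Int.natAbs_eq_zero.1 (by simpa using h4))
  have h4 := Nat.eq_sq_add_sq_iff.1 ⟨c.natAbs, a.natAbs, h3⟩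
  have hfact : Fact (Nat.Prime 3) := ⟨Nat.prime_three⟩
  have h5 : 3 ∈ (6 * b.natAbs ^ 2).primeFactors := by
    rw [Nat.mem_primeFactors]
    refine ⟨Nat.prime_three, Dvd.dvd.mul_right (by decide) _, by positivity⟩
  have h6 := h4 3 h5 rfl
  rw [padicValNat.mul (by decide) (by positivity), padicValNat.pow] at h6
  have h7 : padicValNat 3 6 = 1 := by
    have : (6 : ℕ) = 3 * 2 := rfl
    rw [this, padicValNat.mul (by decide) (by decide), padicValNat.self (by decide),
      padicValNat.eq_zero_of_not_dvd (by decide)]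
  rw [h7] at h6
  rcases h6 with ⟨k, hk⟩
  omega

/-- the theorem of Bruck and Ryser for projective planes of order six -/
theorem no_six_matrix {P : Type} [Fintype P] [DecidableEq P] (hP : Fintype.card P = 43)
    (A : Matrix P P ℚ) (hA : ∀ p p', ∑ b, A p b * A p' b = (if p = p' then 6 else 0) + 1) :
    False := by
  obtain ⟨σ⟩ : Nonempty (Option P ≃ Fin 11 × Fin 4) := ⟨Fintype.equivOfCardEq (by
    rw [Fintype.card_option, hP]
    rfl)⟩
  let H : Matrix (Fin 4) (Fin 4) ℚ := !![2, 1, 1, 0; 1, -2, 0, 1; 1, 0, -2, -1; 0, 1, -1, 2]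
  -- the substitution
  let x : ((Option P) → ℚ) →ₗ[ℚ] (Option P → ℚ) :=
    { toFun := fun y o => (1 / 6) * ∑ j, H j (σ o).2 * y (σ.symm ((σ o).1, j))
      map_add' := by
        intro y y'
        funext o
        simp only [Pi.add_apply, mul_add, sum_add_distrib]
      map_smul' := by
        intro r y
        funext o
        simp only [Pi.smul_apply, smul_eq_mul, RingHom.id_apply, mul_sum]
        exact sum_congr rfl fun j _ => by ring }
  have hx : ∀ y, 6 * ∑ o, (x y o) ^ 2 = ∑ o, y o ^ 2 := by
    intro y
    rw [← Equiv.sum_comp σ.symm (fun o => (x y o) ^ 2), ← Equiv.sum_comp σ.symm (fun o => y o ^ 2),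
      Fintype.sum_prod_type, Fintype.sum_prod_type, mul_sum]
    refine sum_congr rfl fun k _ => ?_
    have e : ∀ i, x y (σ.symm (k, i)) = (1 / 6) * ∑ j, H j i * y (σ.symm (k, j)) := by
      intro i
      show (1 / 6) * ∑ j, H j (σ (σ.symm (k, i))).2 * y (σ.symm ((σ (σ.symm (k, i))).1, j)) = _
      rw [Equiv.apply_symm_apply]
    simp only [e, Fin.sum_univ_four]
    simp [H]
    ring
  -- the blocks
  let L : P → ((Option P) → ℚ) →ₗ[ℚ] ℚ := fun b =>
    { toFun := fun y => ∑ p, A p b * x y (some p)
      map_add' := by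
        intro y y'
        simp only [map_add, Pi.add_apply, mul_add, sum_add_distrib]
      map_smul' := by
        intro r y
        simp only [map_smul, Pi.smul_apply, smul_eq_mul, RingHom.id_apply, mul_sum]
        exact sum_congr rfl fun j _ => by ring }
  have hL : ∀ y, ∑ b, (L b y) ^ 2 = 6 * ∑ p, (x y (some p)) ^ 2 + (∑ p, x y (some p)) ^ 2 := by
    intro y
    have e1 : ∀ b, (L b y) ^ 2 = ∑ p, ∑ p', (A p b * A p' b) * (x y (some p) * x y (some p')) := by
      intro b
      show (∑ p, A p b * x y (some p)) ^ 2 = _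
      rw [sq, sum_mul_sum]
      exact sum_congr rfl fun p _ => sum_congr rfl fun p' _ => by ring
    rw [sum_congr rfl fun b _ => e1 b, sum_comm]
    have e2 : ∀ p, ∑ b, ∑ p', (A p b * A p' b) * (x y (some p) * x y (some p'))
        = 6 * (x y (some p)) ^ 2 + x y (some p) * ∑ p', x y (some p') := by
      intro p
      rw [sum_comm]
      have e3 : ∀ p', ∑ b, (A p b * A p' b) * (x y (some p) * x y (some p'))
          = (if p = p' then 6 else 0) * (x y (some p) * x y (some p'))
            + x y (some p) * x y (some p') := by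
        intro p'
        rw [← sum_mul, hA]
        ring
      rw [sum_congr rfl fun p' _ => e3 p', sum_add_distrib, ← mul_sum]
      congr 1
      rw [sum_eq_single p]
      · rw [if_pos rfl]
        ring
      · intro p' _ hp'
        rw [if_neg (Ne.symm hp'), zero_mul]
      · intro h
        exact absurd (mem_univ _) h
    rw [sum_congr rfl fun p _ => e2 p, sum_add_distrib, ← mul_sum, ← sum_mul, sq (∑ p, x y (some p))]
  obtain ⟨y, hy, hy'⟩ := exists_signs' L
  have h1 := hx y
  have h2 := hL y
  rw [Fintype.sum_option, Fintype.sum_option, hy] at h1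
  rw [sum_congr rfl fun b _ => hy' b] at h2
  apply no_six_rat (x y none) (∑ p, x y (some p))
  linear_combination h1 + h2

theorem no_six {I J V : Type} [Fintype I] [Fintype J] [Fintype V] [DecidableEq V]
    {R : I → Finset V} {C : J → Finset V} (hU : IsUTA R C 6)
    (hext : Fintype.card V + 1 = Fintype.card I + Fintype.card J)
    (hI : Fintype.card I = 7) : False := by
  classical
  have hP1 := uta_P1 hU
  have hP2 : 7 * Fintype.card J = Fintype.card V * 6 := by
    rw [hI] at hP1
    exact_mod_cast hP1
  have hJ : Fintype.card J = 36 := by omega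
  have hV : Fintype.card V = 42 := by omega
  obtain ⟨σ⟩ : Nonempty (I ⊕ J ≃ Option V) := ⟨Fintype.equivOfCardEq (by
    rw [Fintype.card_sum, Fintype.card_option]
    omega)⟩
  refine no_six_matrix (P := I ⊕ J) (by rw [Fintype.card_sum]; omega)
    (Matrix.of fun x y => incF R C x (σ y)) ?_
  intro x x'
  have hsum : ∀ F : Option V → ℚ, ∑ y : I ⊕ J, F (σ y) = F none + ∑ s, F (some s) := by
    intro F
    rw [Equiv.sum_comp σ F, Fintype.sum_option]
  show ∑ y : I ⊕ J, incF R C x (σ y) * incF R C x' (σ y) = _
  rw [hsum (fun B => incF R C x B * incF R C x' B)]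
  have hI' : (Fintype.card I : ℚ) = 7 := by exact_mod_cast hI
  have hJ' : (Fintype.card J : ℚ) = 36 := by exact_mod_cast hJ
  have hV' : (Fintype.card V : ℚ) = 42 := by exact_mod_cast hV
  rcases x with i | j <;> rcases x' with i' | j'
  · show (1 : ℚ) * 1 + ∑ s, (1 - ind (R i) s) * (1 - ind (R i') s) = _
    have e3 : ∑ s, (1 - ind (R i) s) * (1 - ind (R i') s)
        = 42 - 36 - 36 + ∑ s, ind (R i) s * ind (R i') s := by
      have : ∀ s, (1 - ind (R i) s) * (1 - ind (R i') s)
          = 1 - ind (R i) s - ind (R i') s + ind (R i) s * ind (R i') s := by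
        intro s; ring
      rw [Finset.sum_congr rfl fun s _ => this s, Finset.sum_add_distrib, Finset.sum_sub_distrib,
        Finset.sum_sub_distrib, sum_ind, sum_ind, hU.cardR, hU.cardR, Finset.sum_const,
        Finset.card_univ, nsmul_eq_mul, mul_one, hV', hJ']
    rw [e3]
    by_cases hii : i = i'
    · subst hii
      rw [Finset.sum_congr rfl fun s _ => ind_mul_self _ s, sum_ind, hU.cardR, if_pos rfl, hJ']
      norm_num
    · rw [sum_ind_mul, uta_rr hU hext i i' hii, if_neg (fun h => hii (Sum.inl_injective h)), hJ']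
      norm_num
  · show (1 : ℚ) * 0 + ∑ s, (1 - ind (R i) s) * ind (C j') s = _
    have : ∀ s, (1 - ind (R i) s) * ind (C j') s
        = ind (C j') s - ind (R i) s * ind (C j') s := by
      intro s; ring
    rw [Finset.sum_congr rfl fun s _ => this s, Finset.sum_sub_distrib, sum_ind, sum_ind_mul,
      uta_rc hU, hU.cardC, if_neg (by simp), hI']
    norm_num
  · show (0 : ℚ) * 1 + ∑ s, ind (C j) s * (1 - ind (R i') s) = _
    have : ∀ s, ind (C j) s * (1 - ind (R i') s)
        = ind (C j) s - ind (R i') s * ind (C j) s := by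
      intro s; ring
    rw [Finset.sum_congr rfl fun s _ => this s, Finset.sum_sub_distrib, sum_ind, sum_ind_mul,
      uta_rc hU, hU.cardC, if_neg (by simp), hI']
    norm_num
  · show (0 : ℚ) * 0 + ∑ s, ind (C j) s * ind (C j') s = _
    by_cases hjj : j = j'
    · subst hjj
      rw [Finset.sum_congr rfl fun s _ => ind_mul_self _ s, sum_ind, hU.cardC, if_pos rfl, hI']
      norm_num
    · rw [sum_ind_mul, uta_cc hU hext j j' hjj, if_neg (fun h => hjj (Sum.inr_injective h)), hI']
      norm_num

end Pool.Agent.H809_TA
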