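import Pool.Agent.H809_TA.PlaneThree
import Pool.Agent.H809_TA.PlaneFour
import Pool.Agent.H809_TA.PlaneSix

/-!
The unordered triple array of every affine plane of order greater than two can be ordered.
-/

set_option autoImplicit false

namespace Pool.Agent.H809_TA

theorem hasArr_of_plane {I J V : Type} [Fintype I] [Fintype J] [Fintype V] [DecidableEq V]
    {R : I → Finset V} {C : J → Finset V} {e : ℕ} (hU : IsUTA R C e)
    (hext : Fintype.card V + 1 = Fintype.card I + Fintype.card J)
    (hI : Fintype.card I = e + 1) (he : 2 < e) : HasArr R C := by
  by_cases h3 : e = 3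
  · subst h3
    exact hasArr_three hU hext hI
  · by_cases h4 : e = 4
    · subst h4
      exact hasArr_four hU hext hI
    · by_cases h6 : e = 6
      · subst h6
        exact (no_six hU hext hI).elim
      · exact hasArr_of_ge_five hU hext hI (by omega) h6

end Pool.Agent.H809_TA
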