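import Pool.Agent.H809_TA.PlaneUTA

/-!
The affine plane of order three.
-/

set_option autoImplicit false

namespace Pool.Agent.H809_TA

open Function Finset

theorem hasArr_three {I J V : Type} [Fintype I] [Fintype J] [Fintype V] [DecidableEq V]
    {R : I → Finset V} {C : J → Finset V} (hU : IsUTA R C 3)
    (hext : Fintype.card V + 1 = Fintype.card I + Fintype.card J)
    (hI : Fintype.card I = 4) : HasArr R C := by
  classical
  obtain ⟨line, hl⟩ := exists_isLine hU hext hI
  have : Nontrivial I := Fintype.one_lt_card_iff_nontrivial.1 (by omega)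
  obtain ⟨i0, i1, h01⟩ := exists_pair_ne I
  have hJ : Nonempty J := by
    by_contra hc
    rw [not_nonempty_iff] at hc
    have h1 : Fintype.card J = 0 := Fintype.card_eq_zero
    have : Nonempty V := by
      rw [← Fintype.card_pos_iff]
      omega
    have h4 := hU.repC (Classical.arbitrary V)
    rw [univ_eq_empty, filter_empty, card_empty] at h4
    omega
  obtain ⟨a⟩ := hJ
  -- the three points of a line of the class `i1`
  have h1 := hU.repC (line i1 a)
  have ha : a ∈ univ.filter fun j => line i1 a ∈ C j := mem_filter.2 ⟨mem_univ _, hl.mem _ _⟩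
  have h2 : ((univ.filter fun j => line i1 a ∈ C j).erase a).card = 2 := by
    rw [card_erase_of_mem ha, h1]
  obtain ⟨b, c0, hbc, hS⟩ := card_eq_two.1 h2
  have hb : b ∈ (univ.filter fun j => line i1 a ∈ C j).erase a := by rw [hS]; simp
  have hc : c0 ∈ (univ.filter fun j => line i1 a ∈ C j).erase a := by rw [hS]; simp
  rw [mem_erase, mem_filter] at hb hc
  have lb : line i1 b = line i1 a := (hl.uniq i1 b _ hb.2.2 (hl.nmem i1 a)).symm
  have lc : line i1 c0 = line i1 a := (hl.uniq i1 c0 _ hc.2.2 (hl.nmem i1 a)).symm
  obtain ⟨c, hcc, hcv⟩ := line_ne hU (by omega) hl i0 c0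
  have hv : ∀ x y, line i1 x = line i1 y → line i0 x = line i0 y → x = y :=
    fun x y h h' => hl.pl.inj i0 i1 x y h01 h' h
  have vab : line i0 a ≠ line i0 b := fun h => hb.1 (hv a b lb.symm h).symm
  have vac : line i0 a ≠ line i0 c := fun h => hc.1 (hv a c0 lc.symm (h.trans hcv)).symm
  have vbc : line i0 b ≠ line i0 c := fun h => hbc (hv b c0 (lb.trans lc.symm) (h.trans hcv))
  have lca : line i1 c ≠ line i1 a := fun h => hcc (hv c c0 (h.trans lc.symm) hcv)
  have ab : a ≠ b := fun h => vab (by rw [h])
  have ac : a ≠ c := fun h => vac (by rw [h])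
  have bc : b ≠ c := fun h => vbc (by rw [h])
  -- a common symbol
  have key : ∀ s x y, s ∈ C x → s ∈ C y → ∃ i, s = line i x ∧ s = line i y := by
    intro s x y hx hy
    obtain ⟨i, hi⟩ : ∃ i, s ∉ R i := by
      by_contra hcon
      push Not at hcon
      have h3 := hU.repR s
      have h4 : (univ.filter fun i => s ∈ R i) = univ := by
        ext i
        simp [hcon i]
      rw [h4, card_univ] at h3
      omega
    exact ⟨i, hl.uniq i x s hx hi, hl.uniq i y s hy hi⟩
  refine hasArr_of_oval hU hext hI (by omega) (by decide) i0 {a, b, c} ?_ ?_ ?_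
  · rw [card_insert_of_notMem, card_insert_of_notMem, card_singleton]
    · rw [mem_singleton]
      exact bc
    · simp only [mem_insert, mem_singleton, not_or]
      exact ⟨ab, ac⟩
  · intro s hs x hx y hy hsx hsy
    have h3 := (hl.uniq i0 x s hsx hs).symm.trans (hl.uniq i0 y s hsy hs)
    simp only [mem_insert, mem_singleton] at hx hy
    rcases hx with rfl | rfl | rfl <;> rcases hy with rfl | rfl | rfl <;>
      first | rfl | exact absurd h3 vab | exact absurd h3 vac | exact absurd h3 vbc |
        exact absurd h3.symm vab | exact absurd h3.symm vac | exact absurd h3.symm vbc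
  · -- the three points are not collinear
    have h3 : ∀ s, s ∈ C a → s ∈ C b → s ∈ C c → False := by
      intro s sa sb sc
      obtain ⟨i, h4, h5⟩ := key s a b sa sb
      have h6 : i = i1 := by
        by_contra hi
        exact ab (hl.pl.inj i i1 a b hi (h4.symm.trans h5) lb.symm)
      rw [h6] at h4
      apply lca
      rw [← h4]
      exact (hl.uniq i1 c s sc (h4 ▸ hl.nmem i1 a)).symm
    intro s x hx y hy z hz hsx hsy hsz
    simp only [mem_insert, mem_singleton] at hx hy hz
    rcases hx with rfl | rfl | rfl <;> rcases hy with rfl | rfl | rfl <;>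
      rcases hz with rfl | rfl | rfl <;>
      first
      | (left; rfl)
      | (right; left; rfl)
      | (right; right; rfl)
      | exact (h3 s (by assumption) (by assumption) (by assumption)).elim

end Pool.Agent.H809_TA
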