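import Pool.Agent.H809_TA.PlaneAny
import Pool.Agent.H809_TA.Oval

/-!
The affine plane of an unordered triple array with one more row than its replication number.
-/

set_option autoImplicit false

namespace Pool.Agent.H809_TA

open Function Finset

variable {I J V : Type} [Fintype I] [Fintype J] [Fintype V] [DecidableEq V]
  {R : I → Finset V} {C : J → Finset V} {e : ℕ}

/-- `line i j` is the symbol of column `j` that is missing in row `i` -/
structure IsLine (R : I → Finset V) (C : J → Finset V) (line : I → J → V) : Prop where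
  pl : IsPl line
  mem : ∀ i j, line i j ∈ C j
  nmem : ∀ i j, line i j ∉ R i
  row : ∀ i i' j, i' ≠ i → line i j ∈ R i'
  uniq : ∀ i j s, s ∈ C j → s ∉ R i → s = line i j
  dir : ∀ i i' j j', line i j = line i' j' → i = i'

theorem exists_isLine (hU : IsUTA R C e)
    (hext : Fintype.card V + 1 = Fintype.card I + Fintype.card J)
    (hI : Fintype.card I = e + 1) :
    ∃ line : I → J → V, IsLine R C line := by
  classical
  have hdir : ∀ s, ∃ i, s ∉ R i ∧ ∀ i', s ∉ R i' → i' = i := by
    intro s
    have h1 := hU.repR s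
    have h2 : (univ.filter fun i => s ∉ R i).card = 1 := by
      have := card_filter_add_card_filter_not (s := (univ : Finset I)) (fun i => s ∈ R i)
      rw [card_univ] at this
      omega
    obtain ⟨i, hi⟩ := card_eq_one.1 h2
    have h3 : ∀ i', s ∉ R i' ↔ i' = i := by
      intro i'
      have := congrArg (fun S => i' ∈ S) hi
      simpa using this
    exact ⟨i, (h3 i).2 rfl, fun i' h => (h3 i').1 h⟩
  choose dir dir1 dir2 using hdir
  have hline : ∀ i j, ∃ s, s ∈ C j ∧ s ∉ R i ∧ ∀ s', s' ∈ C j → s' ∉ R i → s' = s := by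
    intro i j
    have h1 := uta_rc hU i j
    have h2 : (C j \ R i).card = 1 := by
      have := card_sdiff_add_card_inter (C j) (R i)
      rw [inter_comm, hU.cardC j] at this
      omega
    obtain ⟨s, hs⟩ := card_eq_one.1 h2
    have h3 : ∀ s', (s' ∈ C j ∧ s' ∉ R i) ↔ s' = s := by
      intro s'
      have := congrArg (fun S => s' ∈ S) hs
      simpa using this
    exact ⟨s, ((h3 s).2 rfl).1, ((h3 s).2 rfl).2, fun s' h h' => (h3 s').1 ⟨h, h'⟩⟩
  choose line line1 line2 line3 using hline
  have hjoin : ∀ j j', j ≠ j' → ∃ s, s ∈ C j ∧ s ∈ C j' ∧ ∀ s', s' ∈ C j → s' ∈ C j' → s' = s := by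
    intro j j' hj
    have h1 := uta_cc hU hext j j' hj
    have h2 : (C j ∩ C j').card = 1 := by
      rw [hI] at h1
      push_cast at h1
      have : ((C j ∩ C j').card : ℚ) = 1 := by rw [h1]; ring
      exact_mod_cast this
    obtain ⟨s, hs⟩ := card_eq_one.1 h2
    have h3 : ∀ s', (s' ∈ C j ∧ s' ∈ C j') ↔ s' = s := by
      intro s'
      have := congrArg (fun S => s' ∈ S) hs
      simpa using this
    exact ⟨s, ((h3 s).2 rfl).1, ((h3 s).2 rfl).2, fun s' h h' => (h3 s').1 ⟨h, h'⟩⟩
  have dline : ∀ i j, dir (line i j) = i := fun i j => (dir2 _ _ (line2 i j)).symm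
  have ldir : ∀ s j, s ∈ C j → line (dir s) j = s := fun s j h =>
    (line3 (dir s) j s h (dir1 s)).symm
  have hmeet : ∀ i i' j j', i ≠ i' → line i j = line i j' → line i' j = line i' j' → j = j' := by
    intro i i' j j' hi h1 h2
    by_contra hj
    obtain ⟨s, _, _, h3⟩ := hjoin j j' hj
    apply hi
    rw [← dline i j, ← dline i' j, h3 _ (line1 i j) (h1 ▸ line1 i j'),
      h3 _ (line1 i' j) (h2 ▸ line1 i' j')]
  refine ⟨line, ⟨hmeet, ?_, ?_⟩, line1, line2, ?_, ?_, ?_⟩
  · -- two lines of different classes meet
    intro i i' a b hi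
    let S : Finset J := univ.filter fun j => line i a ∈ C j
    have hS : S.card = e := hU.repC (line i a)
    have hSl : ∀ j ∈ S, line i j = line i a := by
      intro j hj
      have h := ldir (line i a) j (mem_filter.1 hj).2
      rw [dline] at h
      exact h
    have h1 : S.image (line i') = (R i')ᶜ := by
      apply eq_of_subset_of_card_le
      · intro s hs
        rw [mem_image] at hs
        obtain ⟨j, _, rfl⟩ := hs
        rw [mem_compl]
        exact line2 i' j
      · rw [card_image_of_injOn, hS, card_compl, hU.cardR]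
        · omega
        · intro j hj j' hj' h
          exact hmeet i i' j j' hi ((hSl j hj).trans (hSl j' hj').symm) h
    have h2 : line i' b ∈ (R i')ᶜ := by
      rw [mem_compl]
      exact line2 i' b
    rw [← h1, mem_image] at h2
    obtain ⟨j, hj, hj'⟩ := h2
    exact ⟨j, hSl j hj, hj'⟩
  · intro j j'
    by_cases hj : j = j'
    · have : Nonempty I := by
        rw [← Fintype.card_pos_iff]
        omega
      exact ⟨Classical.arbitrary I, by rw [hj]⟩
    · obtain ⟨s, h1, h2, _⟩ := hjoin j j' hj
      exact ⟨dir s, by rw [ldir s j h1, ldir s j' h2]⟩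
  · intro i i' j h
    by_contra h'
    exact h (by rw [← dline i j]; exact dir2 _ _ h')
  · intro i j s h h'
    exact line3 i j s h h'
  · intro i i' j j' h
    rw [← dline i j, h, dline]

omit [Fintype I] [Fintype J] [Fintype V] [DecidableEq V] in
theorem hasArr_of_assign {line : I → J → V} (h : IsLine R C line) {T : I → J → I}
    (h1 : ∀ c j, T c j ≠ c) (h2 : ∀ j, Injective (fun c => T c j))
    (h3 : ∀ c j j', T c j = T c j' → line (T c j) j = line (T c j) j' → j = j') :
    HasArr R C := by
  refine ⟨fun c j => line (T c j) j, fun c j => h.row _ _ _ (Ne.symm (h1 c j)),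
    fun c j => h.mem _ _, ?_, ?_⟩
  · intro c j j' hjj
    have hjj : line (T c j) j = line (T c j') j' := hjj
    have h4 := h.dir _ _ _ _ hjj
    rw [← h4] at hjj
    exact h3 c j j' h4 hjj
  · intro j c c' hc
    exact h2 j (h.dir _ _ _ _ hc)

omit [Fintype V] in
theorem line_ne (hU : IsUTA R C e) (he : 1 < e) {line : I → J → V} (h : IsLine R C line)
    (i : I) (j : J) : ∃ j', j' ≠ j ∧ line i j' = line i j := by
  classical
  have h1 : 1 < (univ.filter fun j' => line i j ∈ C j').card := by
    rw [hU.repC]
    exact he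
  obtain ⟨j', hj', hne⟩ := exists_mem_ne h1 j
  refine ⟨j', hne, ?_⟩
  exact (h.uniq i j' _ (mem_filter.1 hj').2 (h.nmem i j)).symm

theorem hasArr_of_ge_five (hU : IsUTA R C e)
    (hext : Fintype.card V + 1 = Fintype.card I + Fintype.card J)
    (hI : Fintype.card I = e + 1) (he : 5 ≤ e) (he6 : e ≠ 6) : HasArr R C := by
  obtain ⟨line, hl⟩ := exists_isLine hU hext hI
  have hJ : Nonempty J := by
    have : Nonempty I := by
      rw [← Fintype.card_pos_iff]
      omega
    by_contra hc
    rw [not_nonempty_iff] at hc
    have h1 : Fintype.card J = 0 := Fintype.card_eq_zero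
    have i0 : I := Classical.arbitrary I
    have h2 := hU.cardR i0
    have h3 : Fintype.card V = e := by omega
    have : Nonempty V := by
      rw [← Fintype.card_pos_iff]
      omega
    have h4 := hU.repC (Classical.arbitrary V)
    rw [univ_eq_empty, filter_empty, card_empty] at h4
    omega
  obtain ⟨T, h1, h2, h3⟩ := pl_array hl.pl hJ (fun i j => line_ne hU (by omega) hl i j)
    (by omega) (by omega)
  exact hasArr_of_assign hl h1 h2 h3

end Pool.Agent.H809_TA
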