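import Pool.Agent.H809_TA.Additive

/-!
Orderings of the plane over the fields with 3, 4, 5 and 9 elements, from tables.
-/

set_option autoImplicit false

namespace Pool.Agent.H809_TA

open Function

/-- a digit of the table `N` -/
def dig (N q i a t : ℕ) : ℕ := N / 10 ^ (q * q * i + q * a + t) % 10

def chk (q N : ℕ) (add mul : ℕ → ℕ → ℕ) : Bool :=
  ((List.range q).all fun a => (List.range q).all fun t =>
    Nat.beq (dig N q (a + 1) a t) 0 &&
    (List.range (q + 1)).all fun i =>
      Nat.ble (dig N q i a t) q && !(Nat.beq (dig N q i a t) i) &&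
      (List.range (q + 1)).all fun j => !(Nat.beq (dig N q i a t) (dig N q j a t)) || Nat.beq i j) &&
  ((List.range q).all fun b => (List.range q).all fun s => (List.range q).all fun x =>
    (List.range q).all fun x' =>
      !(Nat.beq (dig N q (b + 1) x (add s (mul b x))) (dig N q (b + 1) x' (add s (mul b x')))) ||
        Nat.beq x x') &&
  ((List.range q).all fun a => (List.range q).all fun t => (List.range q).all fun t' =>
      !(Nat.beq (dig N q 0 a t) (dig N q 0 a t')) || Nat.beq t t')

theorem nbeq (x y : ℕ) : Nat.beq x y = false ↔ x ≠ y := by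
  rw [Bool.eq_false_iff, ne_eq, ne_eq, Nat.beq_eq]

theorem pl_of_table {K : Type} [Field K] (q N : ℕ) (add mul : ℕ → ℕ → ℕ)
    (hc : chk q N add mul = true) (e : ℕ → K)
    (ha : ∀ x < q, ∀ y < q, add x y < q ∧ e (add x y) = e x + e y)
    (hm : ∀ x < q, ∀ y < q, mul x y < q ∧ e (mul x y) = e x * e y)
    (hi : ∀ x < q, ∀ y < q, e x = e y → x = y) (hs : ∀ z : K, ∃ x < q, e x = z) : Pl K := by
  classical
  unfold chk at hc
  simp only [Bool.and_eq_true, List.all_eq_true, List.mem_range, Bool.or_eq_true,
    Bool.not_eq_true', nbeq, Nat.beq_eq, Nat.ble_eq] at hc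
  obtain ⟨⟨hc1, hc2⟩, hc3⟩ := hc
  choose dec hd1 hd2 using hs
  have hde : ∀ x < q, dec (e x) = x := fun x hx => hi _ (hd1 _) _ hx (hd2 _)
  have hdinj : Injective dec := by
    intro y y' h
    rw [← hd2 y, h, hd2]
  let oc : Option K → ℕ := fun o => match o with
    | none => 0
    | some y => dec y + 1
  let od : ℕ → Option K := fun n => match n with
    | 0 => none
    | n + 1 => some (e n)
  have hoc : ∀ o, oc o ≤ q := by
    intro o
    rcases o with _ | y
    · exact Nat.zero_le _
    · exact hd1 y
  have hod : ∀ o, od (oc o) = o := by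
    intro o
    rcases o with _ | y
    · rfl
    · exact congrArg some (hd2 y)
  have hodi : ∀ m ≤ q, ∀ n ≤ q, od m = od n → m = n := by
    intro m hm n hn h
    rcases m with _ | m <;> rcases n with _ | n
    · rfl
    · exact absurd h (by simp [od])
    · exact absurd h (by simp [od])
    · rw [hi m hm n hn (Option.some_injective _ h)]
  let g : Option K → K → K → ℕ := fun p a t => dig N q (oc p) (dec a) (dec t)
  have hg : ∀ p a t, g p a t ≤ q := by
    intro p a t
    have h1 := (hc1 (dec a) (hd1 a) (dec t) (hd1 t)).2 (oc p) (Nat.lt_succ_of_le (hoc p))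
    exact h1.1.1
  have hline : ∀ b s x : K, dec (s + b * x) = add (dec s) (mul (dec b) (dec x)) := by
    intro b s x
    have h1 := hm _ (hd1 b) _ (hd1 x)
    have h2 := ha _ (hd1 s) _ h1.1
    apply hi _ (hd1 _) _ h2.1
    rw [h2.2, h1.2, hd2, hd2, hd2, hd2]
  refine ⟨fun p y => od (g p y.1 y.2), ?_, ?_, ?_, ?_, ?_⟩
  · intro y p p' h
    have h1 := (hc1 (dec y.1) (hd1 _) (dec y.2) (hd1 _)).2 (oc p) (Nat.lt_succ_of_le (hoc p))
    have h2 := h1.2 (oc p') (Nat.lt_succ_of_le (hoc p'))
    have h3 := hodi _ (hg p _ _) _ (hg p' _ _) h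
    rcases h2 with h2 | h2
    · exact absurd h3 h2
    · rw [← hod p, h2, hod]
  · intro p y h
    have h1 := (hc1 (dec y.1) (hd1 _) (dec y.2) (hd1 _)).2 (oc p) (Nat.lt_succ_of_le (hoc p))
    apply h1.1.2
    apply hodi _ (hg p _ _) _ (hoc p)
    rw [hod]
    exact h
  · rintro b ⟨a, t⟩ ⟨a', t'⟩ hl h
    simp only at hl
    obtain ⟨s, rfl⟩ : ∃ s, t = s + b * a := ⟨t - b * a, by ring⟩
    have ht' : t' = s + b * a' := by linear_combination -hl
    subst ht'
    have h3 := hodi _ (hg (some b) _ _) _ (hg (some b) _ _) h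
    have h4 := hc2 (dec b) (hd1 _) (dec s) (hd1 _) (dec a) (hd1 _) (dec a') (hd1 _)
    simp only [g, hline] at h3
    rcases h4 with h4 | h4
    · exact absurd h3 h4
    · rw [hdinj h4]
  · rintro ⟨a, t⟩ ⟨a', t'⟩ hl h
    simp only at hl
    subst hl
    have h3 := hodi _ (hg none _ _) _ (hg none _ _) h
    have h4 := hc3 (dec a) (hd1 _) (dec t) (hd1 _) (dec t') (hd1 _)
    rcases h4 with h4 | h4
    · exact absurd h3 h4
    · rw [hdinj h4]
  · intro a t
    have h1 := (hc1 (dec a) (hd1 _) (dec t) (hd1 _)).1
    show od (dig N q (dec a + 1) (dec a) (dec t)) = none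
    rw [h1]

/-- prime order -/
theorem pl_table_prime {K : Type} [Field K] (p N : ℕ) [Fact p.Prime] (hK : Nat.card K = p)
    (hc : chk p N (fun x y => (x + y) % p) (fun x y => (x * y) % p) = true) : Pl K := by
  have hp0 : 0 < p := (Fact.out : p.Prime).pos
  have hfin : Finite K := Nat.finite_of_card_ne_zero (by rw [hK]; exact hp0.ne')
  have hft : Fintype K := Fintype.ofFinite K
  have hcard : Fintype.card K = p := by rw [← Nat.card_eq_fintype_card, hK]
  have hchar : CharP K p := charP_of_card_eq_prime hcard
  have hmod : ∀ n : ℕ, ((n % p : ℕ) : K) = (n : K) := by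
    intro n
    conv_rhs => rw [← Nat.mod_add_div n p]
    rw [Nat.cast_add, Nat.cast_mul, CharP.cast_eq_zero K p, zero_mul, add_zero]
  have hinj : ∀ x < p, ∀ y < p, ((x : ℕ) : K) = y → x = y := by
    intro x hx y hy h
    exact CharP.natCast_injOn_Iio K p hx hy h
  refine pl_of_table p N _ _ hc (fun n => (n : K)) ?_ ?_ hinj ?_
  · intro x _ y _
    exact ⟨Nat.mod_lt _ hp0, by simp only [hmod, Nat.cast_add]⟩
  · intro x _ y _
    exact ⟨Nat.mod_lt _ hp0, by simp only [hmod, Nat.cast_mul]⟩
  · have h1 : Injective (fun x : Fin p => ((x : ℕ) : K)) := by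
      intro x y h
      exact Fin.ext (hinj _ x.2 _ y.2 h)
    have h2 : Bijective (fun x : Fin p => ((x : ℕ) : K)) :=
      (Fintype.bijective_iff_injective_and_card _).2 ⟨h1, by rw [Fintype.card_fin, hcard]⟩
    intro z
    obtain ⟨x, hx⟩ := h2.2 z
    exact ⟨x, x.2, hx⟩

/-- order the square of a prime; `w ^ 2 = α + β * w` -/
theorem pl_table_sq {K : Type} [Field K] (p N α β : ℕ) [Fact p.Prime] [CharP K p]
    (hK : Nat.card K = p * p)
    (hc : chk (p * p) N (fun x y => (x % p + y % p) % p + p * ((x / p + y / p) % p))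
      (fun x y => ((x % p) * (y % p) + α * ((x / p) * (y / p))) % p +
        p * (((x % p) * (y / p) + (x / p) * (y % p) + β * ((x / p) * (y / p))) % p)) = true)
    (w : K) (hw : w ^ 2 = α + β * w)
    (hir : ∀ a < p, ∀ a' < p, ∀ b < p, ∀ b' < p,
      (p : ℤ) ∣ ((b : ℤ) - b') ^ 2 * α + β * (((b : ℤ) - b') * (a' - a)) - ((a' : ℤ) - a) ^ 2 →
      b = b') : Pl K := by
  have hp0 : 0 < p := (Fact.out : p.Prime).pos
  have hfin : Finite K := Nat.finite_of_card_ne_zero (by rw [hK]; positivity)
  have hft : Fintype K := Fintype.ofFinite K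
  have hcard : Fintype.card K = p * p := by rw [← Nat.card_eq_fintype_card, hK]
  have hmod : ∀ n : ℕ, ((n % p : ℕ) : K) = (n : K) := by
    intro n
    conv_rhs => rw [← Nat.mod_add_div n p]
    rw [Nat.cast_add, Nat.cast_mul, CharP.cast_eq_zero K p, zero_mul, add_zero]
  have hinj : ∀ x < p, ∀ y < p, ((x : ℕ) : K) = y → x = y := by
    intro x hx y hy h
    exact CharP.natCast_injOn_Iio K p hx hy h
  let e : ℕ → K := fun n => ((n % p : ℕ) : K) + ((n / p : ℕ) : K) * w
  have he : ∀ a b, a < p → e (a + p * b) = (a : K) + (b : K) * w := by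
    intro a b h
    simp only [e]
    rw [Nat.add_mul_mod_self_left, Nat.mod_eq_of_lt h, Nat.add_mul_div_left _ _ hp0,
      Nat.div_eq_of_lt h, zero_add]
  have hlt : ∀ a b, a < p → b < p → a + p * b < p * p := by
    intro a b h h'
    calc a + p * b < p + p * b := by omega
      _ = p * (b + 1) := by ring
      _ ≤ p * p := Nat.mul_le_mul_left _ h'
  have hi : ∀ x < p * p, ∀ y < p * p, e x = e y → x = y := by
    intro x hx y hy h
    have hx1 : x % p < p := Nat.mod_lt _ hp0
    have hy1 : y % p < p := Nat.mod_lt _ hp0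
    have hx2 : x / p < p := Nat.div_lt_of_lt_mul hx
    have hy2 : y / p < p := Nat.div_lt_of_lt_mul hy
    have h : ((x % p : ℕ) : K) + ((x / p : ℕ) : K) * w
      = ((y % p : ℕ) : K) + ((y / p : ℕ) : K) * w := h
    have h1 : (((x / p : ℕ) : K) - ((y / p : ℕ) : K)) * w
        = ((y % p : ℕ) : K) - ((x % p : ℕ) : K) := by
      linear_combination h
    have h2 : (p : ℤ) ∣ (((x / p : ℕ) : ℤ) - (y / p : ℕ)) ^ 2 * α +
        β * ((((x / p : ℕ) : ℤ) - (y / p : ℕ)) * ((y % p : ℕ) - (x % p : ℕ))) -
        (((y % p : ℕ) : ℤ) - (x % p : ℕ)) ^ 2 := by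
      rw [← CharP.intCast_eq_zero_iff K p]
      generalize x / p = b at *
      generalize y / p = b' at *
      generalize x % p = a at *
      generalize y % p = a' at *
      push_cast
      linear_combination ((b : K) - b') ^ 2 * (-hw) +
        (((b : K) - b') * w + ((a' : K) - a) - β * ((b : K) - b')) * h1
    have h3 := hir _ hx1 _ hy1 _ hx2 _ hy2 h2
    rw [h3] at h
    have h4 := hinj _ hx1 _ hy1 (add_right_cancel h)
    rw [← Nat.mod_add_div x p, ← Nat.mod_add_div y p, h3, h4]
  refine pl_of_table (p * p) N _ _ hc e ?_ ?_ hi ?_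
  · intro x _ y _
    refine ⟨hlt _ _ (Nat.mod_lt _ hp0) (Nat.mod_lt _ hp0), ?_⟩
    rw [he _ _ (Nat.mod_lt _ hp0)]
    simp only [hmod, Nat.cast_add, e]
    ring
  · intro x _ y _
    refine ⟨hlt _ _ (Nat.mod_lt _ hp0) (Nat.mod_lt _ hp0), ?_⟩
    rw [he _ _ (Nat.mod_lt _ hp0)]
    simp only [hmod, Nat.cast_add, Nat.cast_mul, e]
    linear_combination -((((x / p : ℕ) : K) * ((y / p : ℕ) : K)) * hw)
  · have h1 : Injective (fun x : Fin (p * p) => e x) := by
      intro x y h
      exact Fin.ext (hi _ x.2 _ y.2 h)
    have h2 : Bijective (fun x : Fin (p * p) => e x) :=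
      (Fintype.bijective_iff_injective_and_card _).2 ⟨h1, by rw [Fintype.card_fin, hcard]⟩
    intro z
    obtain ⟨x, hx⟩ := h2.2 z
    exact ⟨x, x.2, hx⟩

theorem pl_three {K : Type} [Field K] (hK : Nat.card K = 3) : Pl K := by
  have : Fact (Nat.Prime 3) := ⟨by norm_num⟩
  exact pl_table_prime 3 112212311000331232323000123231123 hK (by decide +kernel)

theorem pl_five {K : Type} [Field K] (hK : Nat.card K = 5) : Pl K := by
  have : Fact (Nat.Prime 5) := ⟨by norm_num⟩
  exact pl_table_prime 5 4314422112322113334435555000001132313132225214244421212000005545511215111131553534434000004545323232324535554544324000005432154321432512154354132 hK (by decide +kernel)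

theorem pl_four {K : Type} [Field K] (hK : Nat.card K = 4) : Pl K := by
  have hp : Fact (Nat.Prime 2) := ⟨by norm_num⟩
  have hfin : Finite K := Nat.finite_of_card_ne_zero (by rw [hK]; norm_num)
  have hft : Fintype K := Fintype.ofFinite K
  have hcard : Fintype.card K = 2 ^ 2 := by rw [← Nat.card_eq_fintype_card, hK]; norm_num
  have hchar : CharP K 2 := charP_of_card_eq_prime_pow hcard
  have hu : Nat.card Kˣ = 3 := by
    rw [Nat.card_units, hK]
  have hp3 : Fact (Nat.Prime 3) := ⟨by norm_num⟩
  obtain ⟨u, hu⟩ := exists_prime_orderOf_dvd_card' (G := Kˣ) 3 (by rw [hu])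
  have h1 : u ^ 3 = 1 := by rw [← hu]; exact pow_orderOf_eq_one u
  have h2 : u ≠ 1 := by
    intro h
    rw [h, orderOf_one] at hu
    norm_num at hu
  have h3 : ((u : K) - 1) * ((u : K) ^ 2 + u + 1) = 0 := by
    have : (u : K) ^ 3 = 1 := by
      rw [← Units.val_pow_eq_pow_val, h1, Units.val_one]
    linear_combination this
  have h4 : (u : K) ^ 2 + u + 1 = 0 := by
    rcases mul_eq_zero.1 h3 with h | h
    · exfalso
      apply h2
      ext
      rw [Units.val_one]
      linear_combination h
    · exact h
  have h20 : (2 : K) = 0 := by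
    have := CharP.cast_eq_zero K 2
    exact_mod_cast this
  refine pl_table_sq 2 1221323312312444000021112412111334140000434332322343442400004321413213423124 1 1 (by rw [hK]) (by decide +kernel)
    (u : K) ?_ (by decide +kernel)
  push_cast
  linear_combination h4 - (1 + (u : K)) * h20

theorem pl_nine {K : Type} [Field K] (hK : Nat.card K = 9) : Pl K := by
  have hp : Fact (Nat.Prime 3) := ⟨by norm_num⟩
  have hfin : Finite K := Nat.finite_of_card_ne_zero (by rw [hK]; norm_num)
  have hft : Fintype K := Fintype.ofFinite K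
  have hcard : Fintype.card K = 3 ^ 2 := by rw [← Nat.card_eq_fintype_card, hK]; norm_num
  have hchar : CharP K 3 := charP_of_card_eq_prime_pow hcard
  obtain ⟨w, hw⟩ := (FiniteField.isSquare_neg_one_iff (F := K)).2 (by rw [hcard]; norm_num)
  have h30 : (3 : K) = 0 := by
    have := CharP.cast_eq_zero K 3
    exact_mod_cast this
  refine pl_table_sq 3 561178535228638532364667881768135274274818255534627175124873114462334674557144924000000000374323993251421753236752556613249791629963799773145726646145116464355543884664612000000000613242638191591822989595829815396321631282933514498465982787818722442391555775357000000000542324313341731374458819282418499859173919259726623689217833848643987121132738192000000000796684436797144944946911268937281732138516757699956929197112715925316365619278638000000000166235838387338577828522927241461271978521187862461244876199979977869145552466518000000000255524492785676898399898196455317464419594679489885547883647461135177667381751663000000000359753381675239332333795276986846868797554424454983799828322943242478557569667685000000000813972465146289753731259486548973216325416987467953182973582416892756341291867543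
    2 0 (by rw [hK]) (by decide +kernel) w ?_ (by decide +kernel)
  push_cast
  linear_combination -hw - h30

end Pool.Agent.H809_TA
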