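import Pool.Agent.H809_TA.Plane

/-!
Orderings of the designs of points and hyperplanes: definition, change of index set, transport.
-/

set_option autoImplicit false

namespace Pool.Agent.H809_TA

open Function Module
open scoped LinearAlgebra.Projectivization

/-- An ordering of the design of points and hyperplanes of `PG(n, K)`; here `V` is the vector
space of the hyperplane at infinity, and also the set of points off it. -/
structure SolF (K V : Type) [Field K] [AddCommGroup V] [Module K V]
    (A : ℙ K V → V → Dual K V) : Prop where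
  N : ∀ x y, A x y x.rep ≠ 0
  C : ∀ (x x' : ℙ K V) (y : V) (k : K), A x y = k • A x' y → x = x'
  R : ∀ (x : ℙ K V) (y y' : V) (k : K), A x y = k • A x y' → A x y (y - y') = 0 → y = y'

def Sol (K V : Type) [Field K] [AddCommGroup V] [Module K V] : Prop := ∃ A, SolF K V A

/-- the same with an arbitrary index set for the points -/
theorem sol_of_index {K V X : Type} [Field K] [AddCommGroup V] [Module K V] (r : X → V)
    (hr : ∀ v : V, v ≠ 0 → ∃ (k : K) (x : X), v = k • r x) (A : X → V → Dual K V)
    (hN : ∀ x y, A x y (r x) ≠ 0) (hC : ∀ x x' y (k : K), A x y = k • A x' y → x = x')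
    (hR : ∀ x y y' (k : K), A x y = k • A x y' → A x y (y - y') = 0 → y = y') : Sol K V := by
  classical
  choose k f hf using fun x : ℙ K V => hr x.rep x.rep_nonzero
  refine ⟨fun x y => A (f x) y, ?_, ?_, ?_⟩
  · intro x y h
    have hk : k x ≠ 0 := by
      intro h0
      have := hf x
      rw [h0, zero_smul] at this
      exact x.rep_nonzero this
    rw [hf x, map_smul, smul_eq_mul] at h
    rcases mul_eq_zero.1 h with h | h
    · exact hk h
    · exact hN _ _ h
  · intro x x' y κ h
    have h1 := hC _ _ _ _ h
    have hk' : k x' ≠ 0 := by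
      intro h0
      have := hf x'
      rw [h0, zero_smul] at this
      exact x'.rep_nonzero this
    have h2 : x.rep = (k x * (k x')⁻¹) • x'.rep := by
      rw [hf x, hf x', h1, smul_smul, mul_assoc, inv_mul_cancel₀ hk', mul_one]
    rw [← x.mk_rep, ← x'.mk_rep, Projectivization.mk_eq_mk_iff']
    exact ⟨_, h2.symm⟩
  · intro x y y' κ h h'
    exact hR _ _ _ _ h h'

theorem Sol.congr {K V V' : Type} [Field K] [AddCommGroup V] [Module K V] [AddCommGroup V']
    [Module K V'] (e : V ≃ₗ[K] V') (h : Sol K V) : Sol K V' := by
  obtain ⟨A, hA⟩ := h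
  refine sol_of_index (X := ℙ K V) (fun x => e x.rep) ?_
    (fun x y => (A x (e.symm y)).comp (e.symm : V' →ₗ[K] V)) ?_ ?_ ?_
  · intro v hv
    have hv' : e.symm v ≠ 0 := by
      intro h
      apply hv
      have := congrArg e h
      rwa [LinearEquiv.apply_symm_apply, map_zero] at this
    obtain ⟨a, ha⟩ := Projectivization.exists_smul_eq_mk_rep K (e.symm v) hv'
    refine ⟨(a⁻¹ : Kˣ), Projectivization.mk K (e.symm v) hv', ?_⟩
    rw [← ha]
    rw [← map_smul]
    rw [Units.smul_def, smul_smul, ← Units.val_mul, inv_mul_cancel, Units.val_one, one_smul,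
      LinearEquiv.apply_symm_apply]
  · intro x y
    simp only [LinearMap.comp_apply, LinearEquiv.coe_coe, LinearEquiv.symm_apply_apply]
    exact hA.N _ _
  · intro x x' y k h
    apply hA.C x x' (e.symm y) k
    ext v
    have := congrArg (fun f : Dual K V' => f (e v)) h
    simpa using this
  · intro x y y' k h h'
    apply e.symm.injective
    apply hA.R x (e.symm y) (e.symm y') k
    · ext v
      have := congrArg (fun f : Dual K V' => f (e v)) h
      simpa using this
    · rw [← map_sub]
      exact h'

/-- families of forms used in the recursion -/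
structure FamF (K W : Type) [Field K] [AddCommGroup W] [Module K W]
    (M : W → W →ₗ[K] Dual K W) : Prop where
  smul : ∀ (k : K) (v : W), k ≠ 0 → M (k • v) = M v
  diag : ∀ v, v ≠ 0 → M v v v ≠ 0
  inj : ∀ v, v ≠ 0 → Injective (M v)
  sep : ∀ c v v', v ≠ 0 → v' ≠ 0 → M v (c + v) = M v' (c + v') → v = v'

def Fam (K W : Type) [Field K] [AddCommGroup W] [Module K W] : Prop := ∃ M, FamF K W M

end Pool.Agent.H809_TA
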