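import Pool.Agent.H809_TA.Two

/-!
An ordering for the field with two elements in dimension four, from a table.
-/

set_option autoImplicit false

namespace Pool.Agent.H809_TA

open Function Module
open scoped LinearAlgebra.Projectivization

def tab4 (x y : ℕ) : ℕ :=
  55409432424919248717109709063099434752905237095260730959191855678497473361397035106143468123332571571281837030796674041439325693665604475222243529853748418678171635880809794751517021920581116675431958408249582535410016634011948730654066482838136675309684783554694918886000772168364174690865799187336915845120 / 16 ^ (16 * x + y) % 16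

/-- bit of a number -/
def bt (m : ℕ) (i : Fin 4) : ZMod 2 := if m.testBit i then 1 else 0

def dt4 (m n : ℕ) : ZMod 2 := bt m 0 * bt n 0 + bt m 1 * bt n 1 + bt m 2 * bt n 2 + bt m 3 * bt n 3

theorem tab4_N : ∀ x < 16, ∀ y < 16, x = 0 ∨ dt4 (tab4 x y) x = 1 := by decide +kernel

theorem tab4_lt : ∀ x < 16, ∀ y < 16, tab4 x y < 16 := by decide +kernel

theorem tab4_C : ∀ x < 16, ∀ x' < 16, ∀ y < 16, tab4 x y = tab4 x' y → x = x' := by
  decide +kernel

theorem tab4_R : ∀ x < 16, ∀ y < 16, ∀ y' < 16, x = 0 ∨ tab4 x y ≠ tab4 x y' ∨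
    dt4 (tab4 x y) y ≠ dt4 (tab4 x y) y' ∨ y = y' := by
  decide +kernel

theorem dt4_inj : ∀ m < 16, ∀ m' < 16, (∀ n < 16, dt4 m n = dt4 m' n) → m = m' := by
  decide +kernel

theorem bt_surj : ∀ v : Fin 4 → ZMod 2, ∃ n < 16, v = bt n := by decide +kernel

/-- functional with given code -/
def fn4 (m : ℕ) : Dual (ZMod 2) (Fin 4 → ZMod 2) :=
  bt m 0 • LinearMap.proj 0 + bt m 1 • LinearMap.proj 1 + bt m 2 • LinearMap.proj 2 +
    bt m 3 • LinearMap.proj 3

theorem fn4_bt (m n : ℕ) : fn4 m (bt n) = dt4 m n := rfl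

theorem sol_two_four : Sol (ZMod 2) (Fin 4 → ZMod 2) := by
  classical
  choose dec hd1 hd2 using bt_surj
  have hk : ∀ (k : ZMod 2) (f g : Dual (ZMod 2) (Fin 4 → ZMod 2)), f = k • g → f ≠ 0 → f = g := by
    intro k f g h hf
    have hk : k = 0 ∨ k = 1 := by
      clear h
      revert k
      decide
    rcases hk with rfl | rfl
    · exact absurd (by rw [h, zero_smul]) hf
    · rwa [one_smul] at h
  have hinj : ∀ m < 16, ∀ m' < 16, fn4 m = fn4 m' → m = m' := by
    intro m hm m' hm' h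
    apply dt4_inj m hm m' hm'
    intro n _
    rw [← fn4_bt, h, fn4_bt]
  have hN : ∀ x : {x : ℕ // x < 16 ∧ x ≠ 0}, ∀ v, fn4 (tab4 x.1 (dec v)) (bt x.1) = 1 := by
    intro x v
    rw [fn4_bt]
    exact (tab4_N x.1 x.2.1 (dec v) (hd1 v)).resolve_left x.2.2
  have hne : ∀ x : {x : ℕ // x < 16 ∧ x ≠ 0}, ∀ v, fn4 (tab4 x.1 (dec v)) ≠ 0 := by
    intro x v h
    have := hN x v
    rw [h] at this
    exact absurd this (by simp)
  refine sol_of_index (X := {x : ℕ // x < 16 ∧ x ≠ 0}) (fun x => bt x.1) ?_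
    (fun x v => fn4 (tab4 x.1 (dec v))) ?_ ?_ ?_
  · intro v hv
    refine ⟨1, ⟨dec v, hd1 v, ?_⟩, by rw [one_smul]; exact hd2 v⟩
    intro h
    apply hv
    rw [hd2 v, h]
    funext i
    fin_cases i <;> rfl
  · intro x v
    rw [hN]
    exact one_ne_zero
  · intro x x' v k h
    have h1 := hk k _ _ h (hne x v)
    have h2 := hinj _ (tab4_lt _ x.2.1 _ (hd1 v)) _ (tab4_lt _ x'.2.1 _ (hd1 v)) h1
    exact Subtype.ext (tab4_C _ x.2.1 _ x'.2.1 _ (hd1 v) h2)
  · intro x v v' k h hd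
    have h1 := hk k _ _ h (hne x v)
    have h2 := hinj _ (tab4_lt _ x.2.1 _ (hd1 v)) _ (tab4_lt _ x.2.1 _ (hd1 v')) h1
    rw [map_sub] at hd
    have e1 := fn4_bt (tab4 x.1 (dec v)) (dec v)
    have e2 := fn4_bt (tab4 x.1 (dec v)) (dec v')
    rw [← hd2 v] at e1
    rw [← hd2 v'] at e2
    rw [e1, e2, sub_eq_zero] at hd
    rcases tab4_R x.1 x.2.1 (dec v) (hd1 v) (dec v') (hd1 v') with h3 | h3 | h3 | h3
    · exact absurd h3 x.2.2
    · exact absurd h2 h3
    · exact absurd hd h3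
    · rw [hd2 v, h3, ← hd2 v']

end Pool.Agent.H809_TA
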