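import Pool.Agent.H809_TA.FamAll
import Pool.Agent.H809_TA.TwoFour

/-!
Orderings of all designs of points and hyperplanes, except the projective plane of order two.
-/

set_option autoImplicit false

namespace Pool.Agent.H809_TA

open Function Module
open scoped LinearAlgebra.Projectivization

/-- conjugate of a functional by a ring isomorphism -/
def sigF {K K' : Type} [Field K] [Field K'] (σ : K ≃+* K') {d : ℕ} (φ : Dual K (Fin d → K)) :
    Dual K' (Fin d → K') where
  toFun v := σ (φ (fun i => σ.symm (v i)))
  map_add' := by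
    intro v w
    have : (fun i => σ.symm ((v + w) i)) = (fun i => σ.symm (v i)) + (fun i => σ.symm (w i)) := by
      funext i
      simp
    rw [this, map_add, map_add]
  map_smul' := by
    intro k v
    have : (fun i => σ.symm ((k • v) i)) = σ.symm k • (fun i => σ.symm (v i)) := by
      funext i
      simp
    rw [this, map_smul, smul_eq_mul, map_mul, RingEquiv.apply_symm_apply]
    rfl

theorem sigF_apply {K K' : Type} [Field K] [Field K'] (σ : K ≃+* K') {d : ℕ}
    (φ : Dual K (Fin d → K)) (v : Fin d → K') : sigF σ φ v = σ (φ (fun i => σ.symm (v i))) := rfl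

theorem Sol.transport {K K' : Type} [Field K] [Field K'] (σ : K ≃+* K') {d : ℕ}
    (h : Sol K (Fin d → K)) : Sol K' (Fin d → K') := by
  classical
  obtain ⟨A, hA⟩ := h
  have hss : ∀ v : Fin d → K, (fun i => σ.symm (σ (v i))) = v := by
    intro v
    funext i
    exact σ.symm_apply_apply _
  have hsm : ∀ (φ ψ : Dual K (Fin d → K)) (k : K'), sigF σ φ = k • sigF σ ψ →
      φ = σ.symm k • ψ := by
    intro φ ψ k h
    apply LinearMap.ext
    intro v
    have h1 : sigF σ φ (fun i => σ (v i)) = k • sigF σ ψ (fun i => σ (v i)) := by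
      rw [h]; rfl
    rw [sigF_apply, sigF_apply, hss, smul_eq_mul] at h1
    apply σ.injective
    rw [h1, LinearMap.smul_apply, smul_eq_mul, map_mul, RingEquiv.apply_symm_apply]
  refine sol_of_index (X := ℙ K (Fin d → K)) (fun x i => σ (x.rep i)) ?_
    (fun x v => sigF σ (A x (fun i => σ.symm (v i)))) ?_ ?_ ?_
  · intro v hv
    have hv' : (fun i => σ.symm (v i)) ≠ 0 := by
      intro h
      apply hv
      funext i
      have := congrFun h i
      have h2 : σ.symm (v i) = 0 := this
      exact (map_eq_zero_iff σ.symm σ.symm.injective).1 h2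
    obtain ⟨a, ha⟩ := Projectivization.exists_smul_eq_mk_rep K _ hv'
    refine ⟨σ ((a⁻¹ : Kˣ) : K), Projectivization.mk K _ hv', ?_⟩
    funext i
    rw [← ha]
    show v i = σ ((a⁻¹ : Kˣ) : K) * σ ((a : K) * σ.symm (v i))
    rw [← map_mul, ← mul_assoc, ← Units.val_mul, inv_mul_cancel, Units.val_one, one_mul,
      RingEquiv.apply_symm_apply]
  · intro x v h
    rw [sigF_apply, hss] at h
    exact hA.N _ _ ((map_eq_zero_iff σ σ.injective).1 h)
  · intro x x' v k h
    exact hA.C _ _ _ _ (hsm _ _ _ h)
  · intro x v v' k h hd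
    have h1 := hsm _ _ _ h
    rw [sigF_apply] at hd
    have h2 := (map_eq_zero_iff σ σ.injective).1 hd
    have h3 : (fun i => σ.symm ((v - v') i)) = (fun i => σ.symm (v i)) - (fun i => σ.symm (v' i)) := by
      funext i
      simp
    rw [h3] at h2
    have h4 := hA.R _ _ _ _ h1 h2
    funext i
    exact σ.symm.injective (congrFun h4 i)

theorem sol_two : ∀ d : ℕ, 3 ≤ d → Sol (ZMod 2) (Fin d → ZMod 2) := by
  intro d
  induction d using Nat.strong_induction_on with
  | _ d ih =>
    intro hd
    rcases Nat.even_or_odd' d with ⟨m, hm | hm⟩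
    · by_cases h4 : d = 4
      · subst h4
        exact sol_two_four
      · have hm3 : 3 ≤ m := by omega
        have hfr : finrank (ZMod 2) (GaloisField 2 m) = m := GaloisField.finrank 2 (by omega)
        have hcard : Nat.card (GaloisField 2 m) = 2 ^ m := GaloisField.card 2 m (by omega)
        have h1 : Sol (GaloisField 2 m) (Fin 2 → GaloisField 2 m) := by
          apply sol_all_ge_three
          rw [hcard]
          have : 2 ^ 3 ≤ 2 ^ m := Nat.pow_le_pow_right (by norm_num) hm3
          omega
        have h2 : Sol (ZMod 2) (GaloisField 2 m) :=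
          (ih m (by omega) hm3).congr (LinearEquiv.ofFinrankEq _ _ (by rw [hfr]; simp))
        have h3 : Sol (ZMod 2) (Fin 2 → GaloisField 2 m) := sol_comp h1 h2
        refine h3.congr (LinearEquiv.ofFinrankEq _ _ ?_)
        rw [Module.finrank_pi_fintype]
        simp [hfr, hm]
    · have hfr : finrank (ZMod 2) (GaloisField 2 d) = d := GaloisField.finrank 2 (by omega)
      have h1 : Sol (ZMod 2) (GaloisField 2 d) := by
        apply sol_two_odd
        rw [hfr, hm]
        exact odd_two_mul_add_one m
      exact h1.congr (LinearEquiv.ofFinrankEq _ _ (by rw [hfr]; simp))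

/-- all orderings -/
theorem sol_all (K : Type) [Field K] [Finite K] (d : ℕ) (h : 3 ≤ Nat.card K ∨ 3 ≤ d) :
    Sol K (Fin d → K) := by
  classical
  by_cases hK : 3 ≤ Nat.card K
  · exact sol_all_ge_three K hK d
  · have hd : 3 ≤ d := by tauto
    have hft : Fintype K := Fintype.ofFinite K
    have h1 : 1 < Nat.card K := Finite.one_lt_card
    have h2 : Nat.card K = 2 := by omega
    exact (sol_two d hd).transport (ZMod.ringEquivOfPrime K Nat.prime_two
      (by rw [← Nat.card_eq_fintype_card, h2]))

theorem sol_all' (K V : Type) [Field K] [Finite K] [AddCommGroup V] [Module K V]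
    [FiniteDimensional K V] (h : 3 ≤ Nat.card K ∨ 3 ≤ finrank K V) : Sol K V :=
  (sol_all K (finrank K V) h).congr (LinearEquiv.ofFinrankEq _ _ (by simp))

end Pool.Agent.H809_TA
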