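import Pool.Agent.H809_TA.AffineType

/-!
Orderings of the symmetric designs of Spence.
-/

set_option autoImplicit false

namespace Pool.Agent.H809_TA

open Function Finset

theorem rect_complete {I J S : Type} {pI : I → Prop} {pJ : J → Prop} {pS : S → Prop}
    {rel : I → S → Prop} (d : ℕ) (hrel : ∀ i s, pI i → pS s → rel i s)
    (hI : Nat.card {i // pI i} = d) (hS : Nat.card {s // pS s} = d)
    (hJ : Nat.card {j // pJ j} ≤ d) : Rect pI pJ pS rel := by
  refine ⟨d, ?_, ?_, hJ⟩
  · intro i hi
    rw [← hS]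
    exact card_iff fun s => ⟨fun h => h.1, fun h => ⟨h, hrel i s hi h⟩⟩
  · intro s hs
    rw [← hI]
    exact card_iff fun i => ⟨fun h => h.1, fun h => ⟨h, hrel i s h hs⟩⟩

/-- the rectangles of an ordering of a design of Spence -/
inductive SKey (ι C : Type) : Type
  | A (h h' : ι) (c : C)
  | B (h' : ι) (p c a b : C)
  | D (h : ι) (p c : C)
  | E (p : C)

/-- The designs of Spence. -/
theorem desArr_spence {P Q ι C : Type} [Fintype P] [Fintype Q] [Fintype ι] [Fintype C]
    [AddCommGroup C]
    {mem : P → Q → Prop} {gP : P → ι} {gQ : Q → ι} {lP : P → ι → C} {lQ : Q → ι → C} {μ : ℕ}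
    (hι : 4 ≤ Fintype.card ι) (hP : Balanced True gP lP μ) (hQ : Balanced True gQ lQ μ)
    (hm : ∀ p b, mem p b ↔ (gP p ≠ gQ b ∧ lP p (gQ b) = lQ b (gP p)) ∨
      (gP p = gQ b ∧ lP p (gQ b) ≠ lQ b (gP p))) (b0 : Q) :
    DesArr mem b0 := by
  classical
  have hm1 : ∀ p b, gP p ≠ gQ b → (mem p b ↔ lP p (gQ b) = lQ b (gP p)) := by
    intro p b h
    rw [hm]
    constructor
    · rintro (h' | h')
      · exact h'.2
      · exact absurd h'.1 h
    · exact fun h' => Or.inl ⟨h, h'⟩
  have hm2 : ∀ p b, gP p = gQ b → (mem p b ↔ lP p (gQ b) ≠ lQ b (gP p)) := by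
    intro p b h
    rw [hm]
    constructor
    · rintro (h' | h')
      · exact absurd h h'.1
      · exact h'.2
    · exact fun h' => Or.inr ⟨h, h'⟩
  obtain ⟨e, he⟩ : ∃ e, e = gQ b0 := ⟨_, rfl⟩
  obtain ⟨G, hG⟩ := exists_loop hι e
  have hGne : ∀ h h', h ≠ e → G h h' ≠ h' := by
    intro h h' hh h1
    exact hh (hG.col h' (h1.trans (hG.left h').symm))
  have hGne' : ∀ h h', h' ≠ e → G h h' ≠ h := by
    intro h h' hh h1
    exact hh (hG.row h (h1.trans (hG.right h).symm))
  have hGe : ∀ h h', h ≠ h' → G h h' ≠ e := by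
    intro h h' hh h1
    exact hh (hG.row h ((hG.diag h).trans h1.symm))
  have m1 : ∀ p, gP p ≠ e → (mem p b0 ↔ lP p e = lQ b0 (gP p)) := by
    intro p hp
    rw [he] at hp ⊢
    exact hm1 p b0 hp
  have m2 : ∀ p, gP p = e → (mem p b0 ↔ lP p e ≠ lQ b0 e) := by
    intro p hp
    rw [hm2 p b0 (hp.trans he), ← he, hp]
  refine glue mem b0 (fun p q => if gP p = e then (if gP q = e then SKey.E (lP p e)
      else SKey.B (gP q) (lP p (gP q)) (lP q (gP q)) (lP p e) (lP q e))
      else (if gP q = e then SKey.D (gP p) (lP p (gP p)) (lP q (gP p))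
      else SKey.A (gP p) (gP q) (lP q (G (gP p) (gP q)))))
    (fun x i => match x with
      | .A h _ _ => gP i = h ∧ lP i e = lQ b0 h
      | .B h' p _ a _ => gP i = e ∧ lP i e = a ∧ lP i h' = p
      | .D h p _ => gP i = h ∧ lP i h = p ∧ lP i e = lQ b0 h
      | .E p => gP i = e ∧ lP i e = p)
    (fun x j => match x with
      | .A h h' c => gP j = h' ∧ lP j (G h h') = c ∧ lP j e ≠ lQ b0 h'
      | .B h' _ c _ b => gP j = h' ∧ lP j e = b ∧ lP j h' = c
      | .D h _ c => gP j = e ∧ lP j e = lQ b0 e ∧ lP j h = c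
      | .E _ => gP j = e ∧ lP j e = lQ b0 e)
    (fun x s => match x with
      | .A h h' c => gQ s = G h h' ∧ lQ s h' = c
      | .B h' p c a b => gQ s = h' ∧ lQ s e = p + (b - lQ b0 h') ∧ lQ s h' = c + (a - lQ b0 e)
      | .D h p c => gQ s = h ∧ lQ s h = p ∧ lQ s e = c
      | .E p => gQ s = e ∧ lQ s e = p) ?_ ?_ ?_ ?_ ?_ ?_
  · intro p q hp hq
    by_cases h1 : gP p = e <;> by_cases h2 : gP q = e
    · simp only [if_pos h1, if_pos h2]
      exact ⟨h1, trivial⟩
    · simp only [if_pos h1, if_neg h2]
      exact ⟨h1, trivial, trivial⟩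
    · simp only [if_neg h1, if_pos h2]
      exact ⟨trivial, trivial, (m1 p h1).1 hp⟩
    · simp only [if_neg h1, if_neg h2]
      exact ⟨trivial, (m1 p h1).1 hp⟩
  · intro p q hp hq
    by_cases h1 : gP p = e <;> by_cases h2 : gP q = e
    · simp only [if_pos h1, if_pos h2]
      exact ⟨h2, not_not.1 (fun h => hq ((m2 q h2).2 h))⟩
    · simp only [if_pos h1, if_neg h2]
      exact ⟨trivial, trivial, trivial⟩
    · simp only [if_neg h1, if_pos h2]
      exact ⟨h2, not_not.1 (fun h => hq ((m2 q h2).2 h)), trivial⟩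
    · simp only [if_neg h1, if_neg h2]
      exact ⟨trivial, trivial, fun h => hq ((m1 q h2).2 h)⟩
  · intro p q hp hq
    by_cases h1 : gP p = e <;> by_cases h2 : gP q = e
    · simp only [if_pos h1, if_pos h2]
      refine rect_complete (Fintype.card C * μ) ?_ (hP.card1 hι _ _ (Or.inl trivial) _)
        (hQ.card1 hι _ _ (Or.inl trivial) _) (hP.card1 hι _ _ (Or.inl trivial) _).le
      rintro i s ⟨hi, hi'⟩ ⟨hs, hs'⟩ h
      apply (hm2 i s (hi.trans hs.symm)).1 h
      rw [hs, hi, hi', hs']
    · simp only [if_pos h1, if_neg h2]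
      have h3 := (m2 p h1).1 hp
      have h4 : lP q e ≠ lQ b0 (gP q) := fun h => hq ((m1 q h2).2 h)
      refine rect_complete μ ?_ (hP e e (gP q) (Ne.symm h2) (Or.inl trivial) _ _)
        (hQ (gP q) e (gP q) (Ne.symm h2) (Or.inl trivial) _ _)
        (hP (gP q) e (gP q) (Ne.symm h2) (Or.inl trivial) _ _).le
      rintro i s ⟨hi, hi', hi''⟩ ⟨hs, hs', hs''⟩ h
      have h5 := (hm1 i s (by rw [hi, hs]; exact Ne.symm h2)).1 h
      rw [hs, hi, hi'', hs'] at h5
      apply h4
      have h6 : lP q e - lQ b0 (gP q) = 0 := by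
        have := congrArg (fun z => z - lP p (gP q)) h5
        simpa using this.symm
      exact sub_eq_zero.1 h6
    · simp only [if_neg h1, if_pos h2]
      refine rect_complete μ ?_ (hP (gP p) (gP p) e h1 (Or.inl trivial) _ _)
        (hQ (gP p) (gP p) e h1 (Or.inl trivial) _ _)
        (hP e e (gP p) (Ne.symm h1) (Or.inl trivial) _ _).le
      rintro i s ⟨hi, hi', hi''⟩ ⟨hs, hs', hs''⟩ h
      apply (hm2 i s (hi.trans hs.symm)).1 h
      rw [hs, hi, hi', hs']
    · simp only [if_neg h1, if_neg h2]
      have hp' := (m1 p h1).1 hp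
      have hq' : lP q e ≠ lQ b0 (gP q) := fun h => hq ((m1 q h2).2 h)
      by_cases h3 : gP p = gP q
      · refine rect_complete (Fintype.card C * μ) ?_ (hP.card1 hι _ _ (Or.inl trivial) _)
          (hQ.card1 hι _ _ (Or.inl trivial) _) ?_
        · rintro i s ⟨hi, hi'⟩ ⟨hs, hs'⟩ h
          rw [h3, hG.diag] at hs hs'
          have h5 := (hm1 i s (by rw [hi, hs]; exact h1)).1 h
          rw [hs, hi, h3, hs'] at h5
          apply hq'
          rw [← h5, hi', h3]
        · rw [← hP.card1 hι (gP q) (G (gP p) (gP q)) (Or.inl trivial)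
            (lP q (G (gP p) (gP q)))]
          exact card_mono fun j hj => ⟨hj.1, hj.2.1⟩
      · have h4 := hGne (gP p) (gP q) h1
        have h5 := hGne' (gP p) (gP q) h2
        have h6 := hGe (gP p) (gP q) h3
        refine ⟨Fintype.card C * μ - μ, ?_, ?_, ?_⟩
        · rintro i ⟨hi, hi'⟩
          rw [← hQ.card_ne hι (G (gP p) (gP q)) (gP q) (gP p) (Ne.symm h3)
            (Or.inl trivial) (lP q (G (gP p) (gP q))) (lP i (G (gP p) (gP q)))]
          apply card_iff
          intro b
          constructor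
          · rintro ⟨⟨hb, hb'⟩, hb''⟩
            refine ⟨hb, hb', fun h => hb'' ((hm1 i b ?_).2 ?_)⟩
            · rw [hi, hb]
              exact h5.symm
            · rw [hb, hi]
              exact h.symm
          · rintro ⟨hb, hb', hb''⟩
            refine ⟨⟨hb, hb'⟩, fun h => hb'' ?_⟩
            have := (hm1 i b (by rw [hi, hb]; exact h5.symm)).1 h
            rw [hi] at this
            rw [← this, hb]
        · rintro b ⟨hb, hb'⟩
          rw [← hP.card_ne hι (gP p) e (G (gP p) (gP q)) (Ne.symm h6)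
            (Or.inl trivial) (lQ b0 (gP p)) (lQ b (gP p))]
          apply card_iff
          intro i
          constructor
          · rintro ⟨⟨hi, hi'⟩, h⟩
            refine ⟨hi, hi', fun h' => h ((hm1 i b ?_).2 ?_)⟩
            · rw [hi, hb]
              exact h5.symm
            · rw [hi, hb, h']
          · rintro ⟨hi, hi', h⟩
            refine ⟨⟨hi, hi'⟩, fun h' => h ?_⟩
            have := (hm1 i b (by rw [hi, hb]; exact h5.symm)).1 h'
            rw [hb, hi] at this
            exact this
        · rw [← hP.card_ne hι (gP q) (G (gP p) (gP q)) e h6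
            (Or.inl trivial) (lP q (G (gP p) (gP q))) (lQ b0 (gP q))]
  · intro p q b hp hq hb
    by_cases h1 : gP p = e <;> by_cases h2 : gP q = e
    · simp only [if_pos h1, if_pos h2] at hb
      rw [hm2 q b (h2.trans hb.1.symm), hb.1, h2, hb.2]
      have h3 : lP q e = lQ b0 e := not_not.1 (fun h => hq ((m2 q h2).2 h))
      rw [h3]
      exact ((m2 p h1).1 hp).symm
    · simp only [if_pos h1, if_neg h2] at hb
      obtain ⟨hb, hb', hb''⟩ := hb
      rw [hm2 q b hb.symm, hb, hb'']
      have h3 := (m2 p h1).1 hp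
      intro h
      apply h3
      have h4 : lP p e - lQ b0 e = 0 := by
        have := congrArg (fun z => z - lP q (gP q)) h
        simpa using this.symm
      exact sub_eq_zero.1 h4
    · simp only [if_neg h1, if_pos h2] at hb
      obtain ⟨hb, hb', hb''⟩ := hb
      rw [hm1 q b (by rw [h2, hb]; exact Ne.symm h1), hb, h2, hb'']
    · simp only [if_neg h1, if_neg h2] at hb
      obtain ⟨hb, hb'⟩ := hb
      rw [hm1 q b (by rw [hb]; exact (hGne _ _ h1).symm), hb, hb']
  · intro p q q' b hp hq hq' hb hc
    by_cases h1 : gP p = e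
    · by_cases h2 : gP q = e <;> by_cases h2' : gP q' = e
      · simp only [if_pos h1, if_pos h2, if_pos h2']
      · exfalso
        simp only [if_pos h1, if_pos h2, if_neg h2'] at hb hc
        exact h2' (hc.1.symm.trans hb.1)
      · exfalso
        simp only [if_pos h1, if_neg h2, if_pos h2'] at hb hc
        exact h2 (hb.1.symm.trans hc.1)
      · simp only [if_pos h1, if_neg h2, if_neg h2'] at hb hc ⊢
        obtain ⟨hb, hb', hb''⟩ := hb
        obtain ⟨hc, hc', hc''⟩ := hc
        have h3 : gP q = gP q' := hb.symm.trans hc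
        rw [← h3] at hc' hc''
        rw [hb'] at hc'
        rw [hb''] at hc''
        have h4 : lP q e = lP q' e := by
          have := add_left_cancel hc'
          exact sub_left_injective this
        have h5 : lP q (gP q) = lP q' (gP q) := add_right_cancel hc''
        rw [← h3, h4, h5]
    · by_cases h2 : gP q = e <;> by_cases h2' : gP q' = e
      · simp only [if_neg h1, if_pos h2, if_pos h2'] at hb hc ⊢
        rw [← hb.2.2, ← hc.2.2]
      · exfalso
        simp only [if_neg h1, if_pos h2, if_neg h2'] at hb hc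
        exact hGne' _ _ h2' (hc.1.symm.trans hb.1)
      · exfalso
        simp only [if_neg h1, if_neg h2, if_pos h2'] at hb hc
        exact hGne' _ _ h2 (hb.1.symm.trans hc.1)
      · simp only [if_neg h1, if_neg h2, if_neg h2'] at hb hc ⊢
        have h3 : gP q = gP q' := hG.row _ (hb.1.symm.trans hc.1)
        rw [← hb.2, ← hc.2, h3]
  · intro p p' q b hp hp' hq hb hc
    by_cases h2 : gP q = e
    · by_cases h1 : gP p = e <;> by_cases h1' : gP p' = e
      · simp only [if_pos h1, if_pos h1', if_pos h2] at hb hc ⊢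
        rw [← hb.2, ← hc.2]
      · exfalso
        simp only [if_pos h1, if_neg h1', if_pos h2] at hb hc
        exact h1' (hc.1.symm.trans hb.1)
      · exfalso
        simp only [if_neg h1, if_pos h1', if_pos h2] at hb hc
        exact h1 (hb.1.symm.trans hc.1)
      · simp only [if_neg h1, if_neg h1', if_pos h2] at hb hc ⊢
        have h3 : gP p = gP p' := hb.1.symm.trans hc.1
        rw [← hb.2.1, ← hc.2.1, h3]
    · by_cases h1 : gP p = e <;> by_cases h1' : gP p' = e
      · simp only [if_pos h1, if_pos h1', if_neg h2] at hb hc ⊢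
        obtain ⟨hb, hb', hb''⟩ := hb
        obtain ⟨hc, hc', hc''⟩ := hc
        rw [hb'] at hc'
        rw [hb''] at hc''
        have h4 : lP p e = lP p' e := by
          have := add_left_cancel hc''
          exact sub_left_injective this
        have h5 : lP p (gP q) = lP p' (gP q) := add_right_cancel hc'
        rw [h4, h5]
      · exfalso
        simp only [if_pos h1, if_neg h1', if_neg h2] at hb hc
        exact hGne _ _ h1' (hc.1.symm.trans hb.1)
      · exfalso
        simp only [if_neg h1, if_pos h1', if_neg h2] at hb hc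
        exact hGne _ _ h1 (hb.1.symm.trans hc.1)
      · simp only [if_neg h1, if_neg h1', if_neg h2] at hb hc ⊢
        have h3 : gP p = gP p' := hG.col _ (hb.1.symm.trans hc.1)
        rw [h3]

theorem desArr_affine {P Q : Type} [Fintype P] [Fintype Q] {mem : P → Q → Prop}
    (h : IsAffineType mem) (b0 : Q) : DesArr mem b0 := by
  classical
  obtain ⟨s, ι, C, hι, hC, gP, gQ, lP, lQ, μ, h4, hP, hQ, hm⟩ := h
  by_cases hs : s
  · have hs' : s = True := eq_true hs
    subst hs'
    by_cases hP0 : Nonempty P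
    · obtain ⟨p0⟩ := hP0
      have hC0 : 0 < Fintype.card C := Fintype.card_pos_iff.2 ⟨lP p0 (gP p0)⟩
      have : NeZero (Fintype.card C) := ⟨hC0.ne'⟩
      have f : C ≃ ZMod (Fintype.card C) := Fintype.equivOfCardEq (by rw [ZMod.card])
      let _ : AddCommGroup C := f.addCommGroup
      refine desArr_spence h4 hP hQ ?_ b0
      intro p b
      rw [hm]
      simp only [true_and]
    · refine ⟨fun _ _ => b0, ?_, ?_, ?_⟩
      · exact fun p => absurd ⟨p⟩ hP0
      · exact fun p => absurd ⟨p⟩ hP0
      · exact fun p => absurd ⟨p⟩ hP0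
  · have hs' : s = False := eq_false hs
    subst hs'
    refine desArr_wallis h4 hP hQ ?_ b0
    intro p b
    rw [hm]
    simp only [false_and, or_false]

end Pool.Agent.H809_TA
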