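import Pool.Agent.H809_TA.Sol

/-!
The recursion: from `W` to `W × K`.
-/

set_option autoImplicit false

namespace Pool.Agent.H809_TA

open Function Module
open scoped LinearAlgebra.Projectivization

section

variable {K W : Type} [Field K] [AddCommGroup W] [Module K W]

/-- the functional `(w, t) ↦ t - φ w` -/
def upF (φ : Dual K W) : Dual K (W × K) := LinearMap.snd K W K - φ.comp (LinearMap.fst K W K)

/-- the functional `(w, t) ↦ φ w` -/
def veF (φ : Dual K W) : Dual K (W × K) := φ.comp (LinearMap.fst K W K)

theorem upF_apply (φ : Dual K W) (y : W × K) : upF φ y = y.2 - φ y.1 := rfl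
theorem veF_apply (φ : Dual K W) (y : W × K) : veF φ y = φ y.1 := rfl

theorem up_up {φ ψ : Dual K W} {k : K} (h : upF φ = k • upF ψ) : φ = ψ := by
  have h1 := congrArg (fun f : Dual K (W × K) => f (0, 1)) h
  simp only [LinearMap.smul_apply, upF_apply, map_zero, sub_zero, smul_eq_mul, mul_one] at h1
  ext w
  have h2 := congrArg (fun f : Dual K (W × K) => f (w, 0)) h
  simp only [LinearMap.smul_apply, upF_apply, smul_eq_mul] at h2
  rw [← h1] at h2
  linear_combination -h2

theorem up_ve {φ ψ : Dual K W} {k : K} (h : upF φ = k • veF ψ) : False := by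
  have h1 := congrArg (fun f : Dual K (W × K) => f (0, 1)) h
  simp only [LinearMap.smul_apply, upF_apply, veF_apply, map_zero, sub_zero, smul_zero] at h1
  exact one_ne_zero h1

theorem ve_up {φ ψ : Dual K W} {k : K} (h : veF φ = k • upF ψ) : φ = 0 := by
  have h1 := congrArg (fun f : Dual K (W × K) => f (0, 1)) h
  simp only [LinearMap.smul_apply, upF_apply, veF_apply, map_zero, sub_zero, smul_eq_mul,
    mul_one] at h1
  ext w
  have h2 := congrArg (fun f : Dual K (W × K) => f (w, 0)) h
  rw [← h1, zero_smul] at h2
  exact h2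

theorem ve_ve {φ ψ : Dual K W} {k : K} (h : veF φ = k • veF ψ) : φ = k • ψ := by
  ext w
  have h2 := congrArg (fun f : Dual K (W × K) => f (w, 0)) h
  simpa only [LinearMap.smul_apply, veF_apply] using h2

theorem exists_missing [Finite K] [FiniteDimensional K W] {M : W → W →ₗ[K] Dual K W}
    (hM : FamF K W M) : ∃ a : W → Dual K W, Injective a ∧ ∀ c v, v ≠ 0 → M v (c + v) ≠ a c := by
  classical
  have hfW : Finite W := Module.finite_of_finite K
  have hfr : finrank K W = finrank K (Dual K W) := Subspace.dual_finrank_eq.symm
  let e : W ≃ₗ[K] Dual K W := LinearEquiv.ofFinrankEq W (Dual K W) hfr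
  have hsurj : ∀ v, v ≠ 0 → Surjective (M v) := by
    intro v hv
    exact (LinearMap.injective_iff_surjective_of_finrank_eq_finrank hfr).1 (hM.inj v hv)
  have hex : ∀ c, ∃ φ : Dual K W, ∀ v, v ≠ 0 → M v (c + v) ≠ φ := by
    intro c
    by_contra hcon
    push Not at hcon
    choose g hg hg' using hcon
    have hinj : Injective (fun w : W => g (e w)) := by
      intro w w' h
      apply e.injective
      rw [← hg' (e w), ← hg' (e w')]
      have h : g (e w) = g (e w') := h
      rw [h]
    obtain ⟨w, hw⟩ := (Finite.injective_iff_surjective.1 hinj) 0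
    exact hg (e w) hw
  choose a ha using hex
  refine ⟨a, ?_, ha⟩
  intro c c' hcc
  by_contra hne
  -- for every `v ≠ 0` solve `M v (s v + v) = a c`
  have hs : ∀ v, v ≠ 0 → ∃ s, M v (s + v) = a c := by
    intro v hv
    obtain ⟨w, hw⟩ := hsurj v hv (a c)
    exact ⟨w - v, by rw [sub_add_cancel]; exact hw⟩
  choose! s hs using hs
  let s' : W → W := fun v => if v = 0 then c else s v
  have s'0 : s' 0 = c := if_pos rfl
  have s'n : ∀ v, v ≠ 0 → s' v = s v := fun v h => if_neg h
  have hsc : ∀ v, v ≠ 0 → s v ≠ c := by
    intro v hv h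
    have := hs v hv
    rw [h] at this
    exact ha c v hv this
  have hsc' : ∀ v, v ≠ 0 → s v ≠ c' := by
    intro v hv h
    have := hs v hv
    rw [h, hcc] at this
    exact ha c' v hv this
  have hinj : Injective s' := by
    intro v v' h
    by_cases hv : v = 0 <;> by_cases hv' : v' = 0
    · rw [hv, hv']
    · exfalso
      rw [hv, s'0, s'n v' hv'] at h
      exact hsc v' hv' h.symm
    · exfalso
      rw [hv', s'0, s'n v hv] at h
      exact hsc v hv h
    · rw [s'n v hv, s'n v' hv'] at h
      apply hM.sep (s v) v v' hv hv'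
      rw [hs v hv, h, hs v' hv']
  obtain ⟨v, hv⟩ := (Finite.injective_iff_surjective.1 hinj) c'
  by_cases h0 : v = 0
  · rw [h0, s'0] at hv
    exact hne hv
  · rw [s'n v h0] at hv
    exact hsc' v h0 hv

theorem sol_step [Finite K] [FiniteDimensional K W] (hP : Pl K) (hS : Sol K W) (hF : Fam K W) :
    Sol K (W × K) := by
  classical
  obtain ⟨P, hP⟩ := hP.toP
  obtain ⟨B, hB⟩ := hS
  obtain ⟨M, hM⟩ := hF
  obtain ⟨a, ainj, ha⟩ := exists_missing hM
  let kk : ℙ K W → K := fun w => M w.rep w.rep w.rep
  have kk0 : ∀ w, kk w ≠ 0 := fun w => hM.diag _ w.rep_nonzero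
  let c1 : ℙ K W → W → K := fun w c => M w.rep c w.rep / kk w
  have hc1 : ∀ w c, M w.rep c w.rep = kk w * c1 w c := by
    intro w c
    simp only [c1]
    rw [mul_div_cancel₀ _ (kk0 w)]
  let bb : ℙ K W → K → W × K → Option K := fun w s y =>
    P (some (s / kk w)) (c1 w y.1, y.2 / kk w)
  let F : ℙ K W → W × K → Option K → Dual K (W × K) := fun w y o =>
    match o with
    | none => veF (B w y.1)
    | some b => upF (M w.rep (y.1 + (b - c1 w y.1) • w.rep))
  let A : Option (ℙ K W × K) → W × K → Dual K (W × K) := fun x y =>
    match x with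
    | none => upF (a y.1)
    | some (w, s) => F w y (bb w s y)
  have A0 : ∀ y, A none y = upF (a y.1) := fun y => rfl
  have A1 : ∀ w s y, bb w s y = none → A (some (w, s)) y = veF (B w y.1) := by
    intro w s y h
    show F w y (bb w s y) = _
    rw [h]
  have A2 : ∀ w s y b, bb w s y = some b →
      A (some (w, s)) y = upF (M w.rep (y.1 + (b - c1 w y.1) • w.rep)) := by
    intro w s y b h
    show F w y (bb w s y) = _
    rw [h]
  -- the value `some (c1 w y.1)` is never taken
  have bne : ∀ w s y, bb w s y ≠ some (c1 w y.1) := by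
    intro w s y h
    have h1 := hP.spec (c1 w y.1) (y.2 / kk w)
    have h2 := hP.inj (c1 w y.1, y.2 / kk w) (h.trans h1.symm)
    exact absurd h2 (by simp)
  have Bne : ∀ w c, B w c ≠ 0 := by
    intro w c h
    have := hB.N w c
    rw [h] at this
    exact this rfl
  have hval : ∀ w s y b, bb w s y = some b →
      M w.rep (y.1 + (b - c1 w y.1) • w.rep) w.rep = kk w * b := by
    intro w s y b _
    rw [map_add, map_smul, LinearMap.add_apply, LinearMap.smul_apply, hc1, smul_eq_mul]
    show kk w * c1 w y.1 + (b - c1 w y.1) * kk w = _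
    ring
  refine sol_of_index (X := Option (ℙ K W × K)) (fun x => match x with
    | none => (0, 1)
    | some (w, s) => (w.rep, s)) ?_ A ?_ ?_ ?_
  · rintro ⟨w, t⟩ hv
    by_cases hw : w = 0
    · refine ⟨t, none, ?_⟩
      show (w, t) = t • ((0 : W), (1 : K))
      rw [hw, Prod.smul_mk, smul_zero, smul_eq_mul, mul_one]
    · obtain ⟨u, hu⟩ := Projectivization.exists_smul_eq_mk_rep K w hw
      refine ⟨(u⁻¹ : Kˣ), some (Projectivization.mk K w hw, u * t), ?_⟩
      show (w, t) = ((u⁻¹ : Kˣ) : K) • ((Projectivization.mk K w hw).rep, (u : K) * t)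
      rw [← hu, Units.smul_def, Prod.smul_mk, smul_smul, ← Units.val_mul, inv_mul_cancel,
        Units.val_one, one_smul, smul_eq_mul, ← mul_assoc, ← Units.val_mul, inv_mul_cancel,
        Units.val_one, one_mul]
  · rintro (_ | ⟨w, s⟩) y h
    · have h : A none y (0, 1) = 0 := h
      rw [A0, upF_apply] at h
      simp at h
    · have h : A (some (w, s)) y (w.rep, s) = 0 := h
      rcases hb : bb w s y with _ | b
      · rw [A1 w s y hb, veF_apply] at h
        exact hB.N w y.1 h
      · rw [A2 w s y b hb, upF_apply] at h
        have h : s - M w.rep (y.1 + (b - c1 w y.1) • w.rep) w.rep = 0 := h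
        rw [hval w s y b hb] at h
        apply hP.ne (some (s / kk w)) (c1 w y.1, y.2 / kk w)
        have h3 : bb w s y = some (s / kk w) := by
          rw [hb]
          congr 1
          rw [eq_div_iff (kk0 w)]
          linear_combination -h
        exact h3
  · rintro (_ | ⟨w, s⟩) (_ | ⟨w', s'⟩) y k h
    · rfl
    · exfalso
      rcases hb : bb w' s' y with _ | b
      · rw [A0, A1 w' s' y hb] at h
        exact up_ve h
      · rw [A0, A2 w' s' y b hb] at h
        have h2 := up_up h
        have hb0 : b - c1 w' y.1 ≠ 0 := by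
          intro h0
          apply bne w' s' y
          rw [hb, sub_eq_zero.1 h0]
        rw [← hM.smul _ w'.rep hb0] at h2
        exact ha y.1 _ (smul_ne_zero hb0 w'.rep_nonzero) h2.symm
    · exfalso
      rcases hb : bb w s y with _ | b
      · rw [A0, A1 w s y hb] at h
        exact Bne _ _ (ve_up h)
      · rw [A0, A2 w s y b hb] at h
        have h2 := up_up h
        have hb0 : b - c1 w y.1 ≠ 0 := by
          intro h0
          apply bne w s y
          rw [hb, sub_eq_zero.1 h0]
        rw [← hM.smul _ w.rep hb0] at h2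
        exact ha y.1 _ (smul_ne_zero hb0 w.rep_nonzero) h2
    · rcases hb : bb w s y with _ | b <;> rcases hb' : bb w' s' y with _ | b'
      · rw [A1 w s y hb, A1 w' s' y hb'] at h
        have hw := hB.C _ _ _ _ (ve_ve h)
        subst hw
        have h3 := hP.inj _ (hb.trans hb'.symm)
        have h4 : s / kk w = s' / kk w := Option.some_injective _ h3
        rw [(div_left_inj' (kk0 w)).1 h4]
      · exfalso
        rw [A1 w s y hb, A2 w' s' y b' hb'] at h
        exact Bne _ _ (ve_up h)
      · exfalso
        rw [A2 w s y b hb, A1 w' s' y hb'] at h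
        exact up_ve h
      · rw [A2 w s y b hb, A2 w' s' y b' hb'] at h
        have h2 := up_up h
        have hb0 : b - c1 w y.1 ≠ 0 := by
          intro h0
          apply bne w s y
          rw [hb, sub_eq_zero.1 h0]
        have hb0' : b' - c1 w' y.1 ≠ 0 := by
          intro h0
          apply bne w' s' y
          rw [hb', sub_eq_zero.1 h0]
        rw [← hM.smul _ w.rep hb0, ← hM.smul _ w'.rep hb0'] at h2
        have h3 := hM.sep _ _ _ (smul_ne_zero hb0 w.rep_nonzero)
          (smul_ne_zero hb0' w'.rep_nonzero) h2
        have hw : w = w' := by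
          rw [← w.mk_rep, ← w'.mk_rep, Projectivization.mk_eq_mk_iff']
          refine ⟨(b - c1 w y.1)⁻¹ * (b' - c1 w' y.1), ?_⟩
          rw [mul_smul, ← h3, smul_smul, inv_mul_cancel₀ hb0, one_smul]
        subst hw
        have h4 : b - c1 w y.1 = b' - c1 w y.1 := by
          by_contra hne
          have h5 : ((b - c1 w y.1) - (b' - c1 w y.1)) • w.rep = 0 := by
            rw [sub_smul, h3, sub_self]
          rcases smul_eq_zero.1 h5 with h6 | h6
          · exact hne (sub_eq_zero.1 h6)
          · exact w.rep_nonzero h6
        have h5 : b = b' := by linear_combination h4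
        rw [h5] at hb
        have h6 := hP.inj _ (hb.trans hb'.symm)
        have h7 : s / kk w = s' / kk w := Option.some_injective _ h6
        rw [(div_left_inj' (kk0 w)).1 h7]
  · rintro (_ | ⟨w, s⟩) ⟨c, t⟩ ⟨c', t'⟩ k h hd
    · rw [A0, A0] at h
      have h1 : c = c' := ainj (up_up h)
      subst h1
      rw [A0, upF_apply] at hd
      simp only [Prod.mk_sub_mk, sub_self, map_zero, sub_zero] at hd
      rw [sub_eq_zero.1 hd]
    · rcases hb : bb w s (c, t) with _ | b <;> rcases hb' : bb w s (c', t') with _ | b'
      · rw [A1 w s _ hb, A1 w s _ hb'] at h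
        rw [A1 w s _ hb, veF_apply] at hd
        have h1 := hB.R w c c' k (ve_ve h) hd
        subst h1
        have h2 := hP.inf _ _ _ hb hb' rfl
        rw [Prod.mk.injEq] at h2
        exact congrArg (Prod.mk c) ((div_left_inj' (kk0 w)).1 h2.2)
      · exfalso
        rw [A1 w s _ hb, A2 w s _ b' hb'] at h
        exact Bne _ _ (ve_up h)
      · exfalso
        rw [A2 w s _ b hb, A1 w s _ hb'] at h
        exact up_ve h
      · rw [A2 w s _ b hb, A2 w s _ b' hb'] at h
        have h2 := hM.inj _ w.rep_nonzero (up_up h)
        have h2 : c + (b - c1 w c) • w.rep = c' + (b' - c1 w c') • w.rep := h2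
        obtain ⟨μ, hμ⟩ : ∃ μ : K, c' = c + μ • w.rep := by
          refine ⟨(b - c1 w c) - (b' - c1 w c'), ?_⟩
          rw [sub_smul, ← add_sub_assoc, h2, add_sub_cancel_right]
        have h3 : c1 w c' = c1 w c + μ := by
          apply mul_left_cancel₀ (kk0 w)
          rw [← hc1, hμ, map_add, map_smul, LinearMap.add_apply, LinearMap.smul_apply, hc1,
            smul_eq_mul]
          show kk w * c1 w c + μ * kk w = _
          ring
        have h4 : b = b' := by
          have h5 : (b - b') • w.rep = 0 := by
            rw [h3, hμ] at h2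
            have : (b - c1 w c) • w.rep = μ • w.rep + (b' - (c1 w c + μ)) • w.rep := by
              rw [add_assoc] at h2
              exact add_left_cancel h2
            have e1 : (b - b') • w.rep = (b - c1 w c) • w.rep -
                (μ • w.rep + (b' - (c1 w c + μ)) • w.rep) := by
              rw [← add_smul, ← sub_smul]
              congr 1
              ring
            rw [e1, this, sub_self]
          rcases smul_eq_zero.1 h5 with h6 | h6
          · exact sub_eq_zero.1 h6
          · exact absurd h6 w.rep_nonzero
        subst h4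
        rw [A2 w s _ b hb, upF_apply] at hd
        have hd : (t - t') - M w.rep (c + (b - c1 w c) • w.rep) (c - c') = 0 := hd
        have h5 : c - c' = (-μ) • w.rep := by
          rw [hμ, neg_smul]
          abel
        have h6 : M w.rep (c + (b - c1 w c) • w.rep) w.rep = kk w * b := hval w s (c, t) b hb
        rw [h5, map_smul, h6, smul_eq_mul] at hd
        have h7 := hP.fin _ b _ _ hb hb' ?_
        · rw [Prod.mk.injEq] at h7
          have h8 : c1 w c = c1 w c' := h7.1
          have h9 : μ = 0 := by
            rw [h3] at h8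
            linear_combination -h8
          have h10 := (div_left_inj' (kk0 w)).1 h7.2
          have h10 : t = t' := h10
          rw [hμ, h9, zero_smul, add_zero, h10]
        · show t / kk w - b * c1 w c = t' / kk w - b * c1 w c'
          rw [h3]
          have := kk0 w
          field_simp
          linear_combination hd

end

end Pool.Agent.H809_TA
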