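import Pool.Agent.H809_TA.Sol

/-!
Orderings over the field with two elements: odd dimension, dimension four, and composition.
-/

set_option autoImplicit false

namespace Pool.Agent.H809_TA

open Function Module
open scoped LinearAlgebra.Projectivization

theorem cube_inj {L : Type} [Field L] [Finite L] {d : ℕ} (hd : Odd d) (hL : Nat.card L = 2 ^ d)
    (a b : L) (h : a ^ 3 = b ^ 3) : a = b := by
  have hu : Nat.card Lˣ = 2 ^ d - 1 := by rw [Nat.card_units, hL]
  have hcop : (Nat.card Lˣ).Coprime 3 := by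
    rw [hu]
    obtain ⟨k, rfl⟩ := hd
    have h4 : ∀ k : ℕ, 4 ^ k % 3 = 1 := by
      intro k
      induction k with
      | zero => rfl
      | succ k ih => rw [pow_succ]; omega
    have h4 := h4 k
    have h5 : 2 ^ (2 * k + 1) = 2 * 4 ^ k := by
      rw [pow_succ, pow_mul]
      ring
    rw [h5]
    generalize 4 ^ k = X at *
    rw [Nat.coprime_comm, Nat.Prime.coprime_iff_not_dvd Nat.prime_three]
    omega
  have hb := (Nat.Coprime.pow_left_bijective hcop).1
  by_cases ha : a = 0
  · subst ha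
    have : b ^ 3 = 0 := by rw [← h]; ring
    exact (pow_eq_zero_iff (by norm_num)).1 this |>.symm
  · by_cases hb0 : b = 0
    · subst hb0
      have : a ^ 3 = 0 := by rw [h]; ring
      exact (pow_eq_zero_iff (by norm_num)).1 this
    · have h1 : (Units.mk0 a ha) ^ 3 = (Units.mk0 b hb0) ^ 3 := by
        ext
        simpa using h
      have h2 := hb h1
      have h3 := congrArg (fun u : Lˣ => (u : L)) h2
      simpa using h3

theorem sol_two_odd (L : Type) [Field L] [Finite L] [Algebra (ZMod 2) L]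
    (hd : Odd (finrank (ZMod 2) L)) : Sol (ZMod 2) L := by
  classical
  have hcard : Nat.card L = 2 ^ finrank (ZMod 2) L := by
    rw [Module.natCard_eq_pow_finrank (K := ZMod 2) (V := L), Nat.card_zmod]
  have hc2 : CharP L 2 := charP_of_injective_algebraMap (algebraMap (ZMod 2) L).injective 2
  have h20 : (2 : L) = 0 := by
    have := CharP.cast_eq_zero L 2
    exact_mod_cast this
  have tr1 : Algebra.trace (ZMod 2) L 1 = 1 := by
    have := Algebra.trace_algebraMap (S := L) (1 : ZMod 2)
    rw [map_one] at this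
    rw [this]
    obtain ⟨k, hk⟩ := hd
    rw [hk, nsmul_eq_mul, mul_one]
    push_cast
    have : (2 : ZMod 2) = 0 := by decide
    rw [this]
    ring
  have trsq : ∀ u : L, Algebra.trace (ZMod 2) L (u ^ 2) = Algebra.trace (ZMod 2) L u := by
    intro u
    have := Algebra.trace_eq_of_algEquiv (FiniteField.frobeniusAlgEquivOfAlgebraic (ZMod 2) L) u
    rw [FiniteField.coe_frobeniusAlgEquivOfAlgebraic] at this
    simpa [ZMod.card] using this
  have nd : ∀ a : L, (∀ z : L, Algebra.trace (ZMod 2) L (a * z) = 0) → a = 0 :=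
    (traceForm_nondegenerate (ZMod 2) L).1
  let A : L → L → Dual (ZMod 2) L := fun x y =>
    (Algebra.trace (ZMod 2) L).comp
      (LinearMap.mulLeft (ZMod 2) (x⁻¹ * (1 + y / x + (y / x) ^ 2)))
  have hA : ∀ x y z, A x y z =
      Algebra.trace (ZMod 2) L (x⁻¹ * (1 + y / x + (y / x) ^ 2) * z) := fun x y z => rfl
  have hAx : ∀ x y, x ≠ 0 → A x y x = 1 := by
    intro x y hx
    rw [hA]
    have : x⁻¹ * (1 + y / x + (y / x) ^ 2) * x = 1 + y / x + (y / x) ^ 2 := by
      rw [mul_comm, mul_inv_cancel_left₀ hx]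
    rw [this, map_add, map_add, tr1, trsq, add_assoc, CharTwo.add_self_eq_zero, add_zero]
  have hk : ∀ x x' y y', x ≠ 0 → ∀ k : ZMod 2, A x y = k • A x' y' → A x y = A x' y' := by
    intro x x' y y' hx k h
    have hk : k = 0 ∨ k = 1 := by
      clear h
      revert k
      decide
    rcases hk with rfl | rfl
    · exfalso
      rw [zero_smul] at h
      have := hAx x y hx
      rw [h] at this
      exact one_ne_zero this.symm
    · rwa [one_smul] at h
  have heq : ∀ x x' y y', A x y = A x' y' →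
      x⁻¹ * (1 + y / x + (y / x) ^ 2) = x'⁻¹ * (1 + y' / x' + (y' / x') ^ 2) := by
    intro x x' y y' h
    apply sub_eq_zero.1
    apply nd
    intro z
    rw [sub_mul, map_sub, sub_eq_zero, ← hA, ← hA, h]
  refine sol_of_index (X := {x : L // x ≠ 0}) (fun x => x.1) ?_ (fun x y => A x.1 y) ?_ ?_ ?_
  · intro v hv
    exact ⟨1, ⟨v, hv⟩, by rw [one_smul]⟩
  · intro x y
    rw [hAx x.1 y x.2]
    exact one_ne_zero
  · rintro ⟨x, hx⟩ ⟨x', hx'⟩ y k h
    have h := heq _ _ _ _ (hk _ _ _ _ hx k h)
    simp only at h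
    have h3 : x⁻¹ = x'⁻¹ := by
      by_cases hy : y = 0
      · subst hy
        simpa using h
      · have h4 : (1 + y * x⁻¹) ^ 3 = (1 + y * x'⁻¹) ^ 3 := by
          rw [div_eq_mul_inv, div_eq_mul_inv] at h
          have e1 : ∀ w : L, (1 + y * w) ^ 3 = 1 + y * (w * (1 + y * w + (y * w) ^ 2)) := by
            intro w
            linear_combination (y * w + y ^ 2 * w ^ 2) * h20
          rw [e1, e1, h]
        have h5 := cube_inj hd hcard _ _ h4
        exact mul_left_cancel₀ hy (add_left_cancel h5)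
    exact Subtype.ext (inv_injective h3)
  · rintro ⟨x, hx⟩ y y' k h hd
    have h1 := heq _ _ _ _ (hk _ _ _ _ hx k h)
    simp only at h1 hd
    have h2 := mul_left_cancel₀ (inv_ne_zero hx) h1
    have h3 : (y / x - y' / x) * (y / x - y' / x + 1) = 0 := by
      linear_combination h2 + (y' / x * (y' / x) - y / x * (y' / x) - y' / x + y' / x) * h20
    rcases mul_eq_zero.1 h3 with h4 | h4
    · exact (div_left_inj' hx).1 (sub_eq_zero.1 h4)
    · exfalso
      have h5 : y - y' = x := by
        field_simp at h4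
        linear_combination h4 - x * h20
      rw [h5, hAx x y hx] at hd
      exact one_ne_zero hd

/-- Composition of orderings. -/
theorem sol_comp {K L V : Type} [Field K] [Field L] [Finite L] [Algebra K L] [AddCommGroup V]
    [Module K V] [Module L V] [IsScalarTower K L V] (h1 : Sol L V) (h2 : Sol K L) : Sol K V := by
  classical
  obtain ⟨A, hA⟩ := h1
  obtain ⟨B, hB⟩ := h2
  have Ane : ∀ x y, A x y ≠ 0 := by
    intro x y h
    have := hA.N x y
    rw [h] at this
    exact this rfl
  have Bne : ∀ x y, B x y ≠ 0 := by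
    intro x y h
    have := hB.N x y
    rw [h] at this
    exact this rfl
  -- canonical representatives
  let u : ℙ L V → V → Dual L V := fun x y => (Projectivization.mk L (A x y) (Ane x y)).rep
  have hu : ∀ x y, ∃ a : Lˣ, a • A x y = u x y := fun x y =>
    Projectivization.exists_smul_eq_mk_rep L (A x y) (Ane x y)
  have hu' : ∀ x y, ∃ a : L, a ≠ 0 ∧ u x y = a • A x y := by
    intro x y
    obtain ⟨a, ha⟩ := hu x y
    exact ⟨a, a.ne_zero, ha.symm⟩
  have ucan : ∀ x y x' y' (a : L), a ≠ 0 → u x y = a • u x' y' → u x y = u x' y' := by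
    intro x y x' y' a ha h
    obtain ⟨b, hb, hb'⟩ := hu' x y
    obtain ⟨b', hbb, hbb'⟩ := hu' x' y'
    have : Projectivization.mk L (A x y) (Ane x y) = Projectivization.mk L (A x' y') (Ane x' y') := by
      rw [Projectivization.mk_eq_mk_iff']
      refine ⟨b⁻¹ * (a * b'), ?_⟩
      rw [mul_smul, mul_smul, ← hbb', ← h, hb', smul_smul, inv_mul_cancel₀ hb, one_smul]
    show (Projectivization.mk L (A x y) (Ane x y)).rep = _
    rw [this]
  have une : ∀ x y, u x y ≠ 0 := by
    intro x y h
    obtain ⟨b, hb, hb'⟩ := hu' x y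
    rw [h] at hb'
    exact smul_ne_zero hb (Ane x y) hb'.symm
  have usurj : ∀ x y, Surjective (u x y) := by
    intro x y
    exact LinearMap.surjective (une x y)
  -- index set: nonzero vectors modulo nothing: use `ℙ K V`
  have xL : ∀ x : ℙ K V, x.rep ≠ 0 := fun x => x.rep_nonzero
  let X : ℙ K V → ℙ L V := fun x => Projectivization.mk L x.rep (xL x)
  have hX : ∀ x : ℙ K V, ∃ a : L, a ≠ 0 ∧ (X x).rep = a • x.rep := by
    intro x
    obtain ⟨a, ha⟩ := Projectivization.exists_smul_eq_mk_rep L x.rep (xL x)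
    exact ⟨a, a.ne_zero, ha.symm⟩
  have ux : ∀ (x : ℙ K V) y, u (X x) y x.rep ≠ 0 := by
    intro x y h
    obtain ⟨a, ha, ha'⟩ := hX x
    obtain ⟨b, hb, hb'⟩ := hu' (X x) y
    apply hA.N (X x) y
    rw [hb', LinearMap.smul_apply, smul_eq_mul] at h
    rw [ha', map_smul, smul_eq_mul]
    rcases mul_eq_zero.1 h with h | h
    · exact absurd h hb
    · rw [h, mul_zero]
  let Z : ℙ K V → V → ℙ K L := fun x y => Projectivization.mk K (u (X x) y x.rep) (ux x y)
  have hZ : ∀ x y, ∃ k : K, k ≠ 0 ∧ (Z x y).rep = k • u (X x) y x.rep := by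
    intro x y
    obtain ⟨a, ha⟩ := Projectivization.exists_smul_eq_mk_rep K (u (X x) y x.rep) (ux x y)
    exact ⟨a, a.ne_zero, ha.symm⟩
  let G : ℙ K V → V → Dual K V := fun x y =>
    (B (Z x y) (u (X x) y y)).comp ((u (X x) y).restrictScalars K)
  have hG : ∀ x y v, G x y v = B (Z x y) (u (X x) y y) (u (X x) y v) := fun x y v => rfl
  -- a composite functional determines the `L`-functional
  have ueq : ∀ x y x' y' (k : K), k ≠ 0 → G x y = k • G x' y' → u (X x) y = u (X x') y' := by
    intro x y x' y' k hk h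
    have hker : ∀ v, u (X x') y' v = 0 → u (X x) y v = 0 := by
      intro v hv
      by_contra hne
      apply Bne (Z x y) (u (X x) y y)
      apply LinearMap.ext
      intro l
      have h3 : G x y ((l / u (X x) y v) • v) = k • G x' y' ((l / u (X x) y v) • v) := by
        rw [h]; rfl
      have e1 : u (X x) y ((l / u (X x) y v) • v) = l := by
        rw [map_smul, smul_eq_mul, div_mul_cancel₀ _ hne]
      have e2 : u (X x') y' ((l / u (X x) y v) • v) = 0 := by
        rw [map_smul, hv, smul_zero]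
      rw [hG, hG, e1, e2, map_zero, smul_zero] at h3
      exact h3
    obtain ⟨v1, hv1⟩ := usurj (X x') y' 1
    have h5 : u (X x) y = (u (X x) y v1) • u (X x') y' := by
      apply LinearMap.ext
      intro v
      have h6 := hker (v - (u (X x') y' v) • v1) (by
        rw [map_sub, map_smul, hv1, smul_eq_mul, mul_one, sub_self])
      rw [map_sub, map_smul, smul_eq_mul, sub_eq_zero] at h6
      rw [LinearMap.smul_apply, smul_eq_mul, h6, mul_comm]
    refine ucan _ _ _ _ _ ?_ h5
    intro h0
    rw [h0, zero_smul] at h5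
    exact une _ _ h5
  have GN : ∀ x y, G x y x.rep ≠ 0 := by
    intro x y h
    obtain ⟨k, hk, hk'⟩ := hZ x y
    apply hB.N (Z x y) (u (X x) y y)
    rw [hk', map_smul, smul_eq_mul, ← hG, h, mul_zero]
  have Gk : ∀ x y x' y' (k : K), G x y = k • G x' y' → k ≠ 0 := by
    intro x y x' y' k h h0
    rw [h0, zero_smul] at h
    apply GN x y
    rw [h]
    rfl
  refine ⟨G, GN, ?_, ?_⟩
  · intro x x' y k h
    have hk := Gk _ _ _ _ _ h
    have hu1 := ueq _ _ _ _ _ hk h
    have hXX : X x = X x' := by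
      obtain ⟨a, ha, ha'⟩ := hu' (X x) y
      obtain ⟨b, hb, hb'⟩ := hu' (X x') y
      apply hA.C _ _ y (a⁻¹ * b)
      rw [mul_smul, ← hb', ← hu1, ha', smul_smul, inv_mul_cancel₀ ha, one_smul]
    have hB1 : B (Z x y) (u (X x) y y) = k • B (Z x' y) (u (X x) y y) := by
      apply LinearMap.ext
      intro l
      obtain ⟨v, hv⟩ := usurj (X x) y l
      have h3 : G x y v = k • G x' y v := by rw [h]; rfl
      rw [hG, hG, ← hu1, hv] at h3
      exact h3
    have hZZ := hB.C _ _ _ _ hB1
    obtain ⟨κ, hκ, hκ'⟩ := hZ x y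
    obtain ⟨κ1, hκ1, hκ1'⟩ := hZ x' y
    obtain ⟨a, ha, ha'⟩ := hX x
    obtain ⟨b, hb, hb'⟩ := hX x'
    have hl : x.rep = (a⁻¹ * b) • x'.rep := by
      rw [mul_smul, ← hb', ← hXX, ha', smul_smul, inv_mul_cancel₀ ha, one_smul]
    have h7 : κ • u (X x) y x.rep = κ1 • u (X x) y x'.rep := by
      rw [← hκ', hZZ, hκ1', hu1]
    have hx'0 : u (X x) y x'.rep ≠ 0 := by
      rw [hu1]
      exact ux x' y
    have h8 : (a⁻¹ * b) = algebraMap K L (κ⁻¹ * κ1) := by
      have h9 : u (X x) y x.rep = (a⁻¹ * b) * u (X x) y x'.rep := by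
        rw [← smul_eq_mul, ← map_smul, ← hl]
      rw [h9, Algebra.smul_def, Algebra.smul_def, ← mul_assoc] at h7
      have h10 := mul_right_cancel₀ hx'0 h7
      have hκL : algebraMap K L κ ≠ 0 := by
        rw [Ne, FaithfulSMul.algebraMap_eq_zero_iff K L]
        exact hκ
      rw [map_mul, map_inv₀, ← h10, inv_mul_cancel_left₀ hκL]
    rw [← x.mk_rep, ← x'.mk_rep, Projectivization.mk_eq_mk_iff']
    refine ⟨κ⁻¹ * κ1, ?_⟩
    rw [hl, h8, algebraMap_smul]
  · intro x y y' k h hd
    have hk := Gk _ _ _ _ _ h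
    have hu1 := ueq _ _ _ _ _ hk h
    have hZZ : Z x y = Z x y' := by
      show Projectivization.mk K _ _ = Projectivization.mk K _ _
      congr 1
      rw [hu1]
    have hB1 : B (Z x y) (u (X x) y y) = k • B (Z x y) (u (X x) y y') := by
      apply LinearMap.ext
      intro l
      obtain ⟨v, hv⟩ := usurj (X x) y l
      have h3 : G x y v = k • G x y' v := by rw [h]; rfl
      rw [hG, hG, ← hu1, ← hZZ, hv] at h3
      exact h3
    rw [hG, map_sub] at hd
    have h4 := hB.R _ _ _ _ hB1 hd
    obtain ⟨a, ha, ha'⟩ := hu' (X x) y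
    obtain ⟨b, hb, hb'⟩ := hu' (X x) y'
    apply hA.R (X x) y y' (a⁻¹ * b)
    · rw [mul_smul, ← hb', ← hu1, ha', smul_smul, inv_mul_cancel₀ ha, one_smul]
    · have h5 : u (X x) y (y - y') = 0 := by
        rw [map_sub, h4, sub_self]
      rw [ha', LinearMap.smul_apply, smul_eq_mul] at h5
      exact (mul_eq_zero.1 h5).resolve_left ha

end Pool.Agent.H809_TA
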